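import Pool.Agent.LK2.Defs

/-!
# LK2/First: the differential equation, simple zeros, the largest zero of `T_n^(k+1)`

* `ode`: `(1 - x²) T^(j+2) = (2j+1) x T^(j+1) - (n² - j²) T^(j)`; this is
  `Polynomial.Chebyshev.one_sub_X_sq_mul_iterate_derivative_T_eval` (push casts).
* `no_double`: if `|x| < 1`, `j < n`, `T^(j)(x) = 0` then `T^(j+1)(x) ≠ 0`.  Proof: if both vanish, the equation
  (`1 - x² > 0`) gives by induction `T^(i)(x) = 0` for all `i ≥ j`, in particular `T^(n)(x) = 0`, but `T^(n)` is a
  nonzero constant (`TJ_diag`, `TJ_nn` of LK1: use `TJ_diag` with the coefficient, or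
  `Polynomial.Chebyshev.leadingCoeff_T`).
* `splitsT`: `T_n^(j)` has `n - j` real zeros, `j ≤ n`: by `Polynomial.card_roots_le_derivative` and
  `Polynomial.Chebyshev.roots_T_real` (n roots, they are in the image of an injective map, so the card is `n`):
  `n - j ≤ card (roots (T^(j)))`; the degree of `T^(j)` is `n - j`.
* `roots_lt`: every zero of `T_n^(j)`, `j < n`, lies in `(-1, 1)`.  Proof: for `x ≥ 1` all derivatives are positive:
  `T^(i)(1) > 0` for `i ≤ n` (`TJ_val_one`: a product of positive factors), and by downward induction on `j ≤ n`: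
  `T^(n)` is a positive constant, `T^(j)(x) ≥ T^(j)(1) > 0` for `x ≥ 1` since its derivative is positive.  For
  `x ≤ -1` use the parity `T^(j)(-x) = (-1)^(n+j) T^(j)(x)` (`parity`).
* `parity`: from `T_n(-x) = (-1)^n T_n(x)` (Mathlib: `Polynomial.Chebyshev.T_eval_neg` or via the composition with
  `-X`), by differentiating: both sides have derivatives, induction on `j` with `TJ_hasDerivAt` and uniqueness of
  the derivative.
* `exists_first`: `k + 2 ≤ n`.  `P = T^(k+1)` has degree `n - k - 1 ≥ 1` and `n - k - 1` real roots, so it has a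
  root `r`; `-r` is also a root (parity), so there is a root in `[0, 1)`.  The set of roots in `[0,1)` is finite and
  nonempty: take the largest one, `x1`.  For `x > x1` there is no zero (roots are `< 1`), `T^(k+1)(1) > 0`, so by the
  intermediate value theorem `T^(k+1) > 0` on `(x1, ∞)`.
* `first_unique`: clear from `pos` and `zero`.
-/

open Set Polynomial
open Pool.LK1 (TJ)

namespace Pool.LK2

theorem ode (n j : ℕ) (x : ℝ) :
    (1 - x ^ 2) * TJ n (j + 2) x =
      (2 * (j : ℝ) + 1) * x * TJ n (j + 1) x - ((n : ℝ) ^ 2 - (j : ℝ) ^ 2) * TJ n j x := by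
  have h := Chebyshev.one_sub_X_sq_mul_iterate_derivative_T_eval (R := ℝ) (n : ℤ) j x
  rw [Int.cast_natCast] at h
  exact h

private theorem first_coeff (n : ℕ) :
    (Chebyshev.T ℝ (n : ℤ)).coeff n = 2 ^ (n - 1) := by
  have h := Chebyshev.leadingCoeff_T ℝ (n : ℤ)
  unfold leadingCoeff at h
  rw [Chebyshev.natDegree_T, Int.natAbs_natCast] at h
  exact h

theorem TJ_top_pos (n : ℕ) (hn : 1 ≤ n) (x : ℝ) : TJ n n x = 2 ^ (n - 1) * (n.factorial : ℝ) := by
  rw [Pool.LK1.TJ_diag, first_coeff]
  ring

theorem parity (n j : ℕ) (x : ℝ) : TJ n j (-x) = (-1) ^ (n + j) * TJ n j x := by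
  induction j generalizing x with
  | zero =>
    unfold Pool.LK1.TJ
    rw [Function.iterate_zero, id, Chebyshev.T_eval_neg, add_zero]
    congr 1
    exact Int.cast_negOnePow_natCast ℝ n
  | succ j ih =>
    have h1 : HasDerivAt (fun y => TJ n j (-y)) (-(TJ n (j + 1) (-x))) x := by
      have := (Pool.LK1.TJ_hasDerivAt n j (-x)).comp x (hasDerivAt_neg x)
      have e : TJ n (j + 1) (-x) * (-1) = -(TJ n (j + 1) (-x)) := by ring
      rw [e] at this
      exact this
    have h2 : HasDerivAt (fun y => (-1) ^ (n + j) * TJ n j y)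
        ((-1) ^ (n + j) * TJ n (j + 1) x) x := (Pool.LK1.TJ_hasDerivAt n j x).const_mul _
    have h3 : (fun y => TJ n j (-y)) = fun y => (-1) ^ (n + j) * TJ n j y := funext ih
    rw [h3] at h1
    have h4 := h1.unique h2
    have h5 : TJ n (j + 1) (-x) = -((-1) ^ (n + j) * TJ n (j + 1) x) := by linarith
    rw [h5, ← add_assoc, pow_succ]
    ring

theorem no_double (n j : ℕ) (hj : j < n) {x : ℝ} (hx : |x| < 1) (h : TJ n j x = 0) :
    TJ n (j + 1) x ≠ 0 := by
  intro h1
  have hx2 : (1 - x ^ 2) ≠ 0 := by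
    have : x ^ 2 < 1 := by
      rw [← sq_abs]
      nlinarith [abs_nonneg x]
    linarith
  have key : ∀ i : ℕ, TJ n (j + i) x = 0 ∧ TJ n (j + i + 1) x = 0 := by
    intro i
    induction i with
    | zero => exact ⟨h, h1⟩
    | succ i ih =>
      refine ⟨ih.2, ?_⟩
      have h2 := ode n (j + i) x
      rw [ih.1, ih.2, mul_zero, mul_zero, sub_zero] at h2
      exact (mul_eq_zero.1 h2).resolve_left hx2
  have h2 := (key (n - j)).1
  rw [Nat.add_sub_cancel' hj.le, TJ_top_pos n (by omega)] at h2
  have h3 : (0 : ℝ) < 2 ^ (n - 1) * (n.factorial : ℝ) := by positivity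
  exact h3.ne' h2

theorem TJ_pos_of_one_le (n j : ℕ) (hj : j ≤ n) {x : ℝ} (hx : 1 ≤ x) : 0 < TJ n j x := by
  obtain ⟨m, hm⟩ := Nat.exists_eq_add_of_le hj
  induction m generalizing j x with
  | zero =>
    have hjn : j = n := by omega
    subst hjn
    rcases Nat.eq_zero_or_pos j with h0 | h0
    · subst h0
      unfold Pool.LK1.TJ
      simp
    · rw [TJ_top_pos j h0]
      positivity
  | succ m ih =>
    have h1 : ∀ y, 1 ≤ y → 0 < TJ n (j + 1) y := fun y hy => ih (j + 1) (by omega) hy (by omega)
    have hmono : MonotoneOn (TJ n j) (Ici 1) := by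
      refine monotoneOn_of_deriv_nonneg (convex_Ici 1) ?_ ?_ ?_
      · exact fun y _ => (Pool.LK1.TJ_hasDerivAt n j y).continuousAt.continuousWithinAt
      · exact fun y _ => (Pool.LK1.TJ_hasDerivAt n j y).differentiableAt.differentiableWithinAt
      · intro y hy
        rw [interior_Ici] at hy
        rw [(Pool.LK1.TJ_hasDerivAt n j y).deriv]
        exact (h1 y (le_of_lt hy)).le
    have h2 : 0 < TJ n j 1 := by
      rw [Pool.LK1.TJ_val_one]
      refine Finset.prod_pos fun i hi => ?_
      have hi' : i < n := by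
        have := Finset.mem_range.1 hi
        omega
      have hir : (i : ℝ) < n := by exact_mod_cast hi'
      have hi0 : (0 : ℝ) ≤ i := Nat.cast_nonneg i
      have : 0 < (n : ℝ) ^ 2 - (i : ℝ) ^ 2 := by nlinarith
      positivity
    exact lt_of_lt_of_le h2 (hmono (mem_Ici.2 le_rfl) (mem_Ici.2 hx) hx)

theorem natDegreeT (n j : ℕ) (hj : j ≤ n) :
    (derivative^[j] (Chebyshev.T ℝ (n : ℤ))).natDegree = n - j := by
  apply le_antisymm
  · have h := natDegree_iterate_derivative (Chebyshev.T ℝ (n : ℤ)) j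
    rwa [Chebyshev.natDegree_T, Int.natAbs_natCast] at h
  · apply le_natDegree_of_ne_zero
    rw [coeff_iterate_derivative, Nat.sub_add_cancel hj, first_coeff, nsmul_eq_mul]
    have h1 : 0 < n.descFactorial j := Nat.descFactorial_pos.2 hj
    have h2 : (0 : ℝ) < (n.descFactorial j : ℝ) := by exact_mod_cast h1
    positivity

theorem card_rootsT (n j : ℕ) (hj : j ≤ n) :
    (derivative^[j] (Chebyshev.T ℝ (n : ℤ))).roots.card = n - j := by
  apply le_antisymm
  · rw [← natDegreeT n j hj]
    exact card_roots' _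
  · have h0 : (Chebyshev.T ℝ (n : ℤ)).roots.card = n := by
      rcases Nat.eq_zero_or_pos n with h | h
      · subst h
        simp
      · have hinj := (Finset.range n).nodup_map_iff_injOn.mp (Chebyshev.roots_T_real_nodup n)
        rw [Chebyshev.roots_T_real, Finset.card_val, Finset.card_image_of_injOn hinj,
          Finset.card_range]
    have key : ∀ i, n ≤ (derivative^[i] (Chebyshev.T ℝ (n : ℤ))).roots.card + i := by
      intro i
      induction i with
      | zero =>
        rw [Function.iterate_zero, id, h0]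
        omega
      | succ i ih =>
        have h1 := card_roots_le_derivative (derivative^[i] (Chebyshev.T ℝ (n : ℤ)))
        rw [Function.iterate_succ_apply']
        omega
    have := key j
    omega

theorem roots_lt (n j : ℕ) (hj : j < n) {x : ℝ} (h : TJ n j x = 0) : |x| < 1 := by
  by_contra hcon
  push Not at hcon
  rcases le_abs.1 hcon with h1 | h1
  · exact (TJ_pos_of_one_le n j hj.le h1).ne' h
  · have h2 := TJ_pos_of_one_le n j hj.le h1
    rw [parity, h, mul_zero] at h2
    exact lt_irrefl _ h2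

theorem exists_first (n k : ℕ) (h : k + 2 ≤ n) : ∃ x1, IsFirst n k x1 := by
  classical
  set P := derivative^[k + 1] (Chebyshev.T ℝ (n : ℤ)) with hP
  have hcard : P.roots.card = n - (k + 1) := card_rootsT n (k + 1) (by omega)
  have hP0 : P ≠ 0 := by
    intro h0
    rw [h0, roots_zero, Multiset.card_zero] at hcard
    omega
  have hroot : ∀ y, TJ n (k + 1) y = 0 ↔ y ∈ P.roots := by
    intro y
    rw [mem_roots hP0]
    rfl
  obtain ⟨r, hr⟩ : ∃ r, r ∈ P.roots := by
    apply Multiset.card_pos_iff_exists_mem.1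
    omega
  have hne : (P.roots.toFinset.filter (fun y => 0 ≤ y)).Nonempty := by
    rcases le_total 0 r with h0 | h0
    · exact ⟨r, by rw [Finset.mem_filter, Multiset.mem_toFinset]; exact ⟨hr, h0⟩⟩
    · refine ⟨-r, ?_⟩
      rw [Finset.mem_filter, Multiset.mem_toFinset, ← hroot]
      refine ⟨?_, by linarith⟩
      rw [parity, (hroot r).2 hr, mul_zero]
  obtain ⟨x1, hx1⟩ : ∃ x1, x1 = (P.roots.toFinset.filter (fun y => 0 ≤ y)).max' hne := ⟨_, rfl⟩
  have hmem := Finset.max'_mem _ hne
  rw [← hx1, Finset.mem_filter, Multiset.mem_toFinset, ← hroot] at hmem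
  refine ⟨x1, hmem.2, (abs_lt.1 (roots_lt n (k + 1) (by omega) hmem.1)).2, hmem.1, ?_⟩
  intro x hx
  by_contra hcon
  push Not at hcon
  have hb : 0 < TJ n (k + 1) (max x 1) := TJ_pos_of_one_le n (k + 1) (by omega) (le_max_right _ _)
  have hcont : ContinuousOn (TJ n (k + 1)) (Icc x (max x 1)) :=
    fun y _ => (Pool.LK1.TJ_hasDerivAt n (k + 1) y).continuousAt.continuousWithinAt
  obtain ⟨y, hy1, hy2⟩ := intermediate_value_Icc (le_max_left x 1) hcont ⟨hcon, hb.le⟩
  have h3 : y ∈ P.roots.toFinset.filter (fun y => 0 ≤ y) := by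
    rw [Finset.mem_filter, Multiset.mem_toFinset, ← hroot]
    exact ⟨hy2, by linarith [hy1.1, hmem.2]⟩
  have h4 := Finset.le_max' _ y h3
  rw [← hx1] at h4
  linarith [hy1.1]

theorem first_unique {n k : ℕ} {x y : ℝ} (hx : IsFirst n k x) (hy : IsFirst n k y) : x = y := by
  rcases lt_trichotomy x y with h | h | h
  · exact absurd hy.zero (hx.pos y h).ne'
  · exact h
  · exact absurd hx.zero (hy.pos x h).ne'

end Pool.LK2
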