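import Pool.Agent.LK2.Phi

/-!
# LK2/Bok: `Bok m k` (the bound in the polynomial range) from `exp(16/5) Phi < 1`

`Bok m k` (`n = m + 1`): every critical value `F_k(x)`, `F_{k+1}(x) = 0`, `0 ≤ x ≤ x1`, of the class
`InF m σ_n (-1) 1` is smaller than `T_{n-1}^(k)(1) = TJ m k 1`.

`bok_of`: `6 ≤ k`, `k + 2 ≤ m`; if for the (unique) `x1` there are `S, K` with `0 < S ≤ 1 - x1²`, `0 ≤ K`,
`(5k)² (n²-k²) ≤ K² S N0²` and `exp(4/5) (1+K) |T_n^(k)(x1)| < TJ m k 1`, then `Bok m k` (`cbd`).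

`bok_of_phi`: `6 ≤ k`, `k + 2 ≤ m`, `exp(16/5) Phi n k < 1`.  Then `Bok m k`.  Proof: `S = Sq n k` (`loc_S`),
`K = √(Rf n k)`: `K² S N0² = 25 k² (n²-k²)`.  `(1+K)² ≤ 2 (1+K²)`, so with `M = |T_n^(k)(x1)|`, `th_bound`:
`(exp(4/5)(1+K) M)⁴ ≤ exp(16/5) 4 (1+Rf)² Th · T_n^(k)(1)⁴`, and `TJ_pred_one`:
`(TJ m k 1)⁴ = T_n^(k)(1)⁴ ((n-1)(n-k)/(n(n+k-1)))⁴`.  So the quotient of the fourth powers is
`≤ exp(16/5) Phi n k < 1`.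

`bok_of_phi_le`: `exp(16/5) Phi n0 k < 1`, `k + 2 ≤ n0 ≤ n` gives `Bok (n-1) k` (`phi_anti`).
`exp_le`: `exp(4/5) ≤ 2.2256`, because `exp(4/5)^5 = exp(1)^4 ≤ 2.7182818286^4 ≤ 2.2256^5`
(`Real.exp_one_lt_d9`).  Hence `exp(16/5) ≤ 2.2256^4 ≤ 24.5352`.
-/

open Set
open Pool.LK1 (TJ InF)

namespace Pool.LK2

def Bok (m k : ℕ) : Prop :=
  ∀ F : ℕ → ℝ → ℝ, InF m (2 ^ m * ((m + 1).factorial : ℝ)) (-1) 1 F → ∀ x x1 : ℝ, IsFirst (m + 1) k x1 →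
    0 ≤ x → x ≤ x1 → F (k + 1) x = 0 → |F k x| < TJ m k 1

theorem exp_le : Real.exp (4 / 5) ≤ 2.2256 := by
  have h1 : Real.exp (4 / 5) ^ 5 = Real.exp 1 ^ 4 := by
    rw [← Real.exp_nat_mul, ← Real.exp_nat_mul]
    congr 1
    norm_num
  have h2 : Real.exp 1 ^ 4 ≤ (2.7182818286 : ℝ) ^ 4 :=
    pow_le_pow_left₀ (Real.exp_pos 1).le Real.exp_one_lt_d9.le 4
  have h3 : (2.7182818286 : ℝ) ^ 4 ≤ 2.2256 ^ 5 := by norm_num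
  have h4 : Real.exp (4 / 5) ^ 5 ≤ 2.2256 ^ 5 := by
    rw [h1]
    exact h2.trans h3
  exact le_of_pow_le_pow_left₀ (by norm_num) (by norm_num) h4

theorem exp_le4 : Real.exp (16 / 5) ≤ 24.5352 := by
  have h1 : Real.exp (16 / 5) = Real.exp (4 / 5) ^ 4 := by
    rw [← Real.exp_nat_mul]
    congr 1
    norm_num
  rw [h1]
  have h2 : Real.exp (4 / 5) ^ 4 ≤ (2.2256 : ℝ) ^ 4 :=
    pow_le_pow_left₀ (Real.exp_pos _).le exp_le 4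
  exact h2.trans (by norm_num)

private theorem Bok_exp4 : Real.exp (4 / 5) ^ 4 ≤ 24.5352 := by
  have h1 : Real.exp (16 / 5) = Real.exp (4 / 5) ^ 4 := by
    rw [← Real.exp_nat_mul]
    congr 1
    norm_num
  rw [← h1]
  exact exp_le4

theorem bok_of (m k : ℕ) (hk : 6 ≤ k) (hkm : k + 2 ≤ m) (S K : ℝ) (hS0 : 0 < S) (hK0 : 0 ≤ K)
    (hS : ∀ x1, IsFirst (m + 1) k x1 → S ≤ 1 - x1 ^ 2)
    (hK : (5 * (k : ℝ)) ^ 2 * (((m : ℝ) + 1) ^ 2 - k ^ 2) ≤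
      K ^ 2 * S * (((m : ℝ) + 1) ^ 2 - ((k : ℝ) + 1) ^ 2) ^ 2)
    (hM : ∀ x1, IsFirst (m + 1) k x1 →
      Real.exp (4 / 5) * (1 + K) * |TJ (m + 1) k x1| < TJ m k 1) : Bok m k := by
  intro F hF x x1 hx1 hx0 hxx hF0
  exact (cbd m k hk hkm hF hx1 hx0 hxx hF0 hS0 (hS x1 hx1) hK0 hK).trans_lt (hM x1 hx1)

private theorem Bok_dfo_pos (k : ℕ) : 0 < dfo k := by
  unfold dfo
  exact Finset.prod_pos fun j _ => by positivity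

private theorem Bok_N0 {m k : ℕ} (hkm : k + 2 ≤ m) : 0 < ((m : ℝ) + 1) ^ 2 - ((k : ℝ) + 1) ^ 2 := by
  have h1 : (k : ℝ) + 2 ≤ m := by exact_mod_cast hkm
  have h2 : (0 : ℝ) ≤ k := Nat.cast_nonneg k
  nlinarith

/-- the same with the bound of `mbd_gen`, all data rational: `n = m + 1` -/
theorem bok_of_num (m k : ℕ) (hk : 6 ≤ k) (hkm : k + 2 ≤ m) (S K : ℝ) (hS0 : 0 < S) (hK0 : 0 ≤ K)
    (hS : ∀ x1, IsFirst (m + 1) k x1 → S ≤ 1 - x1 ^ 2)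
    (hK : (5 * (k : ℝ)) ^ 2 * (((m : ℝ) + 1) ^ 2 - k ^ 2) ≤
      K ^ 2 * S * (((m : ℝ) + 1) ^ 2 - ((k : ℝ) + 1) ^ 2) ^ 2)
    (hM : 24.5352 * (1 + K) ^ 4 * (((m : ℝ) + 1) * Pi2 (m + 1) k) ^ 2 * dfo k ^ 4 <
      Pi2 m k ^ 4 * S ^ (2 * k) * (((m : ℝ) + 1) ^ 2 - ((k : ℝ) + 1) ^ 2)) : Bok m k := by
  refine bok_of m k hk hkm S K hS0 hK0 hS hK fun x1 hx1 => ?_
  have hN := Bok_N0 hkm
  have hb := mbd_gen (m + 1) k (by omega) (by omega) hx1 hS0.le (hS x1 hx1)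
  push_cast at hb
  have hTm : 0 < TJ m k 1 := TJ_pos_of_one_le m k (by omega) le_rfl
  have hone := TJ_one_eq m k
  have hd := Bok_dfo_pos k
  rw [← hone] at hM
  refine lt_of_pow_lt_pow_left₀ 4 hTm.le ?_
  have hP : 0 < dfo k ^ 4 * S ^ (2 * k) * (((m : ℝ) + 1) ^ 2 - ((k : ℝ) + 1) ^ 2) := by positivity
  refine lt_of_mul_lt_mul_right (a := dfo k ^ 4 * S ^ (2 * k) *
    (((m : ℝ) + 1) ^ 2 - ((k : ℝ) + 1) ^ 2)) ?_ hP.le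
  have e1 : (Real.exp (4 / 5) * (1 + K) * |TJ (m + 1) k x1|) ^ 4 =
      Real.exp (4 / 5) ^ 4 * ((1 + K) ^ 4 * TJ (m + 1) k x1 ^ 4) := by
    have : |TJ (m + 1) k x1| ^ 4 = TJ (m + 1) k x1 ^ 4 := by
      have h2 : |TJ (m + 1) k x1| ^ 4 = (|TJ (m + 1) k x1| ^ 2) ^ 2 := by ring
      rw [h2, sq_abs]
      ring
    rw [mul_pow, mul_pow, this]
    ring
  rw [e1]
  have h4 : 0 ≤ (1 + K) ^ 4 * dfo k ^ 4 := by positivity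
  calc Real.exp (4 / 5) ^ 4 * ((1 + K) ^ 4 * TJ (m + 1) k x1 ^ 4) * (dfo k ^ 4 * S ^ (2 * k) *
        (((m : ℝ) + 1) ^ 2 - ((k : ℝ) + 1) ^ 2))
      = Real.exp (4 / 5) ^ 4 * ((1 + K) ^ 4 * dfo k ^ 4 * (TJ (m + 1) k x1 ^ 4 * S ^ (2 * k) *
        (((m : ℝ) + 1) ^ 2 - ((k : ℝ) + 1) ^ 2))) := by ring
    _ ≤ 24.5352 * ((1 + K) ^ 4 * dfo k ^ 4 * (((m : ℝ) + 1) * Pi2 (m + 1) k) ^ 2) := by
        refine mul_le_mul Bok_exp4 (mul_le_mul_of_nonneg_left hb h4) ?_ (by norm_num)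
        refine mul_nonneg h4 (mul_nonneg (mul_nonneg ?_ (pow_nonneg hS0.le _)) hN.le)
        exact Even.pow_nonneg (by decide) _
    _ = 24.5352 * (1 + K) ^ 4 * (((m : ℝ) + 1) * Pi2 (m + 1) k) ^ 2 * dfo k ^ 4 := by ring
    _ < (TJ m k 1 * dfo k) ^ 4 * S ^ (2 * k) * (((m : ℝ) + 1) ^ 2 - ((k : ℝ) + 1) ^ 2) := hM
    _ = TJ m k 1 ^ 4 * (dfo k ^ 4 * S ^ (2 * k) *
        (((m : ℝ) + 1) ^ 2 - ((k : ℝ) + 1) ^ 2)) := by ring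

theorem bok_of_phi (m k : ℕ) (hk : 6 ≤ k) (hkm : k + 2 ≤ m) (h : 24.5352 * Phi (m + 1) k < 1) : Bok m k := by
  have hN := Bok_N0 hkm
  have hkm' : (k : ℝ) + 2 ≤ m := by exact_mod_cast hkm
  have hk0 : (6 : ℝ) ≤ k := by exact_mod_cast hk
  have hSq : 0 < Sq (m + 1) k := by
    unfold Sq
    positivity
  have hR := rf_pos (m + 1) k (by omega) (by omega)
  have hKK : √(Rf (m + 1) k) ^ 2 = Rf (m + 1) k := Real.sq_sqrt hR.le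
  refine bok_of m k hk hkm (Sq (m + 1) k) (√(Rf (m + 1) k)) hSq (Real.sqrt_nonneg _)
    (fun x1 hx1 => loc_S (m + 1) k (by omega) hx1) ?_ ?_
  · rw [hKK]
    have e : Rf (m + 1) k * Sq (m + 1) k * (((m : ℝ) + 1) ^ 2 - ((k : ℝ) + 1) ^ 2) ^ 2 =
        (5 * (k : ℝ)) ^ 2 * (((m : ℝ) + 1) ^ 2 - k ^ 2) := by
      unfold Rf
      push_cast
      have h1 : Sq (m + 1) k ≠ 0 := hSq.ne'
      have h2 : ((m : ℝ) + 1) ^ 2 - ((k : ℝ) + 1) ^ 2 ≠ 0 := hN.ne'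
      generalize Sq (m + 1) k = s at *
      generalize ((m : ℝ) + 1) ^ 2 - ((k : ℝ) + 1) ^ 2 = N at *
      field_simp
      ring
    exact e.ge
  · intro x1 hx1
    have hTm : 0 < TJ m k 1 := TJ_pos_of_one_le m k (by omega) le_rfl
    have hTh := th_pos (m + 1) k (by omega)
    have hb := th_bound (m + 1) k (by omega) (by omega) hx1
    have hp := TJ_pred_one m k (by omega)
    refine lt_of_pow_lt_pow_left₀ 4 hTm.le ?_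
    have e1 : (Real.exp (4 / 5) * (1 + √(Rf (m + 1) k)) * |TJ (m + 1) k x1|) ^ 4 =
        Real.exp (4 / 5) ^ 4 * ((1 + √(Rf (m + 1) k)) ^ 4 * TJ (m + 1) k x1 ^ 4) := by
      have : |TJ (m + 1) k x1| ^ 4 = TJ (m + 1) k x1 ^ 4 := by
        have h2 : |TJ (m + 1) k x1| ^ 4 = (|TJ (m + 1) k x1| ^ 2) ^ 2 := by ring
        rw [h2, sq_abs]
        ring
      rw [mul_pow, mul_pow, this]
      ring
    rw [e1]
    have hK4 : (1 + √(Rf (m + 1) k)) ^ 4 ≤ 4 * (1 + Rf (m + 1) k) ^ 2 := by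
      have h2 : (1 + √(Rf (m + 1) k)) ^ 2 ≤ 2 * (1 + Rf (m + 1) k) := by
        nlinarith [sq_nonneg (1 - √(Rf (m + 1) k))]
      have h3 : 0 ≤ (1 + √(Rf (m + 1) k)) ^ 2 := sq_nonneg _
      calc (1 + √(Rf (m + 1) k)) ^ 4 = ((1 + √(Rf (m + 1) k)) ^ 2) ^ 2 := by ring
        _ ≤ (2 * (1 + Rf (m + 1) k)) ^ 2 := pow_le_pow_left₀ h3 h2 2
        _ = 4 * (1 + Rf (m + 1) k) ^ 2 := by ring
    have hm0 : (0 : ℝ) < m := by linarith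
    have hmk : (0 : ℝ) < (m : ℝ) + 1 - k := by linarith
    have e2 : TJ (m + 1) k 1 = TJ m k 1 *
        (((m : ℝ) + 1) * ((m : ℝ) + k) / (((m : ℝ) + 1 - k) * m)) := by
      field_simp
      linarith [hp]
    have hPhi : Phi (m + 1) k = 4 * (1 + Rf (m + 1) k) ^ 2 * Th (m + 1) k *
        (((m : ℝ) + 1) * ((m : ℝ) + k) / (((m : ℝ) + 1 - k) * m)) ^ 4 := by
      unfold Phi
      push_cast
      have a1 : (m : ℝ) + 1 + k - 1 = m + k := by ring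
      have a2 : (m : ℝ) + 1 - 1 = m := by ring
      rw [a1, a2]
    have h5 : 0 ≤ TJ (m + 1) k x1 ^ 4 := Even.pow_nonneg (by decide) _
    calc Real.exp (4 / 5) ^ 4 * ((1 + √(Rf (m + 1) k)) ^ 4 * TJ (m + 1) k x1 ^ 4)
        ≤ 24.5352 * ((4 * (1 + Rf (m + 1) k) ^ 2) * (Th (m + 1) k * TJ (m + 1) k 1 ^ 4)) := by
          refine mul_le_mul Bok_exp4 (mul_le_mul hK4 hb h5 (by positivity)) (by positivity) (by norm_num)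
      _ = 24.5352 * Phi (m + 1) k * TJ m k 1 ^ 4 := by
          rw [hPhi, e2]
          ring
      _ < 1 * TJ m k 1 ^ 4 := mul_lt_mul_of_pos_right h (by positivity)
      _ = TJ m k 1 ^ 4 := one_mul _

theorem bok_of_phi_le {n0 m k : ℕ} (hk : 6 ≤ k) (hk0 : k + 3 ≤ n0) (hn : n0 ≤ m + 1)
    (h : 24.5352 * Phi n0 k < 1) : Bok m k := by
  refine bok_of_phi m k hk (by omega) ?_
  have h1 := phi_anti (n := n0) (n' := m + 1) (k := k) (by omega) (by omega) hn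
  linarith [mul_le_mul_of_nonneg_left h1 (by norm_num : (0 : ℝ) ≤ 24.5352)]

end Pool.LK2
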