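import Pool.Agent.LK2.Phi

/-!
# LK2/S1: the condition `S1c m k` (`n = m + 1`): `q(T_m^(k)) (1 + x1)^k < 1`, `x1` the largest zero of `T_{m+1}^(k+1)`

`Sp n k`: the bound of `loc` with the exact degree factor,
`A4 = (2k+3)(4(n-k-2)(2k+5) - 3(n-k-3)(2k+3))`, `Sp = A4/(A4 + 4(n-k-2)²(n+k+2))`.
`loc_Sp`: `Sp n k ≤ 1 - x1²` for `k + 2 ≤ n`: for `k + 3 ≤ n` this is `loc` (`A4 > 0`); for `n = k + 2`: `Sp = 1` and
`x1 = 0` (`T^(k+1)` is odd of degree one; see `loc_S`, `Sq (k+2) k = 1` gives `x1² ≤ 0`).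

`s1_of_num`: `S ≤ 1 - y1²` for the largest zero `y1` of `T_m^(k+1)`, `x1 ≤ X`, and
`m² dfo⁴ (1+X)^(4k) < Pi2 m k² S^(2k) (m²-(k+1)²)`.  Then `S1c m k`.  Proof: `mbd_gen`:
`|T_m^(k)(y1)|⁴ S^(2k) N0 ≤ (m Pi2)²`, `T_m^(k)(1) = Pi2/dfo` (`TJ_one_eq`), so the fourth power of
`|T_m^(k)(y1)| (1+x1)^k / T_m^(k)(1)` is at most `(m Pi2)² (1+X)^(4k) dfo⁴/(S^(2k) N0 Pi2⁴) < 1`.

`s1_of_th`: `16^k Th m0 k < 1`, `m0 ≤ m` gives `S1c m k` (`x1 < 1`, `th_bound`, `th_anti`).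
-/

open Set
open Pool.LK1 (TJ InF)

namespace Pool.LK2

def S1c (m k : ℕ) : Prop :=
  ∀ x1 y1 : ℝ, IsFirst (m + 1) k x1 → IsFirst m k y1 → |TJ m k y1| * (1 + x1) ^ k < TJ m k 1

noncomputable def Sp (n k : ℕ) : ℝ :=
  ((2 * (k : ℝ) + 3) * (4 * ((n : ℝ) - k - 2) * (2 * (k : ℝ) + 5) - 3 * ((n : ℝ) - k - 3) * (2 * (k : ℝ) + 3))) /
    ((2 * (k : ℝ) + 3) * (4 * ((n : ℝ) - k - 2) * (2 * (k : ℝ) + 5) - 3 * ((n : ℝ) - k - 3) * (2 * (k : ℝ) + 3))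
      + 4 * ((n : ℝ) - k - 2) ^ 2 * ((n : ℝ) + k + 2))

private theorem S1_dfo_pos (k : ℕ) : 0 < dfo k := by
  unfold dfo
  exact Finset.prod_pos fun j _ => by positivity

private theorem S1_fin {m k : ℕ} (hkm : k + 2 ≤ m) {x1 y1 C : ℝ} (hx0 : 0 ≤ x1)
    (h : TJ m k y1 ^ 4 * (1 + x1) ^ (4 * k) ≤ C * TJ m k 1 ^ 4) (hC : C < 1) :
    |TJ m k y1| * (1 + x1) ^ k < TJ m k 1 := by
  have hT : 0 < TJ m k 1 := TJ_pos_of_one_le m k (by omega) le_rfl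
  have h1 : (|TJ m k y1| * (1 + x1) ^ k) ^ 4 < TJ m k 1 ^ 4 := by
    have e : (|TJ m k y1| * (1 + x1) ^ k) ^ 4 = TJ m k y1 ^ 4 * (1 + x1) ^ (4 * k) := by
      have e1 : |TJ m k y1| ^ 4 = TJ m k y1 ^ 4 := by
        rw [← abs_pow, abs_of_nonneg (by positivity)]
      rw [mul_pow, e1, ← pow_mul, mul_comm k 4]
    rw [e]
    have h2 : C * TJ m k 1 ^ 4 < 1 * TJ m k 1 ^ 4 := mul_lt_mul_of_pos_right hC (by positivity)
    linarith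
  exact lt_of_pow_lt_pow_left₀ 4 hT.le h1

theorem loc_Sp (n k : ℕ) (h : k + 2 ≤ n) {x1 : ℝ} (hx : IsFirst n k x1) : Sp n k ≤ 1 - x1 ^ 2 := by
  unfold Sp
  have hk : (0 : ℝ) ≤ k := Nat.cast_nonneg k
  rcases h.eq_or_lt with h0 | h0
  · have hn : (n : ℝ) = k + 2 := by
      rw [← h0]
      push_cast
      ring
    have h1 := loc_S n k h hx
    have h2 : Sq n k = 1 := by
      unfold Sq
      rw [hn, div_eq_one_iff_eq (by positivity)]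
      ring
    rw [h2] at h1
    refine le_trans (le_of_eq ?_) h1
    rw [hn]
    have h3 : (0 : ℝ) < 3 * (2 * (k : ℝ) + 3) ^ 2 := by positivity
    have e1 : (2 * (k : ℝ) + 3) * (4 * ((k : ℝ) + 2 - k - 2) * (2 * (k : ℝ) + 5) -
        3 * ((k : ℝ) + 2 - k - 3) * (2 * (k : ℝ) + 3)) = 3 * (2 * (k : ℝ) + 3) ^ 2 := by ring
    have e2 : 4 * ((k : ℝ) + 2 - k - 2) ^ 2 * ((k : ℝ) + 2 + k + 2) = 0 := by ring
    rw [e1, e2, add_zero, div_self h3.ne']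
  · have hl := loc n k (by omega) hx
    have hn : (k : ℝ) + 3 ≤ n := by exact_mod_cast h0
    obtain ⟨A, hA⟩ : ∃ A : ℝ, A = (2 * (k : ℝ) + 3) * (4 * ((n : ℝ) - k - 2) * (2 * (k : ℝ) + 5)
        - 3 * ((n : ℝ) - k - 3) * (2 * (k : ℝ) + 3)) := ⟨_, rfl⟩
    obtain ⟨B, hB⟩ : ∃ B : ℝ, B = 4 * ((n : ℝ) - k - 2) ^ 2 * ((n : ℝ) + k + 2) := ⟨_, rfl⟩
    have hq : 0 ≤ (n : ℝ) - k - 3 := by linarith
    have hApos : 0 < A := by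
      rw [hA]
      apply mul_pos (by positivity)
      nlinarith [mul_nonneg hq hk]
    have hBpos : 0 < B := by
      rw [hB]
      have : 0 < (n : ℝ) - k - 2 := by linarith
      positivity
    rw [← hA, ← hB] at hl ⊢
    rw [div_le_iff₀ (by positivity)]
    linarith

theorem s1_of_num (m k : ℕ) (hk : 1 ≤ k) (hkm : k + 2 ≤ m) (S X : ℝ) (hS0 : 0 < S) (hX0 : 0 ≤ X)
    (hS : S ≤ Sp m k) (hX : 1 - Sp (m + 1) k ≤ X ^ 2)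
    (hnum : (m : ℝ) ^ 2 * dfo k ^ 4 * (1 + X) ^ (4 * k) <
      Pi2 m k ^ 2 * S ^ (2 * k) * ((m : ℝ) ^ 2 - ((k : ℝ) + 1) ^ 2)) : S1c m k := by
  intro x1 y1 hx hy
  have hk0 : (0 : ℝ) ≤ k := Nat.cast_nonneg k
  have hSy : S ≤ 1 - y1 ^ 2 := hS.trans (loc_Sp m k hkm hy)
  have h1 := mbd_gen m k hk hkm hy hS0.le hSy
  have hxX : x1 ≤ X := by
    have h2 := loc_Sp (m + 1) k (by omega) hx
    exact le_of_sq_le_sq (by linarith) hX0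
  have hN : 0 < (m : ℝ) ^ 2 - ((k : ℝ) + 1) ^ 2 := by
    have h3 : (k : ℝ) + 2 ≤ m := by exact_mod_cast hkm
    nlinarith
  have hd := S1_dfo_pos k
  have hT : 0 < TJ m k 1 := TJ_pos_of_one_le m k (by omega) le_rfl
  have hTP := TJ_one_eq m k
  have hP : 0 < Pi2 m k := by
    rw [← hTP]
    positivity
  have hSN : 0 < S ^ (2 * k) * ((m : ℝ) ^ 2 - ((k : ℝ) + 1) ^ 2) := by positivity
  obtain ⟨W, hW⟩ : ∃ W : ℝ, W = S ^ (2 * k) * ((m : ℝ) ^ 2 - ((k : ℝ) + 1) ^ 2) := ⟨_, rfl⟩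
  rw [← hW] at hSN
  have h1' : TJ m k y1 ^ 4 * W ≤ (m * Pi2 m k) ^ 2 := by
    rw [hW]
    linarith
  have hnum' : (m : ℝ) ^ 2 * dfo k ^ 4 * (1 + X) ^ (4 * k) < Pi2 m k ^ 2 * W := by
    rw [hW]
    linarith
  have hXx : (1 + x1) ^ (4 * k) ≤ (1 + X) ^ (4 * k) :=
    pow_le_pow_left₀ (by linarith [hx.nonneg]) (by linarith) _
  refine S1_fin (C := (m : ℝ) ^ 2 * dfo k ^ 4 * (1 + X) ^ (4 * k) / (Pi2 m k ^ 2 * W)) hkm hx.nonneg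
    ?_ ?_
  · rw [div_mul_eq_mul_div, le_div_iff₀ (by positivity)]
    have e1 : (m : ℝ) ^ 2 * dfo k ^ 4 * (1 + X) ^ (4 * k) * TJ m k 1 ^ 4 =
        (m * Pi2 m k) ^ 2 * (Pi2 m k ^ 2 * (1 + X) ^ (4 * k)) := by
      rw [← hTP]
      ring
    have e2 : TJ m k y1 ^ 4 * (1 + x1) ^ (4 * k) * (Pi2 m k ^ 2 * W) =
        (TJ m k y1 ^ 4 * W) * (Pi2 m k ^ 2 * (1 + x1) ^ (4 * k)) := by ring
    rw [e1, e2]
    have hx1 : 0 ≤ 1 + x1 := by linarith [hx.nonneg]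
    apply mul_le_mul h1' _ (by positivity) (by positivity)
    exact mul_le_mul_of_nonneg_left hXx (by positivity)
  · rw [div_lt_one (by positivity)]
    exact hnum'

theorem s1_of_th (m m0 k : ℕ) (hk : 1 ≤ k) (hkm : k + 2 ≤ m0) (hm : m0 ≤ m) (h : 16 ^ k * Th m0 k < 1) :
    S1c m k := by
  intro x1 y1 hx hy
  have h1 := th_bound m k hk (by omega) hy
  have h2 := th_anti (k := k) hkm hm
  have hT : 0 < TJ m k 1 := TJ_pos_of_one_le m k (by omega) le_rfl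
  have hx1 : 0 ≤ 1 + x1 := by linarith [hx.nonneg]
  have h3 : (1 + x1) ^ (4 * k) ≤ 16 ^ k := by
    have e : (16 : ℝ) ^ k = 2 ^ (4 * k) := by
      rw [pow_mul]
      norm_num
    rw [e]
    exact pow_le_pow_left₀ hx1 (by linarith [hx.lt_one]) _
  refine S1_fin (C := 16 ^ k * Th m0 k) (by omega) hx.nonneg ?_ h
  have h4 : TJ m k y1 ^ 4 ≤ Th m0 k * TJ m k 1 ^ 4 :=
    h1.trans (mul_le_mul_of_nonneg_right h2 (by positivity))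
  have h5 := mul_le_mul h4 h3 (pow_nonneg hx1 _) (by
    have := th_pos m0 k hkm
    positivity)
  linarith

end Pool.LK2
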