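import Pool.Agent.LK1.Base
import Pool.Agent.LKI.Defs

/-!
# LK2/Scl: scaling of an interval of length `2 h` to `[-1, 1]`

`W_to_F`: `f` in the class `W` on a set containing `[a, a + 2h]` gives the family `F_j(x) = (-h)^j f_j(a + h (1 - x))` in the class
`InF m (h^(m+1)) (-1) 1` (`x = 1` is the left end `a`); `W_to_F'`: the version `h^j f_j(a + h (1 + x))`.
-/

open Set
open Pool.LK1 (InF Der LipOn)
open Pool.Agent.LKI (InW IsJet)

namespace Pool.LK2

theorem inF_mono {m : ℕ} {s s' a b : ℝ} {F : ℕ → ℝ → ℝ} (h : s ≤ s') (hF : InF m s a b F) : InF m s' a b F where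
  der := hF.der
  lip := fun x hx y hy => (hF.lip x hx y hy).trans (mul_le_mul_of_nonneg_right h (abs_nonneg _))
  bd := hF.bd

/-- the general affine change of the variable `x ↦ c + d x`, `|d| = h` -/
theorem W_to_F_gen {m : ℕ} {h c d : ℝ} (hd : |d| = h) {S : Set ℝ} {f : ℕ → ℝ → ℝ} (hf : InW (m + 1) S f)
    (hS : ∀ x ∈ Icc (-1 : ℝ) 1, c + d * x ∈ S) :
    InF m (h ^ (m + 1)) (-1) 1 (fun j x => d ^ j * f j (c + d * x)) where
  der := by
    intro j hj x hx
    have h1 := hf.jet.hasDeriv j (by omega) _ (hS x hx)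
    have h2 : HasDerivWithinAt (fun x : ℝ => c + d * x) d (Icc (-1) 1) x := by
      have h3 := ((hasDerivAt_id x).const_mul d).const_add c
      rw [mul_one] at h3
      exact h3.hasDerivWithinAt
    have h5 := h1.comp x h2 (fun t ht => hS t ht)
    refine (h5.const_mul (d ^ j)).congr_deriv ?_
    simp only [pow_succ]
    ring
  lip := by
    intro x hx y hy
    have h1 := hf.jet.lip _ (hS x hx) _ (hS y hy)
    have h2 : (c + d * x) - (c + d * y) = d * (x - y) := by ring
    rw [h2, one_mul, abs_mul, hd] at h1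
    simp only [Nat.add_sub_cancel] at h1
    rw [← mul_sub, abs_mul, abs_pow, hd, pow_succ, mul_assoc]
    exact mul_le_mul_of_nonneg_left h1 (pow_nonneg (hd ▸ abs_nonneg d) _)
  bd := by
    intro x hx
    have := hf.bdd _ (hS x hx)
    simpa using this

theorem W_to_F {m : ℕ} {h a : ℝ} (hh : 0 < h) {S : Set ℝ} (hS : Icc a (a + 2 * h) ⊆ S) {f : ℕ → ℝ → ℝ}
    (hf : InW (m + 1) S f) :
    InF m (h ^ (m + 1)) (-1) 1 (fun j x => (-h) ^ j * f j (a + h * (1 - x))) := by
  have h1 := W_to_F_gen (c := a + h) (d := -h) (h := h) (by rw [abs_neg, abs_of_pos hh]) hf (fun x hx => hS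
    ⟨by nlinarith [hx.2], by nlinarith [hx.1]⟩)
  have e : ∀ x : ℝ, a + h * (1 - x) = a + h + -h * x := fun x => by ring
  simpa only [e] using h1

theorem W_to_F' {m : ℕ} {h a : ℝ} (hh : 0 < h) {S : Set ℝ} (hS : Icc a (a + 2 * h) ⊆ S) {f : ℕ → ℝ → ℝ}
    (hf : InW (m + 1) S f) :
    InF m (h ^ (m + 1)) (-1) 1 (fun j x => h ^ j * f j (a + h * (1 + x))) := by
  have h1 := W_to_F_gen (c := a + h) (d := h) (h := h) (abs_of_pos hh) hf (fun x hx => hS
    ⟨by nlinarith [hx.1], by nlinarith [hx.2]⟩)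
  have e : ∀ x : ℝ, a + h * (1 + x) = a + h + h * x := fun x => by ring
  simpa only [e] using h1

end Pool.LK2
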