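import Pool.Agent.LK2.First

/-!
# LK2/Amp: amplitude bound for the first critical value

`Gf n k x = (1-x²)^(k-1) ((n²(1-x²) - k(k-1)) T_k² + (k x T_k - (1-x²) T_{k+1})²)`, `k ≥ 1`, `T_j = T_n^(j)(x)`.

`Gf_deriv`: `Gf' = -2 k (k-1) x (1-x²)^(k-2) T_k²` (for `k = 1` the derivative is `0`; for `k ≥ 2` as written with the
natural number power `k - 2`).  Proof: direct computation with `T_{k+2}` eliminated by `ode n k`:
`(1-x²) T_{k+2} = (2k+1) x T_{k+1} - (n²-k²) T_k`.  Put `s = 1 - x²`, `A = T_k`, `B = T_{k+1}`, `V = k x A - s B`.  Then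
`V' = k A + k x B + 2 x B - s T_{k+2} = k A + (k+2) x B - (2k+1) x B + (n²-k²) A = (n² - k² + k) A - (k-1) x B`, and
`Gf = s^(k-1) ((n² s - k(k-1)) A² + V²)`,
`Gf'/s^(k-2) = -2 (k-1) x ((n² s - k(k-1)) A² + V²) + s (-2 n² x A² + 2 (n² s - k(k-1)) A B + 2 V V')`; substitute
`s B = k x A - V`; everything cancels except `-2 k (k-1) x A²`.
(Check by `ring` after `linear_combination` with the ode.)

`amp`: for `IsFirst n k x1`, `1 ≤ k`, `k + 2 ≤ n`: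
`T_k(x1)² (1-x1²)^(k-1) ((1-x1²)(n²-k²) + k) ≤ (n²-k²+k) T_k(0)² + T_{k+1}(0)²`.
Proof: `Gf` is antitone on `[0,1]` (derivative `≤ 0`), so `Gf x1 ≤ Gf 0`; `Gf 0` is the right side, and
`T_{k+1}(x1) = 0` gives `Gf x1 = (1-x1²)^(k-1) (n²(1-x1²) - k(k-1) + k² x1²) T_k(x1)²`,
`n² s - k² + k + k² (1 - s) = (n²-k²) s + k`.
-/

open Set
open Pool.LK1 (TJ)

namespace Pool.LK2

/-- The Sonin type function `Q u² + u'²`, `u = sin^k T_n^(k)(cos)`, as a function of `x`. -/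
noncomputable def Gf (n k : ℕ) (x : ℝ) : ℝ :=
  (1 - x ^ 2) ^ (k - 1) * (((n : ℝ) ^ 2 * (1 - x ^ 2) - k * ((k : ℝ) - 1)) * TJ n k x ^ 2
    + (k * x * TJ n k x - (1 - x ^ 2) * TJ n (k + 1) x) ^ 2)

private theorem Amp_deriv (n k : ℕ) (hk : 1 ≤ k) (x : ℝ) :
    HasDerivAt (Gf n k) (-2 * k * ((k : ℝ) - 1) * x * (1 - x ^ 2) ^ (k - 2) * TJ n k x ^ 2) x := by
  have hA := Pool.LK1.TJ_hasDerivAt n k x
  have hB := Pool.LK1.TJ_hasDerivAt n (k + 1) x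
  have hode := ode n k x
  have hs : HasDerivAt (fun y : ℝ => 1 - y ^ 2) (-(2 * x)) x := by
    have := ((hasDerivAt_id x).pow 2).const_sub 1
    simpa using this
  have hkx : HasDerivAt (fun y : ℝ => (k : ℝ) * y) (k : ℝ) x := by
    simpa using (hasDerivAt_id x).const_mul (k : ℝ)
  have hV := (hkx.mul hA).sub (hs.mul hB)
  have hc : HasDerivAt (fun y : ℝ => (n : ℝ) ^ 2 * (1 - y ^ 2) - k * ((k : ℝ) - 1))
      ((n : ℝ) ^ 2 * (-(2 * x))) x := (hs.const_mul _).sub_const _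
  have hQ := (hc.mul (hA.pow 2)).add (hV.pow 2)
  have hG := (hs.pow (k - 1)).mul hQ
  have hfun : Gf n k = (fun y : ℝ => 1 - y ^ 2) ^ (k - 1) *
      ((fun y : ℝ => (n : ℝ) ^ 2 * (1 - y ^ 2) - k * ((k : ℝ) - 1)) * TJ n k ^ 2 +
        ((fun y : ℝ => (k : ℝ) * y) * TJ n k - (fun y : ℝ => 1 - y ^ 2) * TJ n (k + 1)) ^ 2) := by
    funext y
    rfl
  rw [hfun]
  convert! hG using 1
  simp only [Pi.mul_apply, Pi.add_apply, Pi.sub_apply, Pi.pow_apply]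
  generalize TJ n k x = A at *
  generalize TJ n (k + 1) x = B at *
  generalize TJ n (k + 2) x = C at *
  have hode' : (1 - x ^ 2) * C = (2 * (k : ℝ) + 1) * x * B - ((n : ℝ) ^ 2 - (k : ℝ) ^ 2) * A := hode
  rcases Nat.lt_or_ge k 2 with h1 | h2
  · have hk1 : k = 1 := by omega
    subst hk1
    norm_num at hode' ⊢
    linear_combination (2 * (x * A - (1 - x ^ 2) * B)) * hode'
  · obtain ⟨p, rfl⟩ : ∃ p, k = p + 2 := ⟨k - 2, by omega⟩
    have e1 : p + 2 - 2 = p := by omega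
    have e2 : p + 2 - 1 = p + 1 := by omega
    have e3 : p + 1 - 1 = p := by omega
    rw [e1, e2, e3]
    push_cast at hode' ⊢
    rw [pow_succ (1 - x ^ 2) p]
    linear_combination (2 * (1 - x ^ 2) ^ p * (1 - x ^ 2) *
      (((p : ℝ) + 2) * x * A - (1 - x ^ 2) * B)) * hode'

theorem Gf_anti (n k : ℕ) (hk : 1 ≤ k) : AntitoneOn (Gf n k) (Icc 0 1) := by
  apply antitoneOn_of_deriv_nonpos (convex_Icc 0 1)
  · exact fun x _ => (Amp_deriv n k hk x).continuousAt.continuousWithinAt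
  · exact fun x _ => (Amp_deriv n k hk x).differentiableAt.differentiableWithinAt
  · intro x hx
    rw [interior_Icc] at hx
    rw [(Amp_deriv n k hk x).deriv]
    have hk' : (1 : ℝ) ≤ k := by exact_mod_cast hk
    have h1 : 0 ≤ 1 - x ^ 2 := by nlinarith [hx.1, hx.2]
    have h2 : 0 ≤ (k : ℝ) * ((k : ℝ) - 1) * x * (1 - x ^ 2) ^ (k - 2) * TJ n k x ^ 2 := by
      have h3 : 0 ≤ (k : ℝ) - 1 := by linarith
      have h4 := hx.1.le
      positivity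
    have h5 : -2 * (k : ℝ) * ((k : ℝ) - 1) * x * (1 - x ^ 2) ^ (k - 2) * TJ n k x ^ 2 =
        -2 * ((k : ℝ) * ((k : ℝ) - 1) * x * (1 - x ^ 2) ^ (k - 2) * TJ n k x ^ 2) := by ring
    rw [h5]
    linarith

theorem amp (n k : ℕ) (hk : 1 ≤ k) (h : k + 2 ≤ n) {x1 : ℝ} (hx : IsFirst n k x1) :
    TJ n k x1 ^ 2 * ((1 - x1 ^ 2) ^ (k - 1) * ((1 - x1 ^ 2) * ((n : ℝ) ^ 2 - k ^ 2) + k)) ≤
      ((n : ℝ) ^ 2 - k ^ 2 + k) * TJ n k 0 ^ 2 + TJ n (k + 1) 0 ^ 2 := by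
  have h1 := Gf_anti n k hk (left_mem_Icc.2 zero_le_one) ⟨hx.nonneg, hx.lt_one.le⟩ hx.nonneg
  have h2 : Gf n k x1 =
      TJ n k x1 ^ 2 * ((1 - x1 ^ 2) ^ (k - 1) * ((1 - x1 ^ 2) * ((n : ℝ) ^ 2 - k ^ 2) + k)) := by
    unfold Gf
    rw [hx.zero]
    ring
  have h3 : Gf n k 0 = ((n : ℝ) ^ 2 - k ^ 2 + k) * TJ n k 0 ^ 2 + TJ n (k + 1) 0 ^ 2 := by
    unfold Gf
    have e : (1 - (0 : ℝ) ^ 2) = 1 := by norm_num
    rw [e, one_pow]
    ring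
  rw [h2, h3] at h1
  exact h1

end Pool.LK2
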