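import Pool.Agent.LK2.Bok
import Pool.Agent.LKX.Defs

/-!
# LK2/Bp: the condition `Bp m k` (bound of the critical values by the half line constant)

`Bp m k` (`n = m + 1`): every critical value `F_k(x)`, `F_{k+1}(x) = 0`, `0 ≤ x ≤ x1`, of the class
`InF m σ_n (-1) 1` is smaller than `ck n k · LL n k` (`≤ E_k(L) H^k` for every length `L`).
-/

open Set
open Pool.LK1 (TJ InF)
open Pool.LKX (ck LL)

namespace Pool.LK2

def Bp (m k : ℕ) : Prop :=
  ∀ F : ℕ → ℝ → ℝ, InF m (2 ^ m * ((m + 1).factorial : ℝ)) (-1) 1 F → ∀ x x1 : ℝ, IsFirst (m + 1) k x1 →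
    0 ≤ x → x ≤ x1 → F (k + 1) x = 0 → |F k x| < ck (m + 1) k * LL (m + 1) k

theorem bp_of_bok {m k : ℕ} (h : TJ m k 1 ≤ ck (m + 1) k * LL (m + 1) k) (hb : Bok m k) : Bp m k :=
  fun F hF x x1 hx1 h0 h1 hF0 => (hb F hF x x1 hx1 h0 h1 hF0).trans_le h

end Pool.LK2
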