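import Pool.Agent.LK2.First

/-!
# LK2/Cen: the values at the centre

`Pi n k = ∏_{j<k} (n² - j²)`.

`cen_sq`: `k < n` (then all factors are positive), `T_k(0)⁴ (n² - k²) ≤ (n Pi n k)²`.
Proof.  If `n + k` is odd then `T_k(0) = 0` (parity at `0`: `TJ n k 0 = (-1)^(n+k) TJ n k 0`).  Otherwise, by
`ode` at `0`: `T_{j+2}(0) = -(n²-j²) T_j(0)`; `T_0(0)² ≤ 1` and `T_1(0)² ≤ n²` (`T_0(0) = cos(n π/2)`,
`T_1(0) = n sin(n π/2)`; or `abs ≤` from `TJ_cos`, `TJ1_cos` at `t = π/2`).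
Induction in steps of two on `k` (statement `Q k : T_k(0)⁴ (n²-k²) ≤ (n Pi n k)²`, for all `k < n`):
`Q 0`: `T_0(0)⁴ n² ≤ n²`.  `Q 1`: `T_1(0)⁴ (n²-1) ≤ n⁴ (n² - 1) ≤ (n · n²)² = n⁶`.
`Q k ⇒ Q (k+2)` (`k + 2 < n`): `T_{k+2}(0)⁴ (n²-(k+2)²) = (n²-k²)⁴ T_k(0)⁴ (n²-(k+2)²) ≤ (n²-k²)³ (n²-(k+2)²) (n Pi n k)²`, and
`Pi n (k+2) = Pi n k (n²-k²)(n²-(k+1)²)`, so it suffices that
`(n²-k²)(n²-(k+2)²) ≤ (n²-(k+1)²)²`, which is the log-concavity of `j ↦ n² - j²`: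
with `a = n²-(k+1)²`: `(a + 2k+1)(a - 2k - 3) = a² - 2a - (2k+1)(2k+3) ≤ a²`.

`cen`: `1 ≤ k`, `k + 2 ≤ n`:
`((n²-k²+k) T_k(0)² + T_{k+1}(0)²)² (n²-(k+1)²) ≤ (n (n²-k²+k) Pi n k)²`.
Proof.  One of the two terms vanishes (parity).  If `T_{k+1}(0) = 0`: the left side is
`(n²-k²+k)² T_k(0)⁴ (n²-(k+1)²) ≤ (n²-k²+k)² T_k(0)⁴ (n²-k²)`, use `cen_sq`.  If `T_k(0) = 0`: `cen_sq` for `k+1`:
`T_{k+1}(0)⁴ (n²-(k+1)²) ≤ (n Pi n k (n²-k²))² ≤ (n Pi n k (n²-k²+k))²`.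
-/

open Set
open Pool.LK1 (TJ)

namespace Pool.LK2

/-- `∏_{j<k} (n² - j²)`. -/
noncomputable def Pi2 (n k : ℕ) : ℝ := ∏ j ∈ Finset.range k, ((n : ℝ) ^ 2 - (j : ℝ) ^ 2)

private theorem cen_rec (n k : ℕ) :
    TJ n (k + 2) 0 = -(((n : ℝ) ^ 2 - (k : ℝ) ^ 2) * TJ n k 0) := by
  have h := ode n k 0
  simp only [mul_zero, zero_mul] at h
  linarith

private theorem cen_T0 (n : ℕ) : TJ n 0 0 ^ 2 ≤ 1 := by
  have h := Pool.LK1.TJ_zero_abs_le n (x := 0) ⟨by norm_num, by norm_num⟩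
  rw [← sq_abs]
  have := abs_nonneg (TJ n 0 0)
  nlinarith

private theorem cen_T1 (n : ℕ) : TJ n 1 0 ^ 2 ≤ (n : ℝ) ^ 2 := by
  have h := Pool.LK1.TJ1_cos n (Real.pi / 2)
  rw [Real.cos_pi_div_two, Real.sin_pi_div_two, mul_one] at h
  rw [h, mul_pow]
  have h1 := Real.sin_sq_le_one (n * (Real.pi / 2))
  have h2 : (0 : ℝ) ≤ (n : ℝ) ^ 2 := sq_nonneg _
  nlinarith

private theorem cen_pos {n k : ℕ} (h : k < n) : 0 < (n : ℝ) ^ 2 - (k : ℝ) ^ 2 := by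
  have h1 : (k : ℝ) < n := by exact_mod_cast h
  have h2 : (0 : ℝ) ≤ k := Nat.cast_nonneg k
  nlinarith

private theorem cen_Pi (n k : ℕ) : Pi2 n (k + 1) = Pi2 n k * ((n : ℝ) ^ 2 - (k : ℝ) ^ 2) := by
  unfold Pi2
  rw [Finset.prod_range_succ]

theorem cen_sq (n k : ℕ) (h : k < n) :
    TJ n k 0 ^ 4 * ((n : ℝ) ^ 2 - (k : ℝ) ^ 2) ≤ (n * Pi2 n k) ^ 2 := by
  induction k using Nat.twoStepInduction with
  | zero =>
    have h1 := cen_T0 n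
    have h2 : 0 ≤ TJ n 0 0 ^ 2 := sq_nonneg _
    have h3 : (0 : ℝ) ≤ (n : ℝ) ^ 2 := sq_nonneg _
    have h4 : TJ n 0 0 ^ 4 ≤ 1 := by
      have : TJ n 0 0 ^ 4 = (TJ n 0 0 ^ 2) ^ 2 := by ring
      rw [this]
      nlinarith
    have h5 : Pi2 n 0 = 1 := by
      unfold Pi2
      simp
    rw [h5, mul_one, Nat.cast_zero]
    have h6 := mul_le_mul_of_nonneg_right h4 h3
    have h7 : (n : ℝ) ^ 2 - 0 ^ 2 = (n : ℝ) ^ 2 := by ring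
    rw [h7]
    linarith
  | one =>
    have h1 := cen_T1 n
    have h2 : 0 ≤ TJ n 1 0 ^ 2 := sq_nonneg _
    have h3 : (0 : ℝ) ≤ (n : ℝ) ^ 2 := sq_nonneg _
    have h4 : TJ n 1 0 ^ 4 ≤ ((n : ℝ) ^ 2) ^ 2 := by
      have : TJ n 1 0 ^ 4 = (TJ n 1 0 ^ 2) ^ 2 := by ring
      rw [this]
      exact pow_le_pow_left₀ h2 h1 2
    have h5 : Pi2 n 1 = (n : ℝ) ^ 2 := by
      unfold Pi2
      simp
    have h6 := cen_pos h
    rw [h5]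
    calc TJ n 1 0 ^ 4 * ((n : ℝ) ^ 2 - ((1 : ℕ) : ℝ) ^ 2)
        ≤ ((n : ℝ) ^ 2) ^ 2 * ((n : ℝ) ^ 2 - ((1 : ℕ) : ℝ) ^ 2) :=
          mul_le_mul_of_nonneg_right h4 h6.le
      _ ≤ ((n : ℝ) ^ 2) ^ 2 * (n : ℝ) ^ 2 := by
          apply mul_le_mul_of_nonneg_left _ (by positivity)
          push_cast
          linarith
      _ = (n * (n : ℝ) ^ 2) ^ 2 := by ring
  | more k ih _ =>
    have hk : k < n := by omega
    have hk1 : k + 1 < n := by omega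
    have ih' := ih hk
    have p0 := cen_pos hk
    have p1 := cen_pos hk1
    have p2 := cen_pos h
    rw [cen_rec, cen_Pi, cen_Pi]
    push_cast at p1 p2 ⊢
    have hlc : ((n : ℝ) ^ 2 - (k : ℝ) ^ 2) * ((n : ℝ) ^ 2 - ((k : ℝ) + 2) ^ 2) ≤
        ((n : ℝ) ^ 2 - ((k : ℝ) + 1) ^ 2) ^ 2 := by
      have h0 : (0 : ℝ) ≤ k := Nat.cast_nonneg k
      nlinarith [mul_nonneg h0 h0]
    have hnn : 0 ≤ (n * Pi2 n k) ^ 2 := sq_nonneg _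
    generalize (n : ℝ) ^ 2 - (k : ℝ) ^ 2 = a at *
    generalize (n : ℝ) ^ 2 - ((k : ℝ) + 1) ^ 2 = b at *
    generalize (n : ℝ) ^ 2 - ((k : ℝ) + 2) ^ 2 = d at *
    generalize TJ n k 0 = T at *
    calc (-(a * T)) ^ 4 * d = a ^ 3 * d * (T ^ 4 * a) := by ring
      _ ≤ a ^ 3 * d * (n * Pi2 n k) ^ 2 := mul_le_mul_of_nonneg_left ih' (by positivity)
      _ = a ^ 2 * (a * d) * (n * Pi2 n k) ^ 2 := by ring
      _ ≤ a ^ 2 * b ^ 2 * (n * Pi2 n k) ^ 2 :=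
          mul_le_mul_of_nonneg_right (mul_le_mul_of_nonneg_left hlc (by positivity)) hnn
      _ = (n * (Pi2 n k * a * b)) ^ 2 := by ring

theorem cen (n k : ℕ) (hk : 1 ≤ k) (h : k + 2 ≤ n) :
    (((n : ℝ) ^ 2 - k ^ 2 + k) * TJ n k 0 ^ 2 + TJ n (k + 1) 0 ^ 2) ^ 2 * ((n : ℝ) ^ 2 - ((k : ℝ) + 1) ^ 2) ≤
      (n * ((n : ℝ) ^ 2 - k ^ 2 + k) * Pi2 n k) ^ 2 := by
  have hkn : k < n := by omega
  have hk1n : k + 1 < n := by omega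
  have c0 := cen_sq n k hkn
  have c1 := cen_sq n (k + 1) hk1n
  have p0 := cen_pos hkn
  have p1 := cen_pos hk1n
  have hk0 : (1 : ℝ) ≤ k := by exact_mod_cast hk
  have q0 := parity n k 0
  have q1 := parity n (k + 1) 0
  rw [neg_zero] at q0 q1
  rw [cen_Pi] at c1
  push_cast at p1 c1
  have hle : (n : ℝ) ^ 2 - ((k : ℝ) + 1) ^ 2 ≤ (n : ℝ) ^ 2 - (k : ℝ) ^ 2 := by nlinarith
  rcases Nat.even_or_odd (n + k) with he | ho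
  · have h1 : TJ n (k + 1) 0 = 0 := by
      have : Odd (n + (k + 1)) := by
        rw [← add_assoc]
        exact he.add_one
      rw [this.neg_one_pow] at q1
      linarith
    rw [h1]
    have ha : 0 < (n : ℝ) ^ 2 - k ^ 2 + k := by linarith
    generalize (n : ℝ) ^ 2 - (k : ℝ) ^ 2 = a at *
    generalize (n : ℝ) ^ 2 - ((k : ℝ) + 1) ^ 2 = b at *
    generalize TJ n k 0 = T at *
    generalize Pi2 n k = P at *
    have e1 : 0 ≤ (a + k) ^ 2 * T ^ 4 := by positivity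
    calc ((a + k) * T ^ 2 + 0 ^ 2) ^ 2 * b = (a + k) ^ 2 * T ^ 4 * b := by ring
      _ ≤ (a + k) ^ 2 * T ^ 4 * a := mul_le_mul_of_nonneg_left hle e1
      _ = (a + k) ^ 2 * (T ^ 4 * a) := by ring
      _ ≤ (a + k) ^ 2 * (n * P) ^ 2 := mul_le_mul_of_nonneg_left c0 (by positivity)
      _ = (n * (a + k) * P) ^ 2 := by ring
  · have h1 : TJ n k 0 = 0 := by
      rw [ho.neg_one_pow] at q0
      linarith
    rw [h1]
    generalize (n : ℝ) ^ 2 - (k : ℝ) ^ 2 = a at *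
    generalize (n : ℝ) ^ 2 - ((k : ℝ) + 1) ^ 2 = b at *
    generalize TJ n (k + 1) 0 = T at *
    generalize Pi2 n k = P at *
    have hnP : 0 ≤ (n * P) ^ 2 := sq_nonneg _
    have e2 : a ^ 2 ≤ (a + k) ^ 2 := pow_le_pow_left₀ p0.le (by linarith) 2
    calc ((a + k) * 0 ^ 2 + T ^ 2) ^ 2 * b = T ^ 4 * b := by ring
      _ ≤ (n * (P * a)) ^ 2 := c1
      _ = a ^ 2 * (n * P) ^ 2 := by ring
      _ ≤ (a + k) ^ 2 * (n * P) ^ 2 := mul_le_mul_of_nonneg_right e2 hnP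
      _ = (n * (a + k) * P) ^ 2 := by ring

end Pool.LK2
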