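import Mathlib

/-!
# LK2/Lag: Laguerre's inequality at a simple zero

`P` a real polynomial with `P.roots.card = P.natDegree = N ≥ 2` (all zeros real), `P(x) = 0`, `P'(x) ≠ 0`.  Then
`4 (N-1) P'''(x) P'(x) ≤ 3 (N-2) P''(x)²`.

Proof.  `P = (X - x) g` (`Polynomial.mul_divByMonic_eq_iff_isRoot` or `dvd_iff_isRoot`).  Then
`P' = g + (X-x) g'`, `P'' = 2 g' + (X-x) g''`, `P''' = 3 g'' + (X-x) g'''`, so `P'(x) = g(x) ≠ 0`, `P''(x) = 2 g'(x)`,
`P'''(x) = 3 g''(x)`.  The claim becomes `12 (N-1) g''(x) g(x) ≤ 12 (N-2) g'(x)²`, i.e.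
`(N-1) (g'(x)² - g''(x) g(x)) ≥ g'(x)²`.
`g` has degree `N - 1` and `N - 1` real roots `r_i` (`roots_mul`), `g = c ∏ (X - r_i)`
(`Polynomial.C_leadingCoeff_mul_prod_multiset_X_sub_C`).  General lemma (`lag_aux`), by induction on the multiset `s` of roots, for
`g = C c * (s.map (X - C ·)).prod` with `g(x) ≠ 0`: with `A = ∑ 1/(x - r_i)`, `B = ∑ 1/(x - r_i)²` one has
`g'(x) = A g(x)` and `g''(x) = (A² - B) g(x)`: if `h = (X - r) g` then `h'(x) = g(x) + (x - r) g'(x)`,
`h''(x) = 2 g'(x) + (x-r) g''(x)` and `h(x) = (x-r) g(x)`.  Then `g'² - g'' g = B g²` and `A² ≤ (card s) B` by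
Cauchy-Schwarz (`Finset`/`Multiset` form; it may be included in the induction:
`A² ≤ m B ⇒ (A + t)² ≤ (m+1)(B + t²)` because `(m+1)(B+t²) - (A+t)² ≥ A²/m + m t² - 2 A t ≥ 0` for `m ≥ 1`).
-/

open Polynomial

namespace Pool.LK2

/-- the inductive form of the Cauchy-Schwarz inequality -/
theorem lag_cs (m A B t : ℝ) (hm : 0 ≤ m) (hB : 0 ≤ B) (h : A ^ 2 ≤ m * B) :
    (A + t) ^ 2 ≤ (m + 1) * (B + t ^ 2) := by
  rcases hm.eq_or_lt with h0 | h0
  · rw [← h0] at h ⊢
    have hA : A = 0 := by
      have : A ^ 2 ≤ 0 := by linarith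
      exact pow_eq_zero_iff (two_ne_zero) |>.1 (le_antisymm this (sq_nonneg A))
    rw [hA]
    nlinarith
  · have h1 : 0 ≤ m * (B + m * t ^ 2 - 2 * A * t) := by nlinarith [sq_nonneg (A - m * t)]
    have h2 : 0 ≤ B + m * t ^ 2 - 2 * A * t := by
      by_contra hc
      rw [not_le] at hc
      nlinarith
    nlinarith

theorem lag_aux (c x : ℝ) (s : Multiset ℝ)
    (hne : (C c * (s.map fun r => X - C r).prod).eval x ≠ 0) :
    ∃ A B : ℝ, 0 ≤ B ∧ A ^ 2 ≤ (s.card : ℝ) * B ∧
      (derivative (C c * (s.map fun r => X - C r).prod)).eval x =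
        A * (C c * (s.map fun r => X - C r).prod).eval x ∧
      (derivative (derivative (C c * (s.map fun r => X - C r).prod))).eval x =
        (A ^ 2 - B) * (C c * (s.map fun r => X - C r).prod).eval x := by
  induction s using Multiset.induction_on with
  | empty =>
    refine ⟨0, 0, le_rfl, by simp, by simp, by simp⟩
  | cons r s ih =>
    obtain ⟨g, hg⟩ : ∃ g : ℝ[X], g = C c * (s.map fun r => X - C r).prod := ⟨_, rfl⟩
    have hh : C c * ((r ::ₘ s).map fun r => X - C r).prod = (X - C r) * g := by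
      rw [Multiset.map_cons, Multiset.prod_cons, hg]
      ring
    rw [hh] at hne ⊢
    rw [← hg] at ih
    have hev : ((X - C r) * g).eval x = (x - r) * g.eval x := by simp
    rw [hev] at hne ⊢
    have hxr : x - r ≠ 0 := left_ne_zero_of_mul hne
    have hgx : g.eval x ≠ 0 := right_ne_zero_of_mul hne
    obtain ⟨A, B, hB, hAB, h1, h2⟩ := ih hgx
    have d1 : derivative ((X - C r) * g) = g + (X - C r) * derivative g := by
      rw [derivative_mul, derivative_X_sub_C, one_mul]
    have d2 : derivative (derivative ((X - C r) * g)) =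
        derivative g + derivative g + (X - C r) * derivative (derivative g) := by
      rw [d1, derivative_add, derivative_mul, derivative_X_sub_C, one_mul]
      ring
    refine ⟨A + (x - r)⁻¹, B + (x - r)⁻¹ ^ 2, by positivity, ?_, ?_, ?_⟩
    · rw [Multiset.card_cons]
      push_cast
      exact lag_cs _ A B _ (Nat.cast_nonneg _) hB hAB
    · rw [d1]
      simp only [eval_add, eval_mul, eval_sub, eval_X, eval_C]
      rw [h1]
      field_simp
      ring
    · rw [d2]
      simp only [eval_add, eval_mul, eval_sub, eval_X, eval_C]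
      rw [h1, h2]
      field_simp
      ring

theorem laguerre_at_root (P : ℝ[X]) (N : ℕ) (hN : 2 ≤ N) (hdeg : P.natDegree = N) (hroots : P.roots.card = N)
    {x : ℝ} (hx : P.eval x = 0) (hx' : (derivative P).eval x ≠ 0) :
    4 * ((N : ℝ) - 1) * (derivative^[3] P).eval x * (derivative P).eval x ≤
      3 * ((N : ℝ) - 2) * (derivative^[2] P).eval x ^ 2 := by
  have hP0 : P ≠ 0 := by
    intro h
    rw [h, natDegree_zero] at hdeg
    omega
  have hmem : x ∈ P.roots := (mem_roots hP0).2 hx
  obtain ⟨s, hs⟩ := Multiset.exists_cons_of_mem hmem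
  have hcard : s.card + 1 = N := by
    rw [← Multiset.card_cons x s, ← hs, hroots]
  have hPeq := C_leadingCoeff_mul_prod_multiset_X_sub_C (hroots.trans hdeg.symm)
  obtain ⟨c, hc⟩ : ∃ c : ℝ, c = P.leadingCoeff := ⟨_, rfl⟩
  obtain ⟨g, hg⟩ : ∃ g : ℝ[X], g = C c * (s.map fun r => X - C r).prod := ⟨_, rfl⟩
  have hPg : P = (X - C x) * g := by
    conv_lhs => rw [← hPeq]
    rw [hs, Multiset.map_cons, Multiset.prod_cons, hg, hc]
    ring
  have d1 : derivative P = g + (X - C x) * derivative g := by
    rw [hPg, derivative_mul, derivative_X_sub_C, one_mul]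
  have d2 : derivative (derivative P) =
      derivative g + derivative g + (X - C x) * derivative (derivative g) := by
    rw [d1, derivative_add, derivative_mul, derivative_X_sub_C, one_mul]
    ring
  have d3 : derivative (derivative (derivative P)) =
      derivative (derivative g) + derivative (derivative g) + derivative (derivative g) +
        (X - C x) * derivative (derivative (derivative g)) := by
    rw [d2, derivative_add, derivative_add, derivative_mul, derivative_X_sub_C, one_mul]
    ring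
  have e1 : (derivative P).eval x = g.eval x := by
    rw [d1]
    simp
  have e2 : (derivative (derivative P)).eval x = 2 * (derivative g).eval x := by
    rw [d2]
    simp
    ring
  have e3 : (derivative (derivative (derivative P))).eval x =
      3 * (derivative (derivative g)).eval x := by
    rw [d3]
    simp
    ring
  rw [e1] at hx'
  have hx2 := hx'
  rw [hg] at hx2
  obtain ⟨A, B, hB, hAB, h1, h2⟩ := lag_aux c x s hx2
  rw [← hg] at h1 h2
  have hcard' : (s.card : ℝ) = (N : ℝ) - 1 := by
    rw [← hcard]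
    push_cast
    ring
  rw [hcard'] at hAB
  have i3 : derivative^[3] P = derivative (derivative (derivative P)) := rfl
  have i2 : derivative^[2] P = derivative (derivative P) := rfl
  rw [i3, i2, e1, e2, e3, h1, h2]
  have hg2 : 0 ≤ g.eval x ^ 2 := sq_nonneg _
  nlinarith [mul_le_mul_of_nonneg_right hAB hg2]

end Pool.LK2
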