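import Pool.Agent.LK2.First
import Pool.Agent.LK2.Lag

/-!
# LK2/Loc: location of the largest zero `x1` of `T_n^(k+1)`

`p = n - k ≥ 2`.

`loc` (exact degree factor): with `A4 = (2k+3) (4(p-2)(2k+5) - 3(p-3)(2k+3))`,
`x1² (A4 + 4 (p-2)² (n+k+2)) ≤ 4 (p-2)² (n+k+2)`  for `p ≥ 3`.

Proof.  `P = T^(k+1)`, degree `N = p - 1 ≥ 2`, all zeros real (`natDegreeT`, `card_rootsT`), `P(x1) = 0`,
`P'(x1) = T^(k+2)(x1) ≠ 0` (`no_double`, `|x1| < 1`, `k + 1 < n`).  `laguerre_at_root`: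
`4 (p-2) P''' P' ≤ 3 (p-3) P''²` at `x1`.
`ode n (k+1) x1` with `T^(k+1)(x1) = 0`: `s P'' = (2k+3) x1 P'`, `s = 1 - x1² > 0`;
`ode n (k+2) x1`: `s P''' = (2k+5) x1 P'' - (n² - (k+2)²) P'`.
Multiply the inequality by `s² / P'²`:
`4 (p-2) [(2k+5)(2k+3) x1² - (n² - (k+2)²) (1 - x1²)] ≤ 3 (p-3) (2k+3)² x1²`, which is the claim
(`n² - (k+2)² = (p-2)(n+k+2)`).

`loc_S`: `Sq n k ≤ 1 - x1²` for all `p ≥ 2`.  For `p = 2`: `T^(k+1)` is `c x` (degree one and odd), so `x1 = 0`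
(parity at `0`, `first_unique`/`pos`), and `Sq n k = 1` for `n = k + 2` (both products are `k² + 7k + 33/4`).
For `p ≥ 3`: from `loc`, as `(p-3)/(p-2) ≤ 1`: `4(p-2)(2k+5) - 3(p-3)(2k+3) ≥ (p-2)(4(2k+5) - 3(2k+3)) = (p-2)(2k+11)`, so
`A4 ≥ (p-2)(2k+3)(2k+11)`, and `x1² ≤ B/(A4+B) ≤ B/((p-2)(2k+3)(2k+11) + B)` with `B = 4(p-2)²(n+k+2)`, i.e.
`x1² ((2k+3)(2k+11) + 4 (p-2)(n+k+2)) ≤ 4 (p-2)(n+k+2)`, `1 - x1² ≥ (2k+3)(2k+11)/(4n² + 12k + 17)`
since `4(p-2)(n+k+2) + (2k+3)(2k+11) = 4n² + 12 k + 17`.  This is `Sq n k`.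
-/

open Set
open Pool.LK1 (TJ)

namespace Pool.LK2

private theorem loc_lag (n k : ℕ) (h : k + 3 ≤ n) {x1 : ℝ} (hx : IsFirst n k x1) :
    4 * ((n : ℝ) - k - 2) * TJ n (k + 4) x1 * TJ n (k + 2) x1 ≤
      3 * ((n : ℝ) - k - 3) * TJ n (k + 3) x1 ^ 2 := by
  have hab : |x1| < 1 := by
    rw [abs_of_nonneg hx.nonneg]
    exact hx.lt_one
  have hne := no_double n (k + 1) (by omega) hab hx.zero
  have hd := natDegreeT n (k + 1) (by omega)
  have hc := card_rootsT n (k + 1) (by omega)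
  have i1 : Polynomial.derivative (Polynomial.derivative^[k + 1] (Polynomial.Chebyshev.T ℝ (n : ℤ))) =
      Polynomial.derivative^[k + 2] (Polynomial.Chebyshev.T ℝ (n : ℤ)) :=
    (Function.iterate_succ_apply' Polynomial.derivative (k + 1) _).symm
  have i2 : Polynomial.derivative^[2] (Polynomial.derivative^[k + 1] (Polynomial.Chebyshev.T ℝ (n : ℤ))) =
      Polynomial.derivative^[k + 3] (Polynomial.Chebyshev.T ℝ (n : ℤ)) := by
    have e : k + 3 = 2 + (k + 1) := by omega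
    rw [e]
    exact (Function.iterate_add_apply _ _ _ _).symm
  have i3 : Polynomial.derivative^[3] (Polynomial.derivative^[k + 1] (Polynomial.Chebyshev.T ℝ (n : ℤ))) =
      Polynomial.derivative^[k + 4] (Polynomial.Chebyshev.T ℝ (n : ℤ)) := by
    have e : k + 4 = 3 + (k + 1) := by omega
    rw [e]
    exact (Function.iterate_add_apply _ _ _ _).symm
  have hL := laguerre_at_root (Polynomial.derivative^[k + 1] (Polynomial.Chebyshev.T ℝ (n : ℤ)))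
    (n - (k + 1)) (by omega) hd hc (x := x1) hx.zero (by rw [i1]; exact hne)
  rw [i1, i2, i3] at hL
  have hcast : ((n - (k + 1) : ℕ) : ℝ) = (n : ℝ) - k - 1 := by
    rw [Nat.cast_sub (by omega)]
    push_cast
    ring
  rw [hcast] at hL
  have e1 : (n : ℝ) - k - 1 - 1 = (n : ℝ) - k - 2 := by ring
  have e2 : (n : ℝ) - k - 1 - 2 = (n : ℝ) - k - 3 := by ring
  rw [e1, e2] at hL
  exact hL

theorem loc (n k : ℕ) (h : k + 3 ≤ n) {x1 : ℝ} (hx : IsFirst n k x1) :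
    x1 ^ 2 * ((2 * (k : ℝ) + 3) * (4 * ((n : ℝ) - k - 2) * (2 * (k : ℝ) + 5)
        - 3 * ((n : ℝ) - k - 3) * (2 * (k : ℝ) + 3)) + 4 * ((n : ℝ) - k - 2) ^ 2 * ((n : ℝ) + k + 2)) ≤
      4 * ((n : ℝ) - k - 2) ^ 2 * ((n : ℝ) + k + 2) := by
  have hL := loc_lag n k h hx
  have hab : |x1| < 1 := by
    rw [abs_of_nonneg hx.nonneg]
    exact hx.lt_one
  have hne : TJ n (k + 2) x1 ≠ 0 := no_double n (k + 1) (by omega) hab hx.zero
  have o1 : (1 - x1 ^ 2) * TJ n (k + 3) x1 = (2 * (k : ℝ) + 3) * x1 * TJ n (k + 2) x1 := by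
    have := ode n (k + 1) x1
    rw [hx.zero] at this
    push_cast at this
    have e : (1 - x1 ^ 2) * TJ n (k + 3) x1 = (2 * ((k : ℝ) + 1) + 1) * x1 * TJ n (k + 2) x1
        - ((n : ℝ) ^ 2 - ((k : ℝ) + 1) ^ 2) * 0 := this
    rw [e]
    ring
  have o2 : (1 - x1 ^ 2) * TJ n (k + 4) x1 = (2 * (k : ℝ) + 5) * x1 * TJ n (k + 3) x1
      - ((n : ℝ) - k - 2) * ((n : ℝ) + k + 2) * TJ n (k + 2) x1 := by
    have := ode n (k + 2) x1
    push_cast at this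
    have e : (1 - x1 ^ 2) * TJ n (k + 4) x1 = (2 * ((k : ℝ) + 2) + 1) * x1 * TJ n (k + 3) x1
        - ((n : ℝ) ^ 2 - ((k : ℝ) + 2) ^ 2) * TJ n (k + 2) x1 := this
    rw [e]
    ring
  have hs : 0 < 1 - x1 ^ 2 := by
    have h1 := hx.nonneg
    have h2 := hx.lt_one
    nlinarith
  have ha : 0 < TJ n (k + 2) x1 ^ 2 := by positivity
  generalize TJ n (k + 2) x1 = a at *
  generalize TJ n (k + 3) x1 = b at *
  generalize TJ n (k + 4) x1 = c at *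
  obtain ⟨s, hsd⟩ : ∃ s : ℝ, s = 1 - x1 ^ 2 := ⟨_, rfl⟩
  rw [← hsd] at o1 o2 hs
  have hL2 := mul_le_mul_of_nonneg_left hL (sq_nonneg s)
  have k1 : s ^ 2 * (4 * ((n : ℝ) - k - 2) * c * a) = 4 * ((n : ℝ) - k - 2) *
      ((2 * (k : ℝ) + 5) * (2 * (k : ℝ) + 3) * x1 ^ 2 - ((n : ℝ) - k - 2) * ((n : ℝ) + k + 2) * s) * a ^ 2 := by
    have : s ^ 2 * (4 * ((n : ℝ) - k - 2) * c * a) = 4 * ((n : ℝ) - k - 2) * a * (s * (s * c)) := by ring
    rw [this, o2]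
    have : 4 * ((n : ℝ) - k - 2) * a * (s * ((2 * (k : ℝ) + 5) * x1 * b
      - ((n : ℝ) - k - 2) * ((n : ℝ) + k + 2) * a)) = 4 * ((n : ℝ) - k - 2) * a *
        ((2 * (k : ℝ) + 5) * x1 * (s * b) - ((n : ℝ) - k - 2) * ((n : ℝ) + k + 2) * s * a) := by ring
    rw [this, o1]
    ring
  have k2 : s ^ 2 * (3 * ((n : ℝ) - k - 3) * b ^ 2) =
      3 * ((n : ℝ) - k - 3) * ((2 * (k : ℝ) + 3) ^ 2 * x1 ^ 2) * a ^ 2 := by
    have : s ^ 2 * (3 * ((n : ℝ) - k - 3) * b ^ 2) = 3 * ((n : ℝ) - k - 3) * (s * b) ^ 2 := by ring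
    rw [this, o1]
    ring
  rw [k1, k2] at hL2
  have hL3 := le_of_mul_le_mul_right hL2 ha
  rw [hsd] at hL3
  nlinarith [hL3]

theorem loc_S (n k : ℕ) (h : k + 2 ≤ n) {x1 : ℝ} (hx : IsFirst n k x1) : Sq n k ≤ 1 - x1 ^ 2 := by
  unfold Sq
  have hk : (0 : ℝ) ≤ k := Nat.cast_nonneg k
  rcases h.eq_or_lt with h0 | h0
  · -- n = k + 2
    have hx0 : x1 = 0 := by
      have hz : TJ n (k + 1) 0 = 0 := by
        have hp := parity n (k + 1) 0
        rw [neg_zero] at hp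
        have hodd : (-1 : ℝ) ^ (n + (k + 1)) = -1 := by
          apply Odd.neg_one_pow
          exact ⟨k + 1, by omega⟩
        rw [hodd] at hp
        linarith
      have hmono : StrictMono (TJ n (k + 1)) := by
        apply strictMono_of_deriv_pos
        intro x
        rw [(Pool.LK1.TJ_hasDerivAt n (k + 1) x).deriv]
        have h1 : k + 1 + 1 = n := by omega
        rw [h1, TJ_top_pos n (by omega) x]
        positivity
      exact hmono.injective (hx.zero.trans hz.symm)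
    have hn : (n : ℝ) = k + 2 := by
      rw [← h0]
      push_cast
      ring
    rw [hx0, hn, div_le_iff₀ (by positivity)]
    nlinarith
  · have hl := loc n k (by omega) hx
    have hn : (k : ℝ) + 3 ≤ n := by exact_mod_cast h0
    rw [div_le_iff₀ (by positivity)]
    obtain ⟨q, hq⟩ : ∃ q : ℝ, q = (n : ℝ) - k - 2 := ⟨_, rfl⟩
    have hq1 : 1 ≤ q := by rw [hq]; linarith
    have hnq : (n : ℝ) = q + k + 2 := by rw [hq]; ring
    rw [hnq] at hl ⊢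
    have e1 : q + (k : ℝ) + 2 - k - 2 = q := by ring
    have e2 : q + (k : ℝ) + 2 - k - 3 = q - 1 := by ring
    rw [e1, e2] at hl
    have hx2 : 0 ≤ x1 ^ 2 := sq_nonneg x1
    have hA : q * ((2 * (k : ℝ) + 3) * (2 * k + 11)) ≤ (2 * (k : ℝ) + 3) * (4 * q * (2 * (k : ℝ) + 5)
        - 3 * (q - 1) * (2 * (k : ℝ) + 3)) := by
      nlinarith [mul_nonneg hk hk, mul_nonneg hk (by linarith : (0:ℝ) ≤ q)]
    have h1 : x1 ^ 2 * (q * ((2 * (k : ℝ) + 3) * (2 * k + 11)) + 4 * q ^ 2 * (q + (k : ℝ) + 2 + k + 2)) ≤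
        4 * q ^ 2 * (q + (k : ℝ) + 2 + k + 2) :=
      le_trans (mul_le_mul_of_nonneg_left (by linarith) hx2) hl
    have h2 : q * (x1 ^ 2 * ((2 * (k : ℝ) + 3) * (2 * k + 11) + 4 * q * (q + (k : ℝ) + 2 + k + 2))) ≤
        q * (4 * q * (q + (k : ℝ) + 2 + k + 2)) := by
      nlinarith [h1]
    have h3 := le_of_mul_le_mul_left h2 (by linarith)
    nlinarith [h3]

end Pool.LK2
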