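import Pool.Agent.LK2.Amp
import Pool.Agent.LK2.Cen
import Pool.Agent.LK2.Loc

/-!
# LK2/MBd: upper bounds for the first critical value `T_n^(k)(x1)`

`mbd_gen`: `1 ≤ k`, `k + 2 ≤ n`, `0 ≤ S ≤ 1 - x1²`:  `T_k(x1)⁴ S^(2k) (n²-(k+1)²) ≤ (n Pi2 n k)²`.

Proof.  `s = 1 - x1² ∈ (0, 1]`, `M = |T_k(x1)|`.  `amp`: `M² s^(k-1) (s (n²-k²) + k) ≤ S0`, where `S0` is the right
side of `amp`; as `s ≤ 1`: `s (n²-k²) + k ≥ s (n²-k²+k)`, so `M² s^k (n²-k²+k) ≤ S0`.  `cen`: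
`S0² (n²-(k+1)²) ≤ (n (n²-k²+k) Pi2)²`.  Hence `(M² s^k)² (n²-k²+k)² (n²-(k+1)²) ≤ (n (n²-k²+k) Pi2)²`; divide by
`(n²-k²+k)² > 0`, and `S^k ≤ s^k`.

`mbd`: the case `S = Sq n k` (`loc_S`).

`mbd_even`, `mbd_odd` (sharper, for small `n`): `M² S^(k-1) (S (n²-k²) + k) ≤ (n²-k²+k) T_k(0)² + T_{k+1}(0)²`
for `0 ≤ S ≤ 1 - x1²` (monotonicity in `S` of the left side of `amp`).
-/

open Set
open Pool.LK1 (TJ)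

namespace Pool.LK2

theorem amp_S (n k : ℕ) (hk : 1 ≤ k) (h : k + 2 ≤ n) {x1 S : ℝ} (hx : IsFirst n k x1) (hS0 : 0 ≤ S)
    (hS : S ≤ 1 - x1 ^ 2) :
    TJ n k x1 ^ 2 * (S ^ (k - 1) * (S * ((n : ℝ) ^ 2 - k ^ 2) + k)) ≤
      ((n : ℝ) ^ 2 - k ^ 2 + k) * TJ n k 0 ^ 2 + TJ n (k + 1) 0 ^ 2 := by
  refine le_trans ?_ (amp n k hk h hx)
  have hkn : (k : ℝ) ≤ n := by exact_mod_cast (by omega : k ≤ n)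
  have hk0 : (0 : ℝ) ≤ k := Nat.cast_nonneg k
  have hd : 0 ≤ (n : ℝ) ^ 2 - k ^ 2 := by nlinarith
  apply mul_le_mul_of_nonneg_left _ (sq_nonneg _)
  apply mul_le_mul (pow_le_pow_left₀ hS0 hS _) _ (by positivity) (pow_nonneg (hS0.trans hS) _)
  have := mul_le_mul_of_nonneg_right hS hd
  linarith

theorem mbd_gen (n k : ℕ) (hk : 1 ≤ k) (h : k + 2 ≤ n) {x1 S : ℝ} (hx : IsFirst n k x1) (hS0 : 0 ≤ S)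
    (hS : S ≤ 1 - x1 ^ 2) :
    TJ n k x1 ^ 4 * S ^ (2 * k) * ((n : ℝ) ^ 2 - ((k : ℝ) + 1) ^ 2) ≤ (n * Pi2 n k) ^ 2 := by
  have h1 := amp_S n k hk h hx hS0 hS
  have h2 := cen n k hk h
  set M : ℝ := TJ n k x1 with hM
  set S0 : ℝ := ((n : ℝ) ^ 2 - k ^ 2 + k) * TJ n k 0 ^ 2 + TJ n (k + 1) 0 ^ 2 with hS0'
  have hk1 : (1 : ℝ) ≤ k := by exact_mod_cast hk
  have hkn : (k : ℝ) + 2 ≤ n := by exact_mod_cast h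
  have hS1 : S ≤ 1 := by nlinarith [sq_nonneg x1]
  have hd : 0 < (n : ℝ) ^ 2 - k ^ 2 + k := by nlinarith
  have hd1 : 0 ≤ (n : ℝ) ^ 2 - ((k : ℝ) + 1) ^ 2 := by nlinarith
  have h3 : M ^ 2 * S ^ k * ((n : ℝ) ^ 2 - k ^ 2 + k) ≤ S0 := by
    refine le_trans ?_ h1
    have h4 : S ^ k = S ^ (k - 1) * S := by
      rw [← pow_succ]; congr 1; omega
    rw [h4]
    have h5 : 0 ≤ M ^ 2 * S ^ (k - 1) := mul_nonneg (sq_nonneg _) (pow_nonneg hS0 _)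
    have h6 : S * ((n : ℝ) ^ 2 - k ^ 2 + k) ≤ S * ((n : ℝ) ^ 2 - k ^ 2) + k := by nlinarith
    calc M ^ 2 * (S ^ (k - 1) * S) * ((n : ℝ) ^ 2 - k ^ 2 + k)
        = M ^ 2 * S ^ (k - 1) * (S * ((n : ℝ) ^ 2 - k ^ 2 + k)) := by ring
      _ ≤ M ^ 2 * S ^ (k - 1) * (S * ((n : ℝ) ^ 2 - k ^ 2) + k) := mul_le_mul_of_nonneg_left h6 h5
      _ = M ^ 2 * (S ^ (k - 1) * (S * ((n : ℝ) ^ 2 - k ^ 2) + k)) := by ring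
  have h7 : 0 ≤ M ^ 2 * S ^ k * ((n : ℝ) ^ 2 - k ^ 2 + k) :=
    mul_nonneg (mul_nonneg (sq_nonneg _) (pow_nonneg hS0 _)) hd.le
  have h8 : (M ^ 2 * S ^ k * ((n : ℝ) ^ 2 - k ^ 2 + k)) ^ 2 * ((n : ℝ) ^ 2 - ((k : ℝ) + 1) ^ 2) ≤
      (n * ((n : ℝ) ^ 2 - k ^ 2 + k) * Pi2 n k) ^ 2 :=
    (mul_le_mul_of_nonneg_right (pow_le_pow_left₀ h7 h3 2) hd1).trans h2
  have h9 : M ^ 4 * S ^ (2 * k) * ((n : ℝ) ^ 2 - ((k : ℝ) + 1) ^ 2) * ((n : ℝ) ^ 2 - k ^ 2 + k) ^ 2 ≤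
      (n * Pi2 n k) ^ 2 * ((n : ℝ) ^ 2 - k ^ 2 + k) ^ 2 := by
    calc _ = (M ^ 2 * S ^ k * ((n : ℝ) ^ 2 - k ^ 2 + k)) ^ 2 * ((n : ℝ) ^ 2 - ((k : ℝ) + 1) ^ 2) := by ring
      _ ≤ _ := h8
      _ = _ := by ring
  exact le_of_mul_le_mul_right h9 (by positivity)

theorem mbd (n k : ℕ) (hk : 1 ≤ k) (h : k + 2 ≤ n) {x1 : ℝ} (hx : IsFirst n k x1) :
    TJ n k x1 ^ 4 * Sq n k ^ (2 * k) * ((n : ℝ) ^ 2 - ((k : ℝ) + 1) ^ 2) ≤ (n * Pi2 n k) ^ 2 :=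
  mbd_gen n k hk h hx (by unfold Sq; positivity) (loc_S n k h hx)

end Pool.LK2
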