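import Pool.Agent.LK2.First

/-!
# LK2/Ric: the Riccati equation forces `|T_{k+2}| ≥ r |T_{k+1}|` somewhere in every short interval

`N0 = n² - (k+1)² > 0`, `0 ≤ x`, `0 < r`, `2 (2k+3) r ≤ N0`, `x + 4 r / N0 < 1`.  Then there is
`x' ∈ [x, x + 4 r/N0]` with `r |T_{k+1}(x')| ≤ |T_{k+2}(x')|`.

Proof.  Suppose `|T_{k+2}| < r |T_{k+1}|` on the whole interval.  Then `T_{k+1} ≠ 0` there; let `ρ = T_{k+2}/T_{k+1}`, so
`|ρ| < r`.  `ρ' = T_{k+3}/T_{k+1} - ρ²`, and by `ode n (k+1)`: `(1-y²) T_{k+3} = (2k+3) y T_{k+2} - N0 T_{k+1}`, hence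
`(1-y²) ρ' = (2k+3) y ρ - N0 - (1-y²) ρ² ≤ (2k+3) r - N0 ≤ -N0/2` for `y ∈ [0,1)`, and as `0 < 1 - y² ≤ 1`:
`ρ' ≤ -N0/2`.  Integrating over the interval of length `d = 4 r/N0` (e.g. `ρ + (N0/2) y` is antitone:
`antitoneOn_of_deriv_nonpos`): `ρ(x+d) ≤ ρ(x) - d N0/2 = ρ(x) - 2 r < r - 2 r = -r`, contradiction.
-/

open Set
open Pool.LK1 (TJ)

namespace Pool.LK2

theorem ric (n k : ℕ) (h : k + 2 ≤ n) {x r : ℝ} (hx : 0 ≤ x) (hr : 0 < r)
    (hr2 : 2 * (2 * (k : ℝ) + 3) * r ≤ (n : ℝ) ^ 2 - ((k : ℝ) + 1) ^ 2)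
    (hx1 : x + 4 * r / ((n : ℝ) ^ 2 - ((k : ℝ) + 1) ^ 2) < 1) :
    ∃ x' ∈ Icc x (x + 4 * r / ((n : ℝ) ^ 2 - ((k : ℝ) + 1) ^ 2)),
      r * |TJ n (k + 1) x'| ≤ |TJ n (k + 2) x'| := by
  have hkn : (k : ℝ) + 2 ≤ n := by exact_mod_cast h
  have hk0 : (0 : ℝ) ≤ k := Nat.cast_nonneg k
  set N0 : ℝ := (n : ℝ) ^ 2 - ((k : ℝ) + 1) ^ 2 with hN0
  have hN0pos : 0 < N0 := by
    rw [hN0]
    nlinarith
  set d : ℝ := 4 * r / N0 with hd
  have hdpos : 0 < d := by
    rw [hd]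
    positivity
  by_contra hcon
  push Not at hcon
  have hne : ∀ y ∈ Icc x (x + d), TJ n (k + 1) y ≠ 0 := by
    intro y hy h0
    have h1 := hcon y hy
    rw [h0, abs_zero, mul_zero] at h1
    exact absurd h1 (not_lt.2 (abs_nonneg _))
  have hder : ∀ y ∈ Icc x (x + d),
      HasDerivAt (fun z => TJ n (k + 2) z / TJ n (k + 1) z + N0 / 2 * z)
        ((TJ n (k + 3) y * TJ n (k + 1) y - TJ n (k + 2) y * TJ n (k + 2) y) / TJ n (k + 1) y ^ 2
          + N0 / 2) y := by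
    intro y hy
    have h1 := (Pool.LK1.TJ_hasDerivAt n (k + 2) y).div (Pool.LK1.TJ_hasDerivAt n (k + 1) y) (hne y hy)
    have h2 := (hasDerivAt_id y).const_mul (N0 / 2)
    rw [mul_one] at h2
    exact h1.add h2
  have hsign : ∀ y ∈ Icc x (x + d),
      (TJ n (k + 3) y * TJ n (k + 1) y - TJ n (k + 2) y * TJ n (k + 2) y) / TJ n (k + 1) y ^ 2
          + N0 / 2 ≤ 0 := by
    intro y hy
    have ho := ode n (k + 1) y
    have hb := hcon y hy
    have ha := hne y hy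
    have hy0 : 0 ≤ y := le_trans hx hy.1
    have hy1 : y < 1 := lt_of_le_of_lt hy.2 hx1
    have e3 : k + 1 + 2 = k + 3 := rfl
    have e2 : k + 1 + 1 = k + 2 := rfl
    rw [e3, e2] at ho
    push_cast at ho
    generalize TJ n (k + 1) y = a at *
    generalize TJ n (k + 2) y = b at *
    generalize TJ n (k + 3) y = c at *
    have ha2 : 0 < a ^ 2 := by positivity
    have hab : b * a ≤ r * a ^ 2 := by
      have h1 : b * a ≤ |b| * |a| := by
        rw [← abs_mul]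
        exact le_abs_self _
      have h2 : |b| * |a| ≤ r * |a| * |a| := mul_le_mul_of_nonneg_right hb.le (abs_nonneg a)
      have h3 : r * |a| * |a| = r * a ^ 2 := by
        rw [mul_assoc, abs_mul_abs_self]
        ring
      linarith
    have hs0 : 0 < 1 - y ^ 2 := by nlinarith
    have hs1 : 1 - y ^ 2 ≤ 1 := by nlinarith
    have hyab : y * (b * a) ≤ r * a ^ 2 := by
      rcases le_or_gt (b * a) 0 with h1 | h1
      · have : y * (b * a) ≤ 0 := mul_nonpos_of_nonneg_of_nonpos hy0 h1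
        have h2 : 0 ≤ r * a ^ 2 := by positivity
        linarith
      · have : y * (b * a) ≤ 1 * (b * a) := mul_le_mul_of_nonneg_right hy1.le h1.le
        linarith
    have hkey : (1 - y ^ 2) * (c * a) ≤ -(N0 / 2) * a ^ 2 := by
      have h1 : (1 - y ^ 2) * (c * a) = (2 * (k : ℝ) + 3) * (y * (b * a)) - N0 * a ^ 2 := by
        have h4 : (1 - y ^ 2) * (c * a) = ((1 - y ^ 2) * c) * a := by ring
        rw [h4, ho, hN0]
        ring
      rw [h1]
      have h2 : (2 * (k : ℝ) + 3) * (y * (b * a)) ≤ (2 * (k : ℝ) + 3) * (r * a ^ 2) :=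
        mul_le_mul_of_nonneg_left hyab (by positivity)
      have h3 : 2 * (2 * (k : ℝ) + 3) * r * a ^ 2 ≤ N0 * a ^ 2 :=
        mul_le_mul_of_nonneg_right hr2 ha2.le
      nlinarith
    have hca : c * a ≤ -(N0 / 2) * a ^ 2 := by
      have hneg : c * a ≤ 0 := by
        by_contra hc
        push Not at hc
        have h1 : 0 < (1 - y ^ 2) * (c * a) := mul_pos hs0 hc
        have h2 : 0 < N0 / 2 * a ^ 2 := by positivity
        linarith
      have h3 : c * a ≤ (1 - y ^ 2) * (c * a) := by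
        nlinarith [mul_nonneg (sq_nonneg y) (neg_nonneg.2 hneg)]
      linarith
    have h5 : (c * a - b * b) / a ^ 2 ≤ -(N0 / 2) := by
      rw [div_le_iff₀ ha2]
      nlinarith [mul_self_nonneg b]
    linarith
  have hanti : AntitoneOn (fun z => TJ n (k + 2) z / TJ n (k + 1) z + N0 / 2 * z) (Icc x (x + d)) := by
    refine antitoneOn_of_deriv_nonpos (convex_Icc _ _) ?_ ?_ ?_
    · exact fun y hy => (hder y hy).continuousAt.continuousWithinAt
    · intro y hy
      rw [interior_Icc] at hy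
      exact (hder y (Ioo_subset_Icc_self hy)).differentiableAt.differentiableWithinAt
    · intro y hy
      rw [interior_Icc] at hy
      rw [(hder y (Ioo_subset_Icc_self hy)).deriv]
      exact hsign y (Ioo_subset_Icc_self hy)
  have hxm : x ∈ Icc x (x + d) := ⟨le_rfl, by linarith⟩
  have hdm : x + d ∈ Icc x (x + d) := ⟨by linarith, le_rfl⟩
  have h1 := hanti hxm hdm (by linarith)
  simp only at h1
  have hratio : ∀ y ∈ Icc x (x + d), |TJ n (k + 2) y / TJ n (k + 1) y| < r := by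
    intro y hy
    rw [abs_div, div_lt_iff₀ (abs_pos.2 (hne y hy))]
    exact hcon y hy
  have h2 := (abs_lt.1 (hratio x hxm)).2
  have h3 := (abs_lt.1 (hratio (x + d) hdm)).1
  have h4 : N0 / 2 * d = 2 * r := by
    rw [hd]
    field_simp
    ring
  nlinarith

end Pool.LK2
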