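import Pool.Agent.LK2.First
import Pool.Agent.LK1.Resc
import Pool.Agent.KFL.Count

/-!
# LK2/Win: comparison with a translated Chebyshev polynomial in a window

`n = m + 1`, `σ_n = 2^m (m+1)!` (`= T_n^(n)`), `T_j = T_n^(j)`.

`win_core`: `F ∈ InF m σ_n (-1) 1`, `k + 1 ≤ m`, `|x| < 1`, `F_{k+1}(x) = 0`, `T_{k+1}(x) + u T_{k+2}(x) = 0` (`u` real).
Then `|F_k(x)| ≤ |T_k(x) + u T_{k+1}(x)|`.

Proof.  `P_j = T_j + u T_{j+1}`.  Suppose `|P_k(x)| < |F_k(x)|`, `c = P_k(x)/F_k(x)`, `|c| < 1`.  On `[0, 2]` put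
`d_j(t) = P_j(t-1) - c F_j(t-1)`, `0 ≤ j ≤ m`.  `d` is a chain: `Mvt (d_j) (d_{j+1}) 0 2` for `j + 1 < n` (mean value
theorem, `F` has derivatives within `[-1,1]`, `InF.der`).  `d_m` is strictly increasing: `P_m(y) - P_m(x) = σ_n (y-x)`
(`TJ_top`-type lemma: `T_n^(m)` is affine with slope `T_n^(n) = 2^m (m+1)!` (`TJ_top_pos`), `T_n^(m+1)` is constant), while
`|c (F_m(y) - F_m(x))| ≤ |c| σ_n |y-x|`.  So `Pcs n 0 2 δ (d_m)` with `δ = (-1)^n`.
Nodes: `z_i = cos(iπ/n)`, `i = 0..n`, `T_0(z_i) = (-1)^i` (`TJ_node`), `T_1(z_i) = 0` for `0 < i < n` (`TJ1_cos`,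
`sin(iπ/n) > 0`), `T_1(1) = n²`, `T_1(-1) = (-1)^(n+1) n²` (`parity`).  If `u ≥ 0`: for `i = 0..n-1`,
`(-1)^i P_0(z_i) ≥ 1`.  If `u ≤ 0`: for `i = 1..n`.  In both cases `(-1)^i d_0 > 0` at `n` points because `|c F_0| < 1`
(`|F_0| ≤ 1`, `|c| < 1`).  Listed from left to right this is `Alt (d 0) (Icc 0 2) (n-1) ρ` with `ρ = ± 1`
(LKI `Alt`: first sign `ρ`).  `d_k` and `d_{k+1}` vanish at `t = x + 1 ∈ (0, 2)`.
`KFL.count_double` with `P = 0`, `j = 0`, `g = 0`, `ε = 0`, `q = n - 1`: `n - 1 + 2 ≤ n`, contradiction.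

`win`: `0 < w ≤ 1`, `|x'| < 1`, `x = -1 + w (1 + x')`, `F_{k+1}(x) = 0`: `w^k |F_k(x)| ≤ |T_k(x') + u T_{k+1}(x')|`.
Proof: `InF.rescale` with centre `-1 + w` and `μ = w`: `G_j(y) = w^j F_j(-1 + w + w y) ∈ InF m (σ_n w^(m+1)) ⊆ InF m σ_n`.
-/

open Set
open Pool.LK1 (TJ InF)

namespace Pool.LK2

theorem mvt_of_der {g g' : ℝ → ℝ} {a b : ℝ}
    (h : ∀ t ∈ Icc a b, HasDerivWithinAt g (g' t) (Icc a b) t) : Pool.Agent.LKI.Mvt g g' a b := by
  intro s t hs hst ht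
  have hsub : Icc s t ⊆ Icc a b := Icc_subset_Icc hs ht
  have hc : ContinuousOn g (Icc s t) := fun z hz =>
    ((h z (hsub hz)).continuousWithinAt).mono hsub
  have hd : ∀ z ∈ Ioo s t, HasDerivAt g (g' z) z := by
    intro z hz
    have hz' : z ∈ Icc a b := hsub (Ioo_subset_Icc_self hz)
    exact (h z hz').hasDerivAt (Icc_mem_nhds (by linarith [hz.1]) (by linarith [hz.2]))
  obtain ⟨z, hz, he⟩ := exists_hasDerivAt_eq_slope g g' hst hc hd
  have hts : 0 < t - s := by linarith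
  refine ⟨fun h1 => ⟨z, hz, ?_⟩, fun h1 => ⟨z, hz, ?_⟩⟩
  · rw [he]
    exact div_pos (by linarith) hts
  · rw [he]
    exact div_neg_of_neg_of_pos (by linarith) hts

theorem TJ1_node (n i : ℕ) (h0 : 0 < i) (hi : i < n) : TJ n 1 (Real.cos (i * Real.pi / n)) = 0 := by
  have hn : (0 : ℝ) < n := by
    have : 0 < n := by omega
    exact_mod_cast this
  have h := Pool.LK1.TJ1_cos n (i * Real.pi / n)
  have e : (n : ℝ) * (i * Real.pi / n) = i * Real.pi := by field_simp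
  rw [e, Real.sin_nat_mul_pi, mul_zero] at h
  have hs : 0 < Real.sin (i * Real.pi / n) := by
    apply Real.sin_pos_of_pos_of_lt_pi
    · have : (0 : ℝ) < i := by exact_mod_cast h0
      positivity
    · rw [div_lt_iff₀ hn]
      have : (i : ℝ) < n := by exact_mod_cast hi
      nlinarith [Real.pi_pos]
  exact (mul_eq_zero.1 h).resolve_right hs.ne'

theorem node_val (n i : ℕ) (hn : 1 ≤ n) (hi : i ≤ n) {u : ℝ}
    (hu : (0 ≤ u ∧ i < n) ∨ (u ≤ 0 ∧ 0 < i)) :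
    1 ≤ (-1) ^ i * (TJ n 0 (Real.cos (i * Real.pi / n)) + u * TJ n 1 (Real.cos (i * Real.pi / n))) := by
  have hsq : ((-1 : ℝ) ^ i) * (-1) ^ i = 1 := Pool.Agent.KFL.neg_one_sq_pow i
  have hnp : (0 : ℝ) < n := by exact_mod_cast hn
  by_cases hmid : 0 < i ∧ i < n
  · rw [TJ1_node n i hmid.1 hmid.2, Pool.LK1.TJ_node n i hn, mul_zero, add_zero, hsq]
  · rcases hu with ⟨hu, hin⟩ | ⟨hu, hi0⟩
    · have h0 : i = 0 := by
        by_contra hne
        exact hmid ⟨Nat.pos_of_ne_zero hne, hin⟩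
      subst h0
      have h1 := Pool.LK1.TJ_node n 0 hn
      rw [h1]
      have e : Real.cos (((0 : ℕ) : ℝ) * Real.pi / n) = 1 := by simp
      rw [e, Pool.LK1.TJ_one_one, pow_zero, one_mul]
      have : 0 ≤ u * (n : ℝ) ^ 2 := by positivity
      linarith
    · have h0 : i = n := by
        by_contra hne
        exact hmid ⟨hi0, lt_of_le_of_ne hi hne⟩
      subst h0
      have h1 := Pool.LK1.TJ_node i i hn
      rw [h1]
      have e : Real.cos ((i : ℝ) * Real.pi / i) = -1 := by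
        rw [mul_div_assoc, mul_div_cancel₀]
        · exact Real.cos_pi
        · exact hnp.ne'
      have h2 : TJ i 1 (-1) = (-1) ^ (i + 1) * (i : ℝ) ^ 2 := by
        rw [parity, Pool.LK1.TJ_one_one]
      rw [e, h2, mul_add, hsq, pow_succ]
      have : (-1 : ℝ) ^ i * (u * ((-1) ^ i * -1 * (i : ℝ) ^ 2)) = -(u * (i : ℝ) ^ 2) := by
        calc (-1 : ℝ) ^ i * (u * ((-1) ^ i * -1 * (i : ℝ) ^ 2))
            = -(((-1 : ℝ) ^ i * (-1) ^ i) * (u * (i : ℝ) ^ 2)) := by ring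
          _ = -(u * (i : ℝ) ^ 2) := by rw [hsq, one_mul]
      rw [this]
      have : u * (i : ℝ) ^ 2 ≤ 0 := mul_nonpos_of_nonpos_of_nonneg hu (by positivity)
      linarith

theorem cos_node_lt (n i : ℕ) (hi : i < n) :
    Real.cos (((i + 1 : ℕ) : ℝ) * Real.pi / n) < Real.cos ((i : ℝ) * Real.pi / n) := by
  have hn : (0 : ℝ) < n := by
    have : 0 < n := by omega
    exact_mod_cast this
  apply Real.cos_lt_cos_of_nonneg_of_le_pi
  · positivity
  · rw [div_le_iff₀ hn]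
    have : ((i + 1 : ℕ) : ℝ) ≤ n := by exact_mod_cast hi
    nlinarith [Real.pi_pos]
  · apply div_lt_div_of_pos_right _ hn
    push_cast
    nlinarith [Real.pi_pos]

theorem win_core (m k : ℕ) (hk : k + 1 ≤ m) {F : ℕ → ℝ → ℝ}
    (hF : InF m (2 ^ m * ((m + 1).factorial : ℝ)) (-1) 1 F) {x u : ℝ} (hx : |x| < 1) (hF0 : F (k + 1) x = 0)
    (hu : TJ (m + 1) (k + 1) x + u * TJ (m + 1) (k + 2) x = 0) :
    |F k x| ≤ |TJ (m + 1) k x + u * TJ (m + 1) (k + 1) x| := by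
  by_contra hcon
  push Not at hcon
  have hFk : F k x ≠ 0 := by
    intro h0
    rw [h0, abs_zero] at hcon
    exact absurd hcon (not_lt.2 (abs_nonneg _))
  obtain ⟨c, hc⟩ : ∃ c, c = (TJ (m + 1) k x + u * TJ (m + 1) (k + 1) x) / F k x := ⟨_, rfl⟩
  have hc1 : |c| < 1 := by
    rw [hc, abs_div, div_lt_one (abs_pos.2 hFk)]
    exact hcon
  have hcF : c * F k x = TJ (m + 1) k x + u * TJ (m + 1) (k + 1) x := by
    rw [hc, div_mul_cancel₀ _ hFk]
  have hx' := abs_lt.1 hx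
  obtain ⟨d, hd⟩ : ∃ d : ℕ → ℝ → ℝ, d = fun j t =>
    (TJ (m + 1) j (t - 1) + u * TJ (m + 1) (j + 1) (t - 1)) - c * F j (t - 1) := ⟨_, rfl⟩
  have hmaps : ∀ t ∈ Icc (0 : ℝ) 2, t - 1 ∈ Icc (-1 : ℝ) 1 := fun t ht =>
    ⟨by linarith [ht.1], by linarith [ht.2]⟩
  have hchain : ∀ j, j + 1 < m + 1 → Pool.Agent.LKI.Mvt (d j) (d (j + 1)) 0 2 := by
    intro j hj
    apply mvt_of_der
    intro t ht
    have haff : HasDerivWithinAt (fun t : ℝ => t - 1) 1 (Icc (0 : ℝ) 2) t :=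
      (hasDerivWithinAt_id t _).sub_const 1
    have h1 : HasDerivWithinAt (fun t => TJ (m + 1) j (t - 1)) (TJ (m + 1) (j + 1) (t - 1))
        (Icc (0 : ℝ) 2) t := by
      have := (Pool.LK1.TJ_hasDerivAt (m + 1) j (t - 1)).comp_hasDerivWithinAt t haff
      rwa [mul_one] at this
    have h2 : HasDerivWithinAt (fun t => TJ (m + 1) (j + 1) (t - 1))
        (TJ (m + 1) (j + 1 + 1) (t - 1)) (Icc (0 : ℝ) 2) t := by
      have := (Pool.LK1.TJ_hasDerivAt (m + 1) (j + 1) (t - 1)).comp_hasDerivWithinAt t haff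
      rwa [mul_one] at this
    have h3 : HasDerivWithinAt (fun t => F j (t - 1)) (F (j + 1) (t - 1)) (Icc (0 : ℝ) 2) t := by
      have := HasDerivWithinAt.comp (h := fun t : ℝ => t - 1) (h₂ := F j) t
        (hF.der j (by omega) (t - 1) (hmaps t ht)) haff (fun z hz => hmaps z hz)
      rwa [mul_one] at this
    rw [hd]
    exact (h1.add (h2.const_mul u)).sub (h3.const_mul c)
  have hσ : (0 : ℝ) ≤ 2 ^ m * ((m + 1).factorial : ℝ) := by positivity
  have hPcs : Pool.Agent.KFL.Pcs (m + 1) 0 2 ((-1) ^ (m + 1)) (d (m + 1 - 1)) := by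
    refine ⟨fun i => 2 * (i : ℝ), by simp, by simp, ?_, ?_⟩
    · intro i _
      push_cast
      linarith
    · intro i hi s hs t ht hst
      have hi0 : i = 0 := by omega
      subst hi0
      have hs' : s ∈ Icc (0 : ℝ) 2 := by
        simpa using hs
      have ht' : t ∈ Icc (0 : ℝ) 2 := by
        simpa using ht
      rw [add_zero, Pool.Agent.KFL.neg_one_sq_pow, one_mul, Nat.add_sub_cancel, hd]
      have e1 := Pool.LK1.TJ_top m (s - 1) (t - 1)
      have e2 : TJ (m + 1) (m + 1) (t - 1) = TJ (m + 1) (m + 1) (s - 1) := by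
        rw [TJ_top_pos _ (by omega), TJ_top_pos _ (by omega)]
      have e3 := hF.lip _ (hmaps t ht') _ (hmaps s hs')
      rw [show t - 1 - (s - 1) = t - s by ring, abs_of_pos (by linarith : 0 < t - s)] at e3
      have e4 : c * (F m (t - 1) - F m (s - 1)) ≤ 2 ^ m * ((m + 1).factorial : ℝ) * (t - s) := by
        calc c * (F m (t - 1) - F m (s - 1)) ≤ |c * (F m (t - 1) - F m (s - 1))| := le_abs_self _
          _ = |c| * |F m (t - 1) - F m (s - 1)| := abs_mul _ _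
          _ ≤ 1 * |F m (t - 1) - F m (s - 1)| :=
              mul_le_mul_of_nonneg_right hc1.le (abs_nonneg _)
          _ ≤ _ := by rw [one_mul]; exact e3
      show 0 ≤ (TJ (m + 1) m (t - 1) + u * TJ (m + 1) (m + 1) (t - 1)) - c * F m (t - 1) -
        ((TJ (m + 1) m (s - 1) + u * TJ (m + 1) (m + 1) (s - 1)) - c * F m (s - 1))
      rw [e2]
      have e5 : t - 1 - (s - 1) = t - s := by ring
      rw [e5] at e1
      linarith
  -- the alternation
  have hval : ∀ i, i ≤ m + 1 → ((0 ≤ u ∧ i < m + 1) ∨ (u ≤ 0 ∧ 0 < i)) →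
      0 < (-1) ^ i * d 0 (Real.cos (i * Real.pi / ((m + 1 : ℕ) : ℝ)) + 1) := by
    intro i hi hui
    have h1 := node_val (m + 1) i (by omega) hi hui
    have hz : Real.cos (i * Real.pi / ((m + 1 : ℕ) : ℝ)) ∈ Icc (-1 : ℝ) 1 :=
      ⟨Real.neg_one_le_cos _, Real.cos_le_one _⟩
    have h2 := hF.bd _ hz
    have h3 : (-1) ^ i * (c * F 0 (Real.cos (i * Real.pi / ((m + 1 : ℕ) : ℝ)))) < 1 := by
      calc (-1) ^ i * (c * F 0 (Real.cos (i * Real.pi / ((m + 1 : ℕ) : ℝ))))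
          ≤ |(-1) ^ i * (c * F 0 (Real.cos (i * Real.pi / ((m + 1 : ℕ) : ℝ))))| := le_abs_self _
        _ = |c| * |F 0 (Real.cos (i * Real.pi / ((m + 1 : ℕ) : ℝ)))| := by
            rw [abs_mul, abs_mul, abs_pow, abs_neg, abs_one, one_pow, one_mul]
        _ ≤ |c| * 1 := mul_le_mul_of_nonneg_left h2 (abs_nonneg _)
        _ < 1 := by rw [mul_one]; exact hc1
    rw [hd]
    show 0 < (-1) ^ i * ((TJ (m + 1) 0 (Real.cos (i * Real.pi / ((m + 1 : ℕ) : ℝ)) + 1 - 1) +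
      u * TJ (m + 1) (0 + 1) (Real.cos (i * Real.pi / ((m + 1 : ℕ) : ℝ)) + 1 - 1)) -
      c * F 0 (Real.cos (i * Real.pi / ((m + 1 : ℕ) : ℝ)) + 1 - 1))
    rw [add_sub_cancel_right, zero_add, mul_sub]
    linarith
  have hmem : ∀ i : ℕ, Real.cos (i * Real.pi / ((m + 1 : ℕ) : ℝ)) + 1 ∈ Icc (0 : ℝ) 2 := fun i =>
    ⟨by linarith [Real.neg_one_le_cos (i * Real.pi / ((m + 1 : ℕ) : ℝ))],
      by linarith [Real.cos_le_one (i * Real.pi / ((m + 1 : ℕ) : ℝ))]⟩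
  have hAlt : ∃ ρ : ℝ, Pool.Agent.LKI.Alt (d 0) (Icc 0 2) m ρ := by
    rcases le_total 0 u with h0 | h0
    · refine ⟨(-1) ^ m, fun i => Real.cos (((m - i : ℕ) : ℝ) * Real.pi / ((m + 1 : ℕ) : ℝ)) + 1,
        fun i _ => hmem _, fun i hi => ?_, fun i hi => ?_⟩
      · have h1 := cos_node_lt (m + 1) (m - (i + 1)) (by omega)
        rw [show m - (i + 1) + 1 = m - i by omega] at h1
        linarith
      · have h1 := hval (m - i) (by omega) (Or.inl ⟨h0, by omega⟩)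
        have e : (-1 : ℝ) ^ m * (-1) ^ i = (-1) ^ (m - i) := by
          obtain ⟨r, hr⟩ : ∃ r, m = r + i := ⟨m - i, by omega⟩
          rw [hr, Nat.add_sub_cancel, pow_add, mul_assoc, Pool.Agent.KFL.neg_one_sq_pow, mul_one]
        rw [e]
        exact h1
    · refine ⟨(-1) ^ (m + 1), fun i => Real.cos (((m + 1 - i : ℕ) : ℝ) * Real.pi / ((m + 1 : ℕ) : ℝ)) + 1,
        fun i _ => hmem _, fun i hi => ?_, fun i hi => ?_⟩
      · have h1 := cos_node_lt (m + 1) (m + 1 - (i + 1)) (by omega)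
        rw [show m + 1 - (i + 1) + 1 = m + 1 - i by omega] at h1
        linarith
      · have h1 := hval (m + 1 - i) (by omega) (Or.inr ⟨h0, by omega⟩)
        have e : (-1 : ℝ) ^ (m + 1) * (-1) ^ i = (-1) ^ (m + 1 - i) := by
          obtain ⟨r, hr⟩ : ∃ r, m + 1 = r + i := ⟨m + 1 - i, by omega⟩
          rw [hr, Nat.add_sub_cancel, pow_add, mul_assoc, Pool.Agent.KFL.neg_one_sq_pow, mul_one]
        rw [e]
        exact h1
  obtain ⟨ρ, hAlt⟩ := hAlt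
  have hd0 : d k (x + 1) = 0 := by
    rw [hd]
    show (TJ (m + 1) k (x + 1 - 1) + u * TJ (m + 1) (k + 1) (x + 1 - 1)) - c * F k (x + 1 - 1) = 0
    rw [add_sub_cancel_right, hcF, sub_self]
  have hd1 : d (k + 1) (x + 1) = 0 := by
    rw [hd]
    show (TJ (m + 1) (k + 1) (x + 1 - 1) + u * TJ (m + 1) (k + 1 + 1) (x + 1 - 1)) -
      c * F (k + 1) (x + 1 - 1) = 0
    rw [add_sub_cancel_right, hF0, mul_zero, sub_zero]
    exact hu
  have hfin := Pool.Agent.KFL.count_double (n := m + 1) (P := 0) (k := k) (b := 2)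
    (δ := (-1) ^ (m + 1)) (y := x + 1) (d := d) (pow_ne_zero _ (by norm_num)) hchain hPcs
    (by omega) (by linarith [hx'.1]) (by linarith [hx'.2]) hd0 hd1 k 0 (by omega) 0 m ρ 0
    (by omega) hAlt ⟨fun i => i, fun i hi => absurd hi (Nat.not_lt_zero _),
      fun i hi => absurd hi (Nat.not_lt_zero _), fun i hi => absurd hi (Nat.not_lt_zero _)⟩
    (Or.inl rfl)
  omega

theorem win (m k : ℕ) (hk : k + 1 ≤ m) {F : ℕ → ℝ → ℝ}
    (hF : InF m (2 ^ m * ((m + 1).factorial : ℝ)) (-1) 1 F) {x' w u : ℝ} (hw : 0 < w) (hw1 : w ≤ 1)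
    (hx : |x'| < 1) (hF0 : F (k + 1) (-1 + w * (1 + x')) = 0)
    (hu : TJ (m + 1) (k + 1) x' + u * TJ (m + 1) (k + 2) x' = 0) :
    w ^ k * |F k (-1 + w * (1 + x'))| ≤ |TJ (m + 1) k x' + u * TJ (m + 1) (k + 1) x'| := by
  have h := hF.rescale (u := -1 + w) (μ := w) hw (by linarith) (by linarith)
  have e : -1 + w + w * x' = -1 + w * (1 + x') := by ring
  have hG : InF m (2 ^ m * ((m + 1).factorial : ℝ)) (-1) 1 (fun j y => w ^ j * F j (-1 + w + w * y)) := by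
    refine ⟨h.der, fun a ha b hb => (h.lip a ha b hb).trans ?_, h.bd⟩
    apply mul_le_mul_of_nonneg_right _ (abs_nonneg _)
    have h1 : w ^ (m + 1) ≤ 1 := pow_le_one₀ hw.le hw1
    have h2 : (0 : ℝ) ≤ 2 ^ m * ((m + 1).factorial : ℝ) := by positivity
    nlinarith
  have h0 : (fun j y => w ^ j * F j (-1 + w + w * y)) (k + 1) x' = 0 := by
    show w ^ (k + 1) * F (k + 1) (-1 + w + w * x') = 0
    rw [e, hF0, mul_zero]
  have h1 := win_core m k hk hG hx h0 hu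
  have h2 : |w ^ k * F k (-1 + w + w * x')| ≤ |TJ (m + 1) k x' + u * TJ (m + 1) (k + 1) x'| := h1
  rw [e, abs_mul, abs_of_pos (pow_pos hw k)] at h2
  exact h2

end Pool.LK2
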