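import Pool.Agent.LK2.Son
import Pool.Agent.LK2.Ric
import Pool.Agent.LK2.Win
import Pool.Agent.LK2.MBd

/-!
# LK2/CBd: interior critical values of the class `σ_n` are at most `C |T_n^(k)(x1)|`

`n = m + 1`, `6 ≤ k`, `k + 3 ≤ n`, `F ∈ InF m σ_n (-1) 1`, `0 ≤ x ≤ x1`, `F_{k+1}(x) = 0`, `N0 = n² - (k+1)²`,
`0 < S ≤ 1 - x1²`, and `K ≥ 0` with `(5k)² (n²-k²) ≤ K² S N0²`.  Then `|F_k(x)| ≤ e^(4/5) (1 + K) |T_k(x1)|`.

Proof.  `r = N0/(5k)`: `2 (2k+3) r ≤ N0` iff `4k + 6 ≤ 5k` (`k ≥ 6`); `d = 4 r/N0 = 4/(5k)`.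
Case A: `x + d ≤ x1` (`< 1`).  `ric`: `x' ∈ [x, x+d]` with `r |T_{k+1}(x')| ≤ |T_{k+2}(x')|`.  Let `w = (1+x)/(1+x') ∈ (0,1]`
(so `x = -1 + w (1+x')`).  Choose `u`: if `T_{k+1}(x') = 0` put `u = 0`, otherwise `T_{k+2}(x') ≠ 0` and
`u = -T_{k+1}(x')/T_{k+2}(x')`, `|u| ≤ 1/r`.  `win`: `w^k |F_k(x)| ≤ |T_k(x')| + |u| |T_{k+1}(x')|`.
`|T_k(x')| ≤ M := |T_k(x1)|` (`abs_le_first`) and `S T_{k+1}(x')² ≤ (n²-k²) M²` (`sq_succ_le`, `S ≤ 1 - x1²`), so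
`(|u| |T_{k+1}(x')|)² ≤ (n²-k²) M²/(S r²) = 25 k² (n²-k²) M²/(S N0²) ≤ K² M²`.  So `w^k |F_k(x)| ≤ (1+K) M`, and
`w^(-k) = ((1+x')/(1+x))^k ≤ (1 + d)^k ≤ e^(k d) = e^(4/5)` (`x ≥ 0`; `Real.add_one_le_exp`).
Case B: `x + d > x1`: `x' = x1`, `u = 0`, `w = (1+x)/(1+x1)`: `w^k |F_k(x)| ≤ M`, `w^(-k) ≤ (1+d)^k ≤ e^(4/5)`.
(`S > 0` follows from the hypothesis.)
-/

open Set
open Pool.LK1 (TJ InF)

namespace Pool.LK2

private theorem cbd_exp {k : ℕ} (hk : 1 ≤ k) {x x' : ℝ} (hx0 : 0 ≤ x) (h1 : x ≤ x')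
    (h2 : x' ≤ x + 4 / (5 * (k : ℝ))) :
    1 ≤ ((1 + x) / (1 + x')) ^ k * Real.exp (4 / 5) := by
  have hk0 : (0 : ℝ) < k := by exact_mod_cast hk
  have hp : 0 < 1 + x := by linarith
  have hp' : 0 < 1 + x' := by linarith
  have hd : 0 < 4 / (5 * (k : ℝ)) := by positivity
  have h3 : 1 ≤ (1 + x) / (1 + x') * Real.exp (4 / (5 * (k : ℝ))) := by
    have h4 := Real.add_one_le_exp (4 / (5 * (k : ℝ)))
    have h5 : 1 ≤ (1 + x) / (1 + x') * (4 / (5 * (k : ℝ)) + 1) := by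
      rw [div_mul_eq_mul_div, le_div_iff₀ hp']
      nlinarith [mul_nonneg hx0 hd.le]
    refine h5.trans ?_
    exact mul_le_mul_of_nonneg_left h4 (div_nonneg hp.le hp'.le)
  have h6 : ((1 + x) / (1 + x') * Real.exp (4 / (5 * (k : ℝ)))) ^ k =
      ((1 + x) / (1 + x')) ^ k * Real.exp (4 / 5) := by
    rw [mul_pow, ← Real.exp_nat_mul]
    congr 2
    field_simp
  rw [← h6]
  exact one_le_pow₀ h3

private theorem cbd_fin {k : ℕ} {w f B : ℝ} (hf : 0 ≤ f) (hB : w ^ k * f ≤ B)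
    (h1 : 1 ≤ w ^ k * Real.exp (4 / 5)) : f ≤ Real.exp (4 / 5) * B := by
  have he : 0 < Real.exp (4 / 5) := Real.exp_pos _
  calc f = 1 * f := (one_mul f).symm
    _ ≤ (w ^ k * Real.exp (4 / 5)) * f := mul_le_mul_of_nonneg_right h1 hf
    _ = Real.exp (4 / 5) * (w ^ k * f) := by ring
    _ ≤ Real.exp (4 / 5) * B := mul_le_mul_of_nonneg_left hB he.le

theorem cbd (m k : ℕ) (hk : 6 ≤ k) (hkm : k + 2 ≤ m) {F : ℕ → ℝ → ℝ}
    (hF : InF m (2 ^ m * ((m + 1).factorial : ℝ)) (-1) 1 F) {x x1 S K : ℝ} (hx1 : IsFirst (m + 1) k x1)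
    (hx0 : 0 ≤ x) (hxx : x ≤ x1) (hF0 : F (k + 1) x = 0) (hS0 : 0 < S) (hS : S ≤ 1 - x1 ^ 2) (hK0 : 0 ≤ K)
    (hK : (5 * (k : ℝ)) ^ 2 * (((m : ℝ) + 1) ^ 2 - k ^ 2) ≤
      K ^ 2 * S * (((m : ℝ) + 1) ^ 2 - ((k : ℝ) + 1) ^ 2) ^ 2) :
    |F k x| ≤ Real.exp (4 / 5) * (1 + K) * |TJ (m + 1) k x1| := by
  have hk6 : (6 : ℝ) ≤ k := by exact_mod_cast hk
  have hk0 : (0 : ℝ) < k := by linarith
  have hkm' : (k : ℝ) + 2 ≤ m := by exact_mod_cast hkm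
  have hN0 : 0 < ((m : ℝ) + 1) ^ 2 - ((k : ℝ) + 1) ^ 2 := by nlinarith
  have hNk : 0 < ((m : ℝ) + 1) ^ 2 - (k : ℝ) ^ 2 := by nlinarith
  have hM0 : 0 ≤ |TJ (m + 1) k x1| := abs_nonneg _
  have hx1l := hx1.lt_one
  rw [mul_assoc]
  by_cases hcase : x + 4 / (5 * (k : ℝ)) ≤ x1
  · -- case A
    obtain ⟨N0, hN0'⟩ : ∃ N0 : ℝ, N0 = ((m : ℝ) + 1) ^ 2 - ((k : ℝ) + 1) ^ 2 := ⟨_, rfl⟩
    rw [← hN0'] at hN0 hK
    have hr : 0 < N0 / (5 * (k : ℝ)) := by positivity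
    have hd : 4 * (N0 / (5 * (k : ℝ))) / N0 = 4 / (5 * (k : ℝ)) := by
      field_simp
    have hric := ric (m + 1) k (by omega) (x := x) (r := N0 / (5 * (k : ℝ))) hx0 hr (by
        push_cast
        rw [← hN0', ← mul_div_assoc, div_le_iff₀ (by positivity)]
        nlinarith) (by
        push_cast
        rw [← hN0', hd]
        linarith)
    push_cast at hric
    rw [← hN0', hd] at hric
    obtain ⟨x', ⟨hx'1, hx'2⟩, hr'⟩ := hric
    have hx'0 : 0 ≤ x' := hx0.trans hx'1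
    have hx'x1 : x' ≤ x1 := hx'2.trans hcase
    have hx'lt : x' < 1 := lt_of_le_of_lt hx'x1 hx1l
    have habs : |x'| = x' := abs_of_nonneg hx'0
    have hp' : 0 < 1 + x' := by linarith
    have hw : 0 < (1 + x) / (1 + x') := div_pos (by linarith) hp'
    have hw1 : (1 + x) / (1 + x') ≤ 1 := by
      rw [div_le_one hp']; linarith
    have hxw : -1 + (1 + x) / (1 + x') * (1 + x') = x := by
      rw [div_mul_cancel₀ _ hp'.ne']; ring
    obtain ⟨u, hu⟩ : ∃ u : ℝ, u = -TJ (m + 1) (k + 1) x' / TJ (m + 1) (k + 2) x' := ⟨_, rfl⟩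
    have hu1 : TJ (m + 1) (k + 1) x' + u * TJ (m + 1) (k + 2) x' = 0 ∧
        |u| * (N0 / (5 * (k : ℝ))) ≤ 1 := by
      by_cases h0 : TJ (m + 1) (k + 2) x' = 0
      · have h1 : TJ (m + 1) (k + 1) x' = 0 := by
          rw [h0, abs_zero] at hr'
          have h2 : |TJ (m + 1) (k + 1) x'| ≤ 0 := by
            by_contra hcon
            push Not at hcon
            exact absurd hr' (not_le.2 (mul_pos hr hcon))
          exact abs_eq_zero.1 (le_antisymm h2 (abs_nonneg _))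
        rw [h0, h1]
        rw [h0, div_zero] at hu
        rw [hu]
        simp
      · refine ⟨?_, ?_⟩
        · rw [hu, div_mul_cancel₀ _ h0]; ring
        · have h0' : 0 < |TJ (m + 1) (k + 2) x'| := abs_pos.2 h0
          rw [hu, abs_div, abs_neg, div_mul_eq_mul_div, div_le_one h0', mul_comm]
          exact hr'
    obtain ⟨hu1, hu2⟩ := hu1
    have hwin := win m k (by omega) hF (x' := x') (w := (1 + x) / (1 + x')) (u := u) hw hw1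
      (by rw [habs]; exact hx'lt) (by rw [hxw]; exact hF0) hu1
    rw [hxw] at hwin
    have hT : |TJ (m + 1) k x'| ≤ |TJ (m + 1) k x1| :=
      abs_le_first (m + 1) k (by omega) (by omega) hx1 (by rw [habs]; exact hx'x1)
    have hsq := sq_succ_le (m + 1) k (by omega) (by omega) hx1 (x := x') (by rw [habs]; exact hx'x1)
    push_cast at hsq
    obtain ⟨T, hTd⟩ : ∃ T : ℝ, T = TJ (m + 1) (k + 1) x' := ⟨_, rfl⟩
    obtain ⟨M, hMd⟩ : ∃ M : ℝ, M = TJ (m + 1) k x1 := ⟨_, rfl⟩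
    rw [← hTd, ← hMd] at hsq
    rw [← hMd] at hM0 hT
    have hST : S * T ^ 2 ≤ (((m : ℝ) + 1) ^ 2 - (k : ℝ) ^ 2) * M ^ 2 :=
      (mul_le_mul_of_nonneg_right hS (sq_nonneg T)).trans hsq
    have hu3 : u ^ 2 * N0 ^ 2 ≤ (5 * (k : ℝ)) ^ 2 := by
      have h1 : |u| * N0 ≤ 5 * (k : ℝ) := by
        have h2 : |u| * (N0 / (5 * (k : ℝ))) = |u| * N0 / (5 * (k : ℝ)) := by ring
        rw [h2, div_le_one (by positivity)] at hu2
        exact hu2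
      have h3 : 0 ≤ |u| * N0 := mul_nonneg (abs_nonneg _) hN0.le
      calc u ^ 2 * N0 ^ 2 = (|u| * N0) ^ 2 := by rw [mul_pow, sq_abs]
        _ ≤ (5 * (k : ℝ)) ^ 2 := pow_le_pow_left₀ h3 h1 2
    have hmain : (u * T) ^ 2 ≤ (K * M) ^ 2 := by
      have hpos : 0 < S * N0 ^ 2 := by positivity
      have h1 : (S * N0 ^ 2) * (u * T) ^ 2 ≤ (S * N0 ^ 2) * (K * M) ^ 2 := by
        calc (S * N0 ^ 2) * (u * T) ^ 2 = (u ^ 2 * N0 ^ 2) * (S * T ^ 2) := by ring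
          _ ≤ (5 * (k : ℝ)) ^ 2 * (S * T ^ 2) :=
              mul_le_mul_of_nonneg_right hu3 (by positivity)
          _ ≤ (5 * (k : ℝ)) ^ 2 * ((((m : ℝ) + 1) ^ 2 - (k : ℝ) ^ 2) * M ^ 2) :=
              mul_le_mul_of_nonneg_left hST (by positivity)
          _ = ((5 * (k : ℝ)) ^ 2 * (((m : ℝ) + 1) ^ 2 - (k : ℝ) ^ 2)) * M ^ 2 := by ring
          _ ≤ (K ^ 2 * S * N0 ^ 2) * M ^ 2 := mul_le_mul_of_nonneg_right hK (sq_nonneg _)
          _ = (S * N0 ^ 2) * (K * M) ^ 2 := by ring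
      exact le_of_mul_le_mul_left h1 hpos
    have huT : |u * T| ≤ K * |M| := by
      have h1 := sq_le_sq.1 hmain
      rw [abs_mul K M, abs_of_nonneg hK0] at h1
      exact h1
    have hB : ((1 + x) / (1 + x')) ^ k * |F k x| ≤ (1 + K) * |TJ (m + 1) k x1| := by
      refine hwin.trans ?_
      rw [← hTd, ← hMd]
      calc |TJ (m + 1) k x' + u * T| ≤ |TJ (m + 1) k x'| + |u * T| := abs_add_le _ _
        _ ≤ |M| + K * |M| := add_le_add hT huT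
        _ = (1 + K) * |M| := by ring
    exact cbd_fin (abs_nonneg _) hB (cbd_exp (by omega) hx0 hx'1 hx'2)
  · -- case B
    push Not at hcase
    have hp' : 0 < 1 + x1 := by linarith [hx1.nonneg]
    have hw : 0 < (1 + x) / (1 + x1) := div_pos (by linarith) hp'
    have hw1 : (1 + x) / (1 + x1) ≤ 1 := by
      rw [div_le_one hp']; linarith
    have hxw : -1 + (1 + x) / (1 + x1) * (1 + x1) = x := by
      rw [div_mul_cancel₀ _ hp'.ne']; ring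
    have hwin := win m k (by omega) hF (x' := x1) (w := (1 + x) / (1 + x1)) (u := 0) hw hw1
      (by rw [abs_of_nonneg hx1.nonneg]; exact hx1l) (by rw [hxw]; exact hF0)
      (by rw [hx1.zero]; ring)
    rw [hxw, zero_mul, add_zero] at hwin
    have hB : ((1 + x) / (1 + x1)) ^ k * |F k x| ≤ (1 + K) * |TJ (m + 1) k x1| := by
      refine hwin.trans ?_
      nlinarith [mul_nonneg hK0 hM0]
    exact cbd_fin (abs_nonneg _) hB (cbd_exp (by omega) hx0 hxx hcase.le)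

end Pool.LK2
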