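import Pool.Agent.LK2.First

/-!
# LK2/Zsp: spacing of the zeros of `T_n^(k+1)` (Sturm comparison through the Riccati equation)

`κ = k + 3/2`, `N0 = n² - (k+1)²`, `0 < S ≤ 1 - x1²`, `0 < β`, `β² ≤ N0 + κ` and
`β² S² ≤ S (n² - 1/4) - κ (κ - 2)`.  Then every `[x, x + π/β]`, `-x1 ≤ x ≤ x1`, contains a zero `x' ≤ x1` of
`T_n^(k+1)` (`zsp'`; `zsp` is the case `0 ≤ x`).

Proof.  If `x1 ≤ x + π/β`: `x' = x1`.  Otherwise suppose `T_{k+1} ≠ 0` on `[x, x + π/β] ⊆ [-x1, x1)`.  Put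
`v = T_{k+2}/T_{k+1} - κ y/(1-y²)`.  By `ode n (k+1)`, with `t = 1 - y²`:
`v' + v² = -(t (n² - 1/4) - κ (κ-2))/t²`, and `β² t² ≤ t (n² - 1/4) - κ (κ-2)` for `S ≤ t ≤ 1` (convexity in `t`), so
`v' ≤ -(v² + β²)`.  Hence `y + arctan(v/β)/β` is antitone on the interval, but it would have to decrease the
arctangent by `π`.
-/

open Set
open Pool.LK1 (TJ)

namespace Pool.LK2

theorem zsp' (n k : ℕ) (_h : k + 2 ≤ n) {x1 : ℝ} (hx : IsFirst n k x1) {S β x : ℝ} (hS0 : 0 < S)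
    (hS : S ≤ 1 - x1 ^ 2) (hβ : 0 < β)
    (h1 : β ^ 2 ≤ (n : ℝ) ^ 2 - ((k : ℝ) + 1) ^ 2 + ((k : ℝ) + 3 / 2))
    (h2 : β ^ 2 * S ^ 2 ≤ S * ((n : ℝ) ^ 2 - 1 / 4) - ((k : ℝ) + 3 / 2) * ((k : ℝ) - 1 / 2))
    (hx0 : -x1 ≤ x) (hxx : x ≤ x1) :
    ∃ x' ∈ Icc x (x + Real.pi / β), x' ≤ x1 ∧ TJ n (k + 1) x' = 0 := by
  have hd : 0 < Real.pi / β := div_pos Real.pi_pos hβ
  rcases le_or_gt x1 (x + Real.pi / β) with hc | hc
  · exact ⟨x1, ⟨hxx, hc⟩, le_rfl, hx.zero⟩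
  by_contra hcon
  push Not at hcon
  have hne : ∀ y ∈ Icc x (x + Real.pi / β), TJ n (k + 1) y ≠ 0 := fun y hy =>
    hcon y hy (hy.2.trans hc.le)
  have hk0 : (0 : ℝ) ≤ k := Nat.cast_nonneg k
  -- `t = 1 - y²`
  have ht : ∀ y ∈ Icc x (x + Real.pi / β), S ≤ 1 - y ^ 2 ∧ 1 - y ^ 2 ≤ 1 := by
    intro y hy
    have hy0 : -x1 ≤ y := hx0.trans hy.1
    have hy1 : y ≤ x1 := hy.2.trans hc.le
    constructor
    · nlinarith [mul_nonneg (by linarith : 0 ≤ x1 - y) (by linarith : 0 ≤ x1 + y)]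
    · nlinarith [sq_nonneg y]
  set v : ℝ → ℝ := fun y => TJ n (k + 2) y / TJ n (k + 1) y - ((k : ℝ) + 3 / 2) * (y / (1 - y ^ 2)) with hv
  set v' : ℝ → ℝ := fun y =>
    (TJ n (k + 3) y * TJ n (k + 1) y - TJ n (k + 2) y * TJ n (k + 2) y) / TJ n (k + 1) y ^ 2
      - ((k : ℝ) + 3 / 2) * ((1 + y ^ 2) / (1 - y ^ 2) ^ 2) with hv'
  have hder : ∀ y ∈ Icc x (x + Real.pi / β), HasDerivAt v (v' y) y := by
    intro y hy
    have ht0 : 1 - y ^ 2 ≠ 0 := (hS0.trans_le (ht y hy).1).ne'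
    have e1 := (Pool.LK1.TJ_hasDerivAt n (k + 2) y).div (Pool.LK1.TJ_hasDerivAt n (k + 1) y) (hne y hy)
    have e2 : HasDerivAt (fun z : ℝ => 1 - z ^ 2) (-(2 * y)) y := by
      have := (hasDerivAt_pow 2 y).const_sub 1
      simpa using this
    have e3 : HasDerivAt (fun z : ℝ => z / (1 - z ^ 2)) ((1 + y ^ 2) / (1 - y ^ 2) ^ 2) y := by
      refine ((hasDerivAt_id y).div e2 ht0).congr_deriv ?_
      simp only [id]
      congr 1
      ring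
    exact e1.sub (e3.const_mul ((k : ℝ) + 3 / 2))
  have hric : ∀ y ∈ Icc x (x + Real.pi / β), v' y ≤ -(v y ^ 2 + β ^ 2) := by
    intro y hy
    obtain ⟨t0, t1⟩ := ht y hy
    have ho := ode n (k + 1) y
    have ha := hne y hy
    have e3 : k + 1 + 2 = k + 3 := rfl
    have e2 : k + 1 + 1 = k + 2 := rfl
    rw [e3, e2] at ho
    push_cast at ho
    simp only [hv, hv']
    generalize TJ n (k + 1) y = a at *
    generalize TJ n (k + 2) y = b at *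
    generalize TJ n (k + 3) y = c at *
    have htpos : 0 < 1 - y ^ 2 := hS0.trans_le t0
    have hc' : c = ((2 * ((k : ℝ) + 1) + 1) * y * b - ((n : ℝ) ^ 2 - ((k : ℝ) + 1) ^ 2) * a) / (1 - y ^ 2) := by
      rw [eq_div_iff htpos.ne']
      linarith
    -- convexity in `t`
    have hconv : β ^ 2 * (1 - y ^ 2) ^ 2 ≤
        (1 - y ^ 2) * ((n : ℝ) ^ 2 - 1 / 4) - ((k : ℝ) + 3 / 2) * ((k : ℝ) - 1 / 2) := by
      have hN1 : β ^ 2 * 1 ^ 2 ≤ 1 * ((n : ℝ) ^ 2 - 1 / 4) - ((k : ℝ) + 3 / 2) * ((k : ℝ) - 1 / 2) := by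
        nlinarith
      generalize 1 - y ^ 2 = t at *
      have h3 : 0 ≤ (t - S) * (1 - t) := mul_nonneg (by linarith) (by linarith)
      rcases eq_or_lt_of_le (t0.trans t1) with hS1 | hS1
      · have : t = 1 := le_antisymm t1 (hS1 ▸ t0)
        rw [this]
        exact hN1
      · have hq : 0 < 1 - S := by linarith
        have h4 := mul_le_mul_of_nonneg_left h2 (sub_nonneg.2 t1)
        have h5 := mul_le_mul_of_nonneg_left hN1 (sub_nonneg.2 t0)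
        have h6 := mul_nonneg (mul_nonneg (sq_nonneg β) h3) hq.le
        have h7 : (1 - S) * (β ^ 2 * t ^ 2) ≤
            (1 - S) * (t * ((n : ℝ) ^ 2 - 1 / 4) - ((k : ℝ) + 3 / 2) * ((k : ℝ) - 1 / 2)) := by
          nlinarith
        exact le_of_mul_le_mul_left h7 hq
    have key : (c * a - b * b) / a ^ 2 - ((k : ℝ) + 3 / 2) * ((1 + y ^ 2) / (1 - y ^ 2) ^ 2) +
        (b / a - ((k : ℝ) + 3 / 2) * (y / (1 - y ^ 2))) ^ 2 =
        -(((1 - y ^ 2) * ((n : ℝ) ^ 2 - 1 / 4) - ((k : ℝ) + 3 / 2) * ((k : ℝ) - 1 / 2)) / (1 - y ^ 2) ^ 2) := by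
      rw [hc']
      have : (1 - y ^ 2) ≠ 0 := htpos.ne'
      field_simp
      ring
    have hfin : β ^ 2 ≤
        ((1 - y ^ 2) * ((n : ℝ) ^ 2 - 1 / 4) - ((k : ℝ) + 3 / 2) * ((k : ℝ) - 1 / 2)) / (1 - y ^ 2) ^ 2 := by
      rw [le_div_iff₀ (by positivity)]
      exact hconv
    linarith
  set G : ℝ → ℝ := fun y => y + Real.arctan (v y / β) / β with hG
  have hGd : ∀ y ∈ Icc x (x + Real.pi / β),
      HasDerivAt G (1 + (1 / (1 + (v y / β) ^ 2) * (v' y / β)) / β) y := by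
    intro y hy
    have e1 := ((hder y hy).div_const β).arctan
    exact (hasDerivAt_id y).add (e1.div_const β)
  have hGs : ∀ y ∈ Icc x (x + Real.pi / β), 1 + (1 / (1 + (v y / β) ^ 2) * (v' y / β)) / β ≤ 0 := by
    intro y hy
    have hr := hric y hy
    have hp : 0 < β ^ 2 + v y ^ 2 := by positivity
    have e : 1 + (1 / (1 + (v y / β) ^ 2) * (v' y / β)) / β = (β ^ 2 + v y ^ 2 + v' y) / (β ^ 2 + v y ^ 2) := by
      have h3 : 1 + (v y / β) ^ 2 = (β ^ 2 + v y ^ 2) / β ^ 2 := by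
        field_simp
      rw [h3]
      field_simp
    rw [e]
    exact div_nonpos_of_nonpos_of_nonneg (by linarith) hp.le
  have hanti : AntitoneOn G (Icc x (x + Real.pi / β)) := by
    refine antitoneOn_of_deriv_nonpos (convex_Icc _ _) ?_ ?_ ?_
    · exact fun y hy => (hGd y hy).continuousAt.continuousWithinAt
    · intro y hy
      rw [interior_Icc] at hy
      exact (hGd y (Ioo_subset_Icc_self hy)).differentiableAt.differentiableWithinAt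
    · intro y hy
      rw [interior_Icc] at hy
      rw [(hGd y (Ioo_subset_Icc_self hy)).deriv]
      exact hGs y (Ioo_subset_Icc_self hy)
  have hm1 : x ∈ Icc x (x + Real.pi / β) := ⟨le_rfl, by linarith⟩
  have hm2 : x + Real.pi / β ∈ Icc x (x + Real.pi / β) := ⟨by linarith, le_rfl⟩
  have h3 := hanti hm1 hm2 (by linarith)
  simp only [hG] at h3
  have h4 := Real.arctan_lt_pi_div_two (v x / β)
  have h5 := Real.neg_pi_div_two_lt_arctan (v (x + Real.pi / β) / β)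
  have h6 : Real.pi / β ≤ (Real.arctan (v x / β) - Real.arctan (v (x + Real.pi / β) / β)) / β := by
    rw [sub_div]
    linarith
  rw [div_le_div_iff_of_pos_right hβ] at h6
  linarith

theorem zsp (n k : ℕ) (h : k + 2 ≤ n) {x1 : ℝ} (hx : IsFirst n k x1) {S β x : ℝ} (hS0 : 0 < S)
    (hS : S ≤ 1 - x1 ^ 2) (hβ : 0 < β)
    (h1 : β ^ 2 ≤ (n : ℝ) ^ 2 - ((k : ℝ) + 1) ^ 2 + ((k : ℝ) + 3 / 2))
    (h2 : β ^ 2 * S ^ 2 ≤ S * ((n : ℝ) ^ 2 - 1 / 4) - ((k : ℝ) + 3 / 2) * ((k : ℝ) - 1 / 2))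
    (hx0 : 0 ≤ x) (hxx : x ≤ x1) :
    ∃ x' ∈ Icc x (x + Real.pi / β), x' ≤ x1 ∧ TJ n (k + 1) x' = 0 :=
  zsp' n k h hx hS0 hS hβ h1 h2 (by linarith [hx.nonneg]) hxx

end Pool.LK2
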