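import Pool.Agent.LK2.Son
import Pool.Agent.LK2.Win
import Pool.Agent.LK2.Zsp

/-!
# LK2/CBz: interior critical values of the class `σ_n` through the zeros of `T_n^(k+1)`

`n = m + 1`, `F ∈ InF m σ_n (-1) 1`, `0 ≤ x ≤ x1`, `F_{k+1}(x) = 0`, `β` as in `zsp`.  Then
`|F_k(x)| ≤ (1 + π/β)^k |T_k(x1)|`.

Proof.  `zsp`: `x' ∈ [x, x + π/β]`, `x' ≤ x1`, `T_{k+1}(x') = 0`.  `w = (1+x)/(1+x')`, `win` with `u = 0`:
`w^k |F_k(x)| ≤ |T_k(x')| ≤ |T_k(x1)|` (`abs_le_first`), and `1 ≤ w (1 + π/β)`.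
-/

open Set
open Pool.LK1 (TJ InF)

namespace Pool.LK2

theorem cbz (m k : ℕ) (hk : 1 ≤ k) (hkm : k + 1 ≤ m) {F : ℕ → ℝ → ℝ}
    (hF : InF m (2 ^ m * ((m + 1).factorial : ℝ)) (-1) 1 F) {x x1 S β : ℝ} (hx1 : IsFirst (m + 1) k x1)
    (hx0 : 0 ≤ x) (hxx : x ≤ x1) (hF0 : F (k + 1) x = 0) (hS0 : 0 < S) (hS : S ≤ 1 - x1 ^ 2) (hβ : 0 < β)
    (h1 : β ^ 2 ≤ ((m : ℝ) + 1) ^ 2 - ((k : ℝ) + 1) ^ 2 + ((k : ℝ) + 3 / 2))
    (h2 : β ^ 2 * S ^ 2 ≤ S * (((m : ℝ) + 1) ^ 2 - 1 / 4) - ((k : ℝ) + 3 / 2) * ((k : ℝ) - 1 / 2)) :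
    |F k x| ≤ (1 + Real.pi / β) ^ k * |TJ (m + 1) k x1| := by
  obtain ⟨x', hx', hx'1, hz⟩ := zsp (m + 1) k (by omega) hx1 hS0 hS hβ (by push_cast; exact h1)
    (by push_cast; exact h2) hx0 hxx
  have hp : 0 < 1 + x := by linarith
  have hp' : 0 < 1 + x' := by linarith [hx'.1]
  have hxlt : |x'| < 1 := by
    rw [abs_lt]
    constructor
    · linarith [hx'.1]
    · exact hx'1.trans_lt hx1.lt_one
  have hd : 0 < Real.pi / β := div_pos Real.pi_pos hβ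
  have hw0 : 0 < (1 + x) / (1 + x') := div_pos hp hp'
  have hw1 : (1 + x) / (1 + x') ≤ 1 := by
    rw [div_le_one hp']
    linarith [hx'.1]
  have ew : -1 + (1 + x) / (1 + x') * (1 + x') = x := by
    rw [div_mul_cancel₀ _ hp'.ne']
    ring
  have hW := win m k hkm hF (x' := x') (w := (1 + x) / (1 + x')) (u := 0) hw0 hw1 hxlt
    (by rw [ew]; exact hF0) (by rw [hz]; ring)
  rw [ew, zero_mul, add_zero] at hW
  have hM : |TJ (m + 1) k x'| ≤ |TJ (m + 1) k x1| := by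
    refine abs_le_first (m + 1) k hk (by omega) hx1 ?_
    rw [abs_of_nonneg (hx0.trans hx'.1)]
    exact hx'1
  have hone : 1 ≤ (1 + x) / (1 + x') * (1 + Real.pi / β) := by
    rw [div_mul_eq_mul_div, le_div_iff₀ hp']
    nlinarith [hx'.2, mul_nonneg hx0 hd.le]
  have hone' : 1 ≤ ((1 + x) / (1 + x')) ^ k * (1 + Real.pi / β) ^ k := by
    rw [← mul_pow]
    exact one_le_pow₀ hone
  calc |F k x| = 1 * |F k x| := (one_mul _).symm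
    _ ≤ (((1 + x) / (1 + x')) ^ k * (1 + Real.pi / β) ^ k) * |F k x| :=
        mul_le_mul_of_nonneg_right hone' (abs_nonneg _)
    _ = (1 + Real.pi / β) ^ k * (((1 + x) / (1 + x')) ^ k * |F k x|) := by ring
    _ ≤ (1 + Real.pi / β) ^ k * |TJ (m + 1) k x1| :=
        mul_le_mul_of_nonneg_left (hW.trans hM) (by positivity)

end Pool.LK2
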