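import Pool.Agent.LK2.Bok

/-!
# LK2/P3: `Bok m k` for `m = k + 2` (`n = k + 3`), `k ≥ 4`

`c = T_{k+1}(0)`, `T_k(0) = T_{k+2}(0) = 0` (parity), `T_{k+3}` is the constant `-(n²-(k+1)²) c = -4(k+2) c` (`ode` at `0`).  So
`T_k(x) = c (x - (2/3)(k+2) x³)`, `T_{k+1}(x) = c (1 - 2(k+2) x²)`, `T_{k+2}(x) = -4(k+2) c x`, `x1² = 1/(2(k+2))`, `c ≠ 0`.
`T_k(1) = -c (2k+1)/3`, and by `TJ_pred_one` `TJ m k 1 = T_k(1) · 3(k+2)/((k+3)(2k+2))`, so
`TJ m k 1 = |c| (2k+1)(k+2)/(2(k+1)(k+3))`.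
For `0 < x' ≤ x1` put `u = (1 - 2(k+2) x'²)/(4(k+2) x')`: `T_{k+1}(x') + u T_{k+2}(x') = 0` and
`|T_k(x') + u T_{k+1}(x')| = |c| V(x')`, `V(x') = (1/x' + (4/3)(k+2)² x'³)/(4(k+2))`, antitone on `(0, x1]`
(`V' · 4(k+2) = -1/x² + 4(k+2)² x² ≤ 0` iff `x² ≤ 1/(2(k+2))`; without derivatives: for `a < b ≤ x1`,
`(1/a - 1/b) - (4/3)(k+2)²(b³-a³) = (b-a)(1/(ab) - (4/3)(k+2)²(a²+ab+b²)) ≥ 0` since `ab(a²+ab+b²) ≤ 3 b⁴ ≤ 3/(4(k+2)²)`).
Let `0 ≤ x ≤ x1`, `F_{k+1}(x) = 0`, `h = 1/k ≤ x1` (`k² ≥ 2(k+2)` for `k ≥ 4`).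
If `x ≥ h`: `win_core` at `x`: `|F_k(x)| ≤ |c| V(x) ≤ |c| V(h)`.
If `x < h`: `win` with `x' = h`, `w = (1+x)/(1+h)`: `w^k |F_k(x)| ≤ |c| V(h)`, `w^(-k) ≤ (1+1/k)^k ≤ exp 1 < 2.7183`.
Condition: `2.7183 V(1/k) < (2k+1)(k+2)/(2(k+1)(k+3))`, where `V(1/k) = k/(4(k+2)) + (k+2)/(3k³)`: for `k = 4` the left
side is `2.7183 · (1/6 + 1/32) = 0.538 < 0.771`; in general clear denominators, `k = 4 + t`.
-/

open Set
open Pool.LK1 (TJ InF)

namespace Pool.LK2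

private theorem p3_ext {f h g : ℝ → ℝ} (hf : ∀ x, HasDerivAt f (g x) x)
    (hh : ∀ x, HasDerivAt h (g x) x) (h0 : f 0 = h 0) (x : ℝ) : f x = h x := by
  have h1 : ∀ z, HasDerivAt (fun z => f z - h z) 0 z := by
    intro z
    have := (hf z).sub (hh z)
    rw [sub_self] at this
    exact this
  have h2 : f x - h x = f 0 - h 0 :=
    is_const_of_deriv_eq_zero (fun z => (h1 z).differentiableAt) (fun z => (h1 z).deriv) x 0
  linarith

private theorem p3_top (k : ℕ) (x : ℝ) :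
    TJ (k + 3) (k + 3) x = -(4 * ((k : ℝ) + 2)) * TJ (k + 3) (k + 1) 0 := by
  have h1 : TJ (k + 3) (k + 3) x = TJ (k + 3) (k + 3) 0 := by
    rw [TJ_top_pos _ (by omega), TJ_top_pos _ (by omega)]
  have h2 := ode (k + 3) (k + 1) 0
  push_cast at h2
  rw [h1]
  have h3 : TJ (k + 3) (k + 3) 0 = TJ (k + 3) (k + 1 + 2) 0 := rfl
  rw [h3]
  linear_combination h2

private theorem p3_odd {n j : ℕ} (h : Odd (n + j)) : TJ n j 0 = 0 := by
  have h1 := parity n j 0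
  rw [h.neg_one_pow, neg_zero] at h1
  linarith

private theorem p3_two (k : ℕ) (x : ℝ) :
    TJ (k + 3) (k + 2) x = -(4 * ((k : ℝ) + 2)) * TJ (k + 3) (k + 1) 0 * x := by
  apply p3_ext (g := fun _ => -(4 * ((k : ℝ) + 2)) * TJ (k + 3) (k + 1) 0)
  · intro z
    have h := Pool.LK1.TJ_hasDerivAt (k + 3) (k + 2) z
    rw [show k + 2 + 1 = k + 3 from rfl, p3_top] at h
    exact h
  · intro z
    have h := (hasDerivAt_id z).const_mul (-(4 * ((k : ℝ) + 2)) * TJ (k + 3) (k + 1) 0)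
    rw [mul_one] at h
    exact h
  · rw [p3_odd (by exact ⟨k + 2, by ring⟩), mul_zero]

private theorem p3_one (k : ℕ) (x : ℝ) :
    TJ (k + 3) (k + 1) x = TJ (k + 3) (k + 1) 0 * (1 - 2 * ((k : ℝ) + 2) * x ^ 2) := by
  apply p3_ext (f := fun x => TJ (k + 3) (k + 1) x)
    (h := fun x => TJ (k + 3) (k + 1) 0 * (1 - 2 * ((k : ℝ) + 2) * x ^ 2))
    (g := fun x => -(4 * ((k : ℝ) + 2)) * TJ (k + 3) (k + 1) 0 * x)
  · intro z
    have h := Pool.LK1.TJ_hasDerivAt (k + 3) (k + 1) z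
    rw [show k + 1 + 1 = k + 2 from rfl, p3_two] at h
    exact h
  · intro z
    have h := (((hasDerivAt_pow 2 z).const_mul (2 * ((k : ℝ) + 2))).const_sub 1).const_mul
      (TJ (k + 3) (k + 1) 0)
    have e : TJ (k + 3) (k + 1) 0 * -(2 * ((k : ℝ) + 2) * ((2 : ℕ) * z ^ (2 - 1))) =
        -(4 * ((k : ℝ) + 2)) * TJ (k + 3) (k + 1) 0 * z := by
      norm_num
      ring
    rw [e] at h
    exact h
  · simp

/-- the explicit cubic -/
theorem T_p3 (k : ℕ) (x : ℝ) :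
    TJ (k + 3) k x = TJ (k + 3) (k + 1) 0 * (x - 2 / 3 * ((k : ℝ) + 2) * x ^ 3) := by
  apply p3_ext (f := fun x => TJ (k + 3) k x)
    (h := fun x => TJ (k + 3) (k + 1) 0 * (x - 2 / 3 * ((k : ℝ) + 2) * x ^ 3))
    (g := fun x => TJ (k + 3) (k + 1) 0 * (1 - 2 * ((k : ℝ) + 2) * x ^ 2))
  · intro z
    have h := Pool.LK1.TJ_hasDerivAt (k + 3) k z
    rw [p3_one] at h
    exact h
  · intro z
    have h := ((hasDerivAt_id z).sub
      ((hasDerivAt_pow 3 z).const_mul (2 / 3 * ((k : ℝ) + 2)))).const_mul (TJ (k + 3) (k + 1) 0)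
    have e : TJ (k + 3) (k + 1) 0 * (1 - 2 / 3 * ((k : ℝ) + 2) * ((3 : ℕ) * z ^ (3 - 1))) =
        TJ (k + 3) (k + 1) 0 * (1 - 2 * ((k : ℝ) + 2) * z ^ 2) := by
      push_cast
      ring
    rw [e] at h
    exact h
  · rw [p3_odd (by exact ⟨k + 1, by ring⟩)]
    ring

private theorem p3_c (k : ℕ) : TJ (k + 3) (k + 1) 0 < 0 := by
  have h1 := TJ_pos_of_one_le (k + 3) (k + 1) (by omega) (le_refl (1 : ℝ))
  rw [p3_one] at h1
  have hk : (0 : ℝ) ≤ k := Nat.cast_nonneg k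
  nlinarith

theorem first_p3 (k : ℕ) {x1 : ℝ} (h : IsFirst (k + 3) k x1) : x1 ^ 2 = 1 / (2 * ((k : ℝ) + 2)) := by
  have h1 := h.zero
  rw [p3_one] at h1
  have h2 := (mul_eq_zero.1 h1).resolve_left (p3_c k).ne
  have hk : (0 : ℝ) ≤ k := Nat.cast_nonneg k
  rw [eq_div_iff (by positivity)]
  linarith

/-- the envelope -/
private noncomputable def V3 (k : ℕ) (x : ℝ) : ℝ :=
  (1 / x + 4 / 3 * ((k : ℝ) + 2) ^ 2 * x ^ 3) / (4 * ((k : ℝ) + 2))

private theorem V3_pos (k : ℕ) {x : ℝ} (hx : 0 < x) : 0 < V3 k x := by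
  unfold V3
  have hk : (0 : ℝ) ≤ k := Nat.cast_nonneg k
  positivity

private theorem V3_anti (k : ℕ) {a b : ℝ} (ha : 0 < a) (hab : a ≤ b)
    (hb : b ^ 2 ≤ 1 / (2 * ((k : ℝ) + 2))) : V3 k b ≤ V3 k a := by
  unfold V3
  have hk : (0 : ℝ) ≤ k := Nat.cast_nonneg k
  have hb0 : 0 < b := lt_of_lt_of_le ha hab
  apply div_le_div_of_nonneg_right _ (by positivity)
  have h1 : 1 / a - 1 / b - 4 / 3 * ((k : ℝ) + 2) ^ 2 * (b ^ 3 - a ^ 3) =
      (b - a) * ((1 - 4 / 3 * ((k : ℝ) + 2) ^ 2 * (a * b * (a ^ 2 + a * b + b ^ 2))) / (a * b)) := by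
    field_simp
    ring
  have h2 : a * b * (a ^ 2 + a * b + b ^ 2) ≤ 3 * (b ^ 2) ^ 2 := by
    have e1 : a * b ≤ b * b := mul_le_mul_of_nonneg_right hab hb0.le
    have e2 : a ^ 2 + a * b + b ^ 2 ≤ 3 * (b * b) := by nlinarith
    calc a * b * (a ^ 2 + a * b + b ^ 2) ≤ (b * b) * (3 * (b * b)) := by
          apply mul_le_mul e1 e2 (by positivity) (by positivity)
      _ = 3 * (b ^ 2) ^ 2 := by ring
  have h3 : (((k : ℝ) + 2) * b ^ 2) ≤ 1 / 2 := by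
    have := mul_le_mul_of_nonneg_left hb (by positivity : (0 : ℝ) ≤ (k : ℝ) + 2)
    have e : ((k : ℝ) + 2) * (1 / (2 * ((k : ℝ) + 2))) = 1 / 2 := by field_simp
    linarith
  have h4 : (((k : ℝ) + 2) * b ^ 2) ^ 2 ≤ (1 / 2) ^ 2 := by
    apply pow_le_pow_left₀ (by positivity) h3
  have h5 : 0 ≤ 1 - 4 / 3 * ((k : ℝ) + 2) ^ 2 * (a * b * (a ^ 2 + a * b + b ^ 2)) := by
    have := mul_le_mul_of_nonneg_left h2 (by positivity : (0 : ℝ) ≤ 4 / 3 * ((k : ℝ) + 2) ^ 2)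
    nlinarith
  have h6 : 0 ≤ (b - a) * ((1 - 4 / 3 * ((k : ℝ) + 2) ^ 2 * (a * b * (a ^ 2 + a * b + b ^ 2))) / (a * b)) :=
    mul_nonneg (by linarith) (div_nonneg h5 (by positivity))
  rw [← h1] at h6
  linarith

/-- the auxiliary number `u` and the value of the translated polynomial -/
private theorem p3_u (k : ℕ) {x : ℝ} (hx : 0 < x) : ∃ u : ℝ,
    TJ (k + 3) (k + 1) x + u * TJ (k + 3) (k + 2) x = 0 ∧
    |TJ (k + 3) k x + u * TJ (k + 3) (k + 1) x| = |TJ (k + 3) (k + 1) 0| * V3 k x := by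
  have hk : (0 : ℝ) ≤ k := Nat.cast_nonneg k
  refine ⟨(1 - 2 * ((k : ℝ) + 2) * x ^ 2) / (4 * ((k : ℝ) + 2) * x), ?_, ?_⟩
  · rw [p3_one, p3_two]
    field_simp
    ring
  · have h1 : TJ (k + 3) k x + (1 - 2 * ((k : ℝ) + 2) * x ^ 2) / (4 * ((k : ℝ) + 2) * x) *
        TJ (k + 3) (k + 1) x = TJ (k + 3) (k + 1) 0 * V3 k x := by
      rw [T_p3, p3_one k x]
      unfold V3
      field_simp
      ring
    rw [h1, abs_mul, abs_of_pos (V3_pos k hx)]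

private theorem p3_num (k : ℕ) (hk : 4 ≤ k) :
    2.7183 * V3 k (1 / k) < (2 * (k : ℝ) + 1) * (k + 2) / (2 * (k + 1) * (k + 3)) := by
  have hk4 : (4 : ℝ) ≤ k := by exact_mod_cast hk
  have h1 : V3 k (1 / k) ≤ 9 / 32 := by
    have e : V3 k (1 / k) = k / (4 * ((k : ℝ) + 2)) + (k + 2) / (3 * (k : ℝ) ^ 3) := by
      unfold V3
      have : (k : ℝ) ≠ 0 := by positivity
      field_simp
    rw [e]
    have e1 : (k : ℝ) / (4 * ((k : ℝ) + 2)) ≤ 1 / 4 := by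
      rw [div_le_div_iff₀ (by positivity) (by positivity)]
      linarith
    have e2 : ((k : ℝ) + 2) / (3 * (k : ℝ) ^ 3) ≤ 1 / 32 := by
      rw [div_le_div_iff₀ (by positivity) (by positivity)]
      nlinarith [mul_nonneg (sub_nonneg.2 hk4) (by positivity : (0 : ℝ) ≤ 3 * (k : ℝ) ^ 2 + 12 * k + 16)]
    linarith
  have h2 : 27 / 35 ≤ (2 * (k : ℝ) + 1) * (k + 2) / (2 * (k + 1) * (k + 3)) := by
    rw [div_le_div_iff₀ (by positivity) (by positivity)]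
    nlinarith [mul_nonneg (sub_nonneg.2 hk4) (by positivity : (0 : ℝ) ≤ 16 * (k : ℝ) + 23)]
  calc 2.7183 * V3 k (1 / k) ≤ 2.7183 * (9 / 32) := by linarith
    _ < 27 / 35 := by norm_num
    _ ≤ _ := h2

private theorem p3_val (k : ℕ) : TJ (k + 2) k 1 =
    |TJ (k + 3) (k + 1) 0| * ((2 * (k : ℝ) + 1) * (k + 2) / (2 * (k + 1) * (k + 3))) := by
  have hk : (0 : ℝ) ≤ k := Nat.cast_nonneg k
  have h1 := TJ_pred_one (k + 2) k (by omega)
  rw [show k + 2 + 1 = k + 3 from rfl, T_p3] at h1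
  rw [abs_of_neg (p3_c k)]
  push_cast at h1
  have h2 : ((k : ℝ) + 2 + 1) * ((k : ℝ) + 2 + k) ≠ 0 := by positivity
  apply mul_right_cancel₀ h2
  rw [h1]
  field_simp
  ring

theorem bok_p3 (k : ℕ) (hk : 4 ≤ k) : Bok (k + 2) k := by
  intro F hF x x1 hx1 hx0 hxx hFx
  rw [show k + 2 + 1 = k + 3 from rfl] at hx1
  have hk4 : (4 : ℝ) ≤ k := by exact_mod_cast hk
  have hk0 : (0 : ℝ) < k := by linarith
  have hx1sq := first_p3 k hx1
  have hx1lt := hx1.lt_one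
  have hc := p3_c k
  have hcabs : 0 < |TJ (k + 3) (k + 1) 0| := abs_pos.2 hc.ne
  have hh0 : (0 : ℝ) < 1 / k := by positivity
  have hhx1 : (1 / (k : ℝ)) ^ 2 ≤ 1 / (2 * ((k : ℝ) + 2)) := by
    rw [div_pow, one_pow]
    apply one_div_le_one_div_of_le (by positivity)
    nlinarith
  have hh1 : 1 / (k : ℝ) < 1 := by
    rw [div_lt_one hk0]; linarith
  have hnum := p3_num k hk
  have hV := V3_pos k hh0
  rw [p3_val]
  rcases le_or_gt (1 / (k : ℝ)) x with hx | hx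
  · -- far from the centre
    have hxpos : 0 < x := lt_of_lt_of_le hh0 hx
    obtain ⟨u, hu1, hu2⟩ := p3_u k hxpos
    have h1 := win_core (k + 2) k (by omega) hF (x := x) (u := u)
      (by rw [abs_of_pos hxpos]; linarith) hFx hu1
    rw [show k + 2 + 1 = k + 3 from rfl, hu2] at h1
    have h2 : V3 k x ≤ V3 k (1 / k) := by
      apply V3_anti k hh0 hx
      rw [← hx1sq]
      apply pow_le_pow_left₀ hx0 hxx
    calc |F k x| ≤ |TJ (k + 3) (k + 1) 0| * V3 k x := h1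
      _ ≤ |TJ (k + 3) (k + 1) 0| * V3 k (1 / k) := mul_le_mul_of_nonneg_left h2 hcabs.le
      _ < _ := by
        apply mul_lt_mul_of_pos_left _ hcabs
        linarith
  · -- near the centre
    obtain ⟨u, hu1, hu2⟩ := p3_u k hh0
    set w : ℝ := (1 + x) / (1 + 1 / k) with hw
    have hd : (0 : ℝ) < 1 + 1 / k := by positivity
    have hw0 : 0 < w := by rw [hw]; positivity
    have hw1 : w ≤ 1 := by
      rw [hw, div_le_one hd]; linarith
    have hxe : -1 + w * (1 + 1 / (k : ℝ)) = x := by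
      rw [hw, div_mul_cancel₀ _ hd.ne']; ring
    have h1 := win (k + 2) k (by omega) hF (x' := 1 / k) (w := w) (u := u) hw0 hw1
      (by rw [abs_of_pos hh0]; exact hh1) (by rw [hxe]; exact hFx) hu1
    rw [hxe, show k + 2 + 1 = k + 3 from rfl, hu2] at h1
    have h2 : 1 ≤ (1 + 1 / (k : ℝ)) ^ k * w ^ k := by
      rw [← mul_pow]
      apply one_le_pow₀
      rw [hw, mul_div_cancel₀ _ hd.ne']
      linarith
    have h3 : (1 + 1 / (k : ℝ)) ^ k ≤ 2.7183 := by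
      have e1 : (1 + 1 / (k : ℝ)) ≤ Real.exp (1 / k) := by
        have := Real.add_one_le_exp (1 / (k : ℝ))
        linarith
      have e2 : (1 + 1 / (k : ℝ)) ^ k ≤ Real.exp (1 / k) ^ k := pow_le_pow_left₀ hd.le e1 k
      have e3 : Real.exp (1 / k) ^ k = Real.exp 1 := by
        rw [← Real.exp_nat_mul]
        congr 1
        field_simp
      have e4 := Real.exp_one_lt_d9
      rw [e3] at e2
      linarith
    have h4 : |F k x| ≤ 2.7183 * (|TJ (k + 3) (k + 1) 0| * V3 k (1 / k)) := by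
      calc |F k x| = 1 * |F k x| := (one_mul _).symm
        _ ≤ (1 + 1 / (k : ℝ)) ^ k * w ^ k * |F k x| :=
          mul_le_mul_of_nonneg_right h2 (abs_nonneg _)
        _ = (1 + 1 / (k : ℝ)) ^ k * (w ^ k * |F k x|) := by ring
        _ ≤ 2.7183 * (|TJ (k + 3) (k + 1) 0| * V3 k (1 / k)) := by
          apply mul_le_mul h3 h1 (by positivity) (by norm_num)
    calc |F k x| ≤ 2.7183 * (|TJ (k + 3) (k + 1) 0| * V3 k (1 / k)) := h4
      _ = |TJ (k + 3) (k + 1) 0| * (2.7183 * V3 k (1 / k)) := by ring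
      _ < _ := mul_lt_mul_of_pos_left hnum hcabs

end Pool.LK2
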