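import Pool.Agent.LK2.Bok

/-!
# LK2/P4: `Bok m k` for `m = k + 3` (`n = k + 4`), `k ≥ 16`

`n² - k² = 8(k+2)`, `n² - (k+2)² = 4(k+3)`, `c = T_k(0) ≠ 0`.  By parity the odd derivatives `T_{k+1}(0)`, `T_{k+3}(0)`
vanish, `T_{k+2}(0) = -8(k+2) c`, `T_{k+4}(0) = 32(k+2)(k+3) c` (`ode` at `0`), and `T_{k+4}` is constant.  Hence (integrate
four times, or compare derivatives) `T_k(x) = c (1 - 4(k+2) x² + (4/3)(k+2)(k+3) x⁴)`,
`T_{k+1}(x) = c (-8(k+2) x + (16/3)(k+2)(k+3) x³)`, so `x1² = 3/(2(k+3))`, `T_k(x1) = -c (2k+3)/(k+3)`,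
`T_k(1) = c (2k+1)(2k+3)/3`, `|T_k(x1)| = 3 T_k(1)/((k+3)(2k+1))`, and by `TJ_pred_one`
`TJ m k 1 = T_k(1) · 4(k+3)/((k+4)(2k+3))`.
`bok_of` with `S = (2k+3)/(2k+6)`, `N0 = 3(2k+5)`, `K² = 25 k² · 8(k+2)/(S · 9 (2k+5)²)`:
the condition is `exp(4/5) (1+K) < 4 (k+3)² (2k+1)/(3 (k+4)(2k+3)) =: a`, i.e. (`exp(4/5) ≤ 2.2256`)
`K < a/2.2256 - 1`, `K² < (a/2.2256 - 1)²` (and `a > 2.2256`): rational inequality in `k ≥ 16`
(`k = 16`: `2.2256 (1+K) = 22.29 < 22.69 = a`; the quotient behaves like `5.25/√k · (3/4)`): clear denominators,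
`k = 16 + t`, all coefficients have one sign.
-/

open Set
open Pool.LK1 (TJ InF)

namespace Pool.LK2

private theorem p4_succ (k : ℕ) (x : ℝ) : TJ (k + 4) (k + 5) x = 0 := by
  unfold Pool.LK1.TJ
  rw [Polynomial.iterate_derivative_eq_zero, Polynomial.eval_zero]
  rw [Polynomial.Chebyshev.natDegree_T, Int.natAbs_natCast]
  omega

/-- the derivatives `T_{k+j}`, `j = 3, 2, 1, 0`, in terms of the constant `A = T_{k+4}` -/
private theorem p4_all (k : ℕ) (x : ℝ) :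
    TJ (k + 4) (k + 3) x = TJ (k + 4) (k + 4) x * x ∧
    4 * ((k : ℝ) + 3) * TJ (k + 4) (k + 2) x = TJ (k + 4) (k + 4) x * ((2 * (k : ℝ) + 6) * x ^ 2 - 1) ∧
    12 * ((k : ℝ) + 3) * TJ (k + 4) (k + 1) x =
      TJ (k + 4) (k + 4) x * (2 * ((k : ℝ) + 3) * x ^ 3 - 3 * x) ∧
    32 * ((k : ℝ) + 2) * ((k : ℝ) + 3) * TJ (k + 4) k x = TJ (k + 4) (k + 4) x *
      (1 - 4 * ((k : ℝ) + 2) * x ^ 2 + 4 / 3 * ((k : ℝ) + 2) * ((k : ℝ) + 3) * x ^ 4) := by
  have e3 := ode (k + 4) (k + 3) x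
  have e2 := ode (k + 4) (k + 2) x
  have e1 := ode (k + 4) (k + 1) x
  have e0 := ode (k + 4) k x
  have e5 : TJ (k + 4) (k + 3 + 2) x = 0 := p4_succ k x
  rw [e5] at e3
  push_cast at e3 e2 e1 e0
  have r4 : k + 3 + 1 = k + 4 := rfl
  have r4' : k + 2 + 2 = k + 4 := rfl
  have r3 : k + 2 + 1 = k + 3 := rfl
  have r3' : k + 1 + 2 = k + 3 := rfl
  have r2 : k + 1 + 1 = k + 2 := rfl
  rw [r4] at e3
  rw [r4', r3] at e2
  rw [r3', r2] at e1
  have hk : (0 : ℝ) ≤ k := Nat.cast_nonneg k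
  generalize TJ (k + 4) (k + 4) x = A at *
  generalize TJ (k + 4) (k + 3) x = T3 at *
  generalize TJ (k + 4) (k + 2) x = T2 at *
  generalize TJ (k + 4) (k + 1) x = T1 at *
  generalize TJ (k + 4) k x = T0 at *
  have h3 : T3 = A * x := by
    have h7 : (2 * (k : ℝ) + 7) ≠ 0 := by positivity
    apply mul_left_cancel₀ h7
    linear_combination e3
  have h2 : 4 * ((k : ℝ) + 3) * T2 = A * ((2 * (k : ℝ) + 6) * x ^ 2 - 1) := by
    rw [h3] at e2
    linear_combination e2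
  have h1 : 12 * ((k : ℝ) + 3) * T1 = A * (2 * ((k : ℝ) + 3) * x ^ 3 - 3 * x) := by
    have h7 : (2 * (k : ℝ) + 5) ≠ 0 := by positivity
    apply mul_left_cancel₀ h7
    rw [h3] at e1
    linear_combination 4 * ((k : ℝ) + 3) * e1 + (2 * (k : ℝ) + 3) * x * h2
  refine ⟨h3, h2, h1, ?_⟩
  linear_combination 4 * ((k : ℝ) + 3) * e0 + (2 * (k : ℝ) + 1) / 3 * x * h1 - (1 - x ^ 2) * h2

private theorem p4_c (k : ℕ) (x : ℝ) :
    TJ (k + 4) (k + 4) x = 32 * ((k : ℝ) + 2) * ((k : ℝ) + 3) * TJ (k + 4) k 0 := by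
  have h := (p4_all k 0).2.2.2
  rw [TJ_top_pos (k + 4) (by omega)] at h ⊢
  rw [h]
  ring

/-- the explicit quartic -/
theorem T_p4 (k : ℕ) (x : ℝ) :
    TJ (k + 4) k x = TJ (k + 4) k 0 *
      (1 - 4 * ((k : ℝ) + 2) * x ^ 2 + 4 / 3 * ((k : ℝ) + 2) * ((k : ℝ) + 3) * x ^ 4) := by
  have h := (p4_all k x).2.2.2
  rw [p4_c] at h
  have h7 : 32 * ((k : ℝ) + 2) * ((k : ℝ) + 3) ≠ 0 := by positivity
  apply mul_left_cancel₀ h7
  rw [h]
  ring

theorem first_p4 (k : ℕ) {x1 : ℝ} (h : IsFirst (k + 4) k x1) : x1 ^ 2 = 3 / (2 * ((k : ℝ) + 3)) := by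
  have hk : (0 : ℝ) ≤ k := Nat.cast_nonneg k
  have hA : ∀ x, 0 < TJ (k + 4) (k + 4) x := fun x => by
    rw [TJ_top_pos (k + 4) (by omega)]
    positivity
  have hz := (p4_all k x1).2.2.1
  rw [h.zero, mul_zero] at hz
  have h1 : x1 * (2 * ((k : ℝ) + 3) * x1 ^ 2 - 3) = 0 := by
    rcases mul_eq_zero.1 hz.symm with h2 | h2
    · exact absurd h2 (hA x1).ne'
    · linear_combination h2
  rcases mul_eq_zero.1 h1 with h2 | h2
  · exfalso
    have hs0 : 0 < Real.sqrt (3 / (2 * ((k : ℝ) + 3))) := Real.sqrt_pos.2 (by positivity)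
    have hs2 : Real.sqrt (3 / (2 * ((k : ℝ) + 3))) ^ 2 = 3 / (2 * ((k : ℝ) + 3)) :=
      Real.sq_sqrt (by positivity)
    generalize Real.sqrt (3 / (2 * ((k : ℝ) + 3))) = s at hs0 hs2
    have h3 := h.pos s (by rw [h2]; exact hs0)
    have h4 := (p4_all k s).2.2.1
    have h5 : 2 * ((k : ℝ) + 3) * s ^ 3 - 3 * s = 0 := by
      have : 2 * ((k : ℝ) + 3) * s ^ 2 = 3 := by
        rw [hs2]
        field_simp
      linear_combination s * this
    rw [h5, mul_zero] at h4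
    have h6 : 0 < 12 * ((k : ℝ) + 3) * TJ (k + 4) (k + 1) s := by positivity
    exact h6.ne' h4
  · rw [eq_div_iff (by positivity)]
    linear_combination h2

private theorem p4_num (k : ℝ) (hk : 16 ≤ k) :
    0 < 4 * (k + 3) ^ 2 * (2 * k + 1) - 3 * (1391 / 625) * (k + 4) * (2 * k + 3) ∧
    400 * k ^ 2 * (k + 2) * (k + 3) * 9 * (1391 / 625) ^ 2 * (k + 4) ^ 2 * (2 * k + 3) <
      9 * (2 * k + 5) ^ 2 *
        (4 * (k + 3) ^ 2 * (2 * k + 1) - 3 * (1391 / 625) * (k + 4) * (2 * k + 3)) ^ 2 := by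
  obtain ⟨t, ht, rfl⟩ : ∃ t : ℝ, 0 ≤ t ∧ k = 16 + t := ⟨k - 16, by linarith, by ring⟩
  constructor
  · have e : 4 * (16 + t + 3) ^ 2 * (2 * (16 + t) + 1) - 3 * (1391 / 625) * (16 + t + 4) * (2 * (16 + t) + 3) =
        1074456 / 25 + 185081 / 25 * t + 264154 / 625 * t ^ 2 + 8 * t ^ 3 := by ring
    rw [e]
    positivity
  · rw [← sub_pos]
    have e : 9 * (2 * (16 + t) + 5) ^ 2 *
        (4 * (16 + t + 3) ^ 2 * (2 * (16 + t) + 1) - 3 * (1391 / 625) * (16 + t + 4) * (2 * (16 + t) + 3)) ^ 2 -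
        400 * (16 + t) ^ 2 * (16 + t + 2) * (16 + t + 3) * 9 * (1391 / 625) ^ 2 * (16 + t + 4) ^ 2 *
          (2 * (16 + t) + 3) =
        563414795827776 / 625 + 221184458441712 / 125 * t + 9557712345170313 / 15625 * t ^ 2 +
        1527458292773928 / 15625 * t ^ 3 + 3458534314961736 / 390625 * t ^ 4 +
        189372332818512 / 390625 * t ^ 5 + 6241979750976 / 390625 * t ^ 6 + 4578571872 / 15625 * t ^ 7 +
        2304 * t ^ 8 := by ring
    rw [e]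
    positivity

theorem bok_p4 (k : ℕ) (hk : 16 ≤ k) : Bok (k + 3) k := by
  have hkr : (16 : ℝ) ≤ k := by exact_mod_cast hk
  have hk0 : (0 : ℝ) < k := by linarith
  obtain ⟨hn1, hn2⟩ := p4_num (k : ℝ) hkr
  set S : ℝ := (2 * (k : ℝ) + 3) / (2 * (k : ℝ) + 6) with hS
  set R : ℝ := 400 * (k : ℝ) ^ 2 * ((k : ℝ) + 2) * ((k : ℝ) + 3) / (9 * (2 * (k : ℝ) + 3) * (2 * (k : ℝ) + 5) ^ 2)
    with hR
  have hR0 : 0 ≤ R := by positivity
  have hK2 : Real.sqrt R ^ 2 = R := Real.sq_sqrt hR0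
  have hK0 : 0 ≤ Real.sqrt R := Real.sqrt_nonneg R
  refine bok_of (k + 3) k (by omega) (by omega) S (Real.sqrt R) (by positivity) hK0 ?_ ?_ ?_
  · intro x1 hx1
    rw [first_p4 k hx1, hS]
    apply le_of_eq
    field_simp
    ring
  · rw [hK2, hR, hS]
    push_cast
    apply le_of_eq
    field_simp
    ring
  · intro x1 hx1
    have hx2 := first_p4 k hx1
    have hT1 := T_p4 k x1
    have hT := T_p4 k 1
    have hpos : 0 < TJ (k + 4) k 1 := TJ_pos_of_one_le (k + 4) k (by omega) le_rfl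
    have hpred := TJ_pred_one (k + 3) k (by omega)
    push_cast at hpred
    have r1 : k + 3 + 1 = k + 4 := rfl
    rw [r1] at hpred ⊢
    have hc : 0 < TJ (k + 4) k 0 := by
      have h1 : TJ (k + 4) k 1 = TJ (k + 4) k 0 * ((2 * (k : ℝ) + 1) * (2 * (k : ℝ) + 3) / 3) := by
        rw [hT]
        ring
      rw [h1] at hpos
      exact (pos_iff_pos_of_mul_pos hpos).2 (by positivity)
    generalize TJ (k + 4) k 0 = c at *
    have h4 : x1 ^ 4 = (3 / (2 * ((k : ℝ) + 3))) ^ 2 := by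
      rw [← hx2]
      ring
    have hM : |TJ (k + 4) k x1| = c * ((2 * (k : ℝ) + 3) / ((k : ℝ) + 3)) := by
      have : TJ (k + 4) k x1 = -(c * ((2 * (k : ℝ) + 3) / ((k : ℝ) + 3))) := by
        rw [hT1, h4, hx2]
        field_simp
        ring
      rw [this, abs_neg, abs_of_nonneg (by positivity)]
    have hm : TJ (k + 3) k 1 = c * (4 * (2 * (k : ℝ) + 1) * ((k : ℝ) + 3) / (3 * ((k : ℝ) + 4))) := by
      have h7 : ((k : ℝ) + 3 + 1) * ((k : ℝ) + 3 + k) ≠ 0 := by positivity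
      apply mul_right_cancel₀ h7
      rw [hpred, hT]
      field_simp
      ring
    rw [hM, hm]
    have hb : 1391 / 625 * (1 + Real.sqrt R) <
        4 * ((k : ℝ) + 3) ^ 2 * (2 * (k : ℝ) + 1) / (3 * ((k : ℝ) + 4) * (2 * (k : ℝ) + 3)) := by
      have hb0 : 0 < (4 * ((k : ℝ) + 3) ^ 2 * (2 * (k : ℝ) + 1) -
          3 * (1391 / 625) * ((k : ℝ) + 4) * (2 * (k : ℝ) + 3)) /
          (3 * (1391 / 625) * ((k : ℝ) + 4) * (2 * (k : ℝ) + 3)) := by positivity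
      have hb1 : Real.sqrt R < (4 * ((k : ℝ) + 3) ^ 2 * (2 * (k : ℝ) + 1) -
          3 * (1391 / 625) * ((k : ℝ) + 4) * (2 * (k : ℝ) + 3)) /
          (3 * (1391 / 625) * ((k : ℝ) + 4) * (2 * (k : ℝ) + 3)) := by
        rw [Real.sqrt_lt' hb0, div_pow, hR, div_lt_div_iff₀ (by positivity) (by positivity)]
        have h8 : 0 < 2 * (k : ℝ) + 3 := by positivity
        have h9 := mul_lt_mul_of_pos_right hn2 h8
        refine lt_of_eq_of_lt ?_ (lt_of_lt_of_eq h9 ?_)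
        · ring
        · ring
      calc 1391 / 625 * (1 + Real.sqrt R) < 1391 / 625 * (1 + (4 * ((k : ℝ) + 3) ^ 2 * (2 * (k : ℝ) + 1) -
          3 * (1391 / 625) * ((k : ℝ) + 4) * (2 * (k : ℝ) + 3)) /
          (3 * (1391 / 625) * ((k : ℝ) + 4) * (2 * (k : ℝ) + 3))) := by
            apply mul_lt_mul_of_pos_left _ (by norm_num)
            linarith
        _ = _ := by
            field_simp
            ring
    have he : Real.exp (4 / 5) * (1 + Real.sqrt R) <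
        4 * ((k : ℝ) + 3) ^ 2 * (2 * (k : ℝ) + 1) / (3 * ((k : ℝ) + 4) * (2 * (k : ℝ) + 3)) := by
      refine lt_of_le_of_lt ?_ hb
      apply mul_le_mul_of_nonneg_right _ (by positivity)
      have := exp_le
      norm_num at this ⊢
      exact this
    have h10 : 0 < c * ((2 * (k : ℝ) + 3) / ((k : ℝ) + 3)) := by positivity
    refine lt_of_lt_of_eq (mul_lt_mul_of_pos_right he h10) ?_
    field_simp

end Pool.LK2
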