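import Pool.Agent.LK2.Bok

/-!
# LK2/P5: `Bok m k` for `m = k + 4` (`n = k + 5`), `k ≥ 14`

`S = (2k+3)/(2k+9)`: by `loc n k` with `n = k + 5`: `A4 = (2k+3)(12(2k+5) - 6(2k+3)) = (2k+3)(12k+42)`,
`4 (p-2)² (n+k+2) = 36 (2k+7)`, so `x1² ≤ 36(2k+7)/((2k+3)(12k+42) + 36(2k+7)) = 6/(2k+9)` (`12k+42 = 6(2k+7)`).
`n² - k² = 5(2k+5)`, `N0 = 8(k+3)`.  `R = 125 k² (2k+5)(2k+9)/(64 (2k+3)(k+3)²)`, `K = √R`:
`K² S N0² = 25 k² (n²-k²)`.
`bok_of_num`: with `(1+K)⁴ ≤ 4 (1+R)²` it suffices that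
`24.5352 · 4 (1+R)² (n Pi2 n k)² dfo⁴ < Pi2 m k⁴ S^(2k) N0`.  `Pi2 m k = Pi2 n k (n-1)(n-k)/(n(n+k-1))` (from
`TJ_pred_one` and `TJ_one_eq`), so it is
`98.1408 (1+R)² n² (n (2k+4)/(5(k+4)))⁴ (dfo²/Pi2 n k)² < S^(2k) N0`, `n = k+5`.
* `S^(-2k) = (1 + 6/(2k+3))^(2k) ≤ exp(12k/(2k+3)) ≤ exp(6) ≤ 403.43`;
* `dfo k ² / Pi2 (k+5) k = C(2k,k)/4^k · 120/((k+5)(2k+1)(2k+2)(2k+3)(2k+4))` (`dfo k = (2k)!/(2^k k!)`,
  `Pi2 (k+5) k = (k+5) (2k+4)!/5!`) and `C(2k,k)²/16^k ≤ 1/(3k+1)` (induction on `k`; it is also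
  possible to prove `(dfo² · 1)/(Pi2) ` directly by induction: `(dfo k ²/ Pi2 (k+5) k)² (3k+1) ((k+5)(2k+1)(2k+2)(2k+3)(2k+4))² ≤ 120²`).
So it remains, with `n = k+5`,
`98.1408 · 403.43 (1+R)² n² (120/((k+5)(2k+1)(2k+2)(2k+3)(2k+4)))² (n (2k+4)/(5(k+4)))⁴ < 8 (k+3) (3k+1)`, a rational
inequality for `k ≥ 14` (the square root of the quotient is `0.88` at `k = 14`, `0.77` at `k = 15`, decreasing, of order `k^(-2)`):
clear denominators, `k = 14 + t`, all coefficients of one sign.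
-/

open Set
open Pool.LK1 (TJ InF)

namespace Pool.LK2

theorem pi2_closed (i : ℕ) : ∀ p : ℕ, 1 ≤ p →
    Pi2 (p + i) i * (p.factorial : ℝ) = ((p : ℝ) + i) * ((p + 2 * i - 1).factorial : ℝ) := by
  induction i with
  | zero =>
    intro p hp
    unfold Pi2
    rw [Finset.prod_range_zero, one_mul, mul_zero, add_zero, Nat.cast_zero, add_zero]
    obtain ⟨q, rfl⟩ : ∃ q, p = q + 1 := ⟨p - 1, by omega⟩
    rw [Nat.add_sub_cancel, Nat.factorial_succ]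
    push_cast
    ring
  | succ i ih =>
    intro p hp
    have h1 := ih (p + 1) (by omega)
    have e1 : p + (i + 1) = p + 1 + i := by ring
    have e2 : p + 1 + 2 * i - 1 = p + 2 * i := by omega
    have e3 : p + 2 * (i + 1) - 1 = p + 2 * i + 1 := by omega
    rw [e2] at h1
    rw [e1, e3]
    have h2 : Pi2 (p + 1 + i) (i + 1) =
        Pi2 (p + 1 + i) i * (((p + 1 + i : ℕ) : ℝ) ^ 2 - (i : ℝ) ^ 2) := by
      unfold Pi2
      rw [Finset.prod_range_succ]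
    rw [h2]
    rw [Nat.factorial_succ] at h1
    rw [Nat.factorial_succ]
    push_cast at h1 ⊢
    have hp1 : ((p : ℝ) + 1) ≠ 0 := by positivity
    apply mul_left_cancel₀ hp1
    linear_combination ((p : ℝ) + 1) * ((p : ℝ) + 1 + 2 * i) * h1

theorem dfo_closed (k : ℕ) : dfo k * (2 ^ k * (k.factorial : ℝ)) = ((2 * k).factorial : ℝ) := by
  induction k with
  | zero => simp [dfo]
  | succ k ih =>
    have h1 : dfo (k + 1) = dfo k * (2 * (k : ℝ) + 1) := by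
      unfold dfo
      rw [Finset.prod_range_succ]
    have e : 2 * (k + 1) = 2 * k + 1 + 1 := by ring
    rw [h1, e, Nat.factorial_succ, Nat.factorial_succ, Nat.factorial_succ, pow_succ]
    push_cast
    linear_combination (2 * (k : ℝ) + 1) * (2 * ((k : ℝ) + 1)) * ih

/-- the ratio `C(2k,k)/4^k` -/
noncomputable def crt (k : ℕ) : ℝ := ∏ j ∈ Finset.range k, ((2 * (j : ℝ) + 1) / (2 * (j : ℝ) + 2))

theorem crt_succ (k : ℕ) : crt (k + 1) = crt k * ((2 * (k : ℝ) + 1) / (2 * (k : ℝ) + 2)) := by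
  unfold crt
  rw [Finset.prod_range_succ]

theorem dfo_crt (k : ℕ) : dfo k = crt k * (2 ^ k * (k.factorial : ℝ)) := by
  induction k with
  | zero => simp [dfo, crt]
  | succ k ih =>
    have h1 : dfo (k + 1) = dfo k * (2 * (k : ℝ) + 1) := by
      unfold dfo
      rw [Finset.prod_range_succ]
    rw [h1, crt_succ, ih, Nat.factorial_succ, pow_succ]
    push_cast
    have h2 : (2 * (k : ℝ) + 2) ≠ 0 := by positivity
    field_simp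

theorem crt_sq (k : ℕ) : crt k ^ 2 * (3 * (k : ℝ) + 1) ≤ 1 := by
  induction k with
  | zero => simp [crt]
  | succ k ih =>
    rw [crt_succ, mul_pow, div_pow]
    push_cast
    have hk : (0 : ℝ) ≤ k := Nat.cast_nonneg k
    have h1 : (2 * (k : ℝ) + 1) ^ 2 / (2 * (k : ℝ) + 2) ^ 2 * (3 * ((k : ℝ) + 1) + 1) ≤
        3 * (k : ℝ) + 1 := by
      rw [div_mul_eq_mul_div, div_le_iff₀ (by positivity)]
      nlinarith
    calc crt k ^ 2 * ((2 * (k : ℝ) + 1) ^ 2 / (2 * (k : ℝ) + 2) ^ 2) * (3 * ((k : ℝ) + 1) + 1)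
        = crt k ^ 2 * ((2 * (k : ℝ) + 1) ^ 2 / (2 * (k : ℝ) + 2) ^ 2 * (3 * ((k : ℝ) + 1) + 1)) := by
          ring
      _ ≤ crt k ^ 2 * (3 * (k : ℝ) + 1) := mul_le_mul_of_nonneg_left h1 (sq_nonneg _)
      _ ≤ 1 := ih

theorem pi2_five (k : ℕ) : Pi2 (k + 5) k * 120 = ((k : ℝ) + 5) * ((2 * k + 4).factorial : ℝ) := by
  have h := pi2_closed k 5 (by norm_num)
  have e1 : 5 + k = k + 5 := by ring
  have e2 : 5 + 2 * k - 1 = 2 * k + 4 := by omega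
  rw [e1, e2] at h
  have e3 : ((5 : ℕ).factorial : ℝ) = 120 := by norm_num [Nat.factorial]
  rw [e3] at h
  rw [h]
  push_cast
  ring

theorem dfo_sq_five (k : ℕ) : dfo k ^ 2 * (((k : ℝ) + 5) * (2 * k + 1) * (2 * k + 2) * (2 * k + 3) *
    (2 * k + 4)) = 120 * crt k * Pi2 (k + 5) k := by
  have h1 := pi2_five k
  have h2 := dfo_closed k
  have h3 := dfo_crt k
  have e : ((2 * k + 4).factorial : ℝ) = (2 * (k : ℝ) + 4) * (2 * k + 3) * (2 * k + 2) * (2 * k + 1) *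
      ((2 * k).factorial : ℝ) := by
    rw [Nat.factorial_succ, Nat.factorial_succ, Nat.factorial_succ, Nat.factorial_succ]
    push_cast
    ring
  rw [e, ← h2] at h1
  set f : ℝ := 2 ^ k * (k.factorial : ℝ) with hf
  have h4 : 120 * crt k * Pi2 (k + 5) k = crt k * (Pi2 (k + 5) k * 120) := by ring
  rw [h4, h1]
  have h5 : crt k * (((k : ℝ) + 5) * ((2 * (k : ℝ) + 4) * (2 * k + 3) * (2 * k + 2) * (2 * k + 1) *
      (dfo k * f))) = (crt k * f) * dfo k * (((k : ℝ) + 5) * (2 * k + 1) * (2 * k + 2) * (2 * k + 3) *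
    (2 * k + 4)) := by ring
  rw [h5, ← h3]
  ring

theorem exp_six : Real.exp 6 ≤ 403.43 := by
  have h1 : Real.exp 6 = Real.exp 1 ^ 6 := by
    rw [← Real.exp_nat_mul]
    norm_num
  rw [h1]
  have h2 : Real.exp 1 ≤ 2.7182818286 := Real.exp_one_lt_d9.le
  calc Real.exp 1 ^ 6 ≤ 2.7182818286 ^ 6 := pow_le_pow_left₀ (Real.exp_pos 1).le h2 6
    _ ≤ 403.43 := by norm_num

theorem s_pow (k : ℕ) : 1 ≤ 403.43 * ((2 * (k : ℝ) + 3) / (2 * k + 9)) ^ (2 * k) := by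
  have hk : (0 : ℝ) ≤ k := Nat.cast_nonneg k
  have h1 : (2 * (k : ℝ) + 9) / (2 * k + 3) ≤ Real.exp (6 / (2 * (k : ℝ) + 3)) := by
    have h2 := Real.add_one_le_exp (6 / (2 * (k : ℝ) + 3))
    have h3 : (2 * (k : ℝ) + 9) / (2 * k + 3) = 6 / (2 * (k : ℝ) + 3) + 1 := by
      field_simp
      ring
    rw [h3]
    exact h2
  have h4 : ((2 * (k : ℝ) + 9) / (2 * k + 3)) ^ (2 * k) ≤ 403.43 := by
    calc ((2 * (k : ℝ) + 9) / (2 * k + 3)) ^ (2 * k)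
        ≤ Real.exp (6 / (2 * (k : ℝ) + 3)) ^ (2 * k) := pow_le_pow_left₀ (by positivity) h1 _
      _ = Real.exp (((2 * k : ℕ) : ℝ) * (6 / (2 * (k : ℝ) + 3))) := (Real.exp_nat_mul _ _).symm
      _ ≤ Real.exp 6 := by
          apply Real.exp_le_exp.mpr
          push_cast
          rw [mul_div_assoc', div_le_iff₀ (by positivity)]
          nlinarith
      _ ≤ 403.43 := exp_six
  have h5 : ((2 * (k : ℝ) + 9) / (2 * k + 3)) ^ (2 * k) * ((2 * (k : ℝ) + 3) / (2 * k + 9)) ^ (2 * k)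
      = 1 := by
    rw [← mul_pow]
    have h6 : (2 * (k : ℝ) + 9) / (2 * k + 3) * ((2 * (k : ℝ) + 3) / (2 * k + 9)) = 1 := by
      field_simp
    rw [h6, one_pow]
  rw [← h5]
  exact mul_le_mul_of_nonneg_right h4 (by positivity)

theorem rat_ineq (t : ℝ) (ht : 0 ≤ t) :
    24.5352 * 4 * 403.43 * 14400 *
      (64 * (2 * (14 + t) + 3) * ((14 + t) + 3) ^ 2 +
        125 * (14 + t) ^ 2 * (2 * (14 + t) + 5) * (2 * (14 + t) + 9)) ^ 2 *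
      ((14 + t) + 5) ^ 4 * (2 * (14 + t) + 4) ^ 2 <
    5000 * 4096 * ((14 + t) + 3) * (3 * (14 + t) + 1) * (2 * (14 + t) + 1) ^ 2 *
      (2 * (14 + t) + 2) ^ 2 * (2 * (14 + t) + 3) ^ 4 * ((14 + t) + 3) ^ 4 * ((14 + t) + 4) ^ 4 := by
  rw [← sub_pos]
  ring_nf
  positivity

theorem p5_core (κ : ℝ) (hκ : 14 ≤ κ) :
    24.5352 * 4 * 403.43 * 14400 *
      (1 + 125 * κ ^ 2 * (2 * κ + 5) * (2 * κ + 9) / (64 * (2 * κ + 3) * (κ + 3) ^ 2)) ^ 2 *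
      (κ + 5) ^ 2 <
    (5 * (κ + 4) / ((κ + 5) * (2 * κ + 4))) ^ 4 * (8 * (κ + 3)) * (3 * κ + 1) *
      ((κ + 5) * (2 * κ + 1) * (2 * κ + 2) * (2 * κ + 3) * (2 * κ + 4)) ^ 2 := by
  obtain ⟨t, rfl⟩ : ∃ t, κ = 14 + t := ⟨κ - 14, by ring⟩
  have ht : 0 ≤ t := by linarith
  have h := rat_ineq t ht
  generalize 14 + t = κ at h hκ ⊢
  have hu : 0 < 64 * (2 * κ + 3) * (κ + 3) ^ 2 := by positivity
  have hv : 0 < (κ + 5) * (2 * κ + 4) := by positivity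
  set u : ℝ := 64 * (2 * κ + 3) * (κ + 3) ^ 2 with hud
  set v : ℝ := (κ + 5) * (2 * κ + 4) with hvd
  have h1 : (1 + 125 * κ ^ 2 * (2 * κ + 5) * (2 * κ + 9) / u) * u =
      u + 125 * κ ^ 2 * (2 * κ + 5) * (2 * κ + 9) := by
    field_simp
  have h2 : 5 * (κ + 4) / v * v = 5 * (κ + 4) := by
    field_simp
  set a : ℝ := 1 + 125 * κ ^ 2 * (2 * κ + 5) * (2 * κ + 9) / u with ha
  set r : ℝ := 5 * (κ + 4) / v with hr
  have hpos : 0 < u ^ 2 * v ^ 2 := by positivity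
  apply lt_of_mul_lt_mul_right _ hpos.le
  have h3 : 24.5352 * 4 * 403.43 * 14400 * a ^ 2 * (κ + 5) ^ 2 * (u ^ 2 * v ^ 2) =
      24.5352 * 4 * 403.43 * 14400 * (a * u) ^ 2 * (κ + 5) ^ 2 * v ^ 2 := by ring
  have h4 : r ^ 4 * (8 * (κ + 3)) * (3 * κ + 1) *
      ((κ + 5) * (2 * κ + 1) * (2 * κ + 2) * (2 * κ + 3) * (2 * κ + 4)) ^ 2 * (u ^ 2 * v ^ 2) =
      (r * v) ^ 4 * (8 * (κ + 3)) * (3 * κ + 1) *
      ((2 * κ + 1) * (2 * κ + 2) * (2 * κ + 3)) ^ 2 * u ^ 2 := by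
    have : (κ + 5) * (2 * κ + 1) * (2 * κ + 2) * (2 * κ + 3) * (2 * κ + 4) =
        v * ((2 * κ + 1) * (2 * κ + 2) * (2 * κ + 3)) := by rw [hvd]; ring
    rw [this]
    ring
  rw [h3, h4, h1, h2, hud, hvd]
  calc 24.5352 * 4 * 403.43 * 14400 * (64 * (2 * κ + 3) * (κ + 3) ^ 2 +
        125 * κ ^ 2 * (2 * κ + 5) * (2 * κ + 9)) ^ 2 * (κ + 5) ^ 2 * ((κ + 5) * (2 * κ + 4)) ^ 2
      = 24.5352 * 4 * 403.43 * 14400 *
      (64 * (2 * κ + 3) * (κ + 3) ^ 2 + 125 * κ ^ 2 * (2 * κ + 5) * (2 * κ + 9)) ^ 2 *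
      (κ + 5) ^ 4 * (2 * κ + 4) ^ 2 := by ring
    _ < 5000 * 4096 * (κ + 3) * (3 * κ + 1) * (2 * κ + 1) ^ 2 *
      (2 * κ + 2) ^ 2 * (2 * κ + 3) ^ 4 * (κ + 3) ^ 4 * (κ + 4) ^ 4 := h
    _ = _ := by ring

theorem p5_main (k : ℕ) (hk : 14 ≤ k) :
    24.5352 * (1 + √(125 * (k : ℝ) ^ 2 * (2 * k + 5) * (2 * k + 9) /
      (64 * (2 * k + 3) * ((k : ℝ) + 3) ^ 2))) ^ 4 * (((k : ℝ) + 5) * Pi2 (k + 4 + 1) k) ^ 2 *
      dfo k ^ 4 <
    Pi2 (k + 4) k ^ 4 * ((2 * (k : ℝ) + 3) / (2 * k + 9)) ^ (2 * k) *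
      (((k : ℝ) + 5) ^ 2 - ((k : ℝ) + 1) ^ 2) := by
  have hκ : (14 : ℝ) ≤ k := by exact_mod_cast hk
  have e0 : k + 4 + 1 = k + 5 := rfl
  rw [e0]
  have core := p5_core (k : ℝ) hκ
  have hP : 0 < Pi2 (k + 5) k := by
    have h1 := pi2_five k
    have h2 : 0 < ((k : ℝ) + 5) * ((2 * k + 4).factorial : ℝ) := by positivity
    rw [← h1] at h2
    linarith
  have hQ : Pi2 (k + 4) k = Pi2 (k + 5) k * (5 * ((k : ℝ) + 4) / (((k : ℝ) + 5) * (2 * k + 4))) := by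
    have h1 := TJ_pred_one (k + 4) k (by omega)
    have h2 := TJ_one_eq (k + 4) k
    have h3 := TJ_one_eq (k + 5) k
    rw [e0] at h1
    push_cast at h1
    have h4 : Pi2 (k + 4) k * (((k : ℝ) + 5) * (2 * k + 4)) = Pi2 (k + 5) k * (5 * ((k : ℝ) + 4)) := by
      rw [← h2, ← h3]
      linear_combination dfo k * h1
    rw [mul_div_assoc', eq_div_iff (by positivity)]
    exact h4
  have hD := dfo_sq_five k
  have hc := crt_sq k
  have hs := s_pow k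
  set R : ℝ := 125 * (k : ℝ) ^ 2 * (2 * k + 5) * (2 * k + 9) / (64 * (2 * k + 3) * ((k : ℝ) + 3) ^ 2)
    with hR
  have hR0 : 0 ≤ R := by positivity
  have hA : (1 + √R) ^ 4 ≤ 4 * (1 + R) ^ 2 := by
    have h1 : (1 + √R) ^ 2 ≤ 2 * (1 + R) := by
      have h2 := Real.sq_sqrt hR0
      nlinarith [sq_nonneg (1 - √R)]
    calc (1 + √R) ^ 4 = ((1 + √R) ^ 2) ^ 2 := by ring
      _ ≤ (2 * (1 + R)) ^ 2 := pow_le_pow_left₀ (by positivity) h1 2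
      _ = 4 * (1 + R) ^ 2 := by ring
  rw [hQ]
  set r : ℝ := 5 * ((k : ℝ) + 4) / (((k : ℝ) + 5) * (2 * k + 4)) with hr
  set X : ℝ := ((k : ℝ) + 5) * (2 * k + 1) * (2 * k + 2) * (2 * k + 3) * (2 * k + 4) with hX
  set P : ℝ := Pi2 (k + 5) k with hPd
  set c : ℝ := crt k with hcd
  set D : ℝ := dfo k with hDd
  set s : ℝ := ((2 * (k : ℝ) + 3) / (2 * k + 9)) ^ (2 * k) with hsd
  have hXp : 0 < X := by positivity
  have hpos : 0 < X ^ 2 * (3 * (k : ℝ) + 1) * 403.43 := by positivity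
  have hN : ((k : ℝ) + 5) ^ 2 - ((k : ℝ) + 1) ^ 2 = 8 * ((k : ℝ) + 3) := by ring
  rw [hN]
  apply lt_of_mul_lt_mul_right _ hpos.le
  calc 24.5352 * (1 + √R) ^ 4 * (((k : ℝ) + 5) * P) ^ 2 * D ^ 4 * (X ^ 2 * (3 * (k : ℝ) + 1) * 403.43)
      = 24.5352 * (1 + √R) ^ 4 * (((k : ℝ) + 5) * P) ^ 2 * (D ^ 2 * X) ^ 2 *
          (3 * (k : ℝ) + 1) * 403.43 := by ring
    _ = (1 + √R) ^ 4 * (c ^ 2 * (3 * (k : ℝ) + 1)) *
          (24.5352 * 403.43 * 14400 * ((k : ℝ) + 5) ^ 2 * P ^ 4) := by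
        rw [hD]; ring
    _ ≤ (4 * (1 + R) ^ 2) * 1 * (24.5352 * 403.43 * 14400 * ((k : ℝ) + 5) ^ 2 * P ^ 4) := by
        apply mul_le_mul_of_nonneg_right _ (by positivity)
        exact mul_le_mul hA hc (by positivity) (by positivity)
    _ = P ^ 4 * (24.5352 * 4 * 403.43 * 14400 * (1 + R) ^ 2 * ((k : ℝ) + 5) ^ 2) := by ring
    _ < P ^ 4 * (r ^ 4 * (8 * ((k : ℝ) + 3)) * (3 * (k : ℝ) + 1) * X ^ 2) :=
        mul_lt_mul_of_pos_left core (by positivity)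
    _ = P ^ 4 * (r ^ 4 * (8 * ((k : ℝ) + 3)) * (3 * (k : ℝ) + 1) * X ^ 2) * 1 := by ring
    _ ≤ P ^ 4 * (r ^ 4 * (8 * ((k : ℝ) + 3)) * (3 * (k : ℝ) + 1) * X ^ 2) * (403.43 * s) :=
        mul_le_mul_of_nonneg_left hs (by positivity)
    _ = (P * r) ^ 4 * s * (8 * ((k : ℝ) + 3)) * (X ^ 2 * (3 * (k : ℝ) + 1) * 403.43) := by ring

theorem bok_p5 (k : ℕ) (hk : 14 ≤ k) : Bok (k + 4) k := by
  have hκ : (14 : ℝ) ≤ k := by exact_mod_cast hk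
  set R : ℝ := 125 * (k : ℝ) ^ 2 * (2 * k + 5) * (2 * k + 9) / (64 * (2 * k + 3) * ((k : ℝ) + 3) ^ 2)
    with hR
  have hR0 : 0 ≤ R := by positivity
  have hm1 : ((k + 4 : ℕ) : ℝ) + 1 = (k : ℝ) + 5 := by push_cast; ring
  apply bok_of_num (k + 4) k (by omega) (by omega) ((2 * (k : ℝ) + 3) / (2 * k + 9)) (√R)
    (by positivity) (Real.sqrt_nonneg _)
  · intro x1 hx
    have h := loc (k + 4 + 1) k (by omega) hx
    push_cast at h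
    have hp : (0 : ℝ) < 6 * (2 * k + 7) := by positivity
    have h2 : x1 ^ 2 * (2 * (k : ℝ) + 9) ≤ 6 := by
      apply le_of_mul_le_mul_left _ hp
      nlinarith [h]
    have h3 : (2 * (k : ℝ) + 3) / (2 * k + 9) = 1 - 6 / (2 * (k : ℝ) + 9) := by
      field_simp
      ring
    rw [h3]
    have h4 : x1 ^ 2 ≤ 6 / (2 * (k : ℝ) + 9) := by
      rw [le_div_iff₀ (by positivity)]
      exact h2
    linarith
  · rw [hm1, Real.sq_sqrt hR0, hR]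
    apply le_of_eq
    field_simp
    ring
  · rw [hm1]
    exact p5_main k hk

end Pool.LK2
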