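import Pool.Agent.LK2.Bok

/-!
# LK2/P6: `24.5352 · Phi (k+6) k < 1` for all `k ≥ 16`, hence `Bok m k` for `k ≥ 16`, `m ≥ k + 5`

Induction on `k` from `k = 16` (`log` of the value is `-0.164` at `k = 16`).  With `n = k + 6`:
`N0 = 5 (2k+7)`, `n² - k² = 12 (k+3)`, `S_k = Sq (k+6) k = (k+3/2)(k+11/2)/(k²+15k+161/4)`,
`Rf = 12 k² (k+3)/(S_k (2k+7)²)`, `V_k = dfo²/(Pi2 S_k^k)`,
`Phi (k+6) k = 4 (1+Rf)² (k+6)² V_k²/(5(2k+7)) · ((k+6)(2k+5)/(6(k+5)))⁴`.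

Step: `Phi (k+7) (k+1) ≤ Phi (k+6) k`.  `Pi2 (k+7) (k+1) = Pi2 (k+6) k · (k+7)(2k+7)(2k+6)/(k+6)` (because
`Pi2 n k = n (n+k-1)!/(n-k)!`, or directly by products), `dfo (k+1) = (2k+1) dfo k`.  `S_k < S_{k+1} = T`, and with
`δ = (T - S_k)/T ∈ (0,1)`: `(S_k/T)^k = (1-δ)^k ≤ 1/(1 + k δ)` (Bernoulli for `(1/(1-δ))^k ≥ (1+δ)^k ≥ 1 + kδ`).  So
`V_{k+1}/V_k ≤ (2k+1)² (k+6)/((k+7)(2k+7)(2k+6) T (1+kδ))`.
`(1+Rf')/(1+Rf) ≤ Rf'/Rf = ((k+1)²(k+4)/(k²(k+3))) (S_k/T) ((2k+7)/(2k+9))²` as soon as `Rf' ≥ Rf` (true; if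
`Rf' < Rf` the quotient is `< 1` anyway).
Hence `Phi'/Phi ≤ Q²` with
`Q = max(1, Rf'/Rf) · (2k+1)² (k+6)/((k+7)(2k+7)(2k+6) T (1+kδ)) · (k+7)/(k+6) · B²`,
`B = (k+7)(2k+7)(k+5)/((k+6)²(2k+5))` (the factor `(2k+7)/(2k+9) < 1` of `1/N0` is dropped),
and `Q < 1` for `k ≥ 16` is a rational inequality in `k` (numerically `Q = 0.972` at `k = 16`, `0.9695` at `k = 30`,
`1 - 2.5/k` for large `k`): clear denominators, substitute `k = 16 + t` and check that all coefficients have one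
sign (`positivity` / `nlinarith`).
-/

open Set
open Pool.LK1 (TJ InF)

namespace Pool.LK2

private theorem p6_poly1 {x : ℝ} (hx : 16 ≤ x) :
    (2 * x + 1) ^ 2 * (4 * x ^ 2 + 68 * x + 225) ^ 2 * ((2 * x + 3) * (2 * x + 11)) * (x + 7) ^ 2 *
        (2 * x + 7) * (x + 5) ^ 2 ≤
      (2 * x + 6) * ((2 * x + 5) * (2 * x + 13)) *
        (16 * x ^ 4 + 512 * x ^ 3 + 4088 * x ^ 2 + 11584 * x + 7425) * (x + 6) ^ 4 * (2 * x + 5) ^ 2 := by
  obtain ⟨t, rfl⟩ : ∃ t, x = 16 + t := ⟨x - 16, by ring⟩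
  have ht : 0 ≤ t := by linarith
  rw [← sub_nonneg]
  have h : (2 * (16 + t) + 6) * ((2 * (16 + t) + 5) * (2 * (16 + t) + 13)) *
        (16 * (16 + t) ^ 4 + 512 * (16 + t) ^ 3 + 4088 * (16 + t) ^ 2 + 11584 * (16 + t) + 7425) * ((16 + t) + 6) ^ 4 * (2 * (16 + t) + 5) ^ 2 -
      ((2 * (16 + t) + 1) ^ 2 * (4 * (16 + t) ^ 2 + 68 * (16 + t) + 225) ^ 2 * ((2 * (16 + t) + 3) * (2 * (16 + t) + 11)) * ((16 + t) + 7) ^ 2 *
        (2 * (16 + t) + 7) * ((16 + t) + 5) ^ 2) =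
      7533652183862166945 + 4441286657018544894 * t + 1203595664781342438 * t ^ 2 + 198280792191057884
        * t ^ 3 + 22115650350630607 * t ^ 4 + 1759352642937768 * t ^ 5 + 102350571519056 * t ^ 6
        + 4386654023520 * t ^ 7 + 137444764704 * t ^ 8 + 3069711232 * t ^ 9 + 46377728 * t ^ 10
        + 425472 * t ^ 11 + 1792 * t ^ 12 := by
    ring
  rw [h]
  positivity

private theorem p6_poly2 {x : ℝ} (hx : 16 ≤ x) :
    (x + 1) ^ 2 * (x + 4) * (4 * x ^ 2 + 68 * x + 225) *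
      ((2 * x + 3) * (2 * x + 11)) * (2 * x + 7) ^ 2 *
      ((2 * x + 1) ^ 2 * (4 * x ^ 2 + 68 * x + 225) ^ 2 * ((2 * x + 3) * (2 * x + 11)) * (x + 7) ^ 2 *
        (2 * x + 7) * (x + 5) ^ 2) ≤
      x ^ 2 * (x + 3) * (4 * x ^ 2 + 60 * x + 161) * ((2 * x + 5) * (2 * x + 13)) * (2 * x + 9) ^ 2 *
      ((2 * x + 6) * ((2 * x + 5) * (2 * x + 13)) *
        (16 * x ^ 4 + 512 * x ^ 3 + 4088 * x ^ 2 + 11584 * x + 7425) * (x + 6) ^ 4 * (2 * x + 5) ^ 2) := by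
  obtain ⟨t, rfl⟩ : ∃ t, x = 16 + t := ⟨x - 16, by ring⟩
  have ht : 0 ≤ t := by linarith
  rw [← sub_nonneg]
  have h : (16 + t) ^ 2 * ((16 + t) + 3) * (4 * (16 + t) ^ 2 + 60 * (16 + t) + 161) *
      ((2 * (16 + t) + 5) * (2 * (16 + t) + 13)) * (2 * (16 + t) + 9) ^ 2 *
      ((2 * (16 + t) + 6) * ((2 * (16 + t) + 5) * (2 * (16 + t) + 13)) *
        (16 * (16 + t) ^ 4 + 512 * (16 + t) ^ 3 + 4088 * (16 + t) ^ 2 + 11584 * (16 + t) + 7425) * ((16 + t) + 6) ^ 4 * (2 * (16 + t) + 5) ^ 2) -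
      ((16 + t) + 1) ^ 2 * ((16 + t) + 4) * (4 * (16 + t) ^ 2 + 68 * (16 + t) + 225) *
      ((2 * (16 + t) + 3) * (2 * (16 + t) + 11)) * (2 * (16 + t) + 7) ^ 2 *
      ((2 * (16 + t) + 1) ^ 2 * (4 * (16 + t) ^ 2 + 68 * (16 + t) + 225) ^ 2 * ((2 * (16 + t) + 3) * (2 * (16 + t) + 11)) * ((16 + t) + 7) ^ 2 *
        (2 * (16 + t) + 7) * ((16 + t) + 5) ^ 2) =
      79950229482497586505772573308500 + 87970575936015754745224411533825 * t +
        46045886872703456240774413437960 * t ^ 2 + 15248766328146954720003475825767 * t ^ 3 +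
        3584417000838962654077795152102 * t ^ 4 + 635958787960292533955375335427 * t ^ 5 +
        88407448935189944817479728006 * t ^ 6 + 9865779403458893175437644613 * t ^ 7 +
        898203556394985042112018220 * t ^ 8 + 67427052471371753324840620 * t ^ 9 +
        4200722439568883400724864 * t ^ 10 + 217860716743922571340624 * t ^ 11 +
        9405785195429030222912 * t ^ 12 + 336999939658813046464 * t ^ 13 + 9955457350398303744 *
        t ^ 14 + 239920136546277120 * t ^ 15 + 4641103152493568 * t ^ 16 + 70337232774144 * t ^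
        17 + 804508286976 * t ^ 18 + 6530789376 * t ^ 19 + 33538048 * t ^ 20 + 81920 * t ^ 21 := by
    ring
  rw [h]
  positivity

private theorem p6_pi2_succ (n k : ℕ) : Pi2 n (k + 1) = Pi2 n k * ((n : ℝ) ^ 2 - (k : ℝ) ^ 2) := by
  unfold Pi2
  rw [Finset.prod_range_succ]

private theorem p6_dfo_succ (k : ℕ) : dfo (k + 1) = dfo k * (2 * (k : ℝ) + 1) := by
  unfold dfo
  rw [Finset.prod_range_succ]

private theorem p6_pi2_step (n k : ℕ) :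
    Pi2 (n + 1) (k + 1) * (n : ℝ) =
      Pi2 n k * (((n : ℝ) + 1) * ((n : ℝ) + k + 1) * ((n : ℝ) + k)) := by
  induction k with
  | zero =>
    unfold Pi2
    rw [Finset.prod_range_succ, Finset.prod_range_zero, Finset.prod_range_zero]
    push_cast
    ring
  | succ k ih =>
    rw [p6_pi2_succ (n + 1) (k + 1), p6_pi2_succ n k]
    push_cast
    have h : Pi2 (n + 1) (k + 1) * (((n : ℝ) + 1) ^ 2 - ((k : ℝ) + 1) ^ 2) * (n : ℝ) =
        Pi2 (n + 1) (k + 1) * (n : ℝ) * (((n : ℝ) + 1) ^ 2 - ((k : ℝ) + 1) ^ 2) := by ring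
    rw [h, ih]
    ring

private theorem p6_pi2_pos (n k : ℕ) (h : k ≤ n) : 0 < Pi2 n k := by
  unfold Pi2
  refine Finset.prod_pos fun j hj => ?_
  have h1 : j < n := lt_of_lt_of_le (Finset.mem_range.1 hj) h
  have h2 : (j : ℝ) < n := by exact_mod_cast h1
  have h3 : (0 : ℝ) ≤ j := Nat.cast_nonneg j
  nlinarith

private theorem p6_dfo_pos (k : ℕ) : 0 < dfo k := by
  unfold dfo
  exact Finset.prod_pos fun j _ => by positivity

private theorem p6_sq (k : ℕ) : Sq (k + 6) k =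
    ((2 * (k : ℝ) + 3) * (2 * k + 11)) / (4 * (k : ℝ) ^ 2 + 60 * k + 161) := by
  unfold Sq
  push_cast
  have h1 : ((k : ℝ) + 6) ^ 2 + 3 * k + 17 / 4 ≠ 0 := by positivity
  have h2 : 4 * (k : ℝ) ^ 2 + 60 * k + 161 ≠ 0 := by positivity
  rw [div_eq_div_iff h1 h2]
  ring

private theorem p6_sq' (k : ℕ) : Sq (k + 1 + 6) (k + 1) =
    ((2 * (k : ℝ) + 5) * (2 * k + 13)) / (4 * (k : ℝ) ^ 2 + 68 * k + 225) := by
  rw [p6_sq]
  push_cast
  congr 1 <;> ring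

private theorem p6_rf (k : ℕ) : Rf (k + 6) k =
    12 * (k : ℝ) ^ 2 * ((k : ℝ) + 3) / (Sq (k + 6) k * (2 * (k : ℝ) + 7) ^ 2) := by
  have hS : 0 < Sq (k + 6) k := by
    rw [p6_sq]
    positivity
  unfold Rf
  push_cast
  have h1 : ((k : ℝ) + 6) ^ 2 - ((k : ℝ) + 1) ^ 2 = 5 * (2 * (k : ℝ) + 7) := by ring
  have h2 : ((k : ℝ) + 6) ^ 2 - (k : ℝ) ^ 2 = 12 * ((k : ℝ) + 3) := by ring
  rw [h1, h2]
  have h3 : (0 : ℝ) < 2 * (k : ℝ) + 7 := by positivity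
  rw [div_eq_div_iff (by positivity) (by positivity)]
  ring

/-- the fourth root of `Phi`, squared -/
private noncomputable def Zf (k : ℕ) : ℝ :=
  ((k : ℝ) + 6) * (dfo k ^ 2 / (Pi2 (k + 6) k * Sq (k + 6) k ^ k)) *
    (((k : ℝ) + 6) * (2 * (k : ℝ) + 5) / ((k : ℝ) + 5)) ^ 2

private theorem p6_Zf_pos (k : ℕ) : 0 < Zf k := by
  have h1 := p6_pi2_pos (k + 6) k (by omega)
  have h2 := p6_dfo_pos k
  have hS : 0 < Sq (k + 6) k := by
    rw [p6_sq]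
    positivity
  unfold Zf
  positivity

private theorem p6_phi (k : ℕ) : Phi (k + 6) k =
    ((1 + Rf (k + 6) k) * Zf k) ^ 2 / (1620 * (2 * (k : ℝ) + 7)) := by
  have h1 := p6_pi2_pos (k + 6) k (by omega)
  have h2 := p6_dfo_pos k
  have hS : 0 < Sq (k + 6) k := by
    rw [p6_sq]
    positivity
  unfold Phi Th Zf
  push_cast
  have e1 : ((k : ℝ) + 6) ^ 2 - ((k : ℝ) + 1) ^ 2 = 5 * (2 * (k : ℝ) + 7) := by ring
  have e2 : (k : ℝ) + 6 + k - 1 = 2 * (k : ℝ) + 5 := by ring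
  have e3 : (k : ℝ) + 6 - k = 6 := by ring
  have e4 : (k : ℝ) + 6 - 1 = (k : ℝ) + 5 := by ring
  rw [e1, e2, e3, e4, pow_mul' (Sq (k + 6) k) 2 k]
  have h3 : (0 : ℝ) < 2 * (k : ℝ) + 7 := by positivity
  have h4 : (0 : ℝ) < (k : ℝ) + 5 := by positivity
  have h5 : (0 : ℝ) < Sq (k + 6) k ^ k := by positivity
  field_simp
  ring

/-- Bernoulli: `(S/T)^k ≤ S/(S + k (T - S))` for `0 < S ≤ T` -/
private theorem p6_bern (k : ℕ) {S T : ℝ} (hS : 0 < S) (hST : S ≤ T) :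
    S ^ k / T ^ k ≤ S / (S + k * (T - S)) := by
  have hT : 0 < T := hS.trans_le hST
  have h1 : 1 + (k : ℝ) * ((T - S) / S) ≤ (1 + (T - S) / S) ^ k := by
    apply one_add_mul_le_pow
    have : 0 ≤ (T - S) / S := div_nonneg (by linarith) hS.le
    linarith
  have h2 : 1 + (T - S) / S = T / S := by
    field_simp
    ring
  rw [h2, div_pow] at h1
  have h3 : 1 + (k : ℝ) * ((T - S) / S) = (S + k * (T - S)) / S := by
    field_simp
  rw [h3] at h1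
  have h4 : 0 < S + k * (T - S) := by
    have : 0 ≤ (k : ℝ) * (T - S) := mul_nonneg (Nat.cast_nonneg k) (by linarith)
    linarith
  rw [div_le_div_iff₀ hS (by positivity)] at h1
  rw [div_le_div_iff₀ (by positivity) h4]
  linarith

private theorem p6_step (k : ℕ) (hk : 16 ≤ k) :
    (1 + Rf (k + 1 + 6) (k + 1)) * Zf (k + 1) ≤ (1 + Rf (k + 6) k) * Zf k := by
  have hx : (16 : ℝ) ≤ k := by exact_mod_cast hk
  have hS := p6_sq k
  have hT := p6_sq' k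
  have hR := p6_rf k
  have hR' := p6_rf (k + 1)
  have hZ := p6_Zf_pos k
  have hP := p6_pi2_pos (k + 6) k (by omega)
  have hD := p6_dfo_pos k
  have hPi : Pi2 (k + 1 + 6) (k + 1) = Pi2 (k + 6) k *
      (((k : ℝ) + 7) * (2 * (k : ℝ) + 7) * (2 * (k : ℝ) + 6)) / ((k : ℝ) + 6) := by
    have h := p6_pi2_step (k + 6) k
    have e : k + 1 + 6 = k + 6 + 1 := by ring
    rw [e, eq_div_iff (by positivity)]
    push_cast at h
    rw [h]
    ring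
  have hZf' : Zf (k + 1) = ((k : ℝ) + 7) * ((dfo k * (2 * (k : ℝ) + 1)) ^ 2 /
      (Pi2 (k + 6) k * (((k : ℝ) + 7) * (2 * (k : ℝ) + 7) * (2 * (k : ℝ) + 6)) / ((k : ℝ) + 6) *
        (Sq (k + 1 + 6) (k + 1) ^ k * Sq (k + 1 + 6) (k + 1)))) *
      (((k : ℝ) + 7) * (2 * (k : ℝ) + 7) / ((k : ℝ) + 6)) ^ 2 := by
    unfold Zf
    rw [p6_dfo_succ, hPi, pow_succ]
    push_cast
    congr 1
    · congr 1
      ring
    · congr 1
      congr 1
      · ring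
      · ring
  obtain ⟨x, hxk⟩ : ∃ x : ℝ, x = k := ⟨_, rfl⟩
  obtain ⟨S, hSd⟩ : ∃ S, S = Sq (k + 6) k := ⟨_, rfl⟩
  obtain ⟨T, hTd⟩ : ∃ T, T = Sq (k + 1 + 6) (k + 1) := ⟨_, rfl⟩
  have hx0 : 0 < x := by rw [hxk]; linarith
  rw [← hxk, ← hSd] at hS
  rw [← hxk, ← hTd] at hT
  have hS0 : 0 < S := by rw [hS]; positivity
  have hT0 : 0 < T := by rw [hT]; positivity
  have hST : S ≤ T := by
    rw [hS, hT, div_le_div_iff₀ (by positivity) (by positivity)]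
    nlinarith [mul_pos hx0 hx0]
  have hB := p6_bern k hS0 hST
  have hw : S / (S + k * (T - S)) = (2 * x + 3) * (2 * x + 11) * (4 * x ^ 2 + 68 * x + 225) /
      (16 * x ^ 4 + 512 * x ^ 3 + 4088 * x ^ 2 + 11584 * x + 7425) := by
    rw [← hxk, hS, hT]
    have h1 : (2 * x + 3) * (2 * x + 11) / (4 * x ^ 2 + 60 * x + 161) +
        x * ((2 * x + 5) * (2 * x + 13) / (4 * x ^ 2 + 68 * x + 225) -
          (2 * x + 3) * (2 * x + 11) / (4 * x ^ 2 + 60 * x + 161)) =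
        (16 * x ^ 4 + 512 * x ^ 3 + 4088 * x ^ 2 + 11584 * x + 7425) /
          ((4 * x ^ 2 + 60 * x + 161) * (4 * x ^ 2 + 68 * x + 225)) := by
      have d1 : (0 : ℝ) < 4 * x ^ 2 + 60 * x + 161 := by positivity
      have d2 : (0 : ℝ) < 4 * x ^ 2 + 68 * x + 225 := by positivity
      field_simp
      ring
    rw [h1]
    have d1 : (0 : ℝ) < 4 * x ^ 2 + 60 * x + 161 := by positivity
    have d2 : (0 : ℝ) < 4 * x ^ 2 + 68 * x + 225 := by positivity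
    have d3 : (0 : ℝ) < 16 * x ^ 4 + 512 * x ^ 3 + 4088 * x ^ 2 + 11584 * x + 7425 := by positivity
    field_simp
  rw [hw] at hB
  -- the quotient of the `Zf`
  obtain ⟨W, hW⟩ : ∃ W, W = S ^ k / T ^ k := ⟨_, rfl⟩
  rw [← hW] at hB
  have hW0 : 0 < W := by rw [hW]; positivity
  obtain ⟨Y, hY⟩ : ∃ Y, Y = (2 * x + 1) ^ 2 / ((2 * x + 7) * (2 * x + 6)) * (W / T) *
      ((x + 7) * (2 * x + 7) * (x + 5) / ((x + 6) ^ 2 * (2 * x + 5))) ^ 2 := ⟨_, rfl⟩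
  have hZY : Zf (k + 1) = Zf k * Y := by
    rw [hZf', hY, hW]
    unfold Zf
    rw [← hSd, ← hTd, ← hxk]
    have d1 : 0 < S ^ k := by positivity
    have d2 : 0 < T ^ k := by positivity
    field_simp
  have hX : Y ≤ (2 * x + 1) ^ 2 * (4 * x ^ 2 + 68 * x + 225) ^ 2 * ((2 * x + 3) * (2 * x + 11)) *
      (x + 7) ^ 2 * (2 * x + 7) * (x + 5) ^ 2 /
      ((2 * x + 6) * ((2 * x + 5) * (2 * x + 13)) *
        (16 * x ^ 4 + 512 * x ^ 3 + 4088 * x ^ 2 + 11584 * x + 7425) * (x + 6) ^ 4 *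
        (2 * x + 5) ^ 2) := by
    have h1 : Y ≤ (2 * x + 1) ^ 2 / ((2 * x + 7) * (2 * x + 6)) *
        (((2 * x + 3) * (2 * x + 11) * (4 * x ^ 2 + 68 * x + 225) /
          (16 * x ^ 4 + 512 * x ^ 3 + 4088 * x ^ 2 + 11584 * x + 7425)) / T) *
        ((x + 7) * (2 * x + 7) * (x + 5) / ((x + 6) ^ 2 * (2 * x + 5))) ^ 2 := by
      rw [hY]
      refine mul_le_mul_of_nonneg_right (mul_le_mul_of_nonneg_left ?_ (by positivity)) (by positivity)
      exact div_le_div_of_nonneg_right hB hT0.le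
    refine h1.trans (le_of_eq ?_)
    rw [hT]
    have d2 : (0 : ℝ) < 4 * x ^ 2 + 68 * x + 225 := by positivity
    have d3 : (0 : ℝ) < 16 * x ^ 4 + 512 * x ^ 3 + 4088 * x ^ 2 + 11584 * x + 7425 := by positivity
    field_simp
  have hx16 : 16 ≤ x := by rw [hxk]; exact hx
  have q1 := p6_poly1 hx16
  have q2 := p6_poly2 hx16
  obtain ⟨N, hN⟩ : ∃ N, N = (2 * x + 1) ^ 2 * (4 * x ^ 2 + 68 * x + 225) ^ 2 *
      ((2 * x + 3) * (2 * x + 11)) * (x + 7) ^ 2 * (2 * x + 7) * (x + 5) ^ 2 := ⟨_, rfl⟩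
  obtain ⟨D, hDd⟩ : ∃ D, D = (2 * x + 6) * ((2 * x + 5) * (2 * x + 13)) *
      (16 * x ^ 4 + 512 * x ^ 3 + 4088 * x ^ 2 + 11584 * x + 7425) * (x + 6) ^ 4 *
      (2 * x + 5) ^ 2 := ⟨_, rfl⟩
  rw [← hN, ← hDd] at q1 q2 hX
  have hD0 : 0 < D := by rw [hDd]; positivity
  have hN0 : 0 < N := by rw [hN]; positivity
  have hR1 : Rf (k + 6) k = 12 * x ^ 2 * (x + 3) * (4 * x ^ 2 + 60 * x + 161) /
      ((2 * x + 3) * (2 * x + 11) * (2 * x + 7) ^ 2) := by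
    rw [hR, ← hSd, ← hxk, hS]
    field_simp
  have hR1' : Rf (k + 1 + 6) (k + 1) = 12 * (x + 1) ^ 2 * (x + 4) * (4 * x ^ 2 + 68 * x + 225) /
      ((2 * x + 5) * (2 * x + 13) * (2 * x + 9) ^ 2) := by
    rw [hR', ← hTd]
    push_cast
    rw [← hxk, hT]
    have e1 : x + 1 + 3 = x + 4 := by ring
    have e2 : 2 * (x + 1) + 7 = 2 * x + 9 := by ring
    rw [e1, e2]
    have d2 : (0 : ℝ) < 4 * x ^ 2 + 68 * x + 225 := by positivity
    field_simp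
  have hRp : 0 ≤ Rf (k + 1 + 6) (k + 1) := by rw [hR1']; positivity
  have c1 : Y ≤ 1 := hX.trans ((div_le_one hD0).2 q1)
  have c2 : Rf (k + 1 + 6) (k + 1) * Y ≤ Rf (k + 6) k := by
    refine (mul_le_mul_of_nonneg_left hX hRp).trans ?_
    rw [hR1, hR1', div_mul_div_comm, div_le_div_iff₀ (by positivity) (by positivity)]
    nlinarith [q2]
  rw [hZY]
  have h9 : (1 + Rf (k + 1 + 6) (k + 1)) * (Zf k * Y) =
      (Y + Rf (k + 1 + 6) (k + 1) * Y) * Zf k := by ring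
  rw [h9]
  exact mul_le_mul_of_nonneg_right (by linarith) hZ.le

theorem phi_p6 (k : ℕ) (hk : 16 ≤ k) : 24.5352 * Phi (k + 6) k < 1 := by
  induction k, hk using Nat.le_induction with
  | base =>
    norm_num [Phi, Th, Rf, Sq, Pi2, dfo, Finset.prod_range_succ]
  | succ k hk ih =>
    refine lt_of_le_of_lt ?_ ih
    refine mul_le_mul_of_nonneg_left ?_ (by norm_num)
    rw [p6_phi, p6_phi]
    have h1 := p6_step k hk
    have h2 : 0 ≤ (1 + Rf (k + 1 + 6) (k + 1)) * Zf (k + 1) := by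
      have h3 : 0 ≤ Rf (k + 1 + 6) (k + 1) := by
        have hS : 0 < Sq (k + 1 + 6) (k + 1) := by
          rw [p6_sq']
          positivity
        rw [p6_rf (k + 1)]
        positivity
      have h4 := (p6_Zf_pos (k + 1)).le
      positivity
    have h5 := pow_le_pow_left₀ h2 h1 2
    have h6 : (0 : ℝ) ≤ ((1 + Rf (k + 6) k) * Zf k) ^ 2 := sq_nonneg _
    refine div_le_div₀ h6 h5 (by positivity) ?_
    push_cast
    linarith

theorem bok_p6 (m k : ℕ) (hk : 16 ≤ k) (hm : k + 5 ≤ m) : Bok m k :=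
  bok_of_phi_le (n0 := k + 6) (by omega) (by omega) (by omega) (phi_p6 k hk)

end Pool.LK2
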