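import Pool.Agent.LK2.S1

/-!
# LK2/S1NumA: `S1c m k` for `k = 2, 3, 4, 5` and all `m ≥ k + 2`

* `k = 2`: `s1_of_th` with `m0 = 4`: `256 · Th 4 2 = 0.8229`.
* `k = 3`: `m0 = 7`: `4096 · Th 7 3 = 0.5107`; `m = 5, 6` by `s1_of_num` (see the table).
* `k = 4`: `m0 = 10`: `16^4 · Th 10 4 = 0.8526`; `m = 6, 7, 8, 9` by `s1_of_num`.
* `k = 5`: `m0 = 18`: `16^5 · Th 18 5 = 0.9227`; `m = 7, ..., 17` by `s1_of_num`.
Table `(m, k)`: `S`, `X` (`S = Sp m k`; `X` a rational with `X² ≥ 1 - Sp (m+1) k`), quotient of the two sides of `hnum`: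
(5,3): 1, 8/25 (0.025); (6,3): 9/10, 51/100 (0.015); (6,4): 1, 29/100 (0.020); (7,4): 11/12, 12/25 (0.015);
(8,4): 781/1005, 3/5 (0.016); (9,4): 11/17, 17/25 (0.018); (7,5): 1, 27/100 (0.018); (8,5): 13/14, 9/20 (0.016);
(9,5): 1053/1309, 57/100 (0.019); (10,5): 13/19, 13/20 (0.024); (11,5): 533/917, 71/100 (0.030);
(12,5): 468/943, 19/25 (0.038); (13,5): 143/335, 4/5 (0.049); (14,5): 403/1089, 83/100 (0.059);
(15,5): 2691/8323, 17/20 (0.066); (16,5): 247/868, 87/100 (0.077); (17,5): 1079/4279, 89/100 (0.090).
All by `norm_num [Sp, Pi2, dfo, Finset.prod_range_succ]` (`Th`, `Sq` for the others).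
-/

open Set
open Pool.LK1 (TJ InF)

namespace Pool.LK2

theorem s1_two (m : ℕ) (hm : 4 ≤ m) : S1c m 2 :=
  s1_of_th m 4 2 (by norm_num) (by norm_num) hm
    (by norm_num [Th, Sq, Pi2, dfo, Finset.prod_range_succ])

theorem s1_three (m : ℕ) (hm : 5 ≤ m) : S1c m 3 := by
  rcases le_or_gt 7 m with h | h
  · exact s1_of_th m 7 3 (by norm_num) (by norm_num) h
      (by norm_num [Th, Sq, Pi2, dfo, Finset.prod_range_succ])
  · interval_cases m
    · exact s1_of_num 5 3 (by norm_num) (by norm_num) (1) (8/25) (by norm_num) (by norm_num)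
        (by norm_num [Sp]) (by norm_num [Sp])
        (by norm_num [Pi2, dfo, Finset.prod_range_succ])
    · exact s1_of_num 6 3 (by norm_num) (by norm_num) (9/10) (51/100) (by norm_num) (by norm_num)
        (by norm_num [Sp]) (by norm_num [Sp])
        (by norm_num [Pi2, dfo, Finset.prod_range_succ])

theorem s1_four (m : ℕ) (hm : 6 ≤ m) : S1c m 4 := by
  rcases le_or_gt 10 m with h | h
  · exact s1_of_th m 10 4 (by norm_num) (by norm_num) h
      (by norm_num [Th, Sq, Pi2, dfo, Finset.prod_range_succ])
  · interval_cases m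
    · exact s1_of_num 6 4 (by norm_num) (by norm_num) (1) (29/100) (by norm_num) (by norm_num)
        (by norm_num [Sp]) (by norm_num [Sp])
        (by norm_num [Pi2, dfo, Finset.prod_range_succ])
    · exact s1_of_num 7 4 (by norm_num) (by norm_num) (11/12) (12/25) (by norm_num) (by norm_num)
        (by norm_num [Sp]) (by norm_num [Sp])
        (by norm_num [Pi2, dfo, Finset.prod_range_succ])
    · exact s1_of_num 8 4 (by norm_num) (by norm_num) (781/1005) (3/5) (by norm_num) (by norm_num)
        (by norm_num [Sp]) (by norm_num [Sp])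
        (by norm_num [Pi2, dfo, Finset.prod_range_succ])
    · exact s1_of_num 9 4 (by norm_num) (by norm_num) (11/17) (17/25) (by norm_num) (by norm_num)
        (by norm_num [Sp]) (by norm_num [Sp])
        (by norm_num [Pi2, dfo, Finset.prod_range_succ])

theorem s1_five (m : ℕ) (hm : 7 ≤ m) : S1c m 5 := by
  rcases le_or_gt 18 m with h | h
  · exact s1_of_th m 18 5 (by norm_num) (by norm_num) h
      (by norm_num [Th, Sq, Pi2, dfo, Finset.prod_range_succ])
  · interval_cases m
    · exact s1_of_num 7 5 (by norm_num) (by norm_num) (1) (27/100) (by norm_num) (by norm_num)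
        (by norm_num [Sp]) (by norm_num [Sp])
        (by norm_num [Pi2, dfo, Finset.prod_range_succ])
    · exact s1_of_num 8 5 (by norm_num) (by norm_num) (13/14) (9/20) (by norm_num) (by norm_num)
        (by norm_num [Sp]) (by norm_num [Sp])
        (by norm_num [Pi2, dfo, Finset.prod_range_succ])
    · exact s1_of_num 9 5 (by norm_num) (by norm_num) (1053/1309) (57/100) (by norm_num) (by norm_num)
        (by norm_num [Sp]) (by norm_num [Sp])
        (by norm_num [Pi2, dfo, Finset.prod_range_succ])
    · exact s1_of_num 10 5 (by norm_num) (by norm_num) (13/19) (13/20) (by norm_num) (by norm_num)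
        (by norm_num [Sp]) (by norm_num [Sp])
        (by norm_num [Pi2, dfo, Finset.prod_range_succ])
    · exact s1_of_num 11 5 (by norm_num) (by norm_num) (533/917) (71/100) (by norm_num) (by norm_num)
        (by norm_num [Sp]) (by norm_num [Sp])
        (by norm_num [Pi2, dfo, Finset.prod_range_succ])
    · exact s1_of_num 12 5 (by norm_num) (by norm_num) (468/943) (19/25) (by norm_num) (by norm_num)
        (by norm_num [Sp]) (by norm_num [Sp])
        (by norm_num [Pi2, dfo, Finset.prod_range_succ])
    · exact s1_of_num 13 5 (by norm_num) (by norm_num) (143/335) (4/5) (by norm_num) (by norm_num)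
        (by norm_num [Sp]) (by norm_num [Sp])
        (by norm_num [Pi2, dfo, Finset.prod_range_succ])
    · exact s1_of_num 14 5 (by norm_num) (by norm_num) (403/1089) (83/100) (by norm_num) (by norm_num)
        (by norm_num [Sp]) (by norm_num [Sp])
        (by norm_num [Pi2, dfo, Finset.prod_range_succ])
    · exact s1_of_num 15 5 (by norm_num) (by norm_num) (2691/8323) (17/20) (by norm_num) (by norm_num)
        (by norm_num [Sp]) (by norm_num [Sp])
        (by norm_num [Pi2, dfo, Finset.prod_range_succ])
    · exact s1_of_num 16 5 (by norm_num) (by norm_num) (247/868) (87/100) (by norm_num) (by norm_num)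
        (by norm_num [Sp]) (by norm_num [Sp])
        (by norm_num [Pi2, dfo, Finset.prod_range_succ])
    · exact s1_of_num 17 5 (by norm_num) (by norm_num) (1079/4279) (89/100) (by norm_num) (by norm_num)
        (by norm_num [Sp]) (by norm_num [Sp])
        (by norm_num [Pi2, dfo, Finset.prod_range_succ])

end Pool.LK2
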