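import Pool.Agent.LK2.S1

/-!
# LK2/S1NumB: `S1c m k` for 24 pairs

`s1_of_num`, data `(m, k)`: `S`, `X` (`S = Sp m k`, `X² ≥ 1 - Sp (m+1) k`), all by
`norm_num [Sp, Pi2, dfo, Finset.prod_range_succ]`; the quotient of the two sides of `hnum` is at most `0.39`:
`m = k + 3`: (9,6): 15/16, 21/50; (10,7): 17/18, 2/5; (11,8): 19/20, 19/50; (12,9): 21/22, 37/100; (13,10): 23/24, 7/20;
(14,11): 25/26, 17/50; (15,12): 27/28, 33/100; (16,13): 29/30, 8/25; (17,14): 31/32, 31/100; (18,15): 33/34, 3/10.
`m = k + 4`: (10,6): 455/551, 27/50; (11,7): 1717/2037, 13/25; (12,8): 2109/2461, 49/100; (13,9): 847/975, 12/25;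
(14,10): 3013/3429, 23/50; (15,11): 3525/3973, 11/25; (16,12): 1359/1519, 43/100; (17,13): 4669/5181, 21/50.
`m = k + 5`: (11,6): 5/7, 31/50; (12,7): 17/23, 3/5; (13,8): 19/25, 29/50; (14,9): 7/9, 14/25; (15,10): 23/29, 27/50.
(12,6): 411/667, 69/100.
-/

open Set
open Pool.LK1 (TJ InF)

namespace Pool.LK2

theorem s1_p4 (k : ℕ) (hk : 6 ≤ k) (hk15 : k ≤ 15) : S1c (k + 3) k := by
  interval_cases k
  · refine s1_of_num 9 6 (by norm_num) (by norm_num) (15/16) (21/50) (by norm_num) (by norm_num)
      (by norm_num [Sp]) (by norm_num [Sp]) ?_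
    norm_num [Pi2, dfo, Finset.prod_range_succ]
  · refine s1_of_num 10 7 (by norm_num) (by norm_num) (17/18) (2/5) (by norm_num) (by norm_num)
      (by norm_num [Sp]) (by norm_num [Sp]) ?_
    norm_num [Pi2, dfo, Finset.prod_range_succ]
  · refine s1_of_num 11 8 (by norm_num) (by norm_num) (19/20) (19/50) (by norm_num) (by norm_num)
      (by norm_num [Sp]) (by norm_num [Sp]) ?_
    norm_num [Pi2, dfo, Finset.prod_range_succ]
  · refine s1_of_num 12 9 (by norm_num) (by norm_num) (21/22) (37/100) (by norm_num) (by norm_num)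
      (by norm_num [Sp]) (by norm_num [Sp]) ?_
    norm_num [Pi2, dfo, Finset.prod_range_succ]
  · refine s1_of_num 13 10 (by norm_num) (by norm_num) (23/24) (7/20) (by norm_num) (by norm_num)
      (by norm_num [Sp]) (by norm_num [Sp]) ?_
    norm_num [Pi2, dfo, Finset.prod_range_succ]
  · refine s1_of_num 14 11 (by norm_num) (by norm_num) (25/26) (17/50) (by norm_num) (by norm_num)
      (by norm_num [Sp]) (by norm_num [Sp]) ?_
    norm_num [Pi2, dfo, Finset.prod_range_succ]
  · refine s1_of_num 15 12 (by norm_num) (by norm_num) (27/28) (33/100) (by norm_num) (by norm_num)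
      (by norm_num [Sp]) (by norm_num [Sp]) ?_
    norm_num [Pi2, dfo, Finset.prod_range_succ]
  · refine s1_of_num 16 13 (by norm_num) (by norm_num) (29/30) (8/25) (by norm_num) (by norm_num)
      (by norm_num [Sp]) (by norm_num [Sp]) ?_
    norm_num [Pi2, dfo, Finset.prod_range_succ]
  · refine s1_of_num 17 14 (by norm_num) (by norm_num) (31/32) (31/100) (by norm_num) (by norm_num)
      (by norm_num [Sp]) (by norm_num [Sp]) ?_
    norm_num [Pi2, dfo, Finset.prod_range_succ]
  · refine s1_of_num 18 15 (by norm_num) (by norm_num) (33/34) (3/10) (by norm_num) (by norm_num)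
      (by norm_num [Sp]) (by norm_num [Sp]) ?_
    norm_num [Pi2, dfo, Finset.prod_range_succ]

theorem s1_p5 (k : ℕ) (hk : 6 ≤ k) (hk13 : k ≤ 13) : S1c (k + 4) k := by
  interval_cases k
  · refine s1_of_num 10 6 (by norm_num) (by norm_num) (455/551) (27/50) (by norm_num) (by norm_num)
      (by norm_num [Sp]) (by norm_num [Sp]) ?_
    norm_num [Pi2, dfo, Finset.prod_range_succ]
  · refine s1_of_num 11 7 (by norm_num) (by norm_num) (1717/2037) (13/25) (by norm_num) (by norm_num)
      (by norm_num [Sp]) (by norm_num [Sp]) ?_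
    norm_num [Pi2, dfo, Finset.prod_range_succ]
  · refine s1_of_num 12 8 (by norm_num) (by norm_num) (2109/2461) (49/100) (by norm_num) (by norm_num)
      (by norm_num [Sp]) (by norm_num [Sp]) ?_
    norm_num [Pi2, dfo, Finset.prod_range_succ]
  · refine s1_of_num 13 9 (by norm_num) (by norm_num) (847/975) (12/25) (by norm_num) (by norm_num)
      (by norm_num [Sp]) (by norm_num [Sp]) ?_
    norm_num [Pi2, dfo, Finset.prod_range_succ]
  · refine s1_of_num 14 10 (by norm_num) (by norm_num) (3013/3429) (23/50) (by norm_num) (by norm_num)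
      (by norm_num [Sp]) (by norm_num [Sp]) ?_
    norm_num [Pi2, dfo, Finset.prod_range_succ]
  · refine s1_of_num 15 11 (by norm_num) (by norm_num) (3525/3973) (11/25) (by norm_num) (by norm_num)
      (by norm_num [Sp]) (by norm_num [Sp]) ?_
    norm_num [Pi2, dfo, Finset.prod_range_succ]
  · refine s1_of_num 16 12 (by norm_num) (by norm_num) (1359/1519) (43/100) (by norm_num) (by norm_num)
      (by norm_num [Sp]) (by norm_num [Sp]) ?_
    norm_num [Pi2, dfo, Finset.prod_range_succ]
  · refine s1_of_num 17 13 (by norm_num) (by norm_num) (4669/5181) (21/50) (by norm_num) (by norm_num)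
      (by norm_num [Sp]) (by norm_num [Sp]) ?_
    norm_num [Pi2, dfo, Finset.prod_range_succ]

theorem s1_p6 (k : ℕ) (hk : 6 ≤ k) (hk10 : k ≤ 10) : S1c (k + 5) k := by
  interval_cases k
  · refine s1_of_num 11 6 (by norm_num) (by norm_num) (5/7) (31/50) (by norm_num) (by norm_num)
      (by norm_num [Sp]) (by norm_num [Sp]) ?_
    norm_num [Pi2, dfo, Finset.prod_range_succ]
  · refine s1_of_num 12 7 (by norm_num) (by norm_num) (17/23) (3/5) (by norm_num) (by norm_num)
      (by norm_num [Sp]) (by norm_num [Sp]) ?_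
    norm_num [Pi2, dfo, Finset.prod_range_succ]
  · refine s1_of_num 13 8 (by norm_num) (by norm_num) (19/25) (29/50) (by norm_num) (by norm_num)
      (by norm_num [Sp]) (by norm_num [Sp]) ?_
    norm_num [Pi2, dfo, Finset.prod_range_succ]
  · refine s1_of_num 14 9 (by norm_num) (by norm_num) (7/9) (14/25) (by norm_num) (by norm_num)
      (by norm_num [Sp]) (by norm_num [Sp]) ?_
    norm_num [Pi2, dfo, Finset.prod_range_succ]
  · refine s1_of_num 15 10 (by norm_num) (by norm_num) (23/29) (27/50) (by norm_num) (by norm_num)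
      (by norm_num [Sp]) (by norm_num [Sp]) ?_
    norm_num [Pi2, dfo, Finset.prod_range_succ]

theorem s1_12_6 : S1c 12 6 := by
  refine s1_of_num 12 6 (by norm_num) (by norm_num) (411/667) (69/100) (by norm_num) (by norm_num)
      (by norm_num [Sp]) (by norm_num [Sp]) ?_
  norm_num [Pi2, dfo, Finset.prod_range_succ]

end Pool.LK2
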