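import Pool.Agent.LK2.PhiNum
import Pool.Agent.LK2.P6
import Pool.Agent.LK2.P5
import Pool.Agent.LK2.P4
import Pool.Agent.LK2.P3
import Pool.Agent.LK2.S1NumA
import Pool.Agent.LK2.S1NumB

/-!
# LK2/Cover: for all `k ≥ 2`, `m ≥ k + 2` (`n = m + 1 ≥ k + 3`) one of the two conditions holds
-/

open Set
open Pool.LK1 (TJ InF)

namespace Pool.LK2

theorem cover (m k : ℕ) (hk : 2 ≤ k) (hkm : k + 2 ≤ m) : Bok m k ∨ S1c m k := by
  rcases Nat.lt_or_ge k 6 with h6 | h6
  · right
    interval_cases k
    · exact s1_two m (by omega)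
    · exact s1_three m (by omega)
    · exact s1_four m (by omega)
    · exact s1_five m (by omega)
  obtain ⟨p, rfl⟩ : ∃ p, m = k + 2 + p := ⟨m - (k + 2), by omega⟩
  rcases Nat.lt_or_ge k 16 with h16 | h16
  · -- `6 ≤ k ≤ 15`
    rcases p with _ | _ | _ | _ | _ | p
    · exact Or.inl (bok_p3 k (by omega))
    · exact Or.inr (s1_p4 k h6 (by omega))
    · rcases Nat.lt_or_ge k 14 with h14 | h14
      · exact Or.inr (s1_p5 k h6 (by omega))
      · exact Or.inl (bok_p5 k h14)
    · rcases Nat.lt_or_ge k 11 with h11 | h11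
      · exact Or.inr (s1_p6 k h6 (by omega))
      · refine Or.inl (bok_nc _ _ ?_)
        omega
    · rcases Nat.lt_or_ge k 9 with h9 | h9
      · rcases (show k = 6 ∨ k = 7 ∨ k = 8 by omega) with rfl | rfl | rfl
        · exact Or.inr s1_12_6
        · exact Or.inl (bok_nc _ _ (by omega))
        · exact Or.inl (bok_nc _ _ (by omega))
      · exact Or.inl (bok_9_15 _ _ h9 (by omega) (by omega))
    · left
      rcases Nat.lt_or_ge k 9 with h9 | h9
      · exact bok_678 _ _ h6 (by omega) (by omega)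
      · exact bok_9_15 _ _ h9 (by omega) (by omega)
  · left
    rcases p with _ | _ | _ | p
    · exact bok_p3 k (by omega)
    · exact bok_p4 k h16
    · exact bok_p5 k (by omega)
    · exact bok_p6 _ _ h16 (by omega)

end Pool.LK2
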