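import Pool.Agent.LK2.S1Small
import Pool.Agent.KFL.QChain

/-!
# LK2/S1Six: `S1c m 6` for all `m ≥ 8`

`8 ≤ m ≤ 17`: `s1_small`.  `m ≥ 18`: `q_m ≤ q_18` (`KFL.q_chain`) and `64 q_18 < 1` (`mbd_gen` with `S = Sp 18 6`;
the fourth power is `0.889`), `(1 + x1)^6 < 64`.
-/

open Set
open Pool.LK1 (TJ InF)

namespace Pool.LK2

theorem TJ_first_neg {n k : ℕ} (hk : k + 2 ≤ n) {x : ℝ} (hx : IsFirst n k x) : TJ n k x < 0 := by
  have h1 : 0 < Pool.Agent.KFL.Mc n k (2 * Pool.Agent.KFL.Hn n) := by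
    unfold Pool.Agent.KFL.Mc
    linarith [(Pool.Agent.KFL.etaOK_base hk).neg]
  rw [Pool.Agent.KFL.Mc_base hk hx] at h1
  have h2 : 0 < Pool.Agent.KFL.Hn n ^ k := pow_pos (Pool.Agent.KFL.Hn_pos n) k
  by_contra hc
  push Not at hc
  have : -TJ n k x / Pool.Agent.KFL.Hn n ^ k ≤ 0 := div_nonpos_of_nonpos_of_nonneg (by linarith) h2.le
  linarith

/-- `q_m ≤ q_{m0}` for `m0 ≤ m`. -/
theorem q_mono {m m0 k : ℕ} (hk : 1 ≤ k) (h0 : k + 2 ≤ m0) (hm : m0 ≤ m) {x z : ℝ} (hx : IsFirst m k x)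
    (hz : IsFirst m0 k z) : -TJ m k x / TJ m k 1 ≤ -TJ m0 k z / TJ m0 k 1 := by
  induction m, hm using Nat.le_induction generalizing x with
  | base => rw [first_unique hx hz]
  | succ m hm ih =>
    obtain ⟨y, hy⟩ := exists_first m k (by omega)
    exact (Pool.Agent.KFL.q_chain hk (by omega) hx (by simpa using hy)).trans (by simpa using ih hy)

/-- one value `m0` with `2^k q_{m0} < 1` gives `S1c m k` for all `m ≥ m0` -/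
theorem s1_of_one (m m0 k : ℕ) (hk : 1 ≤ k) (hkm : k + 2 ≤ m0) (hm : m0 ≤ m) (S : ℝ) (hS0 : 0 < S)
    (hS : S ≤ Sp m0 k)
    (hnum : (m0 : ℝ) ^ 2 * dfo k ^ 4 * 2 ^ (4 * k) <
      Pi2 m0 k ^ 2 * S ^ (2 * k) * ((m0 : ℝ) ^ 2 - ((k : ℝ) + 1) ^ 2)) : S1c m k := by
  intro x1 y1 hx1 hy1
  obtain ⟨z, hz⟩ := exists_first m0 k hkm
  have hq := q_mono hk hkm hm hy1 hz
  have hT : 0 < TJ m k 1 := TJ_pos_of_one_le m k (by omega) le_rfl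
  have hT0 : 0 < TJ m0 k 1 := TJ_pos_of_one_le m0 k (by omega) le_rfl
  have hn := TJ_first_neg (by omega) hy1
  have hn0 := TJ_first_neg hkm hz
  have hkm' : (k : ℝ) + 2 ≤ m0 := by exact_mod_cast hkm
  have hk0 : (0 : ℝ) ≤ k := Nat.cast_nonneg k
  have hN : 0 < (m0 : ℝ) ^ 2 - ((k : ℝ) + 1) ^ 2 := by nlinarith
  have hd : 0 < dfo k := by
    unfold dfo
    exact Finset.prod_pos fun j _ => by positivity
  -- the value at `m0`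
  have hb := mbd_gen m0 k hk hkm hz hS0.le (hS.trans (loc_Sp m0 k hkm hz))
  have h64 : -TJ m0 k z * 2 ^ k < TJ m0 k 1 := by
    refine lt_of_pow_lt_pow_left₀ 4 hT0.le ?_
    have hP : 0 < dfo k ^ 4 * S ^ (2 * k) * ((m0 : ℝ) ^ 2 - ((k : ℝ) + 1) ^ 2) := by positivity
    refine lt_of_mul_lt_mul_right (a := dfo k ^ 4 * S ^ (2 * k) * ((m0 : ℝ) ^ 2 - ((k : ℝ) + 1) ^ 2)) ?_ hP.le
    have e1 : TJ m0 k 1 ^ 4 * (dfo k ^ 4 * S ^ (2 * k) * ((m0 : ℝ) ^ 2 - ((k : ℝ) + 1) ^ 2)) =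
        Pi2 m0 k ^ 2 * (Pi2 m0 k ^ 2 * S ^ (2 * k) * ((m0 : ℝ) ^ 2 - ((k : ℝ) + 1) ^ 2)) := by
      rw [← TJ_one_eq]
      ring
    have hPi : 0 < Pi2 m0 k := by
      rw [← TJ_one_eq]
      exact mul_pos hT0 hd
    rw [e1]
    calc (-TJ m0 k z * 2 ^ k) ^ 4 * (dfo k ^ 4 * S ^ (2 * k) * ((m0 : ℝ) ^ 2 - ((k : ℝ) + 1) ^ 2))
        = (2 ^ k) ^ 4 * dfo k ^ 4 * (TJ m0 k z ^ 4 * S ^ (2 * k) * ((m0 : ℝ) ^ 2 - ((k : ℝ) + 1) ^ 2)) := by ring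
      _ ≤ (2 ^ k) ^ 4 * dfo k ^ 4 * (m0 * Pi2 m0 k) ^ 2 := mul_le_mul_of_nonneg_left hb (by positivity)
      _ = Pi2 m0 k ^ 2 * ((m0 : ℝ) ^ 2 * dfo k ^ 4 * 2 ^ (4 * k)) := by
          rw [pow_mul' (2 : ℝ) 4 k]
          ring
      _ < _ := mul_lt_mul_of_pos_left hnum (by positivity)
  have h1 : -TJ m k y1 * 2 ^ k < TJ m k 1 := by
    rw [div_le_div_iff₀ hT hT0] at hq
    have h2 : -TJ m k y1 * TJ m0 k 1 * 2 ^ k ≤ -TJ m0 k z * TJ m k 1 * 2 ^ k :=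
      mul_le_mul_of_nonneg_right hq (by positivity)
    have h3 : -TJ m0 k z * 2 ^ k * TJ m k 1 < TJ m0 k 1 * TJ m k 1 := mul_lt_mul_of_pos_right h64 hT
    have h4 : (-TJ m k y1 * 2 ^ k) * TJ m0 k 1 < TJ m k 1 * TJ m0 k 1 := by nlinarith
    exact lt_of_mul_lt_mul_right h4 hT0.le
  rw [abs_of_neg hn]
  refine lt_of_le_of_lt ?_ h1
  refine mul_le_mul_of_nonneg_left ?_ (by linarith)
  exact pow_le_pow_left₀ (by linarith [hx1.nonneg]) (by linarith [hx1.lt_one]) k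

theorem s1_six (m : ℕ) (hm : 8 ≤ m) : S1c m 6 := by
  rcases Nat.lt_or_ge m 18 with h | h
  · exact s1_small m 6 le_rfl hm (by omega)
  · refine s1_of_one m 18 6 (by norm_num) (by norm_num) h (Sp 18 6) ?_ le_rfl ?_
    · norm_num [Sp]
    · norm_num [Sp, Pi2, dfo, Finset.prod_range_succ]

end Pool.LK2
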