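import Pool.Agent.KFL.BaseN
import Pool.Agent.KFL.Markov

/-!
# LK2/LowP: lower bounds for `E_j(L)` for `L ≤ 2 H` from the polynomials `(1-t) T_{n-1} + t T_n`

`low_poly`: put `t = (L/(2H))^n ∈ (0, 1]`, `H = Hn n`, `C j s = (-2/L)^j ((1-t) TJ (n-1) j (1 - 2s/L) + t TJ n j (1 - 2s/L))` on `[0, L]`.
`InW n (Icc 0 L) C`: derivatives by the chain rule (`TJ_hasDerivAt`); `|C 0| ≤ 1` (`TJ_zero_abs_le`, convex combination); the increment of
`C (n-1)` is `(-2/L)^(n-1) t (TJ n (n-1) · - TJ n (n-1) ·) = ± (2/L)^(n-1) t 2^(n-1) n! (2/L) (s - s')` (`TJ_top` with `n = m + 1`, `TJ_diag`: `T_{n-1}^(n-1)` is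
constant), and `(2/L)^n t 2^(n-1) n! = (1/H)^n 2^(n-1) n! = 1` (`Hn_pow`).  `le_Ee`: `|C j 0| ≤ Ee n L j`, `C j 0 = (-2/L)^j ((1-t) TJ (n-1) j 1 + t TJ n j 1)`,
the bracket is positive (`TJ_pos_of_one_le` of `LK2/First`).

The values: `TJ (n-1) (n-1) 1 = 2^(n-2) (n-1)!` (`TJ_top_pos`), `TJ (n-1) (n-2) 1 = 2^(n-2) (n-1)!` and `TJ n (n-1) 1 = 2^(n-1) n!` (`TJ_top` and `parity`:
`T_q^(q-1)(z) = 2^(q-1) q! z`), `TJ n (n-2) 1 = 2^(n-1) n! (1/2 - 1/(4(n-1)))` (`ode` at `x = 1` with `j = n - 2`: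
`0 = (2n-3) TJ n (n-1) 1 - (n² - (n-2)²) TJ n (n-2) 1`, `n² - (n-2)² = 4(n-1)`).
-/

open Set
open Pool.LK1 (TJ)
open Pool.Agent.KFL

namespace Pool.LK2

theorem low_poly {n j : ℕ} (hn : 2 ≤ n) (hj : j < n) {L : ℝ} (hL : 0 < L) (hL2 : L ≤ 2 * Hn n) :
    (1 - (L / (2 * Hn n)) ^ n) * TJ (n - 1) j 1 + (L / (2 * Hn n)) ^ n * TJ n j 1 ≤ (L / 2) ^ j * Ee n L j := by
  obtain ⟨m, rfl⟩ : ∃ m, n = m + 1 := ⟨n - 1, by omega⟩
  rw [Nat.add_sub_cancel]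
  have hH := Hn_pos (m + 1)
  have hpow := Hn_pow (n := m + 1) (by omega)
  rw [Nat.add_sub_cancel] at hpow
  obtain ⟨t, ht⟩ : ∃ t : ℝ, t = (L / (2 * Hn (m + 1))) ^ (m + 1) := ⟨_, rfl⟩
  rw [← ht]
  have ht0 : 0 ≤ t := by
    rw [ht]
    positivity
  have ht1 : t ≤ 1 := by
    rw [ht]
    apply pow_le_one₀ (by positivity)
    rw [div_le_one (by positivity)]
    exact hL2
  have hA := Pool.Agent.KFL.cheb_chain m hL
  have hB := Pool.Agent.KFL.cheb_chain (m + 1) hL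
  have hW : Pool.Agent.LKI.InW (m + 1) (Icc 0 L) (fun j s => (1 - t) * ((-2 / L) ^ j * TJ m j (1 - 2 * s / L)) +
      t * ((-2 / L) ^ j * TJ (m + 1) j (1 - 2 * s / L))) := by
    refine ⟨⟨fun i hi s hs => ?_, fun u _ s _ => ?_⟩, fun s hs => ?_⟩
    · exact ((hA.hasDeriv i hi s hs).const_mul (1 - t)).add
        ((hB.hasDeriv i (by omega) s hs).const_mul t)
    · rw [Nat.add_sub_cancel]
      have e1 : TJ m m (1 - 2 * u / L) = TJ m m (1 - 2 * s / L) := by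
        rw [Pool.LK1.TJ_diag, Pool.LK1.TJ_diag]
      have e2 := Pool.LK1.TJ_top m (1 - 2 * s / L) (1 - 2 * u / L)
      have e3 : (1 - t) * ((-2 / L) ^ m * TJ m m (1 - 2 * u / L)) +
          t * ((-2 / L) ^ m * TJ (m + 1) m (1 - 2 * u / L)) -
          ((1 - t) * ((-2 / L) ^ m * TJ m m (1 - 2 * s / L)) +
          t * ((-2 / L) ^ m * TJ (m + 1) m (1 - 2 * s / L))) =
          t * (-2 / L) ^ m * (TJ (m + 1) m (1 - 2 * u / L) - TJ (m + 1) m (1 - 2 * s / L)) := by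
        rw [e1]
        ring
      have e4 : t * (-2 / L) ^ m * (2 ^ m * ((m + 1).factorial : ℝ) * ((1 - 2 * u / L) - (1 - 2 * s / L))) =
          (-1) ^ (m + 1) * (u - s) := by
        rw [← hpow, ht]
        have e5 : (1 - 2 * u / L) - (1 - 2 * s / L) = (-2 / L) * (u - s) := by ring
        rw [e5]
        have e6 : (L / (2 * Hn (m + 1))) ^ (m + 1) * (-2 / L) ^ m *
            (Hn (m + 1) ^ (m + 1) * (-2 / L * (u - s))) =
            (L / (2 * Hn (m + 1)) * (-2 / L) * Hn (m + 1)) ^ (m + 1) * (u - s) := by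
          rw [mul_pow, mul_pow, pow_succ (-2 / L) m]
          ring
        rw [e6]
        have e7 : L / (2 * Hn (m + 1)) * (-2 / L) * Hn (m + 1) = -1 := by
          field_simp
        rw [e7]
      rw [e3, e2, e4, abs_mul, abs_pow, abs_neg, abs_one, one_pow]
    · have h1 : 0 ≤ 2 * s / L := div_nonneg (by linarith [hs.1]) hL.le
      have h2 : 2 * s / L ≤ 2 := by
        rw [div_le_iff₀ hL]
        linarith [hs.2]
      have hmem : 1 - 2 * s / L ∈ Icc (-1 : ℝ) 1 := ⟨by linarith, by linarith⟩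
      have h3 := Pool.LK1.TJ_zero_abs_le m hmem
      have h4 := Pool.LK1.TJ_zero_abs_le (m + 1) hmem
      rw [pow_zero, one_mul, one_mul]
      rw [abs_le] at h3 h4 ⊢
      constructor <;> nlinarith
  have h1 := Pool.Agent.KFL.le_Ee hn hL hW hj
  have hX : 0 < (1 - t) * TJ m j 1 + t * TJ (m + 1) j 1 := by
    have h2 := TJ_pos_of_one_le m j (by omega) (le_refl (1 : ℝ))
    have h3 := TJ_pos_of_one_le (m + 1) j (by omega) (le_refl (1 : ℝ))
    rcases ht0.eq_or_lt with h0 | h0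
    · rw [← h0, sub_zero, one_mul, zero_mul, add_zero]
      exact h2
    · have := mul_pos h0 h3
      have h4 := mul_nonneg (sub_nonneg.2 ht1) h2.le
      linarith
  have h2 : |(1 - t) * ((-2 / L) ^ j * TJ m j (1 - 2 * 0 / L)) +
      t * ((-2 / L) ^ j * TJ (m + 1) j (1 - 2 * 0 / L))| =
      (2 / L) ^ j * ((1 - t) * TJ m j 1 + t * TJ (m + 1) j 1) := by
    rw [mul_zero, zero_div, sub_zero]
    have e1 : (1 - t) * ((-2 / L) ^ j * TJ m j 1) + t * ((-2 / L) ^ j * TJ (m + 1) j 1) =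
        (-2 / L) ^ j * ((1 - t) * TJ m j 1 + t * TJ (m + 1) j 1) := by ring
    rw [e1, abs_mul, abs_of_pos hX, abs_pow, abs_div, abs_neg, abs_of_pos hL, abs_of_pos (two_pos)]
  have h1' : (2 / L) ^ j * ((1 - t) * TJ m j 1 + t * TJ (m + 1) j 1) ≤ Ee (m + 1) L j := by
    rw [← h2]
    exact h1
  have h5 : (L / 2) ^ j * (2 / L) ^ j = 1 := by
    rw [← mul_pow]
    have : L / 2 * (2 / L) = 1 := by field_simp
    rw [this, one_pow]
  calc (1 - t) * TJ m j 1 + t * TJ (m + 1) j 1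
      = (L / 2) ^ j * ((2 / L) ^ j * ((1 - t) * TJ m j 1 + t * TJ (m + 1) j 1)) := by
        rw [← mul_assoc, h5, one_mul]
    _ ≤ (L / 2) ^ j * Ee (m + 1) L j := mul_le_mul_of_nonneg_left h1' (by positivity)

theorem val_a {n : ℕ} (hn : 2 ≤ n) : TJ (n - 1) (n - 1) 1 = 2 ^ (n - 2) * ((n - 1).factorial : ℝ) := by
  have h := TJ_top_pos (n - 1) (by omega) 1
  rw [h, show n - 1 - 1 = n - 2 by omega]

private theorem val_top (m : ℕ) : TJ (m + 1) m 1 = 2 ^ m * ((m + 1).factorial : ℝ) := by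
  have h1 := Pool.LK1.TJ_top m 0 1
  have h2 := parity (m + 1) m 0
  have h3 : Odd (m + 1 + m) := ⟨m, by omega⟩
  rw [neg_zero, h3.neg_one_pow] at h2
  have h4 : TJ (m + 1) m 0 = 0 := by linarith
  rw [h4, sub_zero, sub_zero, mul_one] at h1
  exact h1

theorem val_b {n : ℕ} (hn : 2 ≤ n) : TJ n (n - 1) 1 = 2 ^ (n - 1) * (n.factorial : ℝ) := by
  obtain ⟨m, rfl⟩ : ∃ m, n = m + 1 := ⟨n - 1, by omega⟩
  rw [Nat.add_sub_cancel]
  exact val_top m

theorem val_c {n : ℕ} (hn : 2 ≤ n) : TJ (n - 1) (n - 2) 1 = 2 ^ (n - 2) * ((n - 1).factorial : ℝ) := by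
  obtain ⟨m, rfl⟩ : ∃ m, n = m + 2 := ⟨n - 2, by omega⟩
  rw [Nat.add_sub_cancel, show m + 2 - 1 = m + 1 by omega]
  exact val_top m

theorem val_d {n : ℕ} (hn : 2 ≤ n) :
    TJ n (n - 2) 1 = 2 ^ (n - 1) * (n.factorial : ℝ) * (1 / 2 - 1 / (4 * ((n : ℝ) - 1))) := by
  obtain ⟨m, rfl⟩ : ∃ m, n = m + 2 := ⟨n - 2, by omega⟩
  rw [Nat.add_sub_cancel, show m + 2 - 1 = m + 1 by omega]
  have h1 := ode (m + 2) m 1
  have h2 := val_top (m + 1)
  rw [show m + 1 + 1 = m + 2 by omega] at h2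
  rw [h2] at h1
  push_cast at h1 ⊢
  have h3 : (m : ℝ) + 2 - 1 = m + 1 := by ring
  rw [h3]
  have h4 : (0 : ℝ) < (m : ℝ) + 1 := by positivity
  have h5 : 4 * ((m : ℝ) + 1) * TJ (m + 2) m 1 =
      (2 * (m : ℝ) + 1) * (2 ^ (m + 1) * ((m + 2).factorial : ℝ)) := by
    linear_combination h1
  have h6 : TJ (m + 2) m 1 = (2 * (m : ℝ) + 1) * (2 ^ (m + 1) * ((m + 2).factorial : ℝ)) /
      (4 * ((m : ℝ) + 1)) := by
    rw [eq_div_iff (by positivity)]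
    linarith
  rw [h6]
  field_simp
  ring

end Pool.LK2
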