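import Pool.Agent.LK2.QuadCor
import Pool.Agent.LK2.LowP
import Pool.Agent.LK2.Scl

/-!
# LK2/SubK: critical values of the derivative of order `n - 2` for `L ≤ 2H`

`sub_lt`: `f` in the class `W` on `[0, L]`, `L ≤ 2 Hn n`, `L/(n-1) ≤ y ≤ L/2`, `f_{n-1}(y) = 0`: `|f_{n-2}(y)| < E_{n-2}(L)`
(`sub_bd` and `low_poly`).
-/

open Set
open Pool.LK1 (TJ InF)
open Pool.Agent.LKI (InW IsJet)
open Pool.Agent.KFL

namespace Pool.LK2

private theorem fac2 {m : ℕ} (hm : 3 ≤ m) :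
    (2 : ℝ) ^ (m - 2) * ((m - 1).factorial : ℝ) =
      2 ^ m * ((m + 1).factorial : ℝ) / (4 * (m : ℝ) * ((m : ℝ) + 1)) := by
  obtain ⟨r, rfl⟩ : ∃ r, m = r + 2 := ⟨m - 2, by omega⟩
  have e1 : r + 2 - 2 = r := by omega
  have e2 : r + 2 - 1 = r + 1 := by omega
  rw [e1, e2, Nat.factorial_succ (r + 2), Nat.factorial_succ (r + 1)]
  push_cast
  have h1 : ((r : ℝ) + 2) ≠ 0 := by positivity
  have h2 : ((r : ℝ) + 3) ≠ 0 := by positivity
  have h3 : (r : ℝ) + 1 + 1 = r + 2 := by ring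
  have h4 : (r : ℝ) + 2 + 1 = r + 3 := by ring
  rw [h3, h4, pow_add]
  field_simp
  ring

private theorem fac1 {m : ℕ} (hm : 3 ≤ m) :
    (2 : ℝ) ^ (m - 1) * (m.factorial : ℝ) =
      2 ^ m * ((m + 1).factorial : ℝ) / (2 * ((m : ℝ) + 1)) := by
  obtain ⟨r, rfl⟩ : ∃ r, m = r + 1 := ⟨m - 1, by omega⟩
  have e1 : r + 1 - 1 = r := by omega
  rw [e1, Nat.factorial_succ (r + 1)]
  push_cast
  have h2 : ((r : ℝ) + 1 + 1) ≠ 0 := by positivity
  rw [pow_succ]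
  field_simp

theorem sub_lt {n : ℕ} (hn : 4 ≤ n) {L : ℝ} (hL : 0 < L) (hL2 : L ≤ 2 * Hn n) {f : ℕ → ℝ → ℝ}
    (hf : InW n (Icc 0 L) f) {y : ℝ} (hy : L / ((n : ℝ) - 1) ≤ y) (hy2 : y ≤ L / 2)
    (h0 : f (n - 1) y = 0) : |f (n - 2) y| < Ee n L (n - 2) := by
  obtain ⟨m, rfl⟩ : ∃ m, n = m + 1 := ⟨n - 1, by omega⟩
  have hm3 : 3 ≤ m := by omega
  have hH := Hn_pos (m + 1)
  have hHn := Hn_pow (n := m + 1) (by omega)
  set H := Hn (m + 1) with hHdef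
  have hh : 0 < L / 2 := by positivity
  have e21 : m + 1 - 2 = m - 1 := by omega
  rw [e21]
  simp only [Nat.add_sub_cancel] at hHn h0
  have hmR : (3 : ℝ) ≤ (m : ℝ) := by exact_mod_cast hm3
  have hm0 : (0 : ℝ) < m := by linarith
  have em : ((m + 1 : ℕ) : ℝ) - 1 = m := by push_cast; ring
  rw [em] at hy
  have hx0 : 0 ≤ 1 - y / (L / 2) := by
    have : y / (L / 2) ≤ 1 := (div_le_one hh).2 hy2
    linarith
  have hx1 : 1 - y / (L / 2) ≤ 1 - 2 / (m : ℝ) := by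
    have : 2 / (m : ℝ) ≤ y / (L / 2) := by
      rw [le_div_iff₀ hh]
      calc 2 / (m : ℝ) * (L / 2) = L / m := by ring
        _ ≤ y := hy
    linarith
  obtain ⟨x, hx⟩ : ∃ x : ℝ, x = 1 - y / (L / 2) := ⟨_, rfl⟩
  rw [← hx] at hx0 hx1
  have hyx : 0 + L / 2 * (1 - x) = y := by
    rw [hx]; field_simp; ring
  have h2m : 0 < 2 / (m : ℝ) := by positivity
  have hF := W_to_F (m := m) (h := L / 2) (a := 0) hh (S := Icc 0 L)
    (Icc_subset_Icc_right (by linarith)) hf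
  have hb := sub_bd (m := m) hm3 (by positivity) hF (x := x) ⟨by linarith, by linarith⟩
    (by rw [hyx, h0, mul_zero])
  rw [abs_mul, abs_pow, abs_neg, abs_of_pos hh, hyx] at hb
  have hlow := low_poly (n := m + 1) (j := m - 1) (by omega) (by omega) hL hL2
  have vc := val_c (n := m + 1) (by omega)
  have vd := val_d (n := m + 1) (by omega)
  rw [e21] at vc vd
  simp only [Nat.add_sub_cancel] at hlow vc vd
  rw [em] at vd
  rw [vc, vd, fac1 hm3] at hlow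
  rw [fac2 hm3] at hb
  set s : ℝ := 2 ^ m * ((m + 1).factorial : ℝ) with hs
  have hs0 : 0 < s := by positivity
  have ht : (L / (2 * H)) ^ (m + 1) * s = (L / 2) ^ (m + 1) := by
    rw [← hHn, ← mul_pow]
    congr 1
    field_simp
  have ht1 : (L / (2 * H)) ^ (m + 1) ≤ 1 := by
    apply pow_le_one₀ (by positivity)
    rw [div_le_one (by positivity)]
    exact hL2
  set t := (L / (2 * H)) ^ (m + 1) with htdef
  have ht0 : 0 < t := by positivity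
  rw [← ht] at hb
  have hpos : 0 < (L / 2) ^ (m - 1) := by positivity
  refine lt_of_mul_lt_mul_left (lt_of_le_of_lt hb (lt_of_lt_of_le ?_ hlow)) hpos.le
  have hx2 : x ^ 2 ≤ (1 - 2 / (m : ℝ)) ^ 2 := pow_le_pow_left₀ hx0 hx1 2
  have key : x ^ 2 < 1 - 1 / (m : ℝ) - 1 / (2 * (m : ℝ) * ((m : ℝ) + 1)) := by
    refine lt_of_le_of_lt hx2 ?_
    rw [← sub_pos]
    have e : 1 - 1 / (m : ℝ) - 1 / (2 * (m : ℝ) * ((m : ℝ) + 1)) - (1 - 2 / (m : ℝ)) ^ 2 =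
        (3 * (m : ℝ) ^ 2 - 3 / 2 * m - 4) / ((m : ℝ) ^ 2 * ((m : ℝ) + 1)) := by
      field_simp
      ring
    rw [e]
    apply div_pos _ (by positivity)
    nlinarith
  have e2 : (1 - t) * (s / (2 * ((m : ℝ) + 1))) + t * (s * (1 / 2 - 1 / (4 * (m : ℝ)))) -
      (s / (4 * (m : ℝ) * ((m : ℝ) + 1)) + t * s * (x ^ 2 / 2 + 1 / (4 * (m : ℝ)))) =
      (1 - t) * s * ((2 * (m : ℝ) - 1) / (4 * (m : ℝ) * ((m : ℝ) + 1))) +
        t * s / 2 * (1 - 1 / (m : ℝ) - 1 / (2 * (m : ℝ) * ((m : ℝ) + 1)) - x ^ 2) := by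
    field_simp
    ring
  have h5 : 0 ≤ (1 - t) * s * ((2 * (m : ℝ) - 1) / (4 * (m : ℝ) * ((m : ℝ) + 1))) := by
    apply mul_nonneg (mul_nonneg (by linarith) hs0.le)
    apply div_nonneg _ (by positivity)
    linarith
  have h6 : 0 < t * s / 2 * (1 - 1 / (m : ℝ) - 1 / (2 * (m : ℝ) * ((m : ℝ) + 1)) - x ^ 2) :=
    mul_pos (by positivity) (by linarith)
  linarith

end Pool.LK2
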