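import Pool.Agent.KFL.Basic
import Pool.Agent.KFL.Markov
import Pool.Agent.LKI.E3

/-!
# LK2/Near: `f^(n-1)` near the left end

`near`: `|f_{n-1}(y)| ≤ E_{n-1}(L) (1 + 2 y^n/n!) - y`.
PROOF.  By symmetry (`-f`) let `v = f_{n-1}(y) ≥ 0`.  Let `g` be the function with `g_{n-1}(t) = v + (y - t)` for `t ≤ y`, `g = f` for `t ≥ y`,
glued `C^(n-1)` at `y`: `g_j(t) = f_j(t)` for `t ≥ y` and, for `t ≤ y`, the polynomial with the Taylor coefficients `f_i(y)` at `y` and `n`-th derivative
`-1`: `g_j(t) = ∑_{i<n-j} f_{j+i}(y) (t-y)^i/i! - (t-y)^(n-j)/(n-j)!`.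
An equivalent description which avoids gluing derivatives: `g_j = f_j + d_j`, where `d_j(t) = 0` for `t ≥ y` and, for `t ≤ y`,
`d_j(t) = -(f_j(t) - ∑_{i<n-j} f_{j+i}(y)(t-y)^i/i!) - (t-y)^(n-j)/(n-j)!`; see `cut` in `LKI/Defs` (lemmas in `LKI/E*.lean`: a cut of a jet is a jet).
`g` is a jet of order `n` with Lipschitz constant `1` on `[0, L]` (`g_{n-1}` has slope `-1` on `[0,y]` and is `f_{n-1}` on `[y,L]`).
`(g - f)_{n-1}(t) = v + (y-t) - f_{n-1}(t) ∈ [0, 2(y-t)]` on `[0, y]`, and all `(g-f)_j(y) = 0`, so `|(g-f)_j(t)| ≤ 2 (y-t)^(n-j)/(n-j)!` (downward induction, or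
`KFL.Markov.taylor`-type argument), in particular `|g_0| ≤ 1 + 2 y^n/n! =: B` on `[0, L]`.  `g/B` is in the class `W` (`B ≥ 1`), `le_Ee` with `j = n - 1`:
`v + y = g_{n-1}(0) ≤ B E_{n-1}(L)`.
-/

open Set
open Pool.Agent.LKI (InW IsJet)
open Pool.Agent.KFL

namespace Pool.LK2

open Pool.Agent.LKI (cut tay tay_top tay_zero cut_jet)

private noncomputable def nearD (n : ℕ) (f : ℕ → ℝ → ℝ) (y : ℝ) (j : ℕ) (t : ℝ) : ℝ :=
  f j t + (t - y) ^ (n - j) / ((n - j).factorial : ℝ)

private theorem nearD_at {n : ℕ} (f : ℕ → ℝ → ℝ) (y : ℝ) {j : ℕ} (hj : j < n) :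
    nearD n f y j y = f j y := by
  unfold nearD
  rw [sub_self, zero_pow (by omega), zero_div, add_zero]

private theorem nearD_top {n : ℕ} (hn : 1 ≤ n) (f : ℕ → ℝ → ℝ) (y t : ℝ) :
    nearD n f y (n - 1) t = f (n - 1) t + (t - y) := by
  unfold nearD
  have h : n - (n - 1) = 1 := by omega
  rw [h, pow_one, Nat.factorial_one, Nat.cast_one, div_one]

private theorem nearD_jet {n : ℕ} (hn : 1 ≤ n) {S : Set ℝ} {f : ℕ → ℝ → ℝ} (hf : IsJet n 1 S f)
    (y : ℝ) : IsJet n 2 S (nearD n f y) := by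
  refine ⟨?_, ?_⟩
  · intro j hj t ht
    have h1 := hf.hasDeriv j hj t ht
    have h2 : HasDerivAt (fun t : ℝ => (t - y) ^ (n - j) / ((n - j).factorial : ℝ))
        ((t - y) ^ (n - (j + 1)) / ((n - (j + 1)).factorial : ℝ)) t := by
      obtain ⟨k, hk⟩ : ∃ k, n - j = k + 1 := ⟨n - j - 1, by omega⟩
      have hk' : n - (j + 1) = k := by omega
      rw [hk, hk']
      have h3 := (((hasDerivAt_id t).sub_const y).pow (k + 1)).div_const (((k + 1).factorial : ℝ))
      refine h3.congr_deriv ?_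
      rw [Nat.factorial_succ]
      have h4 : ((k.factorial : ℕ) : ℝ) ≠ 0 := by positivity
      have h5 : ((k : ℝ) + 1) ≠ 0 := by positivity
      simp only [Nat.add_sub_cancel, id]
      push_cast
      field_simp
    exact h1.add h2.hasDerivWithinAt
  · intro s hs t ht
    rw [nearD_top hn, nearD_top hn]
    have h1 := hf.lip s hs t ht
    have e : f (n - 1) s + (s - y) - (f (n - 1) t + (t - y)) =
        (f (n - 1) s - f (n - 1) t) + (s - t) := by ring
    rw [e]
    refine (abs_add_le _ _).trans ?_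
    linarith

private theorem near_cut_top {n : ℕ} (hn : 1 ≤ n) (f : ℕ → ℝ → ℝ) (y t : ℝ) :
    f (n - 1) t - cut n (nearD n f y) y (n - 1) t =
      f (n - 1) (max t y) + (y - min t y) := by
  unfold cut
  rcases le_or_gt t y with h | h
  · rw [if_pos h, tay_top _ _ hn, nearD_top hn, nearD_at f y (by omega), min_eq_left h,
      max_eq_right h]
    ring
  · rw [if_neg (not_le.mpr h), min_eq_right h.le, max_eq_left h.le]
    ring

private theorem near_cut_zero {n : ℕ} (hn : 1 ≤ n) {L : ℝ} {f : ℕ → ℝ → ℝ}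
    (hf : IsJet n 1 (Icc 0 L) f) {y t : ℝ} (hy : y ≤ L) (ht0 : 0 ≤ t) (hty : t ≤ y) :
    |cut n (nearD n f y) y 0 t| ≤ 2 * ((y - t) ^ n / (n.factorial : ℝ)) := by
  have hF : IsJet n 1 (Icc 0 y) (fun i s => (-1) ^ i * f i (y - s)) := by
    refine ⟨?_, ?_⟩
    · intro j hj s hs
      have hmap : MapsTo (fun s : ℝ => y - s) (Icc 0 y) (Icc 0 L) := by
        intro x hx
        exact ⟨by linarith [hx.2], by linarith [hx.1]⟩
      have h1 := hf.hasDeriv j hj (y - s) (hmap hs)
      have h2 : HasDerivWithinAt (fun s : ℝ => y - s) (-1) (Icc 0 y) s := by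
        simpa using (hasDerivWithinAt_id s (Icc 0 y)).const_sub y
      have h3 := (HasDerivWithinAt.comp s h1 h2 hmap).const_mul ((-1 : ℝ) ^ j)
      refine h3.congr_deriv ?_
      rw [pow_succ]
      ring
    · intro s hs u hu
      have h1 := hf.lip (y - s) ⟨by linarith [hs.2], by linarith [hs.1]⟩ (y - u)
        ⟨by linarith [hu.2], by linarith [hu.1]⟩
      have e : (-1 : ℝ) ^ (n - 1) * f (n - 1) (y - s) - (-1) ^ (n - 1) * f (n - 1) (y - u) =
        (-1) ^ (n - 1) * (f (n - 1) (y - s) - f (n - 1) (y - u)) := by ring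
      rw [e, abs_mul, abs_pow, abs_neg, abs_one, one_pow, one_mul]
      have e2 : y - s - (y - u) = -(s - u) := by ring
      rw [e2, abs_neg] at h1
      exact h1
  have h1 := taylor hn hF (i := 0) (by omega) (t := y - t) ⟨by linarith, by linarith⟩
  have e1 : tay n (fun l => (-1) ^ l * f l (y - 0)) 0 (y - t) =
      tay n (fun i => nearD n f y i y) 0 (t - y) := by
    unfold tay
    apply Finset.sum_congr rfl
    intro i hi
    rw [Finset.mem_range] at hi
    rw [zero_add]
    beta_reduce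
    rw [nearD_at f y (by omega), sub_zero]
    have e3 : t - y = (-1) * (y - t) := by ring
    rw [e3, mul_pow]
    ring
  simp only [pow_zero, one_mul, Nat.sub_zero] at h1
  rw [e1] at h1
  have e2 : y - (y - t) = t := by ring
  rw [e2] at h1
  unfold cut
  rw [if_pos hty]
  have e4 : nearD n f y 0 t - tay n (fun i => nearD n f y i y) 0 (t - y) =
      (f 0 t - tay n (fun i => nearD n f y i y) 0 (t - y)) + (t - y) ^ n / (n.factorial : ℝ) := by
    unfold nearD
    rw [Nat.sub_zero]
    ring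
  rw [e4]
  refine (abs_add_le _ _).trans ?_
  have e5 : |(t - y) ^ n / (n.factorial : ℝ)| = (y - t) ^ n / (n.factorial : ℝ) := by
    rw [abs_div, abs_pow, abs_sub_comm, abs_of_nonneg (by linarith : 0 ≤ y - t),
      abs_of_nonneg (by positivity : (0 : ℝ) ≤ (n.factorial : ℝ))]
  rw [e5]
  linarith

private theorem near_aux {n : ℕ} (hn : 2 ≤ n) {L : ℝ} (hL : 0 < L) {f : ℕ → ℝ → ℝ}
    (hf : InW n (Icc 0 L) f) {y : ℝ} (hy0 : 0 ≤ y) (hy : y ≤ L) :
    f (n - 1) y ≤ Ee n L (n - 1) * (1 + 2 * y ^ n / (n.factorial : ℝ)) - y := by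
  obtain ⟨B, hB⟩ : ∃ B : ℝ, B = 1 + 2 * y ^ n / (n.factorial : ℝ) := ⟨_, rfl⟩
  have hq : 0 ≤ 2 * y ^ n / (n.factorial : ℝ) := by positivity
  have hB1 : 1 ≤ B := by rw [hB]; linarith
  have hB0 : 0 < B := by linarith
  have hymem : y ∈ Icc 0 L := ⟨hy0, hy⟩
  have hcut := cut_jet (by omega : 1 ≤ n) (by norm_num : (0 : ℝ) ≤ 2) ordConnected_Icc
    (nearD_jet (by omega : 1 ≤ n) hf.jet y) hymem
  have hG : InW n (Icc 0 L) (fun j t => (f j t - cut n (nearD n f y) y j t) / B) := by
    refine ⟨⟨?_, ?_⟩, ?_⟩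
    · intro j hj t ht
      exact ((hf.jet.hasDeriv j hj t ht).sub (hcut.hasDeriv j hj t ht)).div_const B
    · intro s hs t ht
      rw [near_cut_top (by omega), near_cut_top (by omega)]
      have hmem : ∀ x ∈ Icc 0 L, max x y ∈ Icc 0 L := fun x hx =>
        ⟨le_max_of_le_left hx.1, max_le hx.2 hy⟩
      have h1 := hf.jet.lip (max s y) (hmem s hs) (max t y) (hmem t ht)
      have e : (f (n - 1) (max s y) + (y - min s y)) / B - (f (n - 1) (max t y) + (y - min t y)) / B
          = ((f (n - 1) (max s y) - f (n - 1) (max t y)) + (min t y - min s y)) / B := by ring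
      rw [e, abs_div, abs_of_pos hB0, div_le_iff₀ hB0]
      have h2 : |max s y - max t y| + |min t y - min s y| ≤ |s - t| := by
        rcases le_total s t with hst | hst
        · have a1 : max s y ≤ max t y := max_le_max_right y hst
          have a2 : min s y ≤ min t y := min_le_min_right y hst
          have a3 := max_add_min s y
          have a4 := max_add_min t y
          rw [abs_sub_comm, abs_of_nonneg (by linarith : 0 ≤ max t y - max s y),
            abs_of_nonneg (by linarith : 0 ≤ min t y - min s y), abs_sub_comm,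
            abs_of_nonneg (by linarith : 0 ≤ t - s)]
          linarith
        · have a1 : max t y ≤ max s y := max_le_max_right y hst
          have a2 : min t y ≤ min s y := min_le_min_right y hst
          have a3 := max_add_min s y
          have a4 := max_add_min t y
          rw [abs_of_nonneg (by linarith : 0 ≤ max s y - max t y), abs_sub_comm (min t y),
            abs_of_nonneg (by linarith : 0 ≤ min s y - min t y),
            abs_of_nonneg (by linarith : 0 ≤ s - t)]
          linarith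
      have h3 := abs_add_le (f (n - 1) (max s y) - f (n - 1) (max t y)) (min t y - min s y)
      have h4 : 0 ≤ |s - t| := abs_nonneg _
      nlinarith
    · intro t ht
      rw [abs_div, abs_of_pos hB0, div_le_one hB0]
      have h1 := hf.bdd t ht
      rcases le_or_gt t y with h | h
      · have h2 := near_cut_zero (by omega) hf.jet hy ht.1 h
        have h3 : (y - t) ^ n ≤ y ^ n := pow_le_pow_left₀ (by linarith) (by linarith [ht.1]) n
        have h4 : (y - t) ^ n / (n.factorial : ℝ) ≤ y ^ n / (n.factorial : ℝ) :=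
          div_le_div_of_nonneg_right h3 (by positivity)
        have h5 := abs_sub (f 0 t) (cut n (nearD n f y) y 0 t)
        rw [hB, mul_div_assoc]
        linarith
      · have h2 : cut n (nearD n f y) y 0 t = 0 := by
          unfold cut
          rw [if_neg (not_le.mpr h)]
        rw [h2, sub_zero]
        linarith
  have h1 := le_Ee hn hL hG (j := n - 1) (by omega)
  rw [near_cut_top (by omega), max_eq_right hy0, min_eq_left hy0, sub_zero] at h1
  have h2 := (le_abs_self _).trans h1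
  rw [div_le_iff₀ hB0] at h2
  rw [← hB]
  linarith

theorem near {n : ℕ} (hn : 2 ≤ n) {L : ℝ} (hL : 0 < L) {f : ℕ → ℝ → ℝ} (hf : InW n (Icc 0 L) f) {y : ℝ}
    (hy0 : 0 ≤ y) (hy : y ≤ L) :
    |f (n - 1) y| ≤ Ee n L (n - 1) * (1 + 2 * y ^ n / (n.factorial : ℝ)) - y := by
  have hneg : InW n (Icc 0 L) (fun j t => -f j t) := by
    refine ⟨⟨?_, ?_⟩, ?_⟩
    · intro j hj t ht
      exact (hf.jet.hasDeriv j hj t ht).neg
    · intro s hs t ht
      have h1 := hf.jet.lip s hs t ht
      have e : -f (n - 1) s - -f (n - 1) t = -(f (n - 1) s - f (n - 1) t) := by ring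
      rw [e, abs_neg]
      exact h1
    · intro t ht
      rw [abs_neg]
      exact hf.bdd t ht
  have h1 := near_aux hn hL hf hy0 hy
  have h2 := near_aux hn hL hneg hy0 hy
  exact abs_le.2 ⟨by linarith, h1⟩

/-- if `2 E_{n-1}(L) y^(n-1) < n!` and `y > 0` the bound is smaller than `E_{n-1}(L)` -/
theorem near_lt {n : ℕ} (hn : 2 ≤ n) {L : ℝ} (hL : 0 < L) {f : ℕ → ℝ → ℝ} (hf : InW n (Icc 0 L) f) {y : ℝ}
    (hy0 : 0 < y) (hy : y ≤ L) (h : 2 * Ee n L (n - 1) * y ^ (n - 1) < (n.factorial : ℝ)) :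
    |f (n - 1) y| < Ee n L (n - 1) := by
  have h1 := near hn hL hf hy0.le hy
  have hf0 : (0 : ℝ) < (n.factorial : ℝ) := by positivity
  have h2 : Ee n L (n - 1) * (2 * y ^ n / (n.factorial : ℝ)) < y := by
    have e : y ^ n = y ^ (n - 1) * y := by
      rw [← pow_succ]; congr 1; omega
    rw [e]
    have e2 : Ee n L (n - 1) * (2 * (y ^ (n - 1) * y) / (n.factorial : ℝ)) =
        (2 * Ee n L (n - 1) * y ^ (n - 1)) / (n.factorial : ℝ) * y := by ring
    rw [e2]
    have h3 : (2 * Ee n L (n - 1) * y ^ (n - 1)) / (n.factorial : ℝ) < 1 := (div_lt_one hf0).2 h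
    nlinarith
  linarith [mul_add (Ee n L (n - 1)) 1 (2 * y ^ n / (n.factorial : ℝ))]

end Pool.LK2
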