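import Pool.Agent.LK2.TwoK
import Pool.Agent.KFL.EtaD

/-!
# LK2/Star: `H (1/2 + 0.3466/(n-1) + 1/n) < E_{n-1}(L)` for all `n ≥ 4`, `L > 0` (`H = Hn n`, `H^n = 2^(n-1) n!`)

`two_knot` with `ρ = exp(-log 2/n)` (`2 ρ^n = 1`) and `ξ = (H/2) y0`: `ξ^n = 2^(n-1) n! y0^n/2^n = n! y0^n/2`, so the condition is
`y0^n (1/ρ - 1)(1 - 1/n)^(n-1) ≤ 4`, and the conclusion is `(H/2) y0 (2ρ-1) ≤ E_{n-1}(L)`.  So it is enough that
(I) `y0^n (exp(log 2/n) - 1)(1-1/n)^(n-1) ≤ 4`, (II) `1 + 0.6932/(n-1) + 2/n < y0 (2ρ - 1)`.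

* `n ≥ 6`: `y0 = exp(17/(4n))`.  (I): `y0^n = exp(17/4) ≤ 70.106`; `x = log 2/n ≤ 0.6931472/n`, `exp x - 1 ≤ x/(1-x)` (`exp(-x) ≥ 1-x`), so
  `exp x - 1 ≤ (0.6931472/n)/(1 - 0.1155246)` for `n ≥ 6`, `≤ 0.13062` at `n = 6`; `(1-1/n)^(n-1) ≤ exp(-(n-1)/n) ≤ exp(-5/6) ≤ 0.43460`.
  `70.106 · 0.13062 · 0.43460 = 3.980 ≤ 4`.
  (II): `y0 ≥ 1 + 4.25/n + 9.03125/n²` (`Real.quadratic_le_exp_of_nonneg`), `2ρ - 1 ≥ 1 - 1.3863/n` (`exp(-x) ≥ 1-x`, `log 2 < 0.69315`): the product is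
  `≥ 1 + 2.8637/n + (9.03125 - 5.8918)/n² - 12.521/n³ > 1 + 2.8637/n` for `n ≥ 4`, and `2.8637/n ≥ 0.6932/(n-1) + 2/n` iff `0.8637 (n-1) ≥ 0.6932 n` iff
  `0.1705 n ≥ 0.8637`, true for `n ≥ 6`.
  (`exp(17/4) ≤ 70.106`: `exp(17/4)^4 = exp 1^17 ≤ 2.7182818286^17` (`Real.exp_one_lt_d9`) `≤ 70.106^4`; `exp(-5/6) ≤ 0.4346`: `exp(5/6)^6 = exp 1^5 ≥ 2.7182818283^5`
  (`Real.exp_one_gt_d9`), `≥ (1/0.4346)^6`.)
* `n = 4`: `y0 = 2.66`.  `ρ` with `ρ^4 = 1/2`: `0.8408 ≤ ρ`, `1/ρ - 1 ≤ 0.1893` (`1.1893^4 ≥ 2`), `(3/4)^3 = 27/64`; (I) `2.66^4 · 0.1893 · 0.421875 = 3.9982 ≤ 4`;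
  (II) `1 + 0.6932/3 + 0.5 = 1.73107 < 2.66 · 0.6816 = 1.81306`.
* `n = 5`: `y0 = 2.3`, `0.8705 ≤ ρ`, `1/ρ - 1 ≤ 0.1488`, `(4/5)^4 = 0.4096`: (I) `2.3^5 · 0.1488 · 0.4096 = 3.9229 ≤ 4`; (II)
  `1 + 0.6932/4 + 0.4 = 1.5733 < 2.3 · 0.741 = 1.7043`.
-/

set_option linter.all false

open Set
open Pool.Agent.KFL

namespace Pool.LK2

private theorem star_gen {n : ℕ} (hn : 4 ≤ n) {L : ℝ} (hL : 0 < L) {y ρ : ℝ} (hy : 0 < y)
    (hρ : 0 < ρ) (hρn : 2 * ρ ^ n = 1)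
    (h1 : y ^ n * ((1 / ρ - 1) * (1 - 1 / (n : ℝ)) ^ (n - 1)) ≤ 4)
    (h2 : 1 + 0.6932 / ((n : ℝ) - 1) + 2 / (n : ℝ) < y * (2 * ρ - 1)) :
    Hn n * (1 / 2 + 0.3466 / ((n : ℝ) - 1) + 1 / (n : ℝ)) < Ee n L (n - 1) := by
  have hH := Hn_pos n
  have hpow := Hn_pow (n := n) (by omega)
  have hfac : (0 : ℝ) < (n.factorial : ℝ) := by exact_mod_cast Nat.factorial_pos n
  have h2n : (2 : ℝ) ^ n = 2 * 2 ^ (n - 1) := by
    obtain ⟨m, rfl⟩ : ∃ m, n = m + 1 := ⟨n - 1, by omega⟩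
    rw [pow_succ]; simp; ring
  have hxi : (Hn n / 2 * y) ^ n = (n.factorial : ℝ) / 2 * y ^ n := by
    rw [mul_pow, div_pow, hpow, h2n]
    have : (2 : ℝ) ^ (n - 1) ≠ 0 := by positivity
    field_simp
  have key := two_knot (n := n) (by omega) hL hρ hρn (ξ := Hn n / 2 * y) (by positivity) (by
    rw [hxi]
    have := mul_le_mul_of_nonneg_left h1 (show (0 : ℝ) ≤ (n.factorial : ℝ) / 2 by positivity)
    nlinarith [this])
  refine lt_of_lt_of_le ?_ key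
  have := mul_lt_mul_of_pos_left h2 (show (0 : ℝ) < Hn n / 2 by positivity)
  have e : Hn n * (1 / 2 + 0.3466 / ((n : ℝ) - 1) + 1 / (n : ℝ)) =
      Hn n / 2 * (1 + 0.6932 / ((n : ℝ) - 1) + 2 / (n : ℝ)) := by
    have : (n : ℝ) ≠ 0 := by positivity
    have h3 : (n : ℝ) - 1 ≠ 0 := by
      have : (4 : ℝ) ≤ n := by exact_mod_cast hn
      linarith
    field_simp
    norm_num
  rw [e]
  calc _ < _ := this
    _ = _ := by ring

private theorem star_four {L : ℝ} (hL : 0 < L) :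
    Hn 4 * (1 / 2 + 0.3466 / (((4 : ℕ) : ℝ) - 1) + 1 / ((4 : ℕ) : ℝ)) < Ee 4 L (4 - 1) := by
  obtain ⟨ρ, hρ, hρn⟩ : ∃ ρ : ℝ, 0 < ρ ∧ 2 * ρ ^ 4 = 1 := by
    refine ⟨Real.exp (-Real.log 2 / 4), Real.exp_pos _, ?_⟩
    rw [← Real.exp_nat_mul]
    have : ((4 : ℕ) : ℝ) * (-Real.log 2 / 4) = - Real.log 2 := by push_cast; ring
    rw [this, Real.exp_neg, Real.exp_log (by norm_num)]
    norm_num
  have hlow : (0.8408 : ℝ) ≤ ρ := by
    by_contra hc
    push Not at hc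
    have := pow_lt_pow_left₀ hc hρ.le (n := 4) (by norm_num)
    norm_num at this
    linarith
  have hinv : 1 / ρ - 1 ≤ 0.1893 := by
    have h3 : (1.1893 : ℝ)⁻¹ ≤ ρ := by
      by_contra hc
      push Not at hc
      have := pow_lt_pow_left₀ hc hρ.le (n := 4) (by norm_num)
      norm_num at this
      linarith
    have : 1 / ρ ≤ 1.1893 := by
      rw [div_le_iff₀ hρ]
      have := mul_le_mul_of_nonneg_left h3 (show (0 : ℝ) ≤ 1.1893 by norm_num)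
      norm_num at this ⊢
      linarith
    linarith
  refine star_gen (n := 4) le_rfl hL (y := 2.66) (ρ := ρ) (by norm_num) hρ hρn ?_ ?_
  · push_cast
    norm_num at hinv ⊢
    linarith
  · push_cast
    norm_num at hlow ⊢
    linarith

private theorem star_five {L : ℝ} (hL : 0 < L) :
    Hn 5 * (1 / 2 + 0.3466 / (((5 : ℕ) : ℝ) - 1) + 1 / ((5 : ℕ) : ℝ)) < Ee 5 L (5 - 1) := by
  obtain ⟨ρ, hρ, hρn⟩ : ∃ ρ : ℝ, 0 < ρ ∧ 2 * ρ ^ 5 = 1 := by
    refine ⟨Real.exp (-Real.log 2 / 5), Real.exp_pos _, ?_⟩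
    rw [← Real.exp_nat_mul]
    have : ((5 : ℕ) : ℝ) * (-Real.log 2 / 5) = - Real.log 2 := by push_cast; ring
    rw [this, Real.exp_neg, Real.exp_log (by norm_num)]
    norm_num
  have hlow : (0.8705 : ℝ) ≤ ρ := by
    by_contra hc
    push Not at hc
    have := pow_lt_pow_left₀ hc hρ.le (n := 5) (by norm_num)
    norm_num at this
    linarith
  have hinv : 1 / ρ - 1 ≤ 0.1488 := by
    have h3 : (1.1488 : ℝ)⁻¹ ≤ ρ := by
      by_contra hc
      push Not at hc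
      have := pow_lt_pow_left₀ hc hρ.le (n := 5) (by norm_num)
      norm_num at this
      linarith
    have : 1 / ρ ≤ 1.1488 := by
      rw [div_le_iff₀ hρ]
      have := mul_le_mul_of_nonneg_left h3 (show (0 : ℝ) ≤ 1.1488 by norm_num)
      norm_num at this ⊢
      linarith
    linarith
  refine star_gen (n := 5) (by norm_num) hL (y := 2.3) (ρ := ρ) (by norm_num) hρ hρn ?_ ?_
  · push_cast
    norm_num at hinv ⊢
    linarith
  · push_cast
    norm_num at hlow ⊢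
    linarith

private theorem exp174 : Real.exp (17 / 4) ≤ 70.106 := by
  have h := Real.exp_one_lt_d9
  have h1 : Real.exp (17 / 4) ^ 4 = Real.exp 1 ^ 17 := by
    rw [← Real.exp_nat_mul, ← Real.exp_nat_mul]
    congr 1
    push_cast
    ring
  have h2 : Real.exp 1 ^ 17 ≤ (2.7182818286 : ℝ) ^ 17 := pow_le_pow_left₀ (Real.exp_pos _).le h.le 17
  by_contra hc
  push Not at hc
  have h3 := pow_lt_pow_left₀ hc (by norm_num) (n := 4) (by norm_num)
  rw [h1] at h3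
  have h4 := lt_of_lt_of_le h3 h2
  norm_num at h4

private theorem exp56 : Real.exp (-(5 / 6)) ≤ 0.4346 := by
  have h := Real.exp_one_gt_d9
  have h1 : Real.exp (-(5 / 6)) ^ 6 * Real.exp 1 ^ 5 = 1 := by
    rw [← Real.exp_nat_mul, ← Real.exp_nat_mul, ← Real.exp_add]
    have : ((6 : ℕ) : ℝ) * (-(5 / 6)) + ((5 : ℕ) : ℝ) * 1 = 0 := by push_cast; ring
    rw [this, Real.exp_zero]
  have h2 : (2.7182818283 : ℝ) ^ 5 ≤ Real.exp 1 ^ 5 := pow_le_pow_left₀ (by norm_num) h.le 5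
  by_contra hc
  push Not at hc
  have h3 := pow_lt_pow_left₀ hc (by norm_num) (n := 6) (by norm_num)
  have h4 : (0.4346 : ℝ) ^ 6 * (2.7182818283 : ℝ) ^ 5 < 1 := by
    rw [← h1]
    exact mul_lt_mul h3 h2 (by positivity) (by positivity)
  norm_num at h4

private theorem star_big {n : ℕ} (hn : 6 ≤ n) {L : ℝ} (hL : 0 < L) :
    Hn n * (1 / 2 + 0.3466 / ((n : ℝ) - 1) + 1 / (n : ℝ)) < Ee n L (n - 1) := by
  have hnR : (6 : ℝ) ≤ n := by exact_mod_cast hn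
  have hn0 : (0 : ℝ) < n := by linarith
  have hn1 : (0 : ℝ) < (n : ℝ) - 1 := by linarith
  have hl1 := Real.log_two_gt_d9
  have hl2 := Real.log_two_lt_d9
  have hlog : (0 : ℝ) < Real.log 2 := by linarith
  set x : ℝ := Real.log 2 / n with hx
  have hx0 : 0 < x := by positivity
  have hxu : x ≤ 0.6931472 / n := by
    rw [hx]; gcongr; linarith
  have hxs : x ≤ 0.1155246 := by
    rw [hx, div_le_iff₀ hn0]
    nlinarith
  refine star_gen (n := n) (by omega) hL (y := Real.exp (17 / (4 * n))) (ρ := Real.exp (-x)) (Real.exp_pos _)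
    (Real.exp_pos _) ?_ ?_ ?_
  · rw [← Real.exp_nat_mul]
    have : (n : ℝ) * (-x) = - Real.log 2 := by rw [hx]; field_simp
    rw [this, Real.exp_neg, Real.exp_log (by norm_num)]
    norm_num
  · -- (I)
    have e1 : Real.exp (17 / (4 * n)) ^ n = Real.exp (17 / 4) := by
      rw [← Real.exp_nat_mul]
      congr 1
      field_simp
    have e2 : 1 / Real.exp (-x) - 1 ≤ 0.13062 := by
      have h1 : 1 - 0.1155246 ≤ Real.exp (-x) := by
        have := Real.add_one_le_exp (-x)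
        linarith
      have h2 : 1 / Real.exp (-x) ≤ 1 / (1 - 0.1155246) := by
        apply one_div_le_one_div_of_le (by norm_num) h1
      have h3 : (1 : ℝ) / (1 - 0.1155246) - 1 ≤ 0.13062 := by norm_num
      linarith
    have e2' : 0 ≤ 1 / Real.exp (-x) - 1 := by
      have : Real.exp (-x) ≤ 1 := by
        rw [Real.exp_le_one_iff]; linarith
      rw [sub_nonneg, le_div_iff₀ (Real.exp_pos _)]
      linarith
    have hb0 : 0 ≤ 1 - 1 / (n : ℝ) := by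
      rw [sub_nonneg, div_le_iff₀ hn0]; linarith
    have e3 : (1 - 1 / (n : ℝ)) ^ (n - 1) ≤ 0.4346 := by
      have h1 : 1 - 1 / (n : ℝ) ≤ Real.exp (-(1 / (n : ℝ))) := by
        have := Real.add_one_le_exp (-(1 / (n : ℝ)))
        linarith
      calc (1 - 1 / (n : ℝ)) ^ (n - 1) ≤ Real.exp (-(1 / (n : ℝ))) ^ (n - 1) :=
            pow_le_pow_left₀ hb0 h1 _
        _ = Real.exp (((n - 1 : ℕ) : ℝ) * -(1 / (n : ℝ))) := by rw [← Real.exp_nat_mul]
        _ ≤ Real.exp (-(5 / 6)) := by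
            apply Real.exp_le_exp.mpr
            rw [Nat.cast_sub (by omega : 1 ≤ n)]
            have : ((n : ℝ) - ((1 : ℕ) : ℝ)) * -(1 / (n : ℝ)) = -1 + 1 / n := by
              field_simp; push_cast; ring
            rw [this]
            have : 1 / (n : ℝ) ≤ 1 / 6 := one_div_le_one_div_of_le (by norm_num) hnR
            linarith
        _ ≤ 0.4346 := exp56
    have e3' : 0 ≤ (1 - 1 / (n : ℝ)) ^ (n - 1) := pow_nonneg hb0 _
    rw [e1]
    calc Real.exp (17 / 4) * ((1 / Real.exp (-x) - 1) * (1 - 1 / (n : ℝ)) ^ (n - 1))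
        ≤ 70.106 * (0.13062 * 0.4346) := by
          apply mul_le_mul exp174 _ (by positivity) (by norm_num)
          exact mul_le_mul e2 e3 e3' (by norm_num)
      _ ≤ 4 := by norm_num
  · -- (II)
    have h1 := Real.quadratic_le_exp_of_nonneg (x := 17 / (4 * (n : ℝ))) (by positivity)
    have h2 : 1 - 2 * (0.6931472 / n) ≤ 2 * Real.exp (-x) - 1 := by
      have := Real.add_one_le_exp (-x)
      linarith
    set u : ℝ := 1 / n with hu
    have hu0 : 0 < u := by positivity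
    have hu6 : u ≤ 1 / 6 := one_div_le_one_div_of_le (by norm_num) hnR
    have h1' : 1 + 4.25 * u + 9.03125 * u ^ 2 ≤ Real.exp (17 / (4 * (n : ℝ))) := by
      have e : 17 / (4 * (n : ℝ)) = 4.25 * u := by rw [hu]; field_simp; norm_num
      rw [e] at h1 ⊢
      nlinarith [h1]
    have h2' : 1 - 1.3862944 * u ≤ 2 * Real.exp (-x) - 1 := by
      have e : 2 * (0.6931472 / (n : ℝ)) = 1.3862944 * u := by rw [hu]; field_simp; norm_num
      rw [e] at h2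
      exact h2
    have hprod : (1 + 4.25 * u + 9.03125 * u ^ 2) * (1 - 1.3862944 * u) ≤
        Real.exp (17 / (4 * (n : ℝ))) * (2 * Real.exp (-x) - 1) := by
      apply mul_le_mul h1' h2' (by nlinarith) (Real.exp_pos _).le
    refine lt_of_lt_of_le ?_ hprod
    have hm : 0.6932 / ((n : ℝ) - 1) ≤ 0.8637 * u := by
      rw [hu, div_le_iff₀ hn1, mul_one_div, div_mul_eq_mul_div, le_div_iff₀ hn0]
      nlinarith
    have e2 : 2 / (n : ℝ) = 2 * u := by rw [hu]; ring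
    rw [e2]
    nlinarith [mul_pos hu0 hu0, mul_pos (mul_pos hu0 hu0) hu0, mul_nonneg (mul_pos hu0 hu0).le (sub_nonneg.2 hu6)]

theorem star {n : ℕ} (hn : 4 ≤ n) {L : ℝ} (hL : 0 < L) :
    Hn n * (1 / 2 + 0.3466 / ((n : ℝ) - 1) + 1 / (n : ℝ)) < Ee n L (n - 1) := by
  rcases Nat.lt_or_ge n 6 with h | h
  · interval_cases n
    · exact star_four hL
    · exact star_five hL
  · exact star_big h hL

end Pool.LK2
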