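import Pool.Agent.LK2.QuadCor
import Pool.Agent.LK2.LowP
import Pool.Agent.LK2.Near
import Pool.Agent.LK2.Star
import Pool.Agent.LK2.Scl

/-!
# LK2/TopK: the derivative of order `n - 1` is smaller in the interior than the extremal value at the end

`top_lt`: `f` in the class `W` on `[0, L]`, `0 < y ≤ L/2`: `|f_{n-1}(y)| < E_{n-1}(L)`.
`L ≤ 2H`: with `x = 1 - 2y/L`: `x ≤ 0.7` by `top_bd` and `low_poly`, `x > 0.7` by `near_lt`.
`L ≥ 2H`: `y ≤ (1/2 - 0.3466/(n-1)) H` by `near_lt`, otherwise a window of length `2H`, `top_bd` and `star`.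
-/

open Set
open Pool.LK1 (TJ InF)
open Pool.Agent.LKI (InW IsJet)
open Pool.Agent.KFL

namespace Pool.LK2

/-- the extremal value for the Chebyshev length -/
theorem Ee_top_base {n : ℕ} (hn : 2 ≤ n) : Ee n (2 * Hn n) (n - 1) * Hn n ^ (n - 1) = 2 ^ (n - 1) * (n.factorial : ℝ) := by
  have hH := Hn_pos n
  rw [Ee_base hn (by omega), val_b hn]
  field_simp

private theorem fac_pred {n : ℕ} (hn : 2 ≤ n) :
    (2 : ℝ) ^ (n - 2) * ((n - 1).factorial : ℝ) = 2 ^ (n - 1) * (n.factorial : ℝ) / (2 * (n : ℝ)) := by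
  obtain ⟨m, rfl⟩ : ∃ m, n = m + 2 := ⟨n - 2, by omega⟩
  have e1 : m + 2 - 2 = m := by omega
  have e2 : m + 2 - 1 = m + 1 := by omega
  rw [e1, e2, Nat.factorial_succ (m + 1)]
  push_cast
  have : ((m : ℝ) + 2) ≠ 0 := by positivity
  have h3 : (m : ℝ) + 1 + 1 = m + 2 := by ring
  rw [h3, pow_succ]
  field_simp

private theorem abs_neg_pow (h : ℝ) (hh : 0 < h) (j : ℕ) (v : ℝ) : |(-h) ^ j * v| = h ^ j * |v| := by
  rw [abs_mul, abs_pow, abs_neg, abs_of_pos hh]

theorem top_lt_low {n : ℕ} (hn : 4 ≤ n) {L : ℝ} (hL : 0 < L) (hL2 : L ≤ 2 * Hn n) {f : ℕ → ℝ → ℝ}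
    (hf : InW n (Icc 0 L) f) {y : ℝ} (hy : 0 < y) (hy2 : y ≤ L / 2) : |f (n - 1) y| < Ee n L (n - 1) := by
  obtain ⟨m, rfl⟩ : ∃ m, n = m + 1 := ⟨n - 1, by omega⟩
  have hH := Hn_pos (m + 1)
  have hHn := Hn_pow (n := m + 1) (by omega)
  set H := Hn (m + 1) with hHdef
  have hh : 0 < L / 2 := by positivity
  have hhH : L / 2 ≤ H := by linarith
  have hf0 : (0 : ℝ) < ((m + 1).factorial : ℝ) := by positivity
  simp only [Nat.add_sub_cancel] at hHn ⊢
  have hmR : (3 : ℝ) ≤ (m : ℝ) := by exact_mod_cast (by omega : 3 ≤ m)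
  rcases le_or_gt (0.3 * (L / 2)) y with hc | hc
  · -- bulk
    have hx0 : 0 ≤ 1 - y / (L / 2) := by
      have : y / (L / 2) ≤ 1 := (div_le_one hh).2 hy2
      linarith
    have hx1 : 1 - y / (L / 2) ≤ 0.7 := by
      have : 0.3 ≤ y / (L / 2) := by rw [le_div_iff₀ hh]; exact hc
      linarith
    obtain ⟨x, hx⟩ : ∃ x : ℝ, x = 1 - y / (L / 2) := ⟨_, rfl⟩
    rw [← hx] at hx0 hx1
    have hyx : 0 + L / 2 * (1 - x) = y := by
      rw [hx]; field_simp; ring
    have hF := W_to_F (m := m) (h := L / 2) (a := 0) hh (S := Icc 0 L)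
      (Icc_subset_Icc_right (by linarith)) hf
    have hb := top_bd (m := m) (by omega) (by positivity) hF (x := x) ⟨by linarith, by linarith⟩
      (w := 0.8) (by norm_num)
    rw [abs_neg_pow _ hh, hyx] at hb
    have hlow := low_poly (n := m + 1) (j := m) (by omega) (by omega) hL hL2
    have va := val_a (n := m + 1) (by omega)
    have vb := val_b (n := m + 1) (by omega)
    have fp := fac_pred (n := m + 1) (by omega)
    have e1 : m + 1 - 2 = m - 1 := by omega
    simp only [Nat.add_sub_cancel] at hlow va vb fp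
    rw [e1] at fp va
    rw [va, vb] at hlow
    set s : ℝ := 2 ^ m * ((m + 1).factorial : ℝ) with hs
    have hs0 : 0 < s := by positivity
    have ht : (L / (2 * H)) ^ (m + 1) * s = (L / 2) ^ (m + 1) := by
      rw [← hHn, ← mul_pow]
      congr 1
      field_simp
    set t := (L / (2 * H)) ^ (m + 1) with htdef
    have ht0 : 0 < t := by positivity
    rw [fp] at hb hlow
    rw [← ht] at hb
    push_cast at hb hlow
    have hpos : 0 < (L / 2) ^ m := by positivity
    refine lt_of_mul_lt_mul_left (lt_of_le_of_lt hb (lt_of_lt_of_le ?_ hlow)) hpos.le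
    have hx2 : x ^ 2 ≤ 0.49 := by nlinarith
    have h1 : x ^ 2 / (2 * 0.8) + 0.8 / 2 + 1 / (4 * 0.8 * ((m : ℝ) + 1)) ≤
        0.70625 + 0.3125 / ((m : ℝ) + 1) := by
      have e3 : 1 / (4 * 0.8 * ((m : ℝ) + 1)) = 0.3125 / ((m : ℝ) + 1) := by
        field_simp
        norm_num
      rw [e3]
      have h7 : x ^ 2 / (2 * 0.8) ≤ 0.49 / (2 * 0.8) := div_le_div_of_nonneg_right hx2 (by norm_num)
      have h8 : (0.49 : ℝ) / (2 * 0.8) + 0.8 / 2 = 0.70625 := by norm_num
      linarith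
    have h2 : 0.70625 + 0.3125 / ((m : ℝ) + 1) < 1 - 1 / (2 * ((m : ℝ) + 1)) := by
      have e4 : 1 / (2 * ((m : ℝ) + 1)) = 0.5 / ((m : ℝ) + 1) := by field_simp; norm_num
      rw [e4]
      have : 0.3125 / ((m : ℝ) + 1) + 0.5 / ((m : ℝ) + 1) < 0.29375 := by
        rw [← add_div, div_lt_iff₀ (by positivity)]
        nlinarith
      linarith
    have h3 : t * s * (x ^ 2 / (2 * 0.8) + 0.8 / 2 + 1 / (4 * 0.8 * ((m : ℝ) + 1))) <
        t * s * (1 - 1 / (2 * ((m : ℝ) + 1))) :=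
      mul_lt_mul_of_pos_left (lt_of_le_of_lt h1 h2) (by positivity)
    have e5 : (1 - t) * (s / (2 * ((m : ℝ) + 1))) + t * s =
        s / (2 * ((m : ℝ) + 1)) + t * s * (1 - 1 / (2 * ((m : ℝ) + 1))) := by
      field_simp
      ring
    rw [e5]
    linarith
  · -- near the end
    refine near_lt (n := m + 1) (by omega) hL hf hy (by linarith) ?_
    simp only [Nat.add_sub_cancel]
    have hsc := Ee_scale (n := m + 1) (by omega) hL hL2 m
    have hb := Ee_top_base (n := m + 1) (by omega)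
    simp only [Nat.add_sub_cancel] at hb
    have hE0 : 0 < Ee (m + 1) L m := lt_of_lt_of_le one_pos (Ee_ge_one (by omega) hL m)
    have h1 : Ee (m + 1) L m * (L / 2) ^ m ≤ 2 ^ m * ((m + 1).factorial : ℝ) := by
      rw [← hb]
      calc Ee (m + 1) L m * (L / 2) ^ m ≤ (2 * H / L) ^ m * Ee (m + 1) (2 * H) m * (L / 2) ^ m :=
            mul_le_mul_of_nonneg_right hsc (by positivity)
        _ = Ee (m + 1) (2 * H) m * ((2 * H / L) * (L / 2)) ^ m := by rw [mul_pow]; ring
        _ = Ee (m + 1) (2 * H) m * H ^ m := by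
            congr 2
            field_simp
    have h2 : y ^ m ≤ (0.3 * (L / 2)) ^ m := pow_le_pow_left₀ hy.le hc.le m
    have h3 : (0.6 : ℝ) ^ m ≤ 0.216 := by
      calc (0.6 : ℝ) ^ m ≤ 0.6 ^ 3 := pow_le_pow_of_le_one (by norm_num) (by norm_num) (by omega)
        _ = 0.216 := by norm_num
    calc 2 * Ee (m + 1) L m * y ^ m ≤ 2 * Ee (m + 1) L m * (0.3 * (L / 2)) ^ m :=
          mul_le_mul_of_nonneg_left h2 (by positivity)
      _ = 2 * 0.3 ^ m * (Ee (m + 1) L m * (L / 2) ^ m) := by rw [mul_pow]; ring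
      _ ≤ 2 * 0.3 ^ m * (2 ^ m * ((m + 1).factorial : ℝ)) :=
          mul_le_mul_of_nonneg_left h1 (by positivity)
      _ = 2 * (0.3 * 2) ^ m * ((m + 1).factorial : ℝ) := by rw [mul_pow]; ring
      _ ≤ 2 * 0.216 * ((m + 1).factorial : ℝ) := by
          have e6 : (0.3 * 2 : ℝ) = 0.6 := by norm_num
          rw [e6]
          exact mul_le_mul_of_nonneg_right (by linarith) hf0.le
      _ < ((m + 1).factorial : ℝ) := by linarith

theorem top_lt_high {n : ℕ} (hn : 4 ≤ n) {L : ℝ} (hL2 : 2 * Hn n ≤ L) {f : ℕ → ℝ → ℝ}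
    (hf : InW n (Icc 0 L) f) {y : ℝ} (hy : 0 < y) (hy2 : y ≤ L / 2) : |f (n - 1) y| < Ee n L (n - 1) := by
  obtain ⟨m, rfl⟩ : ∃ m, n = m + 1 := ⟨n - 1, by omega⟩
  have hH := Hn_pos (m + 1)
  have hHn := Hn_pow (n := m + 1) (by omega)
  have hL : 0 < L := by linarith
  have hstar := star hn hL
  set H := Hn (m + 1) with hHdef
  have hf0 : (0 : ℝ) < ((m + 1).factorial : ℝ) := by positivity
  simp only [Nat.add_sub_cancel] at hHn hstar ⊢
  have hmR : (3 : ℝ) ≤ (m : ℝ) := by exact_mod_cast (by omega : 3 ≤ m)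
  have em : ((m + 1 : ℕ) : ℝ) - 1 = m := by push_cast; ring
  rw [em] at hstar
  have hq : 0.3466 / (m : ℝ) ≤ 0.12 := by
    rw [div_le_iff₀ (by linarith)]
    linarith
  have hq0 : 0 < 0.3466 / (m : ℝ) := by positivity
  rcases le_or_gt y ((1 / 2 - 0.3466 / (m : ℝ)) * H) with hc | hc
  · refine near_lt (n := m + 1) (by omega) hL hf hy (by linarith) ?_
    simp only [Nat.add_sub_cancel]
    have hE : Ee (m + 1) L m ≤ Ee (m + 1) (2 * H) m := Ee_anti (by omega) (by positivity) hL2 m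
    have hb := Ee_top_base (n := m + 1) (by omega)
    simp only [Nat.add_sub_cancel] at hb
    have hE0 : 0 < Ee (m + 1) L m := lt_of_lt_of_le one_pos (Ee_ge_one (by omega) hL m)
    have h2 : y ^ m ≤ ((1 / 2 - 0.3466 / (m : ℝ)) * H) ^ m := pow_le_pow_left₀ hy.le hc m
    have h3 : (2 * (1 / 2 - 0.3466 / (m : ℝ))) ^ m < 1 / 2 := by
      have h4 : 2 * (1 / 2 - 0.3466 / (m : ℝ)) ≤ Real.exp (-(0.6932 / (m : ℝ))) := by
        have := Real.add_one_le_exp (-(0.6932 / (m : ℝ)))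
        have e : 0.6932 / (m : ℝ) = 2 * (0.3466 / (m : ℝ)) := by ring
        rw [e] at this ⊢
        linarith
      calc (2 * (1 / 2 - 0.3466 / (m : ℝ))) ^ m ≤ Real.exp (-(0.6932 / (m : ℝ))) ^ m :=
            pow_le_pow_left₀ (by linarith) h4 m
        _ = Real.exp (-0.6932) := by
            rw [← Real.exp_nat_mul]
            congr 1
            field_simp
        _ < Real.exp (-Real.log 2) := by
            rw [Real.exp_lt_exp]
            have := Real.log_two_lt_d9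
            linarith
        _ = 1 / 2 := by rw [Real.exp_neg, Real.exp_log (by norm_num)]; norm_num
    calc 2 * Ee (m + 1) L m * y ^ m
        ≤ 2 * Ee (m + 1) (2 * H) m * ((1 / 2 - 0.3466 / (m : ℝ)) * H) ^ m :=
          mul_le_mul (by linarith) h2 (by positivity) (by linarith)
      _ = 2 * (1 / 2 - 0.3466 / (m : ℝ)) ^ m * (Ee (m + 1) (2 * H) m * H ^ m) := by rw [mul_pow]; ring
      _ = 2 * (1 / 2 - 0.3466 / (m : ℝ)) ^ m * (2 ^ m * ((m + 1).factorial : ℝ)) := by rw [hb]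
      _ = 2 * (2 * (1 / 2 - 0.3466 / (m : ℝ))) ^ m * ((m + 1).factorial : ℝ) := by
          rw [mul_pow 2]; ring
      _ < 2 * (1 / 2) * ((m + 1).factorial : ℝ) := by
          apply mul_lt_mul_of_pos_right _ hf0
          linarith
      _ = ((m + 1).factorial : ℝ) := by ring
  · -- window
    obtain ⟨a, ha0, haL, hx0, hx1⟩ : ∃ a : ℝ, 0 ≤ a ∧ a + 2 * H ≤ L ∧ 0 ≤ 1 - (y - a) / H ∧
        1 - (y - a) / H ≤ 1 / 2 + 0.3466 / (m : ℝ) := by
      rcases le_or_gt y H with h | h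
      · refine ⟨0, le_rfl, by linarith, ?_, ?_⟩
        · have : (y - 0) / H ≤ 1 := (div_le_one hH).2 (by linarith)
          linarith
        · have : 1 / 2 - 0.3466 / (m : ℝ) ≤ (y - 0) / H := by
            rw [le_div_iff₀ hH]; linarith
          linarith
      · refine ⟨y - H, by linarith, by linarith, ?_, ?_⟩
        · have : (y - (y - H)) / H = 1 := by
            rw [div_eq_one_iff_eq hH.ne']; ring
          rw [this]; norm_num
        · have : (y - (y - H)) / H = 1 := by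
            rw [div_eq_one_iff_eq hH.ne']; ring
          rw [this]
          linarith
    obtain ⟨x, hx⟩ : ∃ x : ℝ, x = 1 - (y - a) / H := ⟨_, rfl⟩
    rw [← hx] at hx0 hx1
    have hyx : a + H * (1 - x) = y := by
      rw [hx]; field_simp; ring
    have hF := W_to_F (m := m) (h := H) (a := a) hH (S := Icc 0 L) (Icc_subset_Icc ha0 haL) hf
    set z : ℝ := 1 / 2 + 0.3466 / (m : ℝ) with hz
    have hz0 : 1 / 2 ≤ z := by linarith
    have hz1 : z ≤ 0.62 := by linarith
    have hb := top_bd (m := m) (by omega) (by positivity) hF (x := x) ⟨by linarith, by linarith⟩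
      (w := z) (by linarith)
    rw [abs_neg_pow _ hH, hyx, hHn] at hb
    have fp := fac_pred (n := m + 1) (by omega)
    have e1 : m + 1 - 2 = m - 1 := by omega
    simp only [Nat.add_sub_cancel] at fp
    rw [e1] at fp
    rw [fp] at hb
    push_cast at hb hstar
    set s : ℝ := 2 ^ m * ((m + 1).factorial : ℝ) with hs
    have hs0 : 0 < s := by positivity
    have h1 : x ^ 2 / (2 * z) + z / 2 + 1 / (4 * z * ((m : ℝ) + 1)) ≤ z + 1 / (2 * ((m : ℝ) + 1)) := by
      have h2 : x ^ 2 / (2 * z) ≤ z / 2 := by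
        rw [div_le_div_iff₀ (by positivity) (by norm_num)]
        nlinarith
      have h3 : 1 / (4 * z * ((m : ℝ) + 1)) ≤ 1 / (2 * ((m : ℝ) + 1)) := by
        apply one_div_le_one_div_of_le (by positivity)
        nlinarith
      linarith
    have h4 : H ^ m * |f m y| ≤ s * (z + 1 / ((m : ℝ) + 1)) := by
      refine hb.trans ?_
      have h5 := mul_le_mul_of_nonneg_left h1 hs0.le
      have e2 : s * (z + 1 / ((m : ℝ) + 1)) = s / (2 * ((m : ℝ) + 1)) + s * (z + 1 / (2 * ((m : ℝ) + 1))) := by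
        field_simp
        ring
      rw [e2]
      linarith
    have hpos : 0 < H ^ m := by positivity
    refine lt_of_mul_lt_mul_left (lt_of_le_of_lt h4 ?_) hpos.le
    rw [← hHn, pow_succ]
    have h6 := mul_lt_mul_of_pos_left hstar hpos
    calc H ^ m * H * (z + 1 / ((m : ℝ) + 1)) = H ^ m * (H * (z + 1 / ((m : ℝ) + 1))) := by ring
      _ < _ := h6

theorem top_lt {n : ℕ} (hn : 4 ≤ n) {L : ℝ} (hL : 0 < L) {f : ℕ → ℝ → ℝ}
    (hf : InW n (Icc 0 L) f) {y : ℝ} (hy : 0 < y) (hy2 : y ≤ L / 2) : |f (n - 1) y| < Ee n L (n - 1) := by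
  rcases le_total L (2 * Hn n) with h | h
  · exact top_lt_low hn hL h hf hy hy2
  · exact top_lt_high hn h hf hy hy2

end Pool.LK2
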