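import Pool.Agent.LK2.First

/-!
# LK2/Son: Sonin's inequality for `T_n^(k)` on `[-x1, x1]`

`T_j = T_n^(j)`.  `Sf(x) = (n²-k²) T_k(x)² + (1-x²) T_{k+1}(x)²`.  By `ode n k`
(`(1-x²) T_{k+2} = (2k+1) x T_{k+1} - (n²-k²) T_k`):
`Sf' = 2 T_{k+1} ((n²-k²) T_k - x T_{k+1} + (1-x²) T_{k+2}) = 4 k x T_{k+1}²`,
so `Sf` is monotone on `[0, ∞)`; `Sf` is even (`parity`).  At `x1` the second term vanishes.
-/

open Set
open Pool.LK1 (TJ)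

namespace Pool.LK2

/-- the Sonin function -/
private noncomputable def Sf (n k : ℕ) (x : ℝ) : ℝ :=
  ((n : ℝ) ^ 2 - k ^ 2) * TJ n k x ^ 2 + (1 - x ^ 2) * TJ n (k + 1) x ^ 2

private theorem Sf_hasDerivAt (n k : ℕ) (x : ℝ) :
    HasDerivAt (Sf n k) (4 * k * x * TJ n (k + 1) x ^ 2) x := by
  have h0 := (Pool.LK1.TJ_hasDerivAt n k x)
  have h1 := (Pool.LK1.TJ_hasDerivAt n (k + 1) x)
  have h2 : HasDerivAt (fun y : ℝ => 1 - y ^ 2) (-(2 * x)) x := by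
    have := (hasDerivAt_pow 2 x).const_sub 1
    simpa using this
  have h3 := ((h0.pow 2).const_mul ((n : ℝ) ^ 2 - k ^ 2)).add (h2.mul (h1.pow 2))
  have h4 := ode n k x
  refine h3.congr_deriv ?_
  simp only [Pi.pow_apply]
  push_cast
  have h5 : (1 - x ^ 2) * (2 * TJ n (k + 1) x ^ (2 - 1) * TJ n (k + 1 + 1) x) =
      2 * TJ n (k + 1) x * ((1 - x ^ 2) * TJ n (k + 2) x) := by
    ring
  rw [h5, h4]
  ring

private theorem Sf_abs (n k : ℕ) (x : ℝ) : Sf n k |x| = Sf n k x := by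
  rcases abs_choice x with h | h
  · rw [h]
  · rw [h]
    unfold Sf
    rw [parity, parity, mul_pow, mul_pow, ← pow_mul, ← pow_mul, mul_comm (n + k) 2,
      mul_comm (n + (k + 1)) 2, pow_mul, pow_mul]
    norm_num

private theorem Sf_mono (n k : ℕ) {x y : ℝ} (hx : 0 ≤ x) (hy : x ≤ y) : Sf n k x ≤ Sf n k y := by
  have hmono : MonotoneOn (Sf n k) (Ici 0) := by
    refine monotoneOn_of_deriv_nonneg (convex_Ici 0) ?_ ?_ ?_
    · exact fun y _ => (Sf_hasDerivAt n k y).continuousAt.continuousWithinAt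
    · exact fun y _ => (Sf_hasDerivAt n k y).differentiableAt.differentiableWithinAt
    · intro y hy
      rw [interior_Ici] at hy
      rw [(Sf_hasDerivAt n k y).deriv]
      have h1 : 0 < y := hy
      positivity
  exact hmono (mem_Ici.2 hx) (mem_Ici.2 (hx.trans hy)) hy

theorem sonin (n k : ℕ) (hk : 1 ≤ k) (h : k + 2 ≤ n) {x1 : ℝ} (hx : IsFirst n k x1) {x : ℝ} (hxx : |x| ≤ x1) :
    ((n : ℝ) ^ 2 - k ^ 2) * TJ n k x ^ 2 + (1 - x ^ 2) * TJ n (k + 1) x ^ 2 ≤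
      ((n : ℝ) ^ 2 - k ^ 2) * TJ n k x1 ^ 2 := by
  have h1 : Sf n k |x| ≤ Sf n k x1 := Sf_mono n k (abs_nonneg x) hxx
  rw [Sf_abs] at h1
  have h2 : Sf n k x1 = ((n : ℝ) ^ 2 - k ^ 2) * TJ n k x1 ^ 2 := by
    unfold Sf
    rw [hx.zero]
    ring
  rw [h2] at h1
  exact h1

private theorem sq_le_first {n k : ℕ} {x1 : ℝ} (hx : IsFirst n k x1) {x : ℝ} (hxx : |x| ≤ x1) :
    x ^ 2 ≤ x1 ^ 2 := by
  have h1 := hx.nonneg
  rw [← sq_abs]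
  exact pow_le_pow_left₀ (abs_nonneg x) hxx 2

private theorem first_sq_lt {n k : ℕ} {x1 : ℝ} (hx : IsFirst n k x1) : x1 ^ 2 < 1 := by
  have h1 := hx.nonneg
  have h2 := hx.lt_one
  nlinarith

theorem abs_le_first (n k : ℕ) (hk : 1 ≤ k) (h : k + 2 ≤ n) {x1 : ℝ} (hx : IsFirst n k x1) {x : ℝ}
    (hxx : |x| ≤ x1) : |TJ n k x| ≤ |TJ n k x1| := by
  have h1 := sonin n k hk h hx hxx
  have h2 := sq_le_first hx hxx
  have h3 := first_sq_lt hx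
  have h4 : 0 ≤ (1 - x ^ 2) * TJ n (k + 1) x ^ 2 :=
    mul_nonneg (by linarith) (sq_nonneg _)
  have h5 : (0 : ℝ) < (n : ℝ) ^ 2 - k ^ 2 := by
    have h6 : (k : ℝ) + 2 ≤ n := by exact_mod_cast h
    have h7 : (0 : ℝ) ≤ k := Nat.cast_nonneg k
    nlinarith
  have h8 : ((n : ℝ) ^ 2 - k ^ 2) * TJ n k x ^ 2 ≤ ((n : ℝ) ^ 2 - k ^ 2) * TJ n k x1 ^ 2 := by
    linarith
  exact sq_le_sq.1 (le_of_mul_le_mul_left h8 h5)

/-- `|T_{k+1}(x)| ≤ |T_k(x1)| √((n²-k²)/(1-x1²))`, squared -/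
theorem sq_succ_le (n k : ℕ) (hk : 1 ≤ k) (h : k + 2 ≤ n) {x1 : ℝ} (hx : IsFirst n k x1) {x : ℝ}
    (hxx : |x| ≤ x1) :
    (1 - x1 ^ 2) * TJ n (k + 1) x ^ 2 ≤ ((n : ℝ) ^ 2 - k ^ 2) * TJ n k x1 ^ 2 := by
  have h1 := sonin n k hk h hx hxx
  have h2 := sq_le_first hx hxx
  have h3 : (1 - x1 ^ 2) * TJ n (k + 1) x ^ 2 ≤ (1 - x ^ 2) * TJ n (k + 1) x ^ 2 :=
    mul_le_mul_of_nonneg_right (by linarith) (sq_nonneg _)
  have h5 : (0 : ℝ) < (n : ℝ) ^ 2 - k ^ 2 := by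
    have h6 : (k : ℝ) + 2 ≤ n := by exact_mod_cast h
    have h7 : (0 : ℝ) ≤ k := Nat.cast_nonneg k
    nlinarith
  have h6 : 0 ≤ ((n : ℝ) ^ 2 - k ^ 2) * TJ n k x ^ 2 := by positivity
  linarith

end Pool.LK2
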