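import Pool.Agent.KFL.Mid
import Pool.Agent.KFL.ZoneI
import Pool.Agent.KFL.QChain
import Pool.Agent.KFL.EtaTop
import Pool.Agent.LKX.Bulk
import Pool.Agent.LK2.Cover
import Pool.Agent.LK2.S1Six
import Pool.Agent.LK2.TopK
import Pool.Agent.LK2.SubK

/-!
# LK2/Crit: all critical values of `f_k`, `2 ≤ k ≤ n - 2`, in the interior are smaller than `E_k(L)`
-/

open Set
open Pool.LK1 (TJ InF)
open Pool.Agent.LKI (InW IsJet)
open Pool.Agent.KFL

namespace Pool.LK2

theorem crit_half_low {n k : ℕ} (hk1 : 2 ≤ k) (hk : k + 3 ≤ n) {L : ℝ} (hL : 0 < L) {f : ℕ → ℝ → ℝ}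
    (hf : InW n (Icc 0 L) f) {y : ℝ} (hy0 : 0 < y) (hy2 : y ≤ L / 2) (h0 : f (k + 1) y = 0) :
    |f k y| < Ee n L k := by
  rcases le_or_gt y (eta n k L) with hy | hy
  · have h := zoneI hk1 (by omega) hL (etaOK_low hk hL) (q_le_low (by omega) hk hL) (S := Icc 0 L) (a := 0)
      (Icc_subset_Icc_right (by linarith)) hf hy0.le hy (by rw [zero_add]; exact h0)
    rwa [zero_add] at h
  have hS : S1c (n - 1) k → |f k y| < Ee n L k := fun h => mid_S hk1 hk h hL hf hy.le hy2 h0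
  rcases cover (n - 1) k hk1 (by omega) with hB | h
  swap
  · exact hS h
  rcases Nat.lt_or_ge k 7 with h7 | h7
  · rcases Nat.lt_or_ge k 6 with h6 | h6
    · apply hS
      interval_cases k
      · exact s1_two _ (by omega)
      · exact s1_three _ (by omega)
      · exact s1_four _ (by omega)
      · exact s1_five _ (by omega)
    · obtain rfl : k = 6 := by omega
      exact hS (s1_six _ (by omega))
  rcases Nat.lt_or_ge n 19 with h19 | h19
  · exact hS (s1_small _ k (by omega) (by omega) (by omega))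
  rcases le_total L (2 * Hn n) with hL2 | hL2
  · exact mid_B hk1 hk hB hL hL2 hf hy.le hy2 h0
  obtain ⟨x1, hx1⟩ := exists_first n k (by omega)
  have hH := Hn_pos n
  rcases le_total y ((1 - x1) * Hn n) with hc | hc
  · exact left_win hk1 (by omega) hx1 hL2 hf hy.le hc h0
  · refine Pool.LKX.bulk_ok h7 hk h19 hx1 hL2 hf hc ?_ h0
    have h1 : (1 - x1) * Hn n ≤ Hn n := by nlinarith [hx1.nonneg]
    linarith

theorem crit_half_top {n k : ℕ} (hn : 4 ≤ n) (hk : k + 2 = n) {L : ℝ} (hL : 0 < L) {f : ℕ → ℝ → ℝ}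
    (hf : InW n (Icc 0 L) f) {y : ℝ} (hy0 : 0 < y) (hy2 : y ≤ L / 2) (h0 : f (k + 1) y = 0) :
    |f k y| < Ee n L k := by
  have hk1 : 2 ≤ k := by omega
  rcases le_total L (2 * Hn n) with hL2 | hL2
  · rcases le_or_gt y (L / ((k : ℝ) + 1)) with hy | hy
    · have h := t1lt hk1 (by omega) hL (S := Icc 0 L) (a := 0) (n := n)
        (Icc_subset_Icc_right (by linarith)) hf hy0.le hy (by rw [zero_add]; exact h0)
      rwa [zero_add] at h
    · have e1 : n - 1 = k + 1 := by omega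
      have e2 : n - 2 = k := by omega
      have h := sub_lt (n := n) hn hL hL2 hf (y := y) (by
        have : (n : ℝ) - 1 = k + 1 := by
          rw [← hk]; push_cast; ring
        rw [this]; exact hy.le) hy2 (by rw [e1]; exact h0)
      rwa [e2] at h
  · rcases le_or_gt y (eta n k L) with hy | hy
    · have h := zoneI hk1 (by omega) hL (etaOK_top hk hL2) (q_le_top (by omega) hk hL2) (S := Icc 0 L) (a := 0)
        (Icc_subset_Icc_right (by linarith)) hf hy0.le hy (by rw [zero_add]; exact h0)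
      rwa [zero_add] at h
    · exact mid_top hk1 hk hL2 hf hy.le hy2 h0

/-- reflection -/
theorem inW_refl {n : ℕ} {L : ℝ} {f : ℕ → ℝ → ℝ} (hf : InW n (Icc 0 L) f) :
    InW n (Icc 0 L) (fun j t => (-1) ^ j * f j (L - t)) := by
  have hm : ∀ t ∈ Icc (0 : ℝ) L, L - t ∈ Icc (0 : ℝ) L := fun t ht => ⟨by linarith [ht.2], by linarith [ht.1]⟩
  refine ⟨⟨?_, ?_⟩, ?_⟩
  · intro j hj t ht
    have h1 := hf.jet.hasDeriv j hj _ (hm t ht)
    have h2 : HasDerivWithinAt (fun t : ℝ => L - t) (-1) (Icc 0 L) t :=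
      ((hasDerivAt_id t).const_sub L).hasDerivWithinAt
    have h5 := h1.comp t h2 (fun t ht => hm t ht)
    refine (h5.const_mul ((-1) ^ j)).congr_deriv ?_
    rw [pow_succ]
    ring
  · intro s hs t ht
    have h1 := hf.jet.lip _ (hm s hs) _ (hm t ht)
    rw [← mul_sub, abs_mul, abs_pow, abs_neg, abs_one, one_pow, one_mul]
    have h2 : (L - s) - (L - t) = -(s - t) := by ring
    rw [h2, abs_neg] at h1
    exact h1
  · intro t ht
    simpa using hf.bdd _ (hm t ht)

theorem refl_val (k : ℕ) (f : ℕ → ℝ → ℝ) (L y : ℝ) :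
    |(-1 : ℝ) ^ k * f k (L - (L - y))| = |f k y| := by
  rw [abs_mul, abs_pow, abs_neg, abs_one, one_pow, one_mul, sub_sub_cancel]

theorem crit_lt {n k : ℕ} (hn : 4 ≤ n) (hk1 : 2 ≤ k) (hk : k + 2 ≤ n) {L : ℝ} (hL : 0 < L) {f : ℕ → ℝ → ℝ}
    (hf : InW n (Icc 0 L) f) {y : ℝ} (hy : y ∈ Ioo 0 L) (h0 : f (k + 1) y = 0) :
    |f k y| < Ee n L k := by
  have half : ∀ g : ℕ → ℝ → ℝ, InW n (Icc 0 L) g → ∀ z : ℝ, 0 < z → z ≤ L / 2 → g (k + 1) z = 0 →
      |g k z| < Ee n L k := by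
    intro g hg z hz0 hz2 hz
    rcases Nat.lt_or_ge (k + 2) n with h | h
    · exact crit_half_low hk1 (by omega) hL hg hz0 hz2 hz
    · exact crit_half_top hn (by omega) hL hg hz0 hz2 hz
  rcases le_total y (L / 2) with h | h
  · exact half f hf y hy.1 h h0
  · have h1 := half _ (inW_refl hf) (L - y) (by linarith [hy.2]) (by linarith)
      (by simp only [sub_sub_cancel]; rw [h0, mul_zero])
    rwa [refl_val] at h1

/-- interior values, `2 ≤ k ≤ n - 1` -/
theorem lt_int {n k : ℕ} (hn : 4 ≤ n) (hk1 : 2 ≤ k) (hk : k + 1 ≤ n) {L : ℝ} (hL : 0 < L) {f : ℕ → ℝ → ℝ}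
    (hf : InW n (Icc 0 L) f) {y : ℝ} (hy : y ∈ Ioo 0 L) : |f k y| < Ee n L k := by
  rcases Nat.lt_or_ge (k + 1) n with h | h
  swap
  · have e : k = n - 1 := by omega
    subst e
    rcases le_total y (L / 2) with h | h
    · exact top_lt hn hL hf hy.1 h
    · have h1 := top_lt hn hL (inW_refl hf) (y := L - y) (by linarith [hy.2]) (by linarith)
      rwa [refl_val] at h1
  -- `k ≤ n - 2`: an interior maximum point is critical
  have hd : ∀ z ∈ Icc (0 : ℝ) L, HasDerivWithinAt (f k) (f (k + 1) z) (Icc 0 L) z :=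
    fun z hz => hf.jet.hasDeriv k (by omega) z hz
  have hcont : ContinuousOn (fun z => |f k z|) (Icc (0 : ℝ) L) := by
    have h1 : ContinuousOn (f k) (Icc (0 : ℝ) L) := fun z hz => (hd z hz).continuousWithinAt
    exact h1.abs
  have hend0 : ∀ g : ℕ → ℝ → ℝ, InW n (Icc 0 L) g → |g k 0| ≤ Ee n L k := fun g hg =>
    le_Ee (by omega) hL hg (by omega)
  have hend1 : |f k L| ≤ Ee n L k := by
    have h1 := hend0 _ (inW_refl hf)
    simp only [sub_zero] at h1
    rwa [abs_mul, abs_pow, abs_neg, abs_one, one_pow, one_mul] at h1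
  have hmax : ∀ z ∈ Ioo (0 : ℝ) L, (∀ w ∈ Icc (0 : ℝ) L, |f k w| ≤ |f k z|) → f (k + 1) z = 0 := by
    intro z hz hw
    have hda : HasDerivAt (f k) (f (k + 1) z) z :=
      (hd z ⟨hz.1.le, hz.2.le⟩).hasDerivAt (Icc_mem_nhds hz.1 hz.2)
    have hnh : Icc (0 : ℝ) L ∈ nhds z := Icc_mem_nhds hz.1 hz.2
    rcases le_total 0 (f k z) with h0 | h0
    · have : IsLocalMax (f k) z := by
        filter_upwards [hnh] with w hw'
        have := hw w hw'
        rw [abs_of_nonneg h0] at this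
        exact (le_abs_self _).trans this
      exact this.hasDerivAt_eq_zero hda
    · have : IsLocalMin (f k) z := by
        filter_upwards [hnh] with w hw'
        have := hw w hw'
        rw [abs_of_nonpos h0] at this
        have h3 := neg_abs_le (f k w)
        linarith
      exact this.hasDerivAt_eq_zero hda
  by_contra hcon
  push Not at hcon
  obtain ⟨x0, hx0, hx0m⟩ := isCompact_Icc.exists_isMaxOn (nonempty_Icc.mpr hL.le) hcont
  have hm0 : ∀ z ∈ Icc (0 : ℝ) L, |f k z| ≤ |f k x0| := fun z hz => hx0m hz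
  have hbad : |f k x0| ≤ Ee n L k → False := by
    intro h2
    have h3 : ∀ z ∈ Icc (0 : ℝ) L, |f k z| ≤ |f k y| := fun z hz => (hm0 z hz).trans (h2.trans hcon)
    exact absurd (crit_lt hn hk1 (by omega) hL hf hy (hmax y hy h3)) (not_lt.mpr hcon)
  rcases eq_or_lt_of_le hx0.1 with h1 | h1
  · exact hbad (by rw [← h1]; exact hend0 f hf)
  rcases eq_or_lt_of_le hx0.2 with h2 | h2
  · exact hbad (by rw [h2]; exact hend1)
  · exact hbad (crit_lt hn hk1 (by omega) hL hf ⟨h1, h2⟩ (hmax x0 ⟨h1, h2⟩ hm0)).le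

end Pool.LK2
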