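import Pool.Agent.LK1.ChebJ

/-!
# LK2/Defs: notation for the derivatives of the Chebyshev polynomials

`TJ n j x` (from `LK1/ChebJ`) is the `j`-th derivative of `T_n` at `x`.  `IsFirst n k x1`: `x1` is the largest zero
of `T_n^(k+1)` (it lies in `[0,1)`), i.e. the largest critical point of `T_n^(k)`.
-/

open Set
open Pool.LK1 (TJ)

namespace Pool.LK2

/-- `x1` is the largest zero of `T_n^(k+1)`. -/
structure IsFirst (n k : ℕ) (x1 : ℝ) : Prop where
  nonneg : 0 ≤ x1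
  lt_one : x1 < 1
  zero : TJ n (k + 1) x1 = 0
  pos : ∀ x, x1 < x → 0 < TJ n (k + 1) x

/-- The lower bound `S(n,k)` of `1 - x1 ^ 2`. -/
noncomputable def Sq (n k : ℕ) : ℝ :=
  (((k : ℝ) + 3 / 2) * ((k : ℝ) + 11 / 2)) / ((n : ℝ) ^ 2 + 3 * (k : ℝ) + 17 / 4)

end Pool.LK2
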