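import Pool.Agent.LK1.Final
import Pool.Agent.LK2.Crit

/-!
# LK2/Final: Karlin's conjecture for all `n ≥ 4`, `1 ≤ k ≤ n - 1` and all `σ > 0`

Uses the structure theory of `Pool/Agent/LKI` (existence of Zolotarev splines, extremality and uniqueness at the
end point for every `σ`), `lt_int` for `k ≥ 2` and `LK1.lt_mid` for `k = 1`.
-/

open Set

namespace Pool.LK2

open Pool.Agent.LKI (Cls M IsZolotarev D InW KSpline)
open Pool.Agent.KFL (Ee Ee_eq)
open Pool.LK1 (D_zero cls_inF le_right_inF pos_right refl_abs)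

section

variable {σ q : ℝ}

private theorem abs_fac (hq : 0 < q) (k : ℕ) (y : ℝ) :
    |(-1 / q) ^ k * y| = (q ^ k)⁻¹ * |y| := by
  rw [abs_mul, abs_pow, abs_div, abs_neg, abs_one, abs_of_pos hq, one_div, inv_pow]

private theorem sgn_fac (k : ℕ) (y : ℝ) :
    (-1) ^ k * ((-1 / q) ^ k * y) = (q ^ k)⁻¹ * y := by
  rw [← mul_assoc, ← mul_pow]
  congr 1
  rw [← inv_pow]
  congr 1
  ring

private theorem back (hq : 0 < q) (x : ℝ) : 1 - q * (1 - x) / q = x := by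
  field_simp
  ring

/-- interior values are smaller than the end point value -/
theorem lt_mid {m k : ℕ} (hm : 3 ≤ m) (hk1 : 1 ≤ k) (hk : k ≤ m) (hσ : 0 < σ) {T : ℝ → ℝ}
    (hT : IsZolotarev (m + 1) σ T) {f : ℝ → ℝ} (hf : f ∈ Cls (m + 1) σ) {x : ℝ} (hx : x ∈ Ioo (-1 : ℝ) 1) :
    |D f k x| < D T k 1 := by
  rcases Nat.lt_or_ge 1 k with h | h
  swap
  · obtain rfl : k = 1 := by omega
    exact Pool.LK1.lt_mid hm hσ hT hf hx
  obtain ⟨q, hq, hqn⟩ : ∃ q : ℝ, 0 < q ∧ q ^ (m + 1) = σ :=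
    ⟨σ ^ (((m + 1 : ℕ) : ℝ)⁻¹), Real.rpow_pos_of_pos hσ _, Real.rpow_inv_natCast_pow hσ.le (by omega)⟩
  obtain ⟨P, ξ, τ, hK⟩ := Pool.Agent.LKI.zol_to_kspline (by omega) hq hqn hT
  have hW := Pool.Agent.LKI.cls_to_W (n := m + 1) (by omega) hq hqn hf
  have hE := Ee_eq (n := m + 1) (by omega) hK (j := k) (by omega)
  simp only [zero_div, sub_zero] at hE
  rw [sgn_fac] at hE
  have hy : q * (1 - x) ∈ Ioo 0 (2 * q) := by
    constructor
    · exact mul_pos hq (by linarith [hx.2])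
    · nlinarith [hx.1]
  have h1 := lt_int (n := m + 1) (k := k) (by omega) (by omega) (by omega) (by positivity) hW hy
  rw [hE] at h1
  simp only [back hq] at h1
  rw [abs_fac hq] at h1
  have hpos : 0 < (q ^ k)⁻¹ := by positivity
  exact lt_of_mul_lt_mul_left h1 hpos.le

end

theorem main (n k : ℕ) (hn : 4 ≤ n) (hk1 : 1 ≤ k) (hkn : k + 1 ≤ n) (σ : ℝ) (hσ : 0 < σ) :
    (∃ T, IsZolotarev n σ T) ∧ ∀ T, IsZolotarev n σ T →
      M n k σ = D T k 1 ∧ (∀ f ∈ Cls n σ, ∀ x ∈ Ioo (-1 : ℝ) 1, |D f k x| < M n k σ) ∧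
      ∃ c : ℝ, -1 ≤ c ∧ c < 1 ∧ |T c| = 1 ∧ {x ∈ Icc c 1 | |T x| = 1}.ncard = n ∧
        ∀ f ∈ Cls n σ,
          ((∃ x ∈ Icc (-1 : ℝ) 1, |D f k x| = M n k σ) ↔
            ∃ s : ℝ, (s = 1 ∨ s = -1) ∧
              ((∀ x ∈ Icc c 1, f x = s * T x) ∨ ∀ x ∈ Icc c 1, f (-x) = s * T x)) := by
  obtain ⟨q, hq, hqn⟩ : ∃ q : ℝ, 0 < q ∧ q ^ n = σ :=
    ⟨σ ^ ((n : ℝ)⁻¹), Real.rpow_pos_of_pos hσ _, Real.rpow_inv_natCast_pow hσ.le (by omega)⟩
  obtain ⟨m, rfl⟩ : ∃ m, n = m + 1 := ⟨n - 1, by omega⟩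
  have hkm : k ≤ m := by omega
  refine ⟨?_, fun T hT => ?_⟩
  · obtain ⟨F, P, ξ, τ, hF⟩ := Pool.Agent.LKI.exists_KSpline (n := m + 1) (by omega) (L := 2 * q) (by positivity)
    exact ⟨_, Pool.Agent.LKI.kspline_to_zol (by omega) hq hqn hF⟩
  have hTC : T ∈ Cls (m + 1) σ := hT.1
  have hlt : ∀ f ∈ Cls (m + 1) σ, ∀ x ∈ Ioo (-1 : ℝ) 1, |D f k x| < D T k 1 := fun f hf x hx =>
    lt_mid (by omega) hk1 hkm hσ hT hf hx
  have hle : ∀ f ∈ Cls (m + 1) σ, ∀ x ∈ Icc (-1 : ℝ) 1, |D f k x| ≤ D T k 1 := by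
    intro f hf x hx
    rcases eq_or_lt_of_le hx.1 with h1 | h1
    · rw [← h1, ← refl_abs hf hkm]
      exact le_right_inF (by omega) hσ hT (cls_inF (Pool.Agent.LKI.cls_refl (by omega) hf).1) hkm
    rcases eq_or_lt_of_le hx.2 with h2 | h2
    · rw [h2]; exact le_right_inF (by omega) hσ hT (cls_inF hf) hkm
    exact (hlt f hf x ⟨h1, h2⟩).le
  have hTpos : 0 < D T k 1 := pos_right (by omega) hσ hT hkm
  have hM : M (m + 1) k σ = D T k 1 := by
    unfold M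
    apply le_antisymm
    · refine csSup_le ?_ ?_
      · exact ⟨|D T k 1|, T, hTC, 1, by norm_num, rfl⟩
      · rintro y ⟨f, hf, x, hx, rfl⟩
        exact hle f hf x hx
    · have habs : |D T k 1| = D T k 1 := abs_of_pos hTpos
      refine le_csSup ?_ ?_
      · refine ⟨D T k 1, ?_⟩
        rintro y ⟨f, hf, x, hx, rfl⟩
        exact hle f hf x hx
      · exact ⟨T, hTC, 1, by norm_num, habs.symm⟩
  refine ⟨hM, fun f hf x hx => by rw [hM]; exact hlt f hf x hx, ?_⟩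
  obtain ⟨P, ξ, τ, hK⟩ := Pool.Agent.LKI.zol_to_kspline (by omega) hq hqn hT
  obtain ⟨c', hc0, hcL, hc1, hcard, huni⟩ := Pool.Agent.LKI.end_unique (by omega) (L := 2 * q) (by positivity) hK
  have hcq : c' / q ≤ 2 := by rw [div_le_iff₀ hq]; exact hcL
  have hcq0 : 0 < c' / q := div_pos hc0 hq
  have himg : {x ∈ Icc (1 - c' / q) 1 | |T x| = 1} =
      (fun t => 1 - t / q) '' {t ∈ Icc 0 c' | |(-1 / q) ^ 0 * D T 0 (1 - t / q)| = 1} := by
    ext x
    simp only [mem_Icc, mem_image, pow_zero, one_mul, D_zero]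
    constructor
    · rintro ⟨⟨h1, h2⟩, h3⟩
      have hx0 : q * (1 - x) ≤ c' := by
        have : 1 - x ≤ c' / q := by linarith
        rw [le_div_iff₀ hq] at this
        linarith
      exact ⟨q * (1 - x), ⟨⟨mul_nonneg hq.le (by linarith), hx0⟩, by rw [back hq]; exact h3⟩,
        back hq x⟩
    · rintro ⟨t, ⟨⟨h1, h2⟩, h3⟩, rfl⟩
      refine ⟨⟨?_, ?_⟩, h3⟩
      · have := (div_le_div_iff_of_pos_right hq).mpr h2
        linarith
      · have := div_nonneg h1 hq.le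
        linarith
  have hright : ∀ f ∈ Cls (m + 1) σ, |D f k 1| = D T k 1 →
      ∃ s : ℝ, (s = 1 ∨ s = -1) ∧ ∀ x ∈ Icc (1 - c' / q) 1, f x = s * T x := by
    intro f hf hfe
    have h := huni k hk1 (by omega) _ (Pool.Agent.LKI.cls_to_W (by omega) hq hqn hf) (by
      simp only [zero_div, sub_zero]
      rw [abs_fac hq, sgn_fac, hfe])
    obtain ⟨s, hs, h⟩ := h
    refine ⟨s, hs, fun x hx => ?_⟩
    have hx0 : q * (1 - x) ≤ c' := by
      have : 1 - x ≤ c' / q := by linarith [hx.1]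
      rw [le_div_iff₀ hq] at this
      linarith
    have h' := h (q * (1 - x)) ⟨mul_nonneg hq.le (by linarith [hx.2]), hx0⟩
    simpa only [back hq, pow_zero, one_mul, D_zero] using h'
  have habs1 : ∀ s : ℝ, (s = 1 ∨ s = -1) → |s| = 1 := by
    rintro s (rfl | rfl) <;> simp
  refine ⟨1 - c' / q, by linarith, by linarith, ?_, ?_, ?_⟩
  · simpa only [pow_zero, one_mul, D_zero] using hc1
  · rw [himg, Set.ncard_image_of_injective]
    · exact hcard
    · intro a b hab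
      simp only [sub_right_inj] at hab
      exact (div_left_inj' hq.ne').mp hab
  · intro f hf
    rw [hM]
    constructor
    · rintro ⟨x, hx, hxe⟩
      rcases eq_or_lt_of_le hx.1 with h1 | h1
      · rw [← h1, ← refl_abs hf hkm] at hxe
        obtain ⟨s, hs, h⟩ := hright _ (Pool.Agent.LKI.cls_refl (by omega) hf).1 hxe
        exact ⟨s, hs, Or.inr h⟩
      rcases eq_or_lt_of_le hx.2 with h2 | h2
      · rw [h2] at hxe
        obtain ⟨s, hs, h⟩ := hright f hf hxe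
        exact ⟨s, hs, Or.inl h⟩
      · exact absurd hxe (hlt f hf x ⟨h1, h2⟩).ne
    · rintro ⟨s, hs, h | h⟩
      · refine ⟨1, by norm_num, ?_⟩
        rw [Pool.Agent.LKI.D_congr (by omega) hf hTC (by linarith) (by linarith) h k (by omega), abs_mul,
          habs1 s hs, one_mul, abs_of_pos hTpos]
      · refine ⟨-1, by norm_num, ?_⟩
        rw [← refl_abs hf hkm, Pool.Agent.LKI.D_congr (by omega)
          (Pool.Agent.LKI.cls_refl (by omega) hf).1 hTC (by linarith) (by linarith) h k (by omega), abs_mul,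
          habs1 s hs, one_mul, abs_of_pos hTpos]

end Pool.LK2
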