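import Pool.Agent.LK2.MBd
import Pool.Agent.LK2.CBd

/-!
# LK2/Phi: the explicit functions `Th`, `Rf`, `Phi` and their monotonicity in `n`

`dfo k = ∏_{j<k} (2j+1)`, so `T_n^(k)(1) = Pi2 n k / dfo k` (`TJ_one_eq`, from LK1 `TJ_val_one`).
`T_{n-1}^(k)(1) = T_n^(k)(1) (n-1)(n-k)/(n(n+k-1))` for `k < n` (`TJ_pred_one`): with `n = m + 1`,
`Pi2 m k · (m+1) (m+k) = Pi2 (m+1) k · m (m+1-k)`: induction on `k` using
`(m² - k²) (m+k+1) (m+1-k) ... `: `Pi2 m (k+1) = Pi2 m k (m²-k²)`, `(m²-k²) = (m-k)(m+k)`,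
`((m+1)²-k²) = (m+1-k)(m+1+k)`; multiply the induction hypothesis by `(m-k)(m+k+1)`.

`Th n k = n² dfo⁴ / (Pi2² Sq^(2k) (n²-(k+1)²))`; by `mbd`: `|T_n^(k)(x1)|⁴ ≤ Th n k · T_n^(k)(1)⁴` (`th_bound`).
`Rf n k = 25 k² (n²-k²) / (Sq n k (n²-(k+1)²)²)`.
`Phi n k = 4 (1+Rf)² Th (n (n+k-1)/((n-k)(n-1)))⁴`.

`th_anti`: `k + 2 ≤ n → Th (n+1) k ≤ Th n k`.  Proof: with `A = (k+3/2)(k+11/2)`, `X = n²`,
`Th = dfo⁴ · (X/(X-(k+1)²)) · ∏_{j<k} ((X+3k+17/4)/(A (X - j²)))²`, every factor `(X + a)/(X - b)`, `a, b ≥ 0`, is positive and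
decreasing in `X > b` (write `Sq^(2k) = (A/(X+3k+17/4))^(2k)` and `(X+3k+17/4)^(2k) = ∏_{j<k} (..)²`).
`rf_anti`: `Rf = (25k²/A) ((X-k²)/(X-(k+1)²)) ((X+3k+17/4)/(X-(k+1)²))`, again decreasing (`X - k² = (X-(k+1)²) + (2k+1)`).
`phi_anti`: also `n/(n-1)` and `(n+k-1)/(n-k)` are decreasing in `n` (`k ≥ 1`).
-/

open Set
open Pool.LK1 (TJ InF)

namespace Pool.LK2

noncomputable def dfo (k : ℕ) : ℝ := ∏ j ∈ Finset.range k, (2 * (j : ℝ) + 1)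

noncomputable def Th (n k : ℕ) : ℝ :=
  (n : ℝ) ^ 2 * dfo k ^ 4 / (Pi2 n k ^ 2 * Sq n k ^ (2 * k) * ((n : ℝ) ^ 2 - ((k : ℝ) + 1) ^ 2))

noncomputable def Rf (n k : ℕ) : ℝ :=
  25 * (k : ℝ) ^ 2 * ((n : ℝ) ^ 2 - (k : ℝ) ^ 2) / (Sq n k * ((n : ℝ) ^ 2 - ((k : ℝ) + 1) ^ 2) ^ 2)

noncomputable def Phi (n k : ℕ) : ℝ :=
  4 * (1 + Rf n k) ^ 2 * Th n k * ((n : ℝ) * ((n : ℝ) + k - 1) / (((n : ℝ) - k) * ((n : ℝ) - 1))) ^ 4

private theorem dfo_pos (k : ℕ) : 0 < dfo k := by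
  unfold dfo
  exact Finset.prod_pos fun j _ => by positivity

private theorem Pi2_succ' (n k : ℕ) : Pi2 n (k + 1) = Pi2 n k * ((n : ℝ) ^ 2 - (k : ℝ) ^ 2) := by
  unfold Pi2
  rw [Finset.prod_range_succ]

private theorem sub_pos' {n j : ℕ} (h : j < n) : 0 < (n : ℝ) ^ 2 - (j : ℝ) ^ 2 := by
  have h1 : (j : ℝ) < n := by exact_mod_cast h
  have h2 : (0 : ℝ) ≤ j := Nat.cast_nonneg j
  nlinarith

private theorem sub_pos1 {n k : ℕ} (h : k + 2 ≤ n) : 0 < (n : ℝ) ^ 2 - ((k : ℝ) + 1) ^ 2 := by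
  have h1 := sub_pos' (show k + 1 < n by omega)
  push_cast at h1
  exact h1

private theorem Pi2_pos {n k : ℕ} (h : k ≤ n) : 0 < Pi2 n k := by
  unfold Pi2
  refine Finset.prod_pos fun j hj => sub_pos' ?_
  have := Finset.mem_range.1 hj
  omega

private theorem Sq_pos (n k : ℕ) : 0 < Sq n k := by
  unfold Sq
  positivity

private theorem frac_anti {X Y a b : ℝ} (hab : 0 ≤ a + b) (hX : b < X) (hXY : X ≤ Y) :
    (Y + a) / (Y - b) ≤ (X + a) / (X - b) := by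
  have h1 : 0 < X - b := by linarith
  have h2 : 0 < Y - b := by linarith
  rw [div_le_div_iff₀ h2 h1]
  nlinarith [mul_nonneg hab (sub_nonneg.2 hXY)]

private theorem Pi2_pred (m k : ℕ) :
    Pi2 m k * (((m : ℝ) + 1) * ((m : ℝ) + k)) = Pi2 (m + 1) k * ((m : ℝ) * ((m : ℝ) + 1 - k)) := by
  induction k with
  | zero =>
    unfold Pi2
    simp only [Finset.range_zero, Finset.prod_empty, Nat.cast_zero]
    ring
  | succ k ih =>
    rw [Pi2_succ', Pi2_succ']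
    push_cast
    linear_combination (((m : ℝ) - k) * ((m : ℝ) + k + 1)) * ih

theorem TJ_one_eq (n k : ℕ) : TJ n k 1 * dfo k = Pi2 n k := by
  rw [Pool.LK1.TJ_val_one]
  unfold dfo Pi2
  rw [← Finset.prod_mul_distrib]
  refine Finset.prod_congr rfl fun i _ => ?_
  have : (2 * (i : ℝ) + 1) ≠ 0 := by positivity
  field_simp

theorem TJ_pred_one (m k : ℕ) (hk : k ≤ m) :
    TJ m k 1 * (((m : ℝ) + 1) * ((m : ℝ) + k)) = TJ (m + 1) k 1 * ((m : ℝ) * ((m : ℝ) + 1 - k)) := by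
  have _ := hk
  have h1 := TJ_one_eq m k
  have h2 := TJ_one_eq (m + 1) k
  have h3 := Pi2_pred m k
  rw [← h1, ← h2] at h3
  apply mul_right_cancel₀ (dfo_pos k).ne'
  linear_combination h3

theorem th_pos (n k : ℕ) (h : k + 2 ≤ n) : 0 < Th n k := by
  unfold Th
  have h1 := sub_pos1 h
  have h2 := dfo_pos k
  have h3 := Pi2_pos (show k ≤ n by omega)
  have h4 := Sq_pos n k
  have h5 : (0 : ℝ) < n := by exact_mod_cast (by omega : 0 < n)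
  positivity

theorem rf_pos (n k : ℕ) (hk : 1 ≤ k) (h : k + 2 ≤ n) : 0 < Rf n k := by
  unfold Rf
  have h1 := sub_pos1 h
  have h2 := sub_pos' (show k < n by omega)
  have h4 := Sq_pos n k
  have h5 : (0 : ℝ) < k := by exact_mod_cast (by omega : 0 < k)
  positivity

theorem th_bound (n k : ℕ) (hk : 1 ≤ k) (h : k + 2 ≤ n) {x1 : ℝ} (hx : IsFirst n k x1) :
    TJ n k x1 ^ 4 ≤ Th n k * TJ n k 1 ^ 4 := by
  have h0 := mbd n k hk h hx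
  have h1 := sub_pos1 h
  have h2 := dfo_pos k
  have h3 := Pi2_pos (show k ≤ n by omega)
  have h4 := Sq_pos n k
  have h5 := TJ_one_eq n k
  have h6 : TJ n k 1 = Pi2 n k / dfo k := by
    rw [← h5]
    field_simp
  rw [h6]
  unfold Th
  have h7 : (n : ℝ) ^ 2 * dfo k ^ 4 / (Pi2 n k ^ 2 * Sq n k ^ (2 * k) * ((n : ℝ) ^ 2 - ((k : ℝ) + 1) ^ 2)) *
      (Pi2 n k / dfo k) ^ 4 =
      (n * Pi2 n k) ^ 2 / (Sq n k ^ (2 * k) * ((n : ℝ) ^ 2 - ((k : ℝ) + 1) ^ 2)) := by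
    generalize (n : ℝ) ^ 2 - ((k : ℝ) + 1) ^ 2 = b at *
    generalize Sq n k ^ (2 * k) = s at *
    rcases eq_or_ne s 0 with hs | hs
    · rw [hs]
      simp
    · field_simp
  rw [h7, le_div_iff₀ (by positivity)]
  calc _ = TJ n k x1 ^ 4 * Sq n k ^ (2 * k) * ((n : ℝ) ^ 2 - ((k : ℝ) + 1) ^ 2) := by ring
    _ ≤ _ := h0

private theorem th_eq {n k : ℕ} (h : k + 2 ≤ n) :
    Th n k = dfo k ^ 4 * (((n : ℝ) ^ 2 + 0) / ((n : ℝ) ^ 2 - ((k : ℝ) + 1) ^ 2)) *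
      ((∏ j ∈ Finset.range k, (((n : ℝ) ^ 2 + (3 * (k : ℝ) + 17 / 4)) / ((n : ℝ) ^ 2 - (j : ℝ) ^ 2))) ^ 2 /
        (((k : ℝ) + 3 / 2) * ((k : ℝ) + 11 / 2)) ^ (2 * k)) := by
  have h1 := sub_pos1 h
  have h3 := Pi2_pos (show k ≤ n by omega)
  have h8 : (0 : ℝ) < (n : ℝ) ^ 2 + (3 * (k : ℝ) + 17 / 4) := by positivity
  have h9 : (0 : ℝ) < ((k : ℝ) + 3 / 2) * ((k : ℝ) + 11 / 2) := by positivity
  have e1 : ∏ j ∈ Finset.range k, (((n : ℝ) ^ 2 + (3 * (k : ℝ) + 17 / 4)) / ((n : ℝ) ^ 2 - (j : ℝ) ^ 2)) =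
      ((n : ℝ) ^ 2 + (3 * (k : ℝ) + 17 / 4)) ^ k / Pi2 n k := by
    rw [Finset.prod_div_distrib, Finset.prod_const, Finset.card_range]
    rfl
  have e2 : Sq n k = (((k : ℝ) + 3 / 2) * ((k : ℝ) + 11 / 2)) / ((n : ℝ) ^ 2 + (3 * (k : ℝ) + 17 / 4)) := by
    unfold Sq
    rw [add_assoc]
  rw [e1]
  unfold Th
  rw [e2, div_pow, div_pow, ← pow_mul, mul_comm k 2]
  generalize (n : ℝ) ^ 2 - ((k : ℝ) + 1) ^ 2 = b at *
  have h10 := pow_pos h8 (2 * k)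
  have h11 := pow_pos h9 (2 * k)
  generalize ((n : ℝ) ^ 2 + (3 * (k : ℝ) + 17 / 4)) ^ (2 * k) = u at *
  generalize (((k : ℝ) + 3 / 2) * ((k : ℝ) + 11 / 2)) ^ (2 * k) = v at *
  generalize Pi2 n k = P at *
  field_simp
  ring

theorem th_anti {n n' k : ℕ} (h : k + 2 ≤ n) (hn : n ≤ n') : Th n' k ≤ Th n k := by
  have h' : k + 2 ≤ n' := h.trans hn
  rw [th_eq h, th_eq h']
  have hX : (n : ℝ) ^ 2 ≤ (n' : ℝ) ^ 2 := by
    have h1 : (n : ℝ) ≤ n' := by exact_mod_cast hn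
    exact pow_le_pow_left₀ (Nat.cast_nonneg n) h1 2
  have p1 := sub_pos1 h
  have p1' := sub_pos1 h'
  have f1 := frac_anti (X := (n : ℝ) ^ 2) (Y := (n' : ℝ) ^ 2) (a := 0) (b := ((k : ℝ) + 1) ^ 2)
    (by positivity) (by linarith) hX
  have f2 : ∏ j ∈ Finset.range k, (((n' : ℝ) ^ 2 + (3 * (k : ℝ) + 17 / 4)) / ((n' : ℝ) ^ 2 - (j : ℝ) ^ 2)) ≤
      ∏ j ∈ Finset.range k, (((n : ℝ) ^ 2 + (3 * (k : ℝ) + 17 / 4)) / ((n : ℝ) ^ 2 - (j : ℝ) ^ 2)) := by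
    apply Finset.prod_le_prod
    · intro j hj
      have hj1 := Finset.mem_range.1 hj
      have := sub_pos' (show j < n' by omega)
      positivity
    · intro j hj
      have hj1 := Finset.mem_range.1 hj
      have h2 := sub_pos' (show j < n by omega)
      exact frac_anti (by positivity) (by linarith) hX
  have f3 : 0 ≤ ∏ j ∈ Finset.range k, (((n' : ℝ) ^ 2 + (3 * (k : ℝ) + 17 / 4)) / ((n' : ℝ) ^ 2 - (j : ℝ) ^ 2)) := by
    apply Finset.prod_nonneg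
    intro j hj
    have hj1 := Finset.mem_range.1 hj
    have := sub_pos' (show j < n' by omega)
    positivity
  have h2 := dfo_pos k
  have f4 : 0 ≤ ((n' : ℝ) ^ 2 + 0) / ((n' : ℝ) ^ 2 - ((k : ℝ) + 1) ^ 2) := by positivity
  have f5 := f4.trans f1
  apply mul_le_mul
  · exact mul_le_mul_of_nonneg_left f1 (by positivity)
  · exact div_le_div_of_nonneg_right (pow_le_pow_left₀ f3 f2 2) (by positivity)
  · positivity
  · positivity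

private theorem rf_eq {n k : ℕ} (h : k + 2 ≤ n) :
    Rf n k = (25 * (k : ℝ) ^ 2 / (((k : ℝ) + 3 / 2) * ((k : ℝ) + 11 / 2))) *
      ((((n : ℝ) ^ 2 + -(k : ℝ) ^ 2) / ((n : ℝ) ^ 2 - ((k : ℝ) + 1) ^ 2)) *
        (((n : ℝ) ^ 2 + (3 * (k : ℝ) + 17 / 4)) / ((n : ℝ) ^ 2 - ((k : ℝ) + 1) ^ 2))) := by
  have h1 := sub_pos1 h
  have h8 : (0 : ℝ) < (n : ℝ) ^ 2 + (3 * (k : ℝ) + 17 / 4) := by positivity
  have h9 : (0 : ℝ) < ((k : ℝ) + 3 / 2) * ((k : ℝ) + 11 / 2) := by positivity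
  have e2 : Sq n k = (((k : ℝ) + 3 / 2) * ((k : ℝ) + 11 / 2)) / ((n : ℝ) ^ 2 + (3 * (k : ℝ) + 17 / 4)) := by
    unfold Sq
    rw [add_assoc]
  unfold Rf
  rw [e2]
  generalize (n : ℝ) ^ 2 - ((k : ℝ) + 1) ^ 2 = b at *
  generalize ((n : ℝ) ^ 2 + (3 * (k : ℝ) + 17 / 4)) = u at *
  generalize (((k : ℝ) + 3 / 2) * ((k : ℝ) + 11 / 2)) = v at *
  field_simp
  ring

theorem rf_anti {n n' k : ℕ} (h : k + 2 ≤ n) (hn : n ≤ n') : Rf n' k ≤ Rf n k := by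
  have h' : k + 2 ≤ n' := h.trans hn
  rw [rf_eq h, rf_eq h']
  have hX : (n : ℝ) ^ 2 ≤ (n' : ℝ) ^ 2 := by
    have h1 : (n : ℝ) ≤ n' := by exact_mod_cast hn
    exact pow_le_pow_left₀ (Nat.cast_nonneg n) h1 2
  have p1 := sub_pos1 h
  have p1' := sub_pos1 h'
  have q' := sub_pos' (show k < n' by omega)
  have q := sub_pos' (show k < n by omega)
  have hk : (0 : ℝ) ≤ k := Nat.cast_nonneg k
  have f1 := frac_anti (X := (n : ℝ) ^ 2) (Y := (n' : ℝ) ^ 2) (a := -(k : ℝ) ^ 2) (b := ((k : ℝ) + 1) ^ 2)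
    (by nlinarith) (by linarith) hX
  have f2 := frac_anti (X := (n : ℝ) ^ 2) (Y := (n' : ℝ) ^ 2) (a := 3 * (k : ℝ) + 17 / 4) (b := ((k : ℝ) + 1) ^ 2)
    (by positivity) (by linarith) hX
  have f3 : 0 ≤ ((n' : ℝ) ^ 2 + (3 * (k : ℝ) + 17 / 4)) / ((n' : ℝ) ^ 2 - ((k : ℝ) + 1) ^ 2) := by positivity
  have f4 : 0 ≤ ((n : ℝ) ^ 2 + -(k : ℝ) ^ 2) / ((n : ℝ) ^ 2 - ((k : ℝ) + 1) ^ 2) :=
    div_nonneg (by linarith) p1.le
  apply mul_le_mul_of_nonneg_left _ (by positivity)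
  exact mul_le_mul f1 f2 f3 f4

theorem phi_anti {n n' k : ℕ} (hk : 1 ≤ k) (h : k + 2 ≤ n) (hn : n ≤ n') : Phi n' k ≤ Phi n k := by
  have h' : k + 2 ≤ n' := h.trans hn
  have hk1 : (1 : ℝ) ≤ k := by exact_mod_cast hk
  have h1 : (n : ℝ) ≤ n' := by exact_mod_cast hn
  have h2 : (k : ℝ) + 2 ≤ n := by exact_mod_cast h
  have f1 := frac_anti (X := (n : ℝ)) (Y := (n' : ℝ)) (a := 0) (b := 1) (by norm_num) (by linarith) h1
  have f2 := frac_anti (X := (n : ℝ)) (Y := (n' : ℝ)) (a := (k : ℝ) - 1) (b := (k : ℝ)) (by linarith)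
    (by linarith) h1
  have g1 : 0 < (n' : ℝ) - 1 := by linarith
  have g2 : 0 < (n' : ℝ) - k := by linarith
  have g3 : 0 < (n : ℝ) - 1 := by linarith
  have g4 : 0 < (n : ℝ) - k := by linarith
  have e : ∀ x : ℝ, x * (x + k - 1) / ((x - k) * (x - 1)) = ((x + 0) / (x - 1)) * ((x + (k - 1)) / (x - k)) := by
    intro x
    rw [div_mul_div_comm]
    ring_nf
  have f3 : (n' : ℝ) * ((n' : ℝ) + k - 1) / (((n' : ℝ) - k) * ((n' : ℝ) - 1)) ≤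
      (n : ℝ) * ((n : ℝ) + k - 1) / (((n : ℝ) - k) * ((n : ℝ) - 1)) := by
    rw [e, e]
    exact mul_le_mul f1 f2 (div_nonneg (by linarith) g2.le) (div_nonneg (by linarith) g3.le)
  have f4 : 0 ≤ (n' : ℝ) * ((n' : ℝ) + k - 1) / (((n' : ℝ) - k) * ((n' : ℝ) - 1)) := by
    apply div_nonneg
    · apply mul_nonneg <;> linarith
    · positivity
  have t1 := th_anti h hn
  have t2 := th_pos n' k h'
  have t2' := th_pos n k h
  have r1 := rf_anti h hn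
  have r2 := rf_pos n' k hk h'
  have r2' := rf_pos n k hk h
  unfold Phi
  apply mul_le_mul
  · apply mul_le_mul
    · apply mul_le_mul_of_nonneg_left _ (by norm_num)
      exact pow_le_pow_left₀ (by linarith) (by linarith) 2
    · exact t1
    · exact t2.le
    · positivity
  · exact pow_le_pow_left₀ f4 f3 4
  · exact pow_nonneg f4 4
  · positivity

end Pool.LK2
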