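import Pool.Agent.LK2.Bok

/-!
# LK2/PhiNum: the starting values

`24.5352 · Phi (k+8) k < 1` for `k = 6, 7, 8` and `24.5352 · Phi (k+7) k < 1` for `k = 9, ..., 15`.
All quantities are rational: unfold `Phi`, `Th`, `Rf`, `Sq`, `Pi2`, `dfo`, `Finset.prod_range_succ` and `norm_num`.
(Values of `log (exp(16/5) Phi)/2`: `-0.108, -0.305, -0.493` and `-0.125, -0.262, -0.395, -0.523, -0.648, -0.768, -0.886`.)
If `norm_num` is slow, compute `Pi2` and `dfo` first as separate lemmas.
Consequence: `Bok m k` for `k = 6,7,8`, `m + 1 ≥ k + 8`, and for `9 ≤ k ≤ 15`, `m + 1 ≥ k + 7`.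

`bok_nc`: the seven remaining pairs `(n,k)`, `n = m+1`: `(17,11), (18,12), (19,13), (20,14), (21,15)` and
`(14,7), (15,8)`: `bok_of_num` with `S = Sq n k` and a rational `K` slightly above
`√(Rf n k)` (two decimals rounded up are enough; log-margins of `F` with the exact root:
`-0.061, -0.163, -0.262, -0.358, -0.450, -0.182, -0.348`; for `(17,11)` take three decimals).
-/

open Set
open Pool.LK1 (TJ InF)

namespace Pool.LK2

private theorem phinum_6 : 24.5352 * Phi 14 6 < 1 := by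
  norm_num [Phi, Rf, Th, Sq, Pi2, dfo, Finset.prod_range_succ]

private theorem phinum_7 : 24.5352 * Phi 15 7 < 1 := by
  norm_num [Phi, Rf, Th, Sq, Pi2, dfo, Finset.prod_range_succ]

private theorem phinum_8 : 24.5352 * Phi 16 8 < 1 := by
  norm_num [Phi, Rf, Th, Sq, Pi2, dfo, Finset.prod_range_succ]

private theorem phinum_9 : 24.5352 * Phi 16 9 < 1 := by
  norm_num [Phi, Rf, Th, Sq, Pi2, dfo, Finset.prod_range_succ]

private theorem phinum_10 : 24.5352 * Phi 17 10 < 1 := by
  norm_num [Phi, Rf, Th, Sq, Pi2, dfo, Finset.prod_range_succ]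

private theorem phinum_11 : 24.5352 * Phi 18 11 < 1 := by
  norm_num [Phi, Rf, Th, Sq, Pi2, dfo, Finset.prod_range_succ]

private theorem phinum_12 : 24.5352 * Phi 19 12 < 1 := by
  norm_num [Phi, Rf, Th, Sq, Pi2, dfo, Finset.prod_range_succ]

private theorem phinum_13 : 24.5352 * Phi 20 13 < 1 := by
  norm_num [Phi, Rf, Th, Sq, Pi2, dfo, Finset.prod_range_succ]

private theorem phinum_14 : 24.5352 * Phi 21 14 < 1 := by
  norm_num [Phi, Rf, Th, Sq, Pi2, dfo, Finset.prod_range_succ]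

private theorem phinum_15 : 24.5352 * Phi 22 15 < 1 := by
  norm_num [Phi, Rf, Th, Sq, Pi2, dfo, Finset.prod_range_succ]

theorem bok_678 (m k : ℕ) (hk : 6 ≤ k) (hk8 : k ≤ 8) (hm : k + 7 ≤ m) : Bok m k := by
  interval_cases k
  · exact bok_of_phi_le (by norm_num) (by norm_num) (by omega) phinum_6
  · exact bok_of_phi_le (by norm_num) (by norm_num) (by omega) phinum_7
  · exact bok_of_phi_le (by norm_num) (by norm_num) (by omega) phinum_8

theorem bok_9_15 (m k : ℕ) (hk : 9 ≤ k) (hk15 : k ≤ 15) (hm : k + 6 ≤ m) : Bok m k := by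
  interval_cases k
  · exact bok_of_phi_le (by norm_num) (by norm_num) (by omega) phinum_9
  · exact bok_of_phi_le (by norm_num) (by norm_num) (by omega) phinum_10
  · exact bok_of_phi_le (by norm_num) (by norm_num) (by omega) phinum_11
  · exact bok_of_phi_le (by norm_num) (by norm_num) (by omega) phinum_12
  · exact bok_of_phi_le (by norm_num) (by norm_num) (by omega) phinum_13
  · exact bok_of_phi_le (by norm_num) (by norm_num) (by omega) phinum_14
  · exact bok_of_phi_le (by norm_num) (by norm_num) (by omega) phinum_15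

private theorem phinum_nc_16 : Bok 16 11 := by
  refine bok_of_num 16 11 (by norm_num) (by norm_num) (Sq 17 11) (6185/1000) ?_ (by norm_num)
    (fun x1 hx => loc_S 17 11 (by norm_num) hx) ?_ ?_
  · norm_num [Sq]
  · norm_num [Sq]
  · norm_num [Sq, Pi2, dfo, Finset.prod_range_succ]

private theorem phinum_nc_17 : Bok 17 12 := by
  refine bok_of_num 17 12 (by norm_num) (by norm_num) (Sq 18 12) (645/100) ?_ (by norm_num)
    (fun x1 hx => loc_S 18 12 (by norm_num) hx) ?_ ?_
  · norm_num [Sq]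
  · norm_num [Sq]
  · norm_num [Sq, Pi2, dfo, Finset.prod_range_succ]

private theorem phinum_nc_18 : Bok 18 13 := by
  refine bok_of_num 18 13 (by norm_num) (by norm_num) (Sq 19 13) (671/100) ?_ (by norm_num)
    (fun x1 hx => loc_S 19 13 (by norm_num) hx) ?_ ?_
  · norm_num [Sq]
  · norm_num [Sq]
  · norm_num [Sq, Pi2, dfo, Finset.prod_range_succ]

private theorem phinum_nc_19 : Bok 19 14 := by
  refine bok_of_num 19 14 (by norm_num) (by norm_num) (Sq 20 14) (695/100) ?_ (by norm_num)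
    (fun x1 hx => loc_S 20 14 (by norm_num) hx) ?_ ?_
  · norm_num [Sq]
  · norm_num [Sq]
  · norm_num [Sq, Pi2, dfo, Finset.prod_range_succ]

private theorem phinum_nc_20 : Bok 20 15 := by
  refine bok_of_num 20 15 (by norm_num) (by norm_num) (Sq 21 15) (718/100) ?_ (by norm_num)
    (fun x1 hx => loc_S 21 15 (by norm_num) hx) ?_ ?_
  · norm_num [Sq]
  · norm_num [Sq]
  · norm_num [Sq, Pi2, dfo, Finset.prod_range_succ]

private theorem phinum_nc_13 : Bok 13 7 := by
  refine bok_of_num 13 7 (by norm_num) (by norm_num) (Sq 14 7) (464/100) ?_ (by norm_num)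
    (fun x1 hx => loc_S 14 7 (by norm_num) hx) ?_ ?_
  · norm_num [Sq]
  · norm_num [Sq]
  · norm_num [Sq, Pi2, dfo, Finset.prod_range_succ]

private theorem phinum_nc_14 : Bok 14 8 := by
  refine bok_of_num 14 8 (by norm_num) (by norm_num) (Sq 15 8) (496/100) ?_ (by norm_num)
    (fun x1 hx => loc_S 15 8 (by norm_num) hx) ?_ ?_
  · norm_num [Sq]
  · norm_num [Sq]
  · norm_num [Sq, Pi2, dfo, Finset.prod_range_succ]

theorem bok_nc (m k : ℕ) (h : (m = 16 ∧ k = 11) ∨ (m = 17 ∧ k = 12) ∨ (m = 18 ∧ k = 13) ∨ (m = 19 ∧ k = 14) ∨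
    (m = 20 ∧ k = 15) ∨ (m = 13 ∧ k = 7) ∨ (m = 14 ∧ k = 8)) : Bok m k := by
  rcases h with ⟨rfl, rfl⟩ | ⟨rfl, rfl⟩ | ⟨rfl, rfl⟩ | ⟨rfl, rfl⟩ | ⟨rfl, rfl⟩ | ⟨rfl, rfl⟩ | ⟨rfl, rfl⟩
  · exact phinum_nc_16
  · exact phinum_nc_17
  · exact phinum_nc_18
  · exact phinum_nc_19
  · exact phinum_nc_20
  · exact phinum_nc_13
  · exact phinum_nc_14

end Pool.LK2
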