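import Pool.Agent.LK2.First
import Pool.Agent.LK1.AltL

/-!
# LK2/Quad: comparison with a combination of Chebyshev polynomials

`quad`: `F 0, ..., F (p-1)` successive derivatives on `[-1,1]`, `|F 0| ≤ 1`, and the increments of `F (p-1)` are at least those of
a primitive of `γ + β z + α z²`.  Then `γ + α/(2(p+1)) ≤ 2^(p-1) p!`.

PROOF.  Suppose not: `A := (γ + α/(2(p+1)))/(2^(p-1) p!) > 1`.  Put `a = -4α/(p 2^p (p+2)!)`, `b = -2β/(p 2^p (p+1)!)`,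
`R_j = A T_p^(j) + (b p/2)(T_{p-1}^(j) - T_{p+1}^(j)) + (a p/4)(T_{p-2}^(j) - T_{p+2}^(j))` (`T_q^(j) = TJ q j`).
(1) At the nodes `x_i = cos(iπ/p)`, `i = 0..p`: `TJ_cos`, `cos((p-1)θ) - cos((p+1)θ) = 2 sin(pθ) sin θ`,
 `cos((p-2)θ) - cos((p+2)θ) = 2 sin(pθ) sin(2θ)`, `sin(iπ) = 0`: `R_0(x_i) = A (-1)^i`.
(2) `R_{p-1}(y) - R_{p-1}(x) = γ(y-x) + β(y²-x²)/2 + α(y³-x³)/3` (`incr_p`, `incr_p1`, `incr_p2` and: `T_{p-1}^(p-1)` is constant
 (`TJ_diag` or `TJ_top_pos`), `T_{p-2}^(p-1) = 0`); `A 2^(p-1) p! = γ + α/(2(p+1))`, and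
 `-(a p/4)(-2^(p-1)(p+2) p!) = -α/(2(p+1))` etc.
(3) `g_j = R_j - F_j`, `j ≤ p - 1`: derivatives of each other (`Der (p-1) (-1) 1 g`); `(-1)^i g_0(x_i) ≥ A - 1 > 0`: `Alt (g 0) (-1) 1 (p+1) 1`
 (`LK1.Alt`, `x_0 = 1` is the rightmost point).  `Alt.down` with `i = p - 1`: `Alt (g (p-1)) (-1) 1 2 1`, `Alt.inc`: one increment of `g (p-1)` of
 sign `1`; but by (2) and the hypothesis `g (p-1)` is antitone: `no_inc_anti`.  Contradiction.

`incr_p`: `T_p^(p)` is the constant `2^(p-1) p!` (`TJ_top_pos`).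
`incr_p1`: `T_{p+1}^(p)(z) = 2^p (p+1)! z`: it is affine with this slope (`TJ_top`), and `0` at `z = 0` (`parity`).  Then `T_{p+1}^(p-1)(z) - 2^p (p+1)! z²/2`
 has derivative zero.
`incr_p2`: `T_{p+2}^(p+1)(z) = 2^(p+1) (p+2)! z`, `T_{p+2}^(p)(0) = -2^(p-1) (p+2) p!` by `ode` at `0` with `j = p`
 (`T^(p+2)(0) = 2^(p+1) (p+2)! = -((p+2)²-p²) T^(p)(0)`), hence `T_{p+2}^(p)(z) = 2^p (p+2)! z² - 2^(p-1) (p+2) p!`; integrate once more.
-/

open Set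
open Pool.LK1 (TJ Der Alt Inc)

namespace Pool.LK2

private theorem const_of_der {f : ℝ → ℝ} (h : ∀ z, HasDerivAt f 0 z) (x y : ℝ) : f x = f y :=
  is_const_of_deriv_eq_zero (fun z => (h z).differentiableAt) (fun z => (h z).deriv) x y

private theorem TJ_above (q : ℕ) (z : ℝ) : TJ q (q + 1) z = 0 := by
  have h1 := Pool.LK1.TJ_hasDerivAt q q z
  have h2 : TJ q q = fun _ => q.factorial * (Polynomial.Chebyshev.T ℝ (q : ℤ)).coeff q := by
    funext x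
    exact Pool.LK1.TJ_diag q x
  rw [h2] at h1
  exact h1.unique (hasDerivAt_const z _)

theorem incr_p (p : ℕ) (hp : 1 ≤ p) (x y : ℝ) :
    TJ p (p - 1) y - TJ p (p - 1) x = 2 ^ (p - 1) * (p.factorial : ℝ) * (y - x) := by
  obtain ⟨m, rfl⟩ : ∃ m, p = m + 1 := ⟨p - 1, by omega⟩
  exact Pool.LK1.TJ_top m x y

theorem TJ_p1 (p : ℕ) (z : ℝ) : TJ (p + 1) p z = 2 ^ p * ((p + 1).factorial : ℝ) * z := by
  have h1 := Pool.LK1.TJ_top p 0 z
  have h2 := parity (p + 1) p 0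
  have h3 : ((-1 : ℝ)) ^ (p + 1 + p) = -1 := by
    have : p + 1 + p = 2 * p + 1 := by omega
    rw [this, pow_succ, pow_mul]
    norm_num
  rw [h3, neg_zero] at h2
  have h4 : TJ (p + 1) p 0 = 0 := by linarith only [h2]
  rw [h4] at h1
  linarith only [h1]

theorem incr_p1 (p : ℕ) (hp : 1 ≤ p) (x y : ℝ) :
    TJ (p + 1) (p - 1) y - TJ (p + 1) (p - 1) x = 2 ^ p * ((p + 1).factorial : ℝ) * ((y ^ 2 - x ^ 2) / 2) := by
  obtain ⟨m, rfl⟩ : ∃ m, p = m + 1 := ⟨p - 1, by omega⟩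
  rw [Nat.add_sub_cancel]
  have key : ∀ z, HasDerivAt (fun z => TJ (m + 1 + 1) m z - 2 ^ (m + 1) * ((m + 1 + 1).factorial : ℝ) * (z ^ 2 / 2)) 0 z := by
    intro z
    have h5 := (Pool.LK1.TJ_hasDerivAt (m + 1 + 1) m z).sub
      ((((hasDerivAt_id z).pow 2).div_const 2).const_mul (2 ^ (m + 1) * ((m + 1 + 1).factorial : ℝ)))
    rw [TJ_p1] at h5
    refine h5.congr_deriv ?_
    simp only [id]
    push_cast
    ring
  have := const_of_der key y x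
  linarith only [this]

theorem TJ_p2 (p : ℕ) (hp : 1 ≤ p) (z : ℝ) :
    TJ (p + 2) p z = 2 ^ p * ((p + 2).factorial : ℝ) * z ^ 2 - 2 ^ (p - 1) * ((p : ℝ) + 2) * (p.factorial : ℝ) := by
  have key : ∀ z, HasDerivAt (fun z => TJ (p + 2) p z - 2 ^ p * ((p + 2).factorial : ℝ) * z ^ 2) 0 z := by
    intro z
    have h5 := (Pool.LK1.TJ_hasDerivAt (p + 2) p z).sub
      (((hasDerivAt_id z).pow 2).const_mul (2 ^ p * ((p + 2).factorial : ℝ)))
    have h6 : TJ (p + 2) (p + 1) z = 2 ^ (p + 1) * ((p + 2).factorial : ℝ) * z := TJ_p1 (p + 1) z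
    rw [h6] at h5
    refine h5.congr_deriv ?_
    simp only [id]
    push_cast
    ring
  have h1 := const_of_der key z 0
  have h2 := ode (p + 2) p 0
  rw [TJ_top_pos (p + 2) (by omega)] at h2
  obtain ⟨m, rfl⟩ : ∃ m, p = m + 1 := ⟨p - 1, by omega⟩
  have e1 : m + 1 + 2 - 1 = m + 2 := by omega
  rw [e1] at h2
  rw [Nat.add_sub_cancel]
  have hf : ((m + 1 + 2).factorial : ℝ) = ((m : ℝ) + 3) * (((m : ℝ) + 2) * ((m + 1).factorial : ℝ)) := by
    have h7 : (m + 1 + 2).factorial = (m + 3) * ((m + 2) * (m + 1).factorial) := by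
      rw [show m + 1 + 2 = (m + 2) + 1 by omega, Nat.factorial_succ, Nat.factorial_succ]
    rw [h7]
    push_cast
    ring
  have hm : (0 : ℝ) < (m : ℝ) + 2 := by positivity
  push_cast at h2 h1 ⊢
  rw [hf] at h2 h1 ⊢
  have h3 : ((m : ℝ) + 2) * (4 * TJ (m + 1 + 2) (m + 1) 0) =
      ((m : ℝ) + 2) * (- (2 ^ (m + 2) * (((m : ℝ) + 3) * ((m + 1).factorial : ℝ)))) := by
    linear_combination h2
  have h4 := mul_left_cancel₀ hm.ne' h3
  rw [pow_add] at h4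
  have h8 : TJ (m + 1 + 2) (m + 1) 0 = - (2 ^ m * (((m : ℝ) + 3) * ((m + 1).factorial : ℝ))) := by
    linarith only [h4]
  rw [h8] at h1
  linarith only [h1]

theorem incr_p2 (p : ℕ) (hp : 1 ≤ p) (x y : ℝ) :
    TJ (p + 2) (p - 1) y - TJ (p + 2) (p - 1) x =
      2 ^ p * ((p + 2).factorial : ℝ) * ((y ^ 3 - x ^ 3) / 3) -
        2 ^ (p - 1) * ((p : ℝ) + 2) * (p.factorial : ℝ) * (y - x) := by
  have key : ∀ z, HasDerivAt (fun z => TJ (p + 2) (p - 1) z - (2 ^ p * ((p + 2).factorial : ℝ) * (z ^ 3 / 3) -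
      2 ^ (p - 1) * ((p : ℝ) + 2) * (p.factorial : ℝ) * z)) 0 z := by
    intro z
    have h5 := (Pool.LK1.TJ_hasDerivAt (p + 2) (p - 1) z).sub
      (((((hasDerivAt_id z).pow 3).div_const 3).const_mul (2 ^ p * ((p + 2).factorial : ℝ))).sub
        ((hasDerivAt_id z).const_mul (2 ^ (p - 1) * ((p : ℝ) + 2) * (p.factorial : ℝ))))
    have e : p - 1 + 1 = p := by omega
    rw [e, TJ_p2 p hp] at h5
    refine h5.congr_deriv ?_
    simp only [id]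
    push_cast
    ring
  have := const_of_der key y x
  linarith only [this]

private theorem node_lt {p i : ℕ} (hp : 1 ≤ p) (hi : i + 1 ≤ p) :
    Real.cos (((i + 1 : ℕ) : ℝ) * Real.pi / p) < Real.cos ((i : ℝ) * Real.pi / p) := by
  have hp0 : (0 : ℝ) < p := by exact_mod_cast hp
  apply Real.cos_lt_cos_of_nonneg_of_le_pi
  · positivity
  · rw [div_le_iff₀ hp0]
    have : ((i + 1 : ℕ) : ℝ) ≤ p := by exact_mod_cast hi
    nlinarith [Real.pi_pos]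
  · rw [div_lt_div_iff_of_pos_right hp0]
    push_cast
    nlinarith [Real.pi_pos]

private theorem sin_node {p : ℕ} (hp : 1 ≤ p) (i : ℕ) : Real.sin ((p : ℝ) * ((i : ℝ) * Real.pi / p)) = 0 := by
  have hp0 : (p : ℝ) ≠ 0 := by positivity
  have : (p : ℝ) * ((i : ℝ) * Real.pi / p) = (i : ℝ) * Real.pi := by field_simp
  rw [this]
  exact Real.sin_nat_mul_pi i

private theorem node_diff {p : ℕ} (hp : 2 ≤ p) (i : ℕ) :
    TJ (p - 1) 0 (Real.cos ((i : ℝ) * Real.pi / p)) - TJ (p + 1) 0 (Real.cos ((i : ℝ) * Real.pi / p)) = 0 ∧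
    TJ (p - 2) 0 (Real.cos ((i : ℝ) * Real.pi / p)) - TJ (p + 2) 0 (Real.cos ((i : ℝ) * Real.pi / p)) = 0 := by
  obtain ⟨q, rfl⟩ : ∃ q, p = q + 2 := ⟨p - 2, by omega⟩
  have hs := sin_node (p := q + 2) (by omega) i
  set t := (i : ℝ) * Real.pi / ((q + 2 : ℕ) : ℝ) with ht
  rw [Pool.LK1.TJ_cos, Pool.LK1.TJ_cos, Pool.LK1.TJ_cos, Pool.LK1.TJ_cos]
  have e1 : q + 2 - 1 = q + 1 := by omega
  have e2 : q + 2 - 2 = q := by omega
  rw [e1, e2]
  constructor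
  · have h1 : ((q + 1 : ℕ) : ℝ) * t = ((q + 2 : ℕ) : ℝ) * t - t := by push_cast; ring
    have h2 : ((q + 2 + 1 : ℕ) : ℝ) * t = ((q + 2 : ℕ) : ℝ) * t + t := by push_cast; ring
    rw [h1, h2, Real.cos_sub, Real.cos_add, hs]
    ring
  · have h1 : ((q : ℕ) : ℝ) * t = ((q + 2 : ℕ) : ℝ) * t - 2 * t := by push_cast; ring
    have h2 : ((q + 2 + 2 : ℕ) : ℝ) * t = ((q + 2 : ℕ) : ℝ) * t + 2 * t := by push_cast; ring
    rw [h1, h2, Real.cos_sub, Real.cos_add, hs]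
    ring

theorem quad {p : ℕ} (hp : 2 ≤ p) {F : ℕ → ℝ → ℝ} (hder : Der (p - 1) (-1) 1 F)
    (hb : ∀ x ∈ Icc (-1 : ℝ) 1, |F 0 x| ≤ 1) {α β γ : ℝ}
    (hinc : ∀ x ∈ Icc (-1 : ℝ) 1, ∀ y ∈ Icc (-1 : ℝ) 1, x < y →
      γ * (y - x) + β * ((y ^ 2 - x ^ 2) / 2) + α * ((y ^ 3 - x ^ 3) / 3) ≤ F (p - 1) y - F (p - 1) x) :
    γ + α / (2 * ((p : ℝ) + 1)) ≤ 2 ^ (p - 1) * (p.factorial : ℝ) := by
  by_contra hcon
  have hcon' := not_le.1 hcon
  clear hcon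
  have hK : (0 : ℝ) < 2 ^ (p - 1) * (p.factorial : ℝ) := by positivity
  have hM1 : (0 : ℝ) < 2 ^ p * ((p + 1).factorial : ℝ) := by positivity
  have hM2 : (0 : ℝ) < 2 ^ p * ((p + 2).factorial : ℝ) := by positivity
  obtain ⟨A, hA⟩ : ∃ A : ℝ, A * (2 ^ (p - 1) * (p.factorial : ℝ)) = γ + α / (2 * ((p : ℝ) + 1)) :=
    ⟨(γ + α / (2 * ((p : ℝ) + 1))) / (2 ^ (p - 1) * (p.factorial : ℝ)), div_mul_cancel₀ _ hK.ne'⟩
  obtain ⟨b, hbb⟩ : ∃ b : ℝ, b * (2 ^ p * ((p + 1).factorial : ℝ)) = -β :=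
    ⟨-β / (2 ^ p * ((p + 1).factorial : ℝ)), div_mul_cancel₀ _ hM1.ne'⟩
  obtain ⟨a, haa⟩ : ∃ a : ℝ, a * (2 ^ p * ((p + 2).factorial : ℝ)) = -α :=
    ⟨-α / (2 ^ p * ((p + 2).factorial : ℝ)), div_mul_cancel₀ _ hM2.ne'⟩
  have hA1 : 1 < A := by
    rw [← hA] at hcon'
    nlinarith only [hcon', hK]
  have ha2 : a * (2 ^ (p - 1) * ((p : ℝ) + 2) * (p.factorial : ℝ)) = -(α / (2 * ((p : ℝ) + 1))) := by
    have hp1 : (0 : ℝ) < 2 * ((p : ℝ) + 1) := by positivity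
    rw [eq_comm, ← neg_div, div_eq_iff hp1.ne', ← haa]
    have hf : ((p + 2).factorial : ℝ) = ((p : ℝ) + 2) * (((p : ℝ) + 1) * (p.factorial : ℝ)) := by
      have h7 : (p + 2).factorial = (p + 2) * ((p + 1) * p.factorial) := by
        rw [show p + 2 = (p + 1) + 1 by omega, Nat.factorial_succ, Nat.factorial_succ]
      rw [h7]
      push_cast
      ring
    have h2 : (2 : ℝ) ^ p = 2 ^ (p - 1) * 2 := by
      rw [← pow_succ]
      congr 1
      omega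
    rw [hf, h2]
    ring
  -- the difference
  let g : ℕ → ℝ → ℝ := fun j x => A * TJ p j x + b * (TJ (p - 1) j x - TJ (p + 1) j x) +
    a * (TJ (p - 2) j x - TJ (p + 2) j x) - F j x
  have hg : Der (p - 1) (-1) 1 g := by
    intro j hj x hx
    have h1 := (Pool.LK1.TJ_der p (p - 1) (-1) 1 j hj x hx).const_mul A
    have h2 := ((Pool.LK1.TJ_der (p - 1) (p - 1) (-1) 1 j hj x hx).sub
      (Pool.LK1.TJ_der (p + 1) (p - 1) (-1) 1 j hj x hx)).const_mul b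
    have h3 := ((Pool.LK1.TJ_der (p - 2) (p - 1) (-1) 1 j hj x hx).sub
      (Pool.LK1.TJ_der (p + 2) (p - 1) (-1) 1 j hj x hx)).const_mul a
    exact ((h1.add h2).add h3).sub (hder j hj x hx)
  have halt : Alt (g 0) (-1) 1 (p + 1) 1 := by
    refine ⟨fun i => Real.cos ((i : ℝ) * Real.pi / p), ?_, ?_, ?_⟩
    · intro i hi
      exact ⟨Real.neg_one_le_cos _, Real.cos_le_one _⟩
    · intro i hi
      exact node_lt (by omega) (by omega)
    · intro i hi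
      have h1 := node_diff hp i
      have h2 : g 0 (Real.cos ((i : ℝ) * Real.pi / p)) = A * (-1) ^ i - F 0 (Real.cos ((i : ℝ) * Real.pi / p)) := by
        show A * TJ p 0 _ + b * (TJ (p - 1) 0 _ - TJ (p + 1) 0 _) + a * (TJ (p - 2) 0 _ - TJ (p + 2) 0 _) - F 0 _ = _
        rw [h1.1, h1.2, Pool.LK1.TJ_node p i (by omega)]
        ring
      show 0 < 1 * (-1) ^ i * g 0 (Real.cos ((i : ℝ) * Real.pi / p))
      rw [h2]
      have h3 := hb (Real.cos ((i : ℝ) * Real.pi / p)) ⟨Real.neg_one_le_cos _, Real.cos_le_one _⟩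
      have h4 : |(-1 : ℝ) ^ i * F 0 (Real.cos ((i : ℝ) * Real.pi / p))| ≤ 1 := by
        rw [abs_mul, abs_pow, abs_neg, abs_one, one_pow, one_mul]
        exact h3
      have h5 := (abs_le.1 h4).2
      have h6 : ((-1 : ℝ) ^ i) * (-1) ^ i = 1 := by
        rw [← mul_pow]
        norm_num
      have h7 : 1 * (-1 : ℝ) ^ i * (A * (-1) ^ i - F 0 (Real.cos ((i : ℝ) * Real.pi / p))) =
          A - (-1) ^ i * F 0 (Real.cos ((i : ℝ) * Real.pi / p)) := by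
        linear_combination A * h6
      rw [h7]
      linarith only [h5, hA1]
  have halt2 : Alt (g (p - 1)) (-1) 1 2 1 := by
    have h := Alt.down hg (s := 1) (p - 1) 0 2 (by omega) (by
      have e : 2 + (p - 1) = p + 1 := by omega
      rw [e]
      exact halt)
    rw [Nat.zero_add] at h
    exact h
  refine Pool.LK1.no_inc_anti ?_ halt2.inc
  intro x hx y hy hxy
  rcases hxy.eq_or_lt with rfl | hlt
  · exact le_refl _
  have hi := hinc x hx y hy hlt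
  have i0 := incr_p p (by omega) x y
  have i1 := incr_p1 p (by omega) x y
  have i2 := incr_p2 p (by omega) x y
  have j1 : TJ (p - 1) (p - 1) y - TJ (p - 1) (p - 1) x = 0 := by
    rw [Pool.LK1.TJ_diag, Pool.LK1.TJ_diag, sub_self]
  have j2 : ∀ z, TJ (p - 2) (p - 1) z = 0 := by
    intro z
    have h := TJ_above (p - 2) z
    have e : p - 2 + 1 = p - 1 := by omega
    rw [e] at h
    exact h
  show A * TJ p (p - 1) y + b * (TJ (p - 1) (p - 1) y - TJ (p + 1) (p - 1) y) +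
    a * (TJ (p - 2) (p - 1) y - TJ (p + 2) (p - 1) y) - F (p - 1) y ≤
    A * TJ p (p - 1) x + b * (TJ (p - 1) (p - 1) x - TJ (p + 1) (p - 1) x) +
    a * (TJ (p - 2) (p - 1) x - TJ (p + 2) (p - 1) x) - F (p - 1) x
  rw [j2 y, j2 x]
  have key : A * TJ p (p - 1) y + b * (TJ (p - 1) (p - 1) y - TJ (p + 1) (p - 1) y) +
    a * (0 - TJ (p + 2) (p - 1) y) - (A * TJ p (p - 1) x + b * (TJ (p - 1) (p - 1) x - TJ (p + 1) (p - 1) x) +
    a * (0 - TJ (p + 2) (p - 1) x)) = γ * (y - x) + β * ((y ^ 2 - x ^ 2) / 2) + α * ((y ^ 3 - x ^ 3) / 3) := by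
    linear_combination A * i0 + b * j1 - b * i1 - a * i2 + (y - x) * hA - ((y ^ 2 - x ^ 2) / 2) * hbb -
      ((y ^ 3 - x ^ 3) / 3) * haa + (y - x) * ha2
  linarith only [key, hi]

end Pool.LK2
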