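import Pool.Agent.LK2.Quad

/-!
# LK2/QuadCor: bounds of the two highest derivatives inside the interval

`top_bd`: for `w > 0`: `|F_m(x)| ≤ 2^(m-1) m! + σ (x²/(2w) + w/2 + 1/(4w(m+1)))`.
PROOF: it is enough to bound `F_m(x)` (replace `F` by `-F`, `InF.neg`).  For all `z`: `|z - x| ≤ ((z-x)²/w + w)/2`, so
`F_m(z) ≥ F_m(x) - σ|z-x| ≥ γ + β z + α z²`, `α = -σ/(2w)`, `β = σ x/w`, `γ = F_m(x) - σ x²/(2w) - σ w/2`.  The increments of
`F_{m-1}` (derivative `F_m`) are therefore at least those of `γ z + β z²/2 + α z³/3` (the difference has nonnegative derivative: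
`monotoneOn_of_deriv_nonneg` or the mean value theorem).  `quad` with `p = m`: `γ + α/(2(m+1)) ≤ 2^(m-1) m!`.

`sub_bd`: if `F_m(x) = 0`: `|F_{m-1}(x)| ≤ 2^(m-2) (m-1)! + σ (x²/2 + 1/(4m))`.
PROOF: again bound `F_{m-1}(x)`.  `|F_m(z)| ≤ σ|z-x|`, so `F_{m-1}(z) ≥ F_{m-1}(x) - σ(z-x)²/2 = γ + β z + α z²`, `α = -σ/2`, `β = σ x`,
`γ = F_{m-1}(x) - σ x²/2` (monotonicity of `F_{m-1}(z) + σ (z-x)²/2` to the right of `x`, and of `F_{m-1}(z) + σ(z-x)²/2` decreasing to the left); integrate once: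
the increments of `F_{m-2}`.  `quad` with `p = m - 1`.
-/

open Set
open Pool.LK1 (TJ Der InF)

namespace Pool.LK2

/-- comparison of increments by comparison of derivatives -/
private theorem incr_le {a b : ℝ} {f f' g g' : ℝ → ℝ}
    (hf : ∀ x ∈ Icc a b, HasDerivWithinAt f (f' x) (Icc a b) x)
    (hg : ∀ x ∈ Icc a b, HasDerivWithinAt g (g' x) (Icc a b) x)
    (h : ∀ x ∈ Icc a b, g' x ≤ f' x) {x y : ℝ} (hx : x ∈ Icc a b) (hy : y ∈ Icc a b) (hxy : x ≤ y) :
    g y - g x ≤ f y - f x := by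
  have hm : MonotoneOn (fun z => f z - g z) (Icc a b) := by
    apply monotoneOn_of_deriv_nonneg (convex_Icc a b)
    · intro z hz
      exact ((hf z hz).sub (hg z hz)).continuousWithinAt
    · intro z hz
      rw [interior_Icc] at hz
      have hn : Icc a b ∈ nhds z := Icc_mem_nhds hz.1 hz.2
      exact (((hf z (Ioo_subset_Icc_self hz)).sub (hg z (Ioo_subset_Icc_self hz))).hasDerivAt hn).differentiableAt.differentiableWithinAt
    · intro z hz
      rw [interior_Icc] at hz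
      have hn : Icc a b ∈ nhds z := Icc_mem_nhds hz.1 hz.2
      have h1 := ((hf z (Ioo_subset_Icc_self hz)).sub (hg z (Ioo_subset_Icc_self hz))).hasDerivAt hn
      have h2 : deriv (fun z => f z - g z) z = f' z - g' z := h1.deriv
      rw [h2]
      have := h z (Ioo_subset_Icc_self hz)
      linarith only [this]
  have := hm hx hy hxy
  simp only at this
  linarith only [this]

private theorem top_up {m : ℕ} (hm : 2 ≤ m) {σ : ℝ} (hσ : 0 ≤ σ) {F : ℕ → ℝ → ℝ} (hF : InF m σ (-1) 1 F) {x : ℝ}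
    (hx : x ∈ Icc (-1 : ℝ) 1) {w : ℝ} (hw : 0 < w) :
    F m x ≤ 2 ^ (m - 1) * (m.factorial : ℝ) + σ * (x ^ 2 / (2 * w) + w / 2 + 1 / (4 * w * ((m : ℝ) + 1))) := by
  have hq := quad (p := m) hm (F := F) (hF.der.mono (Nat.sub_le m 1)) hF.bd
    (α := -σ / (2 * w)) (β := σ * x / w) (γ := F m x - σ * x ^ 2 / (2 * w) - σ * w / 2) (by
      intro u hu v hv huv
      have hd : ∀ z ∈ Icc (-1 : ℝ) 1, HasDerivWithinAt (F (m - 1)) (F m z) (Icc (-1) 1) z := by
        intro z hz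
        have := hF.der (m - 1) (by omega) z hz
        rwa [Nat.sub_add_cancel (by omega)] at this
      have hg : ∀ z ∈ Icc (-1 : ℝ) 1, HasDerivWithinAt
          (fun z => (F m x - σ * x ^ 2 / (2 * w) - σ * w / 2) * z + σ * x / w * (z ^ 2 / 2) + -σ / (2 * w) * (z ^ 3 / 3))
          ((F m x - σ * x ^ 2 / (2 * w) - σ * w / 2) + σ * x / w * z + -σ / (2 * w) * z ^ 2) (Icc (-1) 1) z := by
        intro z _
        have h1 := (((hasDerivAt_id z).const_mul (F m x - σ * x ^ 2 / (2 * w) - σ * w / 2)).add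
          ((((hasDerivAt_id z).pow 2).div_const 2).const_mul (σ * x / w))).add
          ((((hasDerivAt_id z).pow 3).div_const 3).const_mul (-σ / (2 * w)))
        refine (h1.congr_deriv ?_).hasDerivWithinAt
        simp only [id]
        push_cast
        ring
      have h := incr_le hd hg (by
        intro z hz
        have hl := hF.lip x hx z hz
        have h1 : F m x - F m z ≤ σ * |x - z| := (le_abs_self _).trans hl
        have h2 : |x - z| ≤ ((x - z) ^ 2 / w + w) / 2 := by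
          have h3 : 0 ≤ (|x - z| - w) ^ 2 / w := by positivity
          have h4 : (|x - z| - w) ^ 2 / w = (x - z) ^ 2 / w + w - 2 * |x - z| := by
            rw [sub_sq, sq_abs]
            field_simp
            ring
          rw [h4] at h3
          linarith only [h3]
        have h5 := mul_le_mul_of_nonneg_left h2 hσ
        have h6 : σ * (((x - z) ^ 2 / w + w) / 2) = σ * x ^ 2 / (2 * w) + σ * w / 2 - σ * x / w * z - -σ / (2 * w) * z ^ 2 := by
          field_simp
          ring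
        rw [h6] at h5
        linarith only [h1, h5]) hu hv huv.le
      have e : (F m x - σ * x ^ 2 / (2 * w) - σ * w / 2) * (v - u) + σ * x / w * ((v ^ 2 - u ^ 2) / 2)
          + -σ / (2 * w) * ((v ^ 3 - u ^ 3) / 3)
          = ((F m x - σ * x ^ 2 / (2 * w) - σ * w / 2) * v + σ * x / w * (v ^ 2 / 2) + -σ / (2 * w) * (v ^ 3 / 3))
          - ((F m x - σ * x ^ 2 / (2 * w) - σ * w / 2) * u + σ * x / w * (u ^ 2 / 2) + -σ / (2 * w) * (u ^ 3 / 3)) := by
        ring
      rw [e]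
      exact h)
  have hm1 : (0 : ℝ) < (m : ℝ) + 1 := by positivity
  have e2 : -σ / (2 * w) / (2 * ((m : ℝ) + 1)) = - (σ * (1 / (4 * w * ((m : ℝ) + 1)))) := by
    field_simp
    ring
  rw [e2] at hq
  have e3 : σ * (x ^ 2 / (2 * w) + w / 2 + 1 / (4 * w * ((m : ℝ) + 1)))
      = σ * x ^ 2 / (2 * w) + σ * w / 2 + σ * (1 / (4 * w * ((m : ℝ) + 1))) := by ring
  rw [e3]
  linarith only [hq]

theorem top_bd {m : ℕ} (hm : 2 ≤ m) {σ : ℝ} (hσ : 0 ≤ σ) {F : ℕ → ℝ → ℝ} (hF : InF m σ (-1) 1 F) {x : ℝ}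
    (hx : x ∈ Icc (-1 : ℝ) 1) {w : ℝ} (hw : 0 < w) :
    |F m x| ≤ 2 ^ (m - 1) * (m.factorial : ℝ) + σ * (x ^ 2 / (2 * w) + w / 2 + 1 / (4 * w * ((m : ℝ) + 1))) := by
  rw [abs_le]
  refine ⟨?_, top_up hm hσ hF hx hw⟩
  have h := top_up hm hσ hF.neg hx hw
  linarith only [h]

private theorem sub_up {m : ℕ} (hm : 3 ≤ m) {σ : ℝ} (_hσ : 0 ≤ σ) {F : ℕ → ℝ → ℝ} (hF : InF m σ (-1) 1 F) {x : ℝ}
    (hx : x ∈ Icc (-1 : ℝ) 1) (h0 : F m x = 0) :
    F (m - 1) x ≤ 2 ^ (m - 2) * ((m - 1).factorial : ℝ) + σ * (x ^ 2 / 2 + 1 / (4 * (m : ℝ))) := by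
  obtain ⟨p, rfl⟩ : ∃ p, m = p + 1 := ⟨m - 1, by omega⟩
  rw [show p + 1 - 1 = p by omega, show p + 1 - 2 = p - 1 by omega]
  have hd1 : ∀ z ∈ Icc (-1 : ℝ) 1, HasDerivWithinAt (F p) (F (p + 1) z) (Icc (-1) 1) z := fun z hz =>
    hF.der p (by omega) z hz
  have hd2 : ∀ z ∈ Icc (-1 : ℝ) 1, HasDerivWithinAt (F (p - 1)) (F p z) (Icc (-1) 1) z := by
    intro z hz
    have := hF.der (p - 1) (by omega) z hz
    rwa [Nat.sub_add_cancel (by omega)] at this
  -- the lower bound of `F p`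
  have hlow : ∀ z ∈ Icc (-1 : ℝ) 1, F p x - σ * (z - x) ^ 2 / 2 ≤ F p z := by
    intro z hz
    have hq1 : ∀ y : ℝ, HasDerivAt (fun y => σ * (y - x) ^ 2 / 2) (σ * (y - x)) y := by
      intro y
      have h1 := ((((hasDerivAt_id y).sub_const x).pow 2).const_mul σ).div_const 2
      refine h1.congr_deriv ?_
      simp only [id]
      push_cast
      ring
    rcases le_total x z with hxz | hzx
    · -- to the right of `x`
      have hsub : Icc x 1 ⊆ Icc (-1 : ℝ) 1 := Icc_subset_Icc hx.1 le_rfl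
      have h := incr_le (a := x) (b := 1) (f := F p) (f' := F (p + 1))
        (g := fun y => -(σ * (y - x) ^ 2 / 2)) (g' := fun y => -(σ * (y - x)))
        (fun y hy => (hd1 y (hsub hy)).mono hsub)
        (fun y hy => (hq1 y).neg.hasDerivWithinAt) (by
          intro y hy
          have hl := hF.lip x hx y (hsub hy)
          rw [h0, zero_sub, abs_neg] at hl
          have h2 : |x - y| = y - x := by rw [abs_sub_comm, abs_of_nonneg (by linarith only [hy.1])]
          rw [h2] at hl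
          exact neg_le_of_abs_le hl) (x := x) (y := z) ⟨le_rfl, hx.2⟩ ⟨hxz, hz.2⟩ hxz
      simp only [sub_self] at h
      nlinarith only [h]
    · have hsub : Icc (-1 : ℝ) x ⊆ Icc (-1 : ℝ) 1 := Icc_subset_Icc le_rfl hx.2
      have h := incr_le (a := -1) (b := x) (f := fun y => -(σ * (y - x) ^ 2 / 2)) (f' := fun y => -(σ * (y - x)))
        (g := F p) (g' := F (p + 1))
        (fun y hy => (hq1 y).neg.hasDerivWithinAt)
        (fun y hy => (hd1 y (hsub hy)).mono hsub) (by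
          intro y hy
          have hl := hF.lip x hx y (hsub hy)
          rw [h0, zero_sub, abs_neg] at hl
          have h2 : |x - y| = x - y := abs_of_nonneg (by linarith only [hy.2])
          rw [h2] at hl
          have h3 := (le_abs_self _).trans hl
          linarith only [h3]) (x := z) (y := x) ⟨hz.1, hzx⟩ ⟨hx.1, le_rfl⟩ hzx
      simp only [sub_self] at h
      nlinarith only [h]
  have hq := quad (p := p) (by omega) (F := F) (hF.der.mono (by omega)) hF.bd
    (α := -σ / 2) (β := σ * x) (γ := F p x - σ * x ^ 2 / 2) (by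
      intro u hu v hv huv
      have hg : ∀ z ∈ Icc (-1 : ℝ) 1, HasDerivWithinAt
          (fun z => (F p x - σ * x ^ 2 / 2) * z + σ * x * (z ^ 2 / 2) + -σ / 2 * (z ^ 3 / 3))
          ((F p x - σ * x ^ 2 / 2) + σ * x * z + -σ / 2 * z ^ 2) (Icc (-1) 1) z := by
        intro z _
        have h1 := (((hasDerivAt_id z).const_mul (F p x - σ * x ^ 2 / 2)).add
          ((((hasDerivAt_id z).pow 2).div_const 2).const_mul (σ * x))).add
          ((((hasDerivAt_id z).pow 3).div_const 3).const_mul (-σ / 2))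
        refine (h1.congr_deriv ?_).hasDerivWithinAt
        simp only [id]
        push_cast
        ring
      have h := incr_le hd2 hg (by
        intro z hz
        have h1 := hlow z hz
        have h2 : F p x - σ * (z - x) ^ 2 / 2 = F p x - σ * x ^ 2 / 2 + σ * x * z + -σ / 2 * z ^ 2 := by ring
        rw [← h2]
        exact h1) hu hv huv.le
      have e : (F p x - σ * x ^ 2 / 2) * (v - u) + σ * x * ((v ^ 2 - u ^ 2) / 2)
          + -σ / 2 * ((v ^ 3 - u ^ 3) / 3)
          = ((F p x - σ * x ^ 2 / 2) * v + σ * x * (v ^ 2 / 2) + -σ / 2 * (v ^ 3 / 3))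
          - ((F p x - σ * x ^ 2 / 2) * u + σ * x * (u ^ 2 / 2) + -σ / 2 * (u ^ 3 / 3)) := by
        ring
      rw [e]
      exact h)
  have e2 : -σ / 2 / (2 * ((p : ℝ) + 1)) = - (σ * (1 / (4 * ((p : ℝ) + 1)))) := by
    have hm1 : (0 : ℝ) < (p : ℝ) + 1 := by positivity
    field_simp
    ring
  rw [e2] at hq
  push_cast
  have e3 : σ * (x ^ 2 / 2 + 1 / (4 * ((p : ℝ) + 1))) = σ * x ^ 2 / 2 + σ * (1 / (4 * ((p : ℝ) + 1))) := by ring
  rw [e3]
  linarith only [hq]

theorem sub_bd {m : ℕ} (hm : 3 ≤ m) {σ : ℝ} (hσ : 0 ≤ σ) {F : ℕ → ℝ → ℝ} (hF : InF m σ (-1) 1 F) {x : ℝ}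
    (hx : x ∈ Icc (-1 : ℝ) 1) (h0 : F m x = 0) :
    |F (m - 1) x| ≤ 2 ^ (m - 2) * ((m - 1).factorial : ℝ) + σ * (x ^ 2 / 2 + 1 / (4 * (m : ℝ))) := by
  rw [abs_le]
  refine ⟨?_, sub_up hm hσ hF hx h0⟩
  have h := sub_up hm hσ hF.neg hx (by simp only [h0, neg_zero])
  linarith only [h]

end Pool.LK2
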