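import Pool.Agent.LK2.S1NumB

/-!
# LK2/S1Small: `S1c m k` for all `6 ≤ k`, `k + 2 ≤ m ≤ 17`

`s1_of_num` with `S = Sp m k` and a rational `X`, `X² ≥ 1 - Sp (m+1) k`; quotient of the two sides of `hnum` at most `0.83`.
-/

open Set
open Pool.LK1 (TJ InF)

namespace Pool.LK2

theorem s1_8_6 : S1c 8 6 := by
  refine s1_of_num 8 6 (by norm_num) (by norm_num) 1 (1/4) (by norm_num) (by norm_num)
      (by norm_num [Sp]) (by norm_num [Sp]) ?_
  norm_num [Pi2, dfo, Finset.prod_range_succ]

theorem s1_13_6 : S1c 13 6 := by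
  refine s1_of_num 13 6 (by norm_num) (by norm_num) (8/15) (37/50) (by norm_num) (by norm_num)
      (by norm_num [Sp]) (by norm_num [Sp]) ?_
  norm_num [Pi2, dfo, Finset.prod_range_succ]

theorem s1_14_6 : S1c 14 6 := by
  refine s1_of_num 14 6 (by norm_num) (by norm_num) (305/657) (39/50) (by norm_num) (by norm_num)
      (by norm_num [Sp]) (by norm_num [Sp]) ?_
  norm_num [Pi2, dfo, Finset.prod_range_succ]

theorem s1_15_6 : S1c 15 6 := by
  refine s1_of_num 15 6 (by norm_num) (by norm_num) (1545/3799) (81/100) (by norm_num) (by norm_num)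
      (by norm_num [Sp]) (by norm_num [Sp]) ?_
  norm_num [Pi2, dfo, Finset.prod_range_succ]

theorem s1_16_6 : S1c 16 6 := by
  refine s1_of_num 16 6 (by norm_num) (by norm_num) (1145/3193) (83/100) (by norm_num) (by norm_num)
      (by norm_num [Sp]) (by norm_num [Sp]) ?_
  norm_num [Pi2, dfo, Finset.prod_range_succ]

theorem s1_17_6 : S1c 17 6 := by
  refine s1_of_num 17 6 (by norm_num) (by norm_num) (7/22) (17/20) (by norm_num) (by norm_num)
      (by norm_num [Sp]) (by norm_num [Sp]) ?_
  norm_num [Pi2, dfo, Finset.prod_range_succ]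

theorem s1_9_7 : S1c 9 7 := by
  refine s1_of_num 9 7 (by norm_num) (by norm_num) 1 (6/25) (by norm_num) (by norm_num)
      (by norm_num [Sp]) (by norm_num [Sp]) ?_
  norm_num [Pi2, dfo, Finset.prod_range_succ]

theorem s1_13_7 : S1c 13 7 := by
  refine s1_of_num 13 7 (by norm_num) (by norm_num) (2567/3975) (33/50) (by norm_num) (by norm_num)
      (by norm_num [Sp]) (by norm_num [Sp]) ?_
  norm_num [Pi2, dfo, Finset.prod_range_succ]

theorem s1_14_7 : S1c 14 7 := by
  refine s1_of_num 14 7 (by norm_num) (by norm_num) (748/1323) (71/100) (by norm_num) (by norm_num)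
      (by norm_num [Sp]) (by norm_num [Sp]) ?_
  norm_num [Pi2, dfo, Finset.prod_range_succ]

theorem s1_15_7 : S1c 15 7 := by
  refine s1_of_num 15 7 (by norm_num) (by norm_num) (1139/2291) (3/4) (by norm_num) (by norm_num)
      (by norm_num [Sp]) (by norm_num [Sp]) ?_
  norm_num [Pi2, dfo, Finset.prod_range_succ]

theorem s1_16_7 : S1c 16 7 := by
  refine s1_of_num 16 7 (by norm_num) (by norm_num) (1921/4371) (79/100) (by norm_num) (by norm_num)
      (by norm_num [Sp]) (by norm_num [Sp]) ?_
  norm_num [Pi2, dfo, Finset.prod_range_succ]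

theorem s1_17_7 : S1c 17 7 := by
  refine s1_of_num 17 7 (by norm_num) (by norm_num) (4267/10923) (81/100) (by norm_num) (by norm_num)
      (by norm_num [Sp]) (by norm_num [Sp]) ?_
  norm_num [Pi2, dfo, Finset.prod_range_succ]

theorem s1_10_8 : S1c 10 8 := by
  refine s1_of_num 10 8 (by norm_num) (by norm_num) 1 (23/100) (by norm_num) (by norm_num)
      (by norm_num [Sp]) (by norm_num [Sp]) ?_
  norm_num [Pi2, dfo, Finset.prod_range_succ]

theorem s1_14_8 : S1c 14 8 := by
  refine s1_of_num 14 8 (by norm_num) (by norm_num) (1045/1557) (16/25) (by norm_num) (by norm_num)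
      (by norm_num [Sp]) (by norm_num [Sp]) ?_
  norm_num [Pi2, dfo, Finset.prod_range_succ]

theorem s1_15_8 : S1c 15 8 := by
  refine s1_of_num 15 8 (by norm_num) (by norm_num) (912/1537) (69/100) (by norm_num) (by norm_num)
      (by norm_num [Sp]) (by norm_num [Sp]) ?_
  norm_num [Pi2, dfo, Finset.prod_range_succ]

theorem s1_16_8 : S1c 16 8 := by
  refine s1_of_num 16 8 (by norm_num) (by norm_num) (1387/2635) (73/100) (by norm_num) (by norm_num)
      (by norm_num [Sp]) (by norm_num [Sp]) ?_
  norm_num [Pi2, dfo, Finset.prod_range_succ]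

theorem s1_17_8 : S1c 17 8 := by
  refine s1_of_num 17 8 (by norm_num) (by norm_num) (779/1661) (77/100) (by norm_num) (by norm_num)
      (by norm_num [Sp]) (by norm_num [Sp]) ?_
  norm_num [Pi2, dfo, Finset.prod_range_succ]

theorem s1_11_9 : S1c 11 9 := by
  refine s1_of_num 11 9 (by norm_num) (by norm_num) 1 (11/50) (by norm_num) (by norm_num)
      (by norm_num [Sp]) (by norm_num [Sp]) ?_
  norm_num [Pi2, dfo, Finset.prod_range_succ]

theorem s1_15_9 : S1c 15 9 := by
  refine s1_of_num 15 9 (by norm_num) (by norm_num) (3759/5423) (31/50) (by norm_num) (by norm_num)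
      (by norm_num [Sp]) (by norm_num [Sp]) ?_
  norm_num [Pi2, dfo, Finset.prod_range_succ]

theorem s1_16_9 : S1c 16 9 := by
  refine s1_of_num 16 9 (by norm_num) (by norm_num) (364/589) (67/100) (by norm_num) (by norm_num)
      (by norm_num [Sp]) (by norm_num [Sp]) ?_
  norm_num [Pi2, dfo, Finset.prod_range_succ]

theorem s1_17_9 : S1c 17 9 := by
  refine s1_of_num 17 9 (by norm_num) (by norm_num) (79/143) (18/25) (by norm_num) (by norm_num)
      (by norm_num [Sp]) (by norm_num [Sp]) ?_
  norm_num [Pi2, dfo, Finset.prod_range_succ]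

theorem s1_12_10 : S1c 12 10 := by
  refine s1_of_num 12 10 (by norm_num) (by norm_num) 1 (21/100) (by norm_num) (by norm_num)
      (by norm_num [Sp]) (by norm_num [Sp]) ?_
  norm_num [Pi2, dfo, Finset.prod_range_succ]

theorem s1_16_10 : S1c 16 10 := by
  refine s1_of_num 16 10 (by norm_num) (by norm_num) (4439/6231) (61/100) (by norm_num) (by norm_num)
      (by norm_num [Sp]) (by norm_num [Sp]) ?_
  norm_num [Pi2, dfo, Finset.prod_range_succ]

theorem s1_17_10 : S1c 17 10 := by
  refine s1_of_num 17 10 (by norm_num) (by norm_num) (1288/2013) (33/50) (by norm_num) (by norm_num)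
      (by norm_num [Sp]) (by norm_num [Sp]) ?_
  norm_num [Pi2, dfo, Finset.prod_range_succ]

theorem s1_13_11 : S1c 13 11 := by
  refine s1_of_num 13 11 (by norm_num) (by norm_num) 1 (1/5) (by norm_num) (by norm_num)
      (by norm_num [Sp]) (by norm_num [Sp]) ?_
  norm_num [Pi2, dfo, Finset.prod_range_succ]

theorem s1_16_11 : S1c 16 11 := by
  refine s1_of_num 16 11 (by norm_num) (by norm_num) (25/31) (53/100) (by norm_num) (by norm_num)
      (by norm_num [Sp]) (by norm_num [Sp]) ?_
  norm_num [Pi2, dfo, Finset.prod_range_succ]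

theorem s1_17_11 : S1c 17 11 := by
  refine s1_of_num 17 11 (by norm_num) (by norm_num) (345/473) (59/100) (by norm_num) (by norm_num)
      (by norm_num [Sp]) (by norm_num [Sp]) ?_
  norm_num [Pi2, dfo, Finset.prod_range_succ]

theorem s1_14_12 : S1c 14 12 := by
  refine s1_of_num 14 12 (by norm_num) (by norm_num) 1 (19/100) (by norm_num) (by norm_num)
      (by norm_num [Sp]) (by norm_num [Sp]) ?_
  norm_num [Pi2, dfo, Finset.prod_range_succ]

theorem s1_17_12 : S1c 17 12 := by
  refine s1_of_num 17 12 (by norm_num) (by norm_num) (9/11) (51/100) (by norm_num) (by norm_num)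
      (by norm_num [Sp]) (by norm_num [Sp]) ?_
  norm_num [Pi2, dfo, Finset.prod_range_succ]

theorem s1_15_13 : S1c 15 13 := by
  refine s1_of_num 15 13 (by norm_num) (by norm_num) 1 (19/100) (by norm_num) (by norm_num)
      (by norm_num [Sp]) (by norm_num [Sp]) ?_
  norm_num [Pi2, dfo, Finset.prod_range_succ]

theorem s1_16_14 : S1c 16 14 := by
  refine s1_of_num 16 14 (by norm_num) (by norm_num) 1 (9/50) (by norm_num) (by norm_num)
      (by norm_num [Sp]) (by norm_num [Sp]) ?_
  norm_num [Pi2, dfo, Finset.prod_range_succ]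

theorem s1_17_15 : S1c 17 15 := by
  refine s1_of_num 17 15 (by norm_num) (by norm_num) 1 (9/50) (by norm_num) (by norm_num)
      (by norm_num [Sp]) (by norm_num [Sp]) ?_
  norm_num [Pi2, dfo, Finset.prod_range_succ]

theorem s1_small (m k : ℕ) (hk : 6 ≤ k) (hkm : k + 2 ≤ m) (hm : m ≤ 17) : S1c m k := by
  have hk15 : k ≤ 15 := by omega
  interval_cases k
  · interval_cases m
    · exact s1_8_6
    · exact s1_p4 6 (by norm_num) (by norm_num)
    · exact s1_p5 6 (by norm_num) (by norm_num)
    · exact s1_p6 6 (by norm_num) (by norm_num)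
    · exact s1_12_6
    · exact s1_13_6
    · exact s1_14_6
    · exact s1_15_6
    · exact s1_16_6
    · exact s1_17_6
  · interval_cases m
    · exact s1_9_7
    · exact s1_p4 7 (by norm_num) (by norm_num)
    · exact s1_p5 7 (by norm_num) (by norm_num)
    · exact s1_p6 7 (by norm_num) (by norm_num)
    · exact s1_13_7
    · exact s1_14_7
    · exact s1_15_7
    · exact s1_16_7
    · exact s1_17_7
  · interval_cases m
    · exact s1_10_8
    · exact s1_p4 8 (by norm_num) (by norm_num)
    · exact s1_p5 8 (by norm_num) (by norm_num)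
    · exact s1_p6 8 (by norm_num) (by norm_num)
    · exact s1_14_8
    · exact s1_15_8
    · exact s1_16_8
    · exact s1_17_8
  · interval_cases m
    · exact s1_11_9
    · exact s1_p4 9 (by norm_num) (by norm_num)
    · exact s1_p5 9 (by norm_num) (by norm_num)
    · exact s1_p6 9 (by norm_num) (by norm_num)
    · exact s1_15_9
    · exact s1_16_9
    · exact s1_17_9
  · interval_cases m
    · exact s1_12_10
    · exact s1_p4 10 (by norm_num) (by norm_num)
    · exact s1_p5 10 (by norm_num) (by norm_num)
    · exact s1_p6 10 (by norm_num) (by norm_num)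
    · exact s1_16_10
    · exact s1_17_10
  · interval_cases m
    · exact s1_13_11
    · exact s1_p4 11 (by norm_num) (by norm_num)
    · exact s1_p5 11 (by norm_num) (by norm_num)
    · exact s1_16_11
    · exact s1_17_11
  · interval_cases m
    · exact s1_14_12
    · exact s1_p4 12 (by norm_num) (by norm_num)
    · exact s1_p5 12 (by norm_num) (by norm_num)
    · exact s1_17_12
  · interval_cases m
    · exact s1_15_13
    · exact s1_p4 13 (by norm_num) (by norm_num)
    · exact s1_p5 13 (by norm_num) (by norm_num)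
  · interval_cases m
    · exact s1_16_14
    · exact s1_p4 14 (by norm_num) (by norm_num)
  · interval_cases m
    · exact s1_17_15

end Pool.LK2
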