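import Pool.Agent.KFL.Basic
import Pool.Agent.LKI.A3

/-!
# LK2/TwoK: a lower bound of `E_{n-1}(L)` from a spline with two knots

`2 ρ^n = 1` (so `1/2 < ρ < 1`), `ξ > 0`, `ξ^n (1/ρ - 1)(1 - 1/n)^(n-1) ≤ 2 n!`.  Then `ξ (2ρ - 1) ≤ E_{n-1}(L)` for every `L > 0`.

PROOF.  `f(t) = 1 - pw n (ξ - t) + 2 pw n (ρξ - t)` (`pw l x = x_+^l/l!` of `LKI/Defs`), derivatives
`f_j(t) = [j = 0] + (-1)^j (2 pw (n-j) (ρξ - t) - pw (n-j) (ξ - t))` for `j < n` (`pw_hasDeriv`, exponents `n - j ≥ 2` for `j + 1 < n`).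
* Lipschitz: `f_{n-1}(t) = ± (2 (ρξ-t)_+ - (ξ-t)_+)` is piecewise affine with slopes `∓1, ±1, 0` on `[.., ρξ], [ρξ, ξ], [ξ, ..]`: `1`-Lipschitz
  (`pw 1 x = max x 0`; cases; e.g. `2 max(a - t, 0) - max(b - t, 0)` with `a < b`).
* `f ≤ 1` for `t ≥ 0`: `2 (ρξ - t)_+^n ≤ (ξ - t)_+^n`: for `t < ρξ` we have `ρξ - t ≤ ρ (ξ - t)` (as `ρ ≤ 1`, `t ≥ 0`), so `2 (ρξ-t)^n ≤ 2 ρ^n (ξ-t)^n = (ξ-t)^n`.
* `f ≥ -1`: `(ξ-t)_+^n - 2 (ρξ-t)_+^n ≤ 2 n!` for `t ≥ 0`.  Put `v = (ξ-t)/ξ ∈ [0,1]` (for `t ≤ ξ`), `e = 1/ρ - 1 > 0`.  `(ρξ - t)/ξ = v - (1-ρ) =: v'`;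
  `2 v'^n = (v'/ρ)^n`, `v'/ρ = (v - 1 + ρ)/ρ = v - e(1-v)` (`(v-1+ρ)/ρ = 1 - (1-v)/ρ = v - (1-v)(1/ρ - 1)`).
  So the quantity is `ξ^n (v^n - (max(v - e(1-v), 0))^n)`; with `u = max(v - e(1-v), 0)`, `0 ≤ u ≤ v`, `v - u ≤ e(1-v)`:
  `v^n - u^n ≤ n v^(n-1) (v-u) ≤ n e (1-v) v^(n-1)` (`v^n - u^n = (v-u) ∑ v^i u^(n-1-i)`), and `n (1-v) v^(n-1) ≤ (1-1/n)^(n-1)`
  (for `v = 0` clear (`n ≥ 3`); for `v > 0`: with `a = 1 - 1/n`, Bernoulli
  `(a/v)^n ≥ 1 + n(a/v - 1)` gives `a^n ≥ v^(n-1)(v + n(a - v)) = v^(n-1) (n-1) (1 - v)`, and `a^n = a^(n-1)(n-1)/n`).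
  Hence the quantity is `≤ ξ^n e (1-1/n)^(n-1) ≤ 2 n!`.
* `f_{n-1}(0) = (-1)^(n-1) (2ρξ - ξ)`; `le_Ee` (`InW n (Icc 0 L) f`), `2ρ - 1 > 0`.
-/

open Set
open Pool.Agent.LKI (InW IsJet pw)
open Pool.Agent.KFL

namespace Pool.LK2

private theorem TwoK_pw (l : ℕ) (hl : 1 ≤ l) (x : ℝ) : pw l x = (max x 0) ^ l / (l.factorial : ℝ) := by
  unfold pw
  rcases le_or_gt x 0 with hx | hx
  · rw [if_neg (not_lt.2 hx), max_eq_right hx, zero_pow (by omega), zero_div]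
  · rw [if_pos hx, max_eq_left hx.le]

private theorem TwoK_lip (a b s t : ℝ) (hab : a ≤ b) :
    |(2 * max (a - s) 0 - max (b - s) 0) - (2 * max (a - t) 0 - max (b - t) 0)| ≤ |s - t| := by
  rcases le_total s t with h | h
  · rw [abs_of_nonpos (sub_nonpos.2 h), abs_le]
    constructor <;> simp only [max_def] <;> split_ifs <;> linarith
  · rw [abs_of_nonneg (sub_nonneg.2 h), abs_le]
    constructor <;> simp only [max_def] <;> split_ifs <;> linarith

/-- Bernoulli in the form `v^n + n v^(n-1) (u - v) ≤ u^n` -/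
private theorem TwoK_bern {n : ℕ} (hn : 1 ≤ n) {u v : ℝ} (hu : 0 ≤ u) (hv : 0 < v) :
    v ^ n + n * v ^ (n - 1) * (u - v) ≤ u ^ n := by
  have h1 : (-2 : ℝ) ≤ u / v - 1 := by
    have : 0 ≤ u / v := div_nonneg hu hv.le
    linarith
  have h2 := one_add_mul_le_pow h1 n
  have h3 : 1 + (u / v - 1) = u / v := by ring
  rw [h3, div_pow] at h2
  have h4 := mul_le_mul_of_nonneg_right h2 (pow_pos hv n).le
  rw [div_mul_cancel₀ _ (pow_pos hv n).ne'] at h4
  have h5 : (1 + (n : ℝ) * (u / v - 1)) * v ^ n = v ^ n + n * v ^ (n - 1) * (u - v) := by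
    have h6 : v ^ n = v ^ (n - 1) * v := by
      rw [← pow_succ]; congr 1; omega
    rw [h6]
    field_simp
  rw [h5] at h4
  exact h4

private theorem TwoK_num {n : ℕ} (hn : 3 ≤ n) {u v e : ℝ} (hu : 0 ≤ u) (hv : 0 ≤ v)
    (he : 0 ≤ e) (hvu : v - u ≤ e * (1 - v)) :
    v ^ n - u ^ n ≤ e * (1 - 1 / (n : ℝ)) ^ (n - 1) := by
  have hn0 : (0 : ℝ) < n := by exact_mod_cast (by omega : 0 < n)
  have hn1 : (1 : ℝ) ≤ n := by exact_mod_cast (by omega : 1 ≤ n)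
  have ha0 : 0 ≤ 1 - 1 / (n : ℝ) := by
    rw [sub_nonneg, div_le_one hn0]
    exact hn1
  rcases hv.eq_or_lt with h0 | h0
  · rw [← h0, zero_pow (by omega)]
    have h1 : 0 ≤ u ^ n := pow_nonneg hu n
    have h2 : 0 ≤ e * (1 - 1 / (n : ℝ)) ^ (n - 1) := mul_nonneg he (pow_nonneg ha0 _)
    linarith
  · have h1 := TwoK_bern (n := n) (by omega) hu h0
    have h2 := TwoK_bern (n := n) (by omega) ha0 h0
    have hvn : 0 ≤ v ^ (n - 1) := pow_nonneg hv _
    have h3 : (n : ℝ) * v ^ (n - 1) * (v - u) ≤ n * v ^ (n - 1) * (e * (1 - v)) :=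
      mul_le_mul_of_nonneg_left hvu (mul_nonneg hn0.le hvn)
    have h4 : v ^ n = v ^ (n - 1) * v := by
      rw [← pow_succ]; congr 1; omega
    have h5 : (1 - 1 / (n : ℝ)) ^ n = (1 - 1 / (n : ℝ)) ^ (n - 1) * (1 - 1 / (n : ℝ)) := by
      rw [← pow_succ]; congr 1; omega
    have h6 : (n : ℝ) * v ^ (n - 1) * (1 - v) ≤ (1 - 1 / (n : ℝ)) ^ (n - 1) := by
      have h7 : ((n : ℝ) - 1) * (v ^ (n - 1) * (1 - v)) ≤ (1 - 1 / (n : ℝ)) ^ n := by
        refine le_trans (le_of_eq ?_) h2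
        rw [h4]
        have : (n : ℝ) * v ^ (n - 1) * (1 - 1 / (n : ℝ) - v) =
            v ^ (n - 1) * (n * (1 - 1 / (n : ℝ)) - n * v) := by ring
        rw [this]
        have h8 : (n : ℝ) * (1 - 1 / (n : ℝ)) = n - 1 := by field_simp
        rw [h8]
        ring
      rw [h5] at h7
      have h9 : (1 - 1 / (n : ℝ)) = (n - 1) / n := by field_simp
      have hn2 : (0 : ℝ) < (n : ℝ) - 1 := by
        have : (3 : ℝ) ≤ n := by exact_mod_cast hn
        linarith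
      have h10 : ((n : ℝ) - 1) * ((n : ℝ) * v ^ (n - 1) * (1 - v)) ≤
          ((n : ℝ) - 1) * (1 - 1 / (n : ℝ)) ^ (n - 1) := by
        have h11 := mul_le_mul_of_nonneg_left h7 hn0.le
        have h12 : (n : ℝ) * ((1 - 1 / (n : ℝ)) ^ (n - 1) * (1 - 1 / (n : ℝ))) =
            ((n : ℝ) - 1) * (1 - 1 / (n : ℝ)) ^ (n - 1) := by
          have h13 : (n : ℝ) * (1 - 1 / (n : ℝ)) = n - 1 := by field_simp
          rw [← h13]; ring
        rw [h12] at h11
        linarith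
      exact le_of_mul_le_mul_left h10 hn2
    calc v ^ n - u ^ n ≤ n * v ^ (n - 1) * (v - u) := by linarith
      _ ≤ n * v ^ (n - 1) * (e * (1 - v)) := h3
      _ = e * ((n : ℝ) * v ^ (n - 1) * (1 - v)) := by ring
      _ ≤ e * (1 - 1 / (n : ℝ)) ^ (n - 1) := mul_le_mul_of_nonneg_left h6 he

/-- the spline with the knots `ρ ξ` and `ξ` -/
private noncomputable def TwoK_F (n : ℕ) (ρ ξ : ℝ) (j : ℕ) (t : ℝ) : ℝ :=
  (if j = 0 then 1 else 0) + (-1) ^ j * (2 * pw (n - j) (ρ * ξ - t) - pw (n - j) (ξ - t))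

private theorem TwoK_hasDeriv (n : ℕ) (ρ ξ : ℝ) {j : ℕ} (hj : j + 1 < n) (t : ℝ) :
    HasDerivAt (TwoK_F n ρ ξ j) (TwoK_F n ρ ξ (j + 1) t) t := by
  obtain ⟨l, hl⟩ : ∃ l, n - j = l + 1 := ⟨n - j - 1, by omega⟩
  have hl1 : 1 ≤ l := by omega
  have hl2 : n - (j + 1) = l := by omega
  have h1 : ∀ c : ℝ, HasDerivAt (fun t : ℝ => pw (l + 1) (c - t)) (-(pw l (c - t))) t := by
    intro c
    have h2 := (Pool.Agent.LKI.pw_hasDeriv l hl1 (c - t)).comp t ((hasDerivAt_id t).const_sub c)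
    simpa [Function.comp_def] using h2
  unfold TwoK_F
  rw [hl, hl2, if_neg (Nat.succ_ne_zero j)]
  have h2 := (((h1 (ρ * ξ)).const_mul 2).sub (h1 ξ)).const_mul ((-1 : ℝ) ^ j)
  have h3 := h2.const_add (if j = 0 then (1 : ℝ) else 0)
  refine h3.congr_deriv ?_
  rw [pow_succ]
  ring

theorem two_knot {n : ℕ} (hn : 3 ≤ n) {L : ℝ} (hL : 0 < L) {ρ ξ : ℝ} (hρ : 0 < ρ) (hρn : 2 * ρ ^ n = 1) (hξ : 0 < ξ)
    (hb : ξ ^ n * ((1 / ρ - 1) * (1 - 1 / (n : ℝ)) ^ (n - 1)) ≤ 2 * (n.factorial : ℝ)) :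
    ξ * (2 * ρ - 1) ≤ Ee n L (n - 1) := by
  have hρ1 : ρ ≤ 1 := by
    by_contra hcon
    rw [not_le] at hcon
    have h1 : 1 ≤ ρ ^ n := one_le_pow₀ hcon.le
    linarith
  have hn1 : 1 ≤ n := by omega
  have hfac : (0 : ℝ) < (n.factorial : ℝ) := by exact_mod_cast n.factorial_pos
  have htop : ∀ t, TwoK_F n ρ ξ (n - 1) t =
      (-1) ^ (n - 1) * (2 * max (ρ * ξ - t) 0 - max (ξ - t) 0) := by
    intro t
    unfold TwoK_F
    have h1 : n - (n - 1) = 1 := by omega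
    rw [if_neg (by omega), h1, TwoK_pw 1 le_rfl, TwoK_pw 1 le_rfl]
    simp
  have hW : InW n (Icc 0 L) (TwoK_F n ρ ξ) := by
    refine ⟨⟨?_, ?_⟩, ?_⟩
    · intro j hj t _
      exact (TwoK_hasDeriv n ρ ξ hj t).hasDerivWithinAt
    · intro s _ t _
      rw [htop, htop, ← mul_sub, abs_mul, abs_pow, abs_neg, abs_one, one_pow, one_mul, one_mul]
      exact TwoK_lip (ρ * ξ) ξ s t (by nlinarith)
    · intro t ht
      have ht0 : 0 ≤ t := ht.1
      have h0 : TwoK_F n ρ ξ 0 t = 1 + (2 * ((max (ρ * ξ - t) 0) ^ n / (n.factorial : ℝ)) -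
          (max (ξ - t) 0) ^ n / (n.factorial : ℝ)) := by
        unfold TwoK_F
        rw [if_pos rfl, pow_zero, one_mul, Nat.sub_zero, TwoK_pw n hn1, TwoK_pw n hn1]
      obtain ⟨A, hA⟩ : ∃ A, A = max (ρ * ξ - t) 0 := ⟨_, rfl⟩
      obtain ⟨B, hB⟩ : ∃ B, B = max (ξ - t) 0 := ⟨_, rfl⟩
      have hA0 : 0 ≤ A := by rw [hA]; exact le_max_right _ _
      have hB0 : 0 ≤ B := by rw [hB]; exact le_max_right _ _
      rw [h0, ← hA, ← hB]
      have hAB : A ≤ ρ * B := by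
        rw [hA]
        refine max_le ?_ (mul_nonneg hρ.le hB0)
        have h1 : ξ - t ≤ B := by rw [hB]; exact le_max_left _ _
        have h2 := mul_le_mul_of_nonneg_left h1 hρ.le
        have h3 := mul_le_mul_of_nonneg_right hρ1 ht0
        nlinarith
      have hup : 2 * A ^ n ≤ B ^ n := by
        have h1 := pow_le_pow_left₀ hA0 hAB n
        rw [mul_pow] at h1
        calc 2 * A ^ n ≤ 2 * (ρ ^ n * B ^ n) := by linarith
          _ = (2 * ρ ^ n) * B ^ n := by ring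
          _ = B ^ n := by rw [hρn, one_mul]
      have hlow : B ^ n - 2 * A ^ n ≤ 2 * (n.factorial : ℝ) := by
        rcases le_or_gt ξ t with hξt | hξt
        · have h1 : B = 0 := by rw [hB]; exact max_eq_right (by linarith)
          rw [h1, zero_pow (by omega)]
          have h2 : 0 ≤ A ^ n := pow_nonneg hA0 n
          linarith
        · have hBe : B = ξ - t := by rw [hB]; exact max_eq_left (by linarith)
          obtain ⟨v, hv⟩ : ∃ v, v = B / ξ := ⟨_, rfl⟩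
          obtain ⟨u, hu⟩ : ∃ u, u = A / (ρ * ξ) := ⟨_, rfl⟩
          have hρξ : 0 < ρ * ξ := mul_pos hρ hξ
          have hv0 : 0 ≤ v := by rw [hv]; exact div_nonneg hB0 hξ.le
          have hu0 : 0 ≤ u := by rw [hu]; exact div_nonneg hA0 hρξ.le
          have hv1 : v ≤ 1 := by
            rw [hv, div_le_one hξ, hBe]
            linarith
          have he : 0 ≤ 1 / ρ - 1 := by
            rw [sub_nonneg, le_div_iff₀ hρ, one_mul]
            exact hρ1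
          have hBv : B = v * ξ := by rw [hv, div_mul_cancel₀ _ hξ.ne']
          have hAu : A = u * (ρ * ξ) := by rw [hu, div_mul_cancel₀ _ hρξ.ne']
          have htv : t = (1 - v) * ξ := by
            have : v * ξ = ξ - t := by rw [← hBv, hBe]
            linarith
          have hvu : v - u ≤ (1 / ρ - 1) * (1 - v) := by
            have h1 : ρ * ξ - t ≤ A := by rw [hA]; exact le_max_left _ _
            rw [hAu, htv] at h1
            have h2 : ρ - (1 - v) ≤ u * ρ := by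
              have h3 : (ρ - (1 - v)) * ξ ≤ (u * ρ) * ξ := by linarith
              exact le_of_mul_le_mul_right h3 hξ
            have h4 : (v - u) * ρ ≤ ((1 / ρ - 1) * (1 - v)) * ρ := by
              have h5 : ((1 / ρ - 1) * (1 - v)) * ρ = (1 - ρ) * (1 - v) := by
                field_simp
              rw [h5]
              nlinarith
            exact le_of_mul_le_mul_right h4 hρ
          have h1 := TwoK_num hn hu0 hv0 he hvu
          have h2 := mul_le_mul_of_nonneg_left h1 (pow_pos hξ n).le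
          have h3 : B ^ n - 2 * A ^ n = ξ ^ n * (v ^ n - u ^ n) := by
            rw [hBv, hAu, mul_pow, mul_pow, mul_pow]
            calc v ^ n * ξ ^ n - 2 * (u ^ n * (ρ ^ n * ξ ^ n))
                = v ^ n * ξ ^ n - (2 * ρ ^ n) * (u ^ n * ξ ^ n) := by ring
              _ = ξ ^ n * (v ^ n - u ^ n) := by rw [hρn]; ring
          rw [h3]
          exact h2.trans hb
      rw [abs_le]
      constructor
      · have h1 : (B ^ n - 2 * A ^ n) / (n.factorial : ℝ) ≤ 2 := by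
          rw [div_le_iff₀ hfac]
          exact hlow
        have h2 : 1 + (2 * (A ^ n / (n.factorial : ℝ)) - B ^ n / (n.factorial : ℝ)) =
            1 - (B ^ n - 2 * A ^ n) / (n.factorial : ℝ) := by ring
        rw [h2]
        linarith
      · have h1 : 0 ≤ (B ^ n - 2 * A ^ n) / (n.factorial : ℝ) :=
          div_nonneg (by linarith) hfac.le
        have h2 : 1 + (2 * (A ^ n / (n.factorial : ℝ)) - B ^ n / (n.factorial : ℝ)) =
            1 - (B ^ n - 2 * A ^ n) / (n.factorial : ℝ) := by ring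
        rw [h2]
        linarith
  have h1 := le_Ee (by omega : 2 ≤ n) hL hW (j := n - 1) (by omega)
  refine le_trans ?_ h1
  rw [htop, abs_mul, abs_pow, abs_neg, abs_one, one_pow, one_mul, sub_zero, sub_zero,
    max_eq_left (mul_pos hρ hξ).le, max_eq_left hξ.le]
  refine le_trans (le_of_eq ?_) (le_abs_self _)
  ring

end Pool.LK2
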